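import Pool.Agent.Lib.MP_2194ec_nt.FN.Iface

set_option autoImplicit false

/-!
# AUT: conjugates and pigeonhole
-/

namespace Pool.DynLehmer.FN

namespace AutAux

/-- The extension of `t ↦ ζ t`. -/
theorem ext_hom (k κ : Type) [Field k] [Field κ] [IsAlgClosed κ] [Algebra k κ]
    (t : κ) (L : IntermediateField k κ) (ht : t ∈ L) (htr : Transcendental k t)
    (hL : ∀ z ∈ L, IsAlgebraic (IntermediateField.adjoin k {t}) z) (ζ : k) (hζ : ζ ≠ 0) :
    ∃ ρ : L →ₐ[k] κ, ρ ⟨t, ht⟩ = algebraMap k κ ζ * t := by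
  set t' : L := ⟨t, ht⟩ with ht'
  -- the two structures of algebra over the polynomials
  let a1 : Algebra (Polynomial k) L := (Polynomial.aeval t' : Polynomial k →ₐ[k] L).toRingHom.toAlgebra
  have htr2 : Transcendental k (algebraMap k κ ζ * t) := by
    intro h
    apply htr
    have h2 : IsAlgebraic k (algebraMap k κ ζ⁻¹ * (algebraMap k κ ζ * t)) :=
      (isAlgebraic_algebraMap _).mul h
    rw [← mul_assoc, ← map_mul, inv_mul_cancel₀ hζ, map_one, one_mul] at h2
    exact h2
  let a2 : Algebra (Polynomial k) κ :=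
    (Polynomial.aeval (algebraMap k κ ζ * t) : Polynomial k →ₐ[k] κ).toRingHom.toAlgebra
  have m1 : ∀ p : Polynomial k, algebraMap (Polynomial k) L p = Polynomial.aeval t' p :=
    fun p => rfl
  have m2 : ∀ p : Polynomial k, algebraMap (Polynomial k) κ p =
      Polynomial.aeval (algebraMap k κ ζ * t) p := fun p => rfl
  have htr' : Transcendental k t' := by
    intro h
    exact htr (h.algHom L.val)
  have tf1 : Module.IsTorsionFree (Polynomial k) L :=
    Module.isTorsionFree_iff_algebraMap_injective.2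
      (transcendental_iff_injective.1 htr')
  have tf2 : Module.IsTorsionFree (Polynomial k) κ :=
    Module.isTorsionFree_iff_algebraMap_injective.2
      (transcendental_iff_injective.1 htr2)
  have alg : Algebra.IsAlgebraic (Polynomial k) L := by
    refine ⟨fun z => ?_⟩
    have h1 := hL z z.2
    open scoped IntermediateField.algebraAdjoinAdjoin in
    have h2 : IsAlgebraic (Algebra.adjoin k {t}) (z : κ) :=
      (IsFractionRing.isAlgebraic_iff (Algebra.adjoin k {t}) (IntermediateField.adjoin k {t}) κ).2 h1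
    let g : Polynomial k →ₐ[k] Algebra.adjoin k {t} :=
      Polynomial.aeval (⟨t, Algebra.self_mem_adjoin_singleton k t⟩ : Algebra.adjoin k {t})
    have hg : Function.Surjective g := by
      rintro ⟨y, hy⟩
      rw [Algebra.adjoin_singleton_eq_range_aeval] at hy
      obtain ⟨p, hp⟩ := hy
      refine ⟨p, Subtype.ext ?_⟩
      have : ((g p : Algebra.adjoin k {t}) : κ) = Polynomial.aeval t p := by
        have := Polynomial.aeval_algHom_apply (Algebra.adjoin k {t}).val
          (⟨t, Algebra.self_mem_adjoin_singleton k t⟩ : Algebra.adjoin k {t}) p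
        exact this.symm
      rw [this]
      exact hp
    refine IsAlgebraic.of_ringHom_of_comp_eq (S := Algebra.adjoin k {t}) (B := κ)
      g L.val h2 hg L.val.injective ?_
    refine RingHom.ext fun p => ?_
    change ((g p : Algebra.adjoin k {t}) : κ) = ((Polynomial.aeval t' p : L) : κ)
    have e1 := Polynomial.aeval_algHom_apply (Algebra.adjoin k {t}).val
      (⟨t, Algebra.self_mem_adjoin_singleton k t⟩ : Algebra.adjoin k {t}) p
    have e2 := Polynomial.aeval_algHom_apply L.val t' p
    exact e1.symm.trans e2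
  let φ : L →ₐ[Polynomial k] κ := IsAlgClosed.lift
  have hφ : ∀ c : k, φ (algebraMap k L c) = algebraMap k κ c := fun c => by
    have e1 : algebraMap k L c = algebraMap (Polynomial k) L (Polynomial.C c) := by
      rw [m1, Polynomial.aeval_C]
    rw [e1, φ.commutes, m2, Polynomial.aeval_C]
  refine ⟨{ φ.toRingHom with commutes' := hφ }, ?_⟩
  change φ t' = _
  have e1 : t' = algebraMap (Polynomial k) L Polynomial.X := by rw [m1, Polynomial.aeval_X]
  rw [e1, φ.commutes, m2, Polynomial.aeval_X]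

/-- A relation with a transcendental first entry has at most `D` solutions. -/
theorem few (k κ : Type) [Field k] [Field κ] [Algebra k κ] (τ : κ) (h : Transcendental k τ)
    (D : ℕ) (P : MvPolynomial (Fin 2) k) (hP : P ≠ 0) (hD : P.totalDegree ≤ D) :
    ∃ V : Finset κ, V.card ≤ D ∧ ∀ y, MvPolynomial.aeval ![τ, y] P = 0 → y ∈ V := by
  classical
  -- `P` as a polynomial in the second variable
  let P1 : Polynomial (Polynomial k) :=
    MvPolynomial.aeval (![Polynomial.C Polynomial.X, Polynomial.X] :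
      Fin 2 → Polynomial (Polynomial k)) P
  let ψ : Polynomial (Polynomial k) →+* MvPolynomial (Fin 2) k :=
    Polynomial.eval₂RingHom (Polynomial.aeval (MvPolynomial.X 0 : MvPolynomial (Fin 2) k)).toRingHom
      (MvPolynomial.X 1)
  have hψ : ψ P1 = P := by
    have : ψ.comp (MvPolynomial.aeval (![Polynomial.C Polynomial.X, Polynomial.X] :
      Fin 2 → Polynomial (Polynomial k)) : MvPolynomial (Fin 2) k →ₐ[k] _).toRingHom =
        RingHom.id _ := by
      refine MvPolynomial.ringHom_ext (fun c => ?_) fun i => ?_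
      · simp [ψ, Polynomial.algebraMap_apply, MvPolynomial.algebraMap_eq]
      · fin_cases i <;> simp [ψ]
    exact congrArg (fun f : MvPolynomial (Fin 2) k →+* MvPolynomial (Fin 2) k => f P) this
  have hP1 : P1 ≠ 0 := by
    intro h0
    rw [h0, map_zero] at hψ
    exact hP hψ.symm
  let G : Polynomial κ := P1.map (Polynomial.aeval τ : Polynomial k →ₐ[k] κ).toRingHom
  have hG : G ≠ 0 := (Polynomial.map_ne_zero_iff (transcendental_iff_injective.1 h)).2 hP1
  have hG2 : G = MvPolynomial.aeval (![Polynomial.C τ, Polynomial.X] : Fin 2 → Polynomial κ)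
      (MvPolynomial.map (algebraMap k κ) P) := by
    have : (Polynomial.mapRingHom (Polynomial.aeval τ : Polynomial k →ₐ[k] κ).toRingHom).comp
        (MvPolynomial.aeval (![Polynomial.C Polynomial.X, Polynomial.X] :
          Fin 2 → Polynomial (Polynomial k)) : MvPolynomial (Fin 2) k →ₐ[k] _).toRingHom =
        (MvPolynomial.aeval (![Polynomial.C τ, Polynomial.X] : Fin 2 → Polynomial κ) :
          MvPolynomial (Fin 2) κ →ₐ[κ] Polynomial κ).toRingHom.comp
          (MvPolynomial.map (algebraMap k κ)) := by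
      refine MvPolynomial.ringHom_ext (fun c => ?_) fun i => ?_
      · simp [Polynomial.algebraMap_apply]
      · fin_cases i <;> simp
    exact congrArg (fun f : MvPolynomial (Fin 2) k →+* Polynomial κ => f P) this
  have hdeg : G.natDegree ≤ D := by
    rw [hG2]
    have h1 : (MvPolynomial.map (algebraMap k κ) P).totalDegree ≤ D := by
      refine le_trans ?_ hD
      unfold MvPolynomial.totalDegree
      exact Finset.sup_mono (MvPolynomial.support_map_subset _ _)
    have h2 := MvPolynomial.aeval_natDegree_le (n := 1) _ h1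
      (![Polynomial.C τ, Polynomial.X] : Fin 2 → Polynomial κ) (fun i => by
        fin_cases i
        · simp
        · simp)
    simpa using h2
  have heval : ∀ y, G.eval y = MvPolynomial.aeval ![τ, y] P := fun y => by
    have : (Polynomial.evalRingHom y).comp ((MvPolynomial.aeval (![Polynomial.C τ, Polynomial.X] :
          Fin 2 → Polynomial κ) : MvPolynomial (Fin 2) κ →ₐ[κ] Polynomial κ).toRingHom.comp
          (MvPolynomial.map (algebraMap k κ))) =
        (MvPolynomial.aeval ![τ, y] : MvPolynomial (Fin 2) k →ₐ[k] κ).toRingHom := by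
      refine MvPolynomial.ringHom_ext (fun c => ?_) fun i => ?_
      · simp
      · fin_cases i <;> simp
    rw [hG2]
    exact congrArg (fun f : MvPolynomial (Fin 2) k →+* κ => f P) this
  refine ⟨G.roots.toFinset, (Multiset.toFinset_card_le _).trans ((Polynomial.card_roots' G).trans
    hdeg), fun y hy => ?_⟩
  rw [Multiset.mem_toFinset, Polynomial.mem_roots hG, Polynomial.IsRoot, heval, hy]

end AutAux

open AutAux in
theorem aut : AutStatement := by
  classical
  intro k κ _ _ _ _ _ t L ht htr hL Q M D hQ hQk hM S hS hrel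
  obtain ⟨P, hP, hPD, hP0⟩ := hrel
  have hex : ∀ ζ : k, ∃ ρ : L →ₐ[k] κ, ζ ≠ 0 → ρ ⟨t, ht⟩ = algebraMap k κ ζ * t := fun ζ => by
    by_cases h : ζ = 0
    · exact ⟨L.val, fun h' => absurd h h'⟩
    · obtain ⟨ρ, hρ⟩ := ext_hom k κ t L ht htr hL ζ h
      exact ⟨ρ, fun _ => hρ⟩
  choose ρ hρ using hex
  -- roots of unity
  have : NeZero (Q : k) := ⟨hQk⟩
  have : NeZero Q := ⟨by omega⟩
  obtain ⟨ξ, hξ⟩ := HasEnoughRootsOfUnity.exists_primitiveRoot k Q
  have hcard : (Polynomial.nthRootsFinset Q (1 : k)).card = Q := hξ.card_nthRootsFinset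
  have hroot : ∀ ζ ∈ Polynomial.nthRootsFinset Q (1 : k), ζ ^ Q = 1 ∧ ζ ≠ 0 := fun ζ hζ => by
    have h1 : ζ ^ Q = 1 := (Polynomial.mem_nthRootsFinset (by omega) 1).1 hζ
    refine ⟨h1, fun h0 => ?_⟩
    rw [h0, zero_pow (by omega)] at h1
    exact zero_ne_one h1
  -- the values
  have htau : Transcendental k (t ^ (M * Q)) := htr.pow (by positivity)
  obtain ⟨V, hV, hV2⟩ := few k κ (t ^ (M * Q)) htau D P hP hPD
  have hval : ∀ ζ ∈ Polynomial.nthRootsFinset Q (1 : k), ρ ζ ⟨S, hS⟩ ∈ V := fun ζ hζ => by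
    obtain ⟨h1, h2⟩ := hroot ζ hζ
    apply hV2
    have e : MvPolynomial.aeval ![(⟨t, ht⟩ : L) ^ (M * Q), ⟨S, hS⟩] P = 0 := by
      have := MvPolynomial.comp_aeval_apply (φ := L.val)
        (f := ![(⟨t, ht⟩ : L) ^ (M * Q), ⟨S, hS⟩]) P
      refine Subtype.ext (this.trans ?_)
      change _ = (0 : κ)
      rw [← hP0]
      congr 2
      funext i
      fin_cases i <;> rfl
    have e2 := MvPolynomial.comp_aeval_apply (φ := ρ ζ)
        (f := ![(⟨t, ht⟩ : L) ^ (M * Q), ⟨S, hS⟩]) P
    rw [e, map_zero] at e2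
    have e3 : (fun i => ρ ζ ((![(⟨t, ht⟩ : L) ^ (M * Q), ⟨S, hS⟩] : Fin 2 → L) i)) =
        ![t ^ (M * Q), ρ ζ ⟨S, hS⟩] := by
      funext i
      fin_cases i
      · simp only [Fin.zero_eta, Matrix.cons_val_zero, map_pow, hρ ζ h2, mul_pow]
        rw [mul_comm M Q, pow_mul (algebraMap k κ ζ), ← map_pow, h1, map_one, one_pow, one_mul]
      · rfl
    rw [e3] at e2
    exact e2.symm
  have hne : (Polynomial.nthRootsFinset Q (1 : k)).Nonempty := by
    rw [← Finset.card_pos, hcard]; omega
  have hVne : V.Nonempty := by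
    obtain ⟨ζ, hζ⟩ := hne
    exact ⟨_, hval ζ hζ⟩
  have hVpos : (0 : ℚ) < V.card := by exact_mod_cast hVne.card_pos
  obtain ⟨y, _, hy⟩ := Finset.exists_le_card_fiber_of_nsmul_le_card_of_maps_to
    (s := Polynomial.nthRootsFinset Q (1 : k)) (t := V) (f := fun ζ => ρ ζ ⟨S, hS⟩)
    (b := (Q : ℚ) / V.card) hval hVne (by
      rw [hcard, nsmul_eq_mul]
      exact le_of_eq (by field_simp))
  refine ⟨(Polynomial.nthRootsFinset Q (1 : k)).filter (fun ζ => ρ ζ ⟨S, hS⟩ = y), ρ, ?_, ?_, ?_⟩
  · have h1 : (Q : ℚ) ≤ V.card *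
        ((Polynomial.nthRootsFinset Q (1 : k)).filter (fun ζ => ρ ζ ⟨S, hS⟩ = y)).card := by
      rw [div_le_iff₀ hVpos] at hy
      linarith
    have h2 : Q ≤ V.card *
        ((Polynomial.nthRootsFinset Q (1 : k)).filter (fun ζ => ρ ζ ⟨S, hS⟩ = y)).card := by
      exact_mod_cast h1
    exact h2.trans (Nat.mul_le_mul_right _ hV)
  · intro ζ hζ
    obtain ⟨h1, h2⟩ := hroot ζ (Finset.mem_filter.1 hζ).1
    exact ⟨h1, hρ ζ h2⟩
  · intro ζ hζ ζ' hζ'
    rw [(Finset.mem_filter.1 hζ).2, (Finset.mem_filter.1 hζ').2]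

end Pool.DynLehmer.FN
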