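import Pool.Agent.Lib.MP_2194ec_nt.FN.Iface
import Mathlib.RingTheory.Valuation.LocalSubring

set_option autoImplicit false

/-!
# CHEV: a valuation ring dominating a prime with independent residues (helper81)
-/

namespace Pool.DynLehmer.FN
open MvPolynomial NumberField Pool.DynLehmer Pool.DynLehmer.SB

namespace ChevAux

theorem dominate {Ω : Type} [Field Ω] (B : Subring Ω) (P : Ideal B) [P.IsPrime] :
    ∃ O : ValuationSubring Ω, (∀ b : B, (b : Ω) ∈ O) ∧ (∀ b : B, b ∈ P → O.valuation (b : Ω) < 1) ∧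
      ∀ b : B, b ∉ P → O.valuation (b : Ω) = 1 := by
  obtain ⟨V, hV⟩ := (LocalSubring.ofPrime B P).exists_le_valuationSubring
  have h1 : ∀ b : B, (b : Ω) ∈ V := fun b => hV.1 (LocalSubring.le_ofPrime B P b.2)
  refine ⟨V, h1, ?_, ?_⟩
  · intro b hb
    have hle : V.valuation (b : Ω) ≤ 1 := (V.valuation_le_one_iff _).2 (h1 b)
    refine lt_of_le_of_ne hle ?_
    intro he
    have hinv : (b : Ω)⁻¹ ∈ V := by
      rw [← V.valuation_le_one_iff, map_inv₀, he, inv_one]
    have hb0 : (b : Ω) ≠ 0 := by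
      intro h
      rw [h, map_zero] at he
      exact zero_ne_one he
    have hu : IsUnit (Subring.inclusion hV.1
        (algebraMap B (LocalSubring.ofPrime B P).toSubring b)) := by
      rw [isUnit_iff_exists_inv]
      refine ⟨⟨(b : Ω)⁻¹, hinv⟩, ?_⟩
      apply Subtype.ext
      exact mul_inv_cancel₀ hb0
    have hu2 := hV.2.map_nonunit _ hu
    rw [IsLocalization.AtPrime.isUnit_to_map_iff (LocalSubring.ofPrime B P).toSubring P b] at hu2
    exact hu2 hb
  · intro b hb
    have hu : IsUnit (algebraMap B (LocalSubring.ofPrime B P).toSubring b) :=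
      (IsLocalization.AtPrime.isUnit_to_map_iff (LocalSubring.ofPrime B P).toSubring P b).2 hb
    rw [isUnit_iff_exists_inv] at hu
    obtain ⟨c, hc⟩ := hu
    have hc' : (b : Ω) * (c : Ω) = 1 := congrArg Subtype.val hc
    have hb0 : (b : Ω) ≠ 0 := left_ne_zero_of_mul_eq_one hc'
    have hce : (c : Ω) = (b : Ω)⁻¹ := eq_inv_of_mul_eq_one_right hc'
    have hcV : (c : Ω) ∈ V := hV.1 c.2
    have hle : V.valuation (b : Ω) ≤ 1 := (V.valuation_le_one_iff _).2 (h1 b)
    have hle2 : V.valuation (b : Ω)⁻¹ ≤ 1 := by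
      rw [← hce]
      exact (V.valuation_le_one_iff _).2 hcV
    refine le_antisymm hle ?_
    rw [map_inv₀] at hle2
    have hv0 : V.valuation (b : Ω) ≠ 0 := by
      rw [Ne, map_eq_zero]
      exact hb0
    exact (inv_le_one₀ (zero_lt_iff.2 hv0)).1 hle2

theorem map_pair {A R : Type} [CommRing A] [CommRing R] (g : A →+* R) {n : ℕ} (a b : Fin n)
    (P : MvPolynomial (Fin 2) A) :
    MvPolynomial.map g (aeval ![(X a : MvPolynomial (Fin n) A), X b] P) =
      aeval ![(X a : MvPolynomial (Fin n) R), X b] (MvPolynomial.map g P) := by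
  induction P using MvPolynomial.induction_on with
  | C c =>
    rw [map_C, aeval_C, aeval_C]
    simp [MvPolynomial.algebraMap_eq]
  | add p q hp hq => rw [map_add, map_add, map_add, map_add, hp, hq]
  | mul_X p i hp =>
    rw [map_mul, map_mul, map_mul, map_mul, hp, aeval_X, map_X, aeval_X]
    congr 1
    fin_cases i
    · exact map_X _ _
    · exact map_X _ _

theorem aeval_pair {K Ω : Type} [Field K] [Field Ω] [Algebra K Ω] {n : ℕ} (x : Fin n → Ω)
    (a b : Fin n) (P : MvPolynomial (Fin 2) K) :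
    aeval x (aeval ![(X a : MvPolynomial (Fin n) K), X b] P) = aeval ![x a, x b] P := by
  induction P using MvPolynomial.induction_on with
  | C c =>
    rw [aeval_C, aeval_C, MvPolynomial.algebraMap_eq, aeval_C]
  | add p q hp hq => rw [map_add, map_add, map_add, hp, hq]
  | mul_X p i hp =>
    rw [map_mul, map_mul, map_mul, hp, aeval_X, aeval_X]
    congr 1
    fin_cases i
    · exact aeval_X _ _
    · exact aeval_X _ _

end ChevAux

open ChevAux

theorem chev : ChevStatement := by
  intro K _ A Ω _ _ n x Q hQ a b hab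
  classical
  -- the map `A[X] → Ω`
  let f : A →+* Ω := (algebraMap K Ω).comp A.subtype
  let φ : MvPolynomial (Fin n) A →+* Ω := eval₂Hom f x
  let ρ : MvPolynomial (Fin n) A →+* MvPolynomial (Fin n) (IsLocalRing.ResidueField A) :=
    MvPolynomial.map (IsLocalRing.residue A)
  let Qb : Ideal (MvPolynomial (Fin n) (IsLocalRing.ResidueField A)) :=
    Ideal.map ρ (Q.comap (MvPolynomial.map A.subtype))
  have hφ : ∀ G : MvPolynomial (Fin n) A, φ G = aeval x (MvPolynomial.map A.subtype G) := by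
    intro G
    rw [aeval_def, eval₂_map]
    rfl
  -- the submonoid
  let M : Submonoid (MvPolynomial (Fin n) (IsLocalRing.ResidueField A)) :=
    { carrier := {G | ∃ P : MvPolynomial (Fin 2) (IsLocalRing.ResidueField A), P ≠ 0 ∧
        aeval ![(X a : MvPolynomial (Fin n) (IsLocalRing.ResidueField A)), X b] P = G}
      one_mem' := ⟨1, one_ne_zero, map_one _⟩
      mul_mem' := by
        rintro G H ⟨P, hP, rfl⟩ ⟨P', hP', rfl⟩
        exact ⟨P * P', mul_ne_zero hP hP', map_mul _ _ _⟩ }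
  have hdis : Disjoint (Qb : Set (MvPolynomial (Fin n) (IsLocalRing.ResidueField A))) M := by
    rw [Set.disjoint_left]
    rintro G hG ⟨P, hP, rfl⟩
    exact hab P hP hG
  obtain ⟨q, hq1, hq2, hq3⟩ := Ideal.exists_le_prime_disjoint Qb M hdis
  -- the prime of `A[X]`
  let P0 : Ideal (MvPolynomial (Fin n) A) := q.comap ρ
  have hP0 : P0.IsPrime := Ideal.comap_isPrime ρ q
  let ψ : MvPolynomial (Fin n) A →+* φ.range := φ.rangeRestrict
  have hψ : Function.Surjective ψ := φ.rangeRestrict_surjective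
  have hker : RingHom.ker ψ ≤ P0 := by
    intro G hG
    have h1 : φ G = 0 := congrArg Subtype.val (RingHom.mem_ker.1 hG)
    rw [hφ, hQ] at h1
    exact hq2 (Ideal.mem_map_of_mem ρ (Ideal.mem_comap.2 h1))
  have hP' : (P0.map ψ).IsPrime := Ideal.map_isPrime_of_surjective hψ hker
  have hmem : ∀ G, ψ G ∈ P0.map ψ ↔ G ∈ P0 := by
    intro G
    constructor
    · intro h
      rw [Ideal.mem_map_iff_of_surjective ψ hψ] at h
      obtain ⟨H, hH, he⟩ := h
      have h2 : G - H ∈ RingHom.ker ψ := by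
        rw [RingHom.mem_ker, map_sub, he, sub_self]
      have h3 := P0.add_mem (hker h2) hH
      rwa [sub_add_cancel] at h3
    · exact fun h => Ideal.mem_map_of_mem ψ h
  obtain ⟨O, hO1, hO2, hO3⟩ := dominate φ.range (P0.map ψ)
  refine ⟨O, ?_, ?_, ?_, ?_⟩
  · intro j
    have h1 : φ (X j) = x j := eval₂_X _ _ _
    have := hO1 (ψ (X j))
    rwa [show ((ψ (X j) : φ.range) : Ω) = φ (X j) from rfl, h1] at this
  · intro c hc
    have h1 : φ (C ⟨c, hc⟩) = algebraMap K Ω c := eval₂_C _ _ _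
    have := hO1 (ψ (C ⟨c, hc⟩))
    rwa [show ((ψ (C ⟨c, hc⟩) : φ.range) : Ω) = φ (C ⟨c, hc⟩) from rfl, h1] at this
  · intro c hc
    have hcA : c ∈ A := (A.valuation_le_one_iff c).1 hc.le
    have h1 : φ (C ⟨c, hcA⟩) = algebraMap K Ω c := eval₂_C _ _ _
    have h2 : (⟨c, hcA⟩ : A) ∈ IsLocalRing.maximalIdeal A :=
      (A.valuation_lt_one_iff ⟨c, hcA⟩).2 hc
    have h3 : (C ⟨c, hcA⟩ : MvPolynomial (Fin n) A) ∈ P0 := by
      change ρ (C ⟨c, hcA⟩) ∈ q
      have h4 : ρ (C ⟨c, hcA⟩) = 0 := by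
        change MvPolynomial.map (IsLocalRing.residue A) (C ⟨c, hcA⟩) = 0
        rw [map_C, (IsLocalRing.residue_eq_zero_iff _).2 h2, map_zero]
      rw [h4]
      exact q.zero_mem
    have h5 := hO2 (ψ (C ⟨c, hcA⟩)) ((hmem _).2 h3)
    rwa [show ((ψ (C ⟨c, hcA⟩) : φ.range) : Ω) = φ (C ⟨c, hcA⟩) from rfl, h1] at h5
  · intro P hP hu
    -- lift of `P` to `A`
    obtain ⟨PA, hPA⟩ : ∃ PA : MvPolynomial (Fin 2) A, MvPolynomial.map A.subtype PA = P := by
      have h1 : P ∈ Set.range (MvPolynomial.map (σ := Fin 2) A.subtype) := by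
        rw [MvPolynomial.mem_range_map_iff_coeffs_subset]
        intro c hc
        obtain ⟨t, ht⟩ := (MvPolynomial.mem_coeffs_iff).1 hc
        rw [ht.2]
        exact ⟨⟨coeff t P, hP t⟩, rfl⟩
      exact h1
    have hcoe : ∀ t, ((coeff t PA : A) : K) = coeff t P := by
      intro t
      rw [← hPA, coeff_map]
      rfl
    let G : MvPolynomial (Fin n) A := aeval ![(X a : MvPolynomial (Fin n) A), X b] PA
    have hG1 : φ G = aeval ![x a, x b] P := by
      rw [hφ, ← hPA, ← aeval_pair]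
      congr 1
      exact map_pair _ _ _ _
    have hG2 : ρ G = aeval ![(X a : MvPolynomial (Fin n) (IsLocalRing.ResidueField A)), X b]
        (MvPolynomial.map (IsLocalRing.residue A) PA) := map_pair _ _ _ _
    have hne : MvPolynomial.map (IsLocalRing.residue A) PA ≠ 0 := by
      obtain ⟨t, ht⟩ := hu
      intro h0
      have h1 : coeff t (MvPolynomial.map (IsLocalRing.residue A) PA) = 0 := by rw [h0, coeff_zero]
      rw [coeff_map, IsLocalRing.residue_eq_zero_iff] at h1
      have h2 := (A.valuation_lt_one_iff _).1 h1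
      rw [hcoe t, ht] at h2
      exact lt_irrefl _ h2
    have hG3 : G ∉ P0 := by
      intro h
      have h1 : ρ G ∈ q := h
      exact Set.disjoint_left.1 hq3 h1 ⟨_, hne, hG2.symm⟩
    have h5 := hO3 (ψ G) (fun h => hG3 ((hmem _).1 h))
    rwa [show ((ψ G : φ.range) : Ω) = φ G from rfl, hG1] at h5

end Pool.DynLehmer.FN
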