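import Pool.Agent.Lib.MP_2194ec_nt.FN.Iface

set_option autoImplicit false

/-!
# FAM_N, module CLS: the congruence class over the integers (helper28)
-/

namespace Pool.DynLehmer.FN
open MvPolynomial NumberField Pool.DynLehmer Pool.DynLehmer.SB
open scoped Classical

namespace ClsAux

theorem map_per {R S : Type} [CommRing R] [CommRing S] (f : R →+* S) (n q ℓ : ℕ) (j : Fin n) :
    MvPolynomial.map f (per R n q ℓ j) = per S n q ℓ j := by
  unfold per
  simp only [map_add, map_sum, map_mul, map_pow, map_X, map_C, map_natCast]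

theorem per_hom (n q ℓ : ℕ) (hq : 2 ≤ q) (j : Fin n) : (per ℤ n q ℓ j).IsHomogeneous q := by
  obtain ⟨r, rfl⟩ : ∃ r, q = r + 1 := ⟨q - 1, by omega⟩
  have hX : ∀ (i : Fin n) (m : ℕ), (X i ^ m : MvPolynomial (Fin n) ℤ).IsHomogeneous m := by
    intro i m
    simpa using (isHomogeneous_X ℤ i).pow m
  have h2 : ∀ (P : MvPolynomial (Fin n) ℤ) (c : ℤ), P.IsHomogeneous (r + 1) →
      (C c * P).IsHomogeneous (r + 1) := by
    intro P c hP
    simpa using (isHomogeneous_C (Fin n) c).mul hP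
  unfold per
  refine IsHomogeneous.add (IsHomogeneous.sum _ _ _ fun k _ => h2 _ _ ?_)
    (IsHomogeneous.sum _ _ _ fun ab _ => h2 _ _ ?_)
  · have := (isHomogeneous_X ℤ j).mul (hX k (r + 1 - 1))
    rwa [show 1 + (r + 1 - 1) = r + 1 by omega] at this
  · have := (hX ab.1 (r + 1 - 1)).mul (isHomogeneous_X ℤ ab.2)
    rwa [show r + 1 - 1 + 1 = r + 1 by omega] at this

end ClsAux

open ClsAux in
theorem cls : ClsStatement := by
  intro n q p ℓ hn hq hp hℓ hpℓ
  have hco : IsCoprime (p : ℤ) ((ℓ : ℤ) ^ (2 * n ^ 2 + 1)) := by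
    apply IsCoprime.pow_right
    rw [Nat.isCoprime_iff_coprime]
    exact (Nat.coprime_primes hp hℓ).2 hpℓ
  obtain ⟨a, b, hab⟩ := hco
  refine ⟨p * ℓ ^ (2 * n ^ 2 + 1), fun j => X j ^ q + C (a * p) * per ℤ n q ℓ j,
    Nat.mul_pos hp.pos (pow_pos hℓ.pos _), fun j => ?_, ?_⟩
  · refine IsHomogeneous.add (by simpa using (isHomogeneous_X ℤ j).pow q) ?_
    simpa using (isHomogeneous_C (Fin n) (a * p : ℤ)).mul (per_hom n q ℓ hq j)
  · intro K _ _ F hF
    have hmap : ∀ j, MvPolynomial.map (Int.castRingHom (𝓞 K))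
        (X j ^ q + C (a * p) * per ℤ n q ℓ j) =
        X j ^ q + C ((a : 𝓞 K) * (p : 𝓞 K)) * per (𝓞 K) n q ℓ j := by
      intro j
      rw [map_add, map_mul, map_per, map_pow, map_X, map_C]
      simp
    have hdvd : ∀ j, ∃ H : MvPolynomial (Fin n) (𝓞 K), F j = X j ^ q +
        C ((a : 𝓞 K) * (p : 𝓞 K)) * per (𝓞 K) n q ℓ j +
          C ((p : 𝓞 K) * (ℓ : 𝓞 K) ^ (2 * n ^ 2 + 1)) * H := by
      intro j
      have h1 : C ((p : 𝓞 K) * (ℓ : 𝓞 K) ^ (2 * n ^ 2 + 1)) ∣ F j -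
          MvPolynomial.map (Int.castRingHom (𝓞 K)) (X j ^ q + C (a * p) * per ℤ n q ℓ j) := by
        rw [C_dvd_iff_dvd_coeff]
        intro t
        have := hF j t
        rw [coeff_sub, coeff_map]
        push_cast at this
        simpa using this
      obtain ⟨H, hH⟩ := h1
      refine ⟨H, ?_⟩
      rw [← hH, hmap]
      ring
    constructor
    · intro j
      obtain ⟨H, hH⟩ := hdvd j
      refine ⟨C (p : 𝓞 K) * H - C (b : 𝓞 K) * per (𝓞 K) n q ℓ j, ?_⟩
      have hab' : (a : 𝓞 K) * (p : 𝓞 K) = 1 - b * (ℓ : 𝓞 K) ^ (2 * n ^ 2 + 1) := by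
        have := congrArg (Int.cast : ℤ → 𝓞 K) hab
        push_cast at this
        linear_combination this
      rw [hH, hab']
      simp only [C_mul, C_sub, C_1, map_mul]
      ring
    · intro j
      obtain ⟨H, hH⟩ := hdvd j
      refine ⟨C (a : 𝓞 K) * per (𝓞 K) n q ℓ j + C ((ℓ : 𝓞 K) ^ (2 * n ^ 2 + 1)) * H, ?_⟩
      rw [hH]
      simp only [C_mul]
      ring

end Pool.DynLehmer.FN
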