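import Mathlib
import Pool.Agent.Lib.MP_2194ec_nt.SB.Iface

set_option autoImplicit false

/-!
# FAM_N: congruence classes of morphisms of `P^N` without periodic curves
Definitions and statements of the modules.  Proofs: `FN/Paper.md`.
-/

namespace Pool.DynLehmer.FN
open MvPolynomial NumberField Pool.DynLehmer Pool.DynLehmer.SB
open scoped Classical

/-! ## the family -/

/-- the exponents of `ℓ` in the model: row `j`, column `k` -/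
def ex {n : ℕ} (j k : Fin n) : ℕ := n ^ 2 + j.val * n + (k - j).val

/-- the least number different from `a` and `b`, for `a < b` -/
def jj (a b : ℕ) : ℕ := if a ≠ 0 then 0 else if b ≠ 1 then 1 else 2

/-- the part of the model divisible by `ℓ`:
`∑_{k ≠ j} ℓ^(ex j k) X_j X_k^(q-1) + ℓ^(2 n^2) ∑_{a < b, jj a b = j} X_a^(q-1) X_b` -/
noncomputable def per (R : Type) [CommRing R] (n q ℓ : ℕ) (j : Fin n) :
    MvPolynomial (Fin n) R :=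
  (∑ k ∈ Finset.univ.filter (fun k : Fin n => k ≠ j),
    C ((ℓ : R) ^ ex j k) * (X j * X k ^ (q - 1))) +
  ∑ ab ∈ Finset.univ.filter (fun ab : Fin n × Fin n =>
      ab.1 < ab.2 ∧ jj ab.1.val ab.2.val = j.val),
    C ((ℓ : R) ^ (2 * n ^ 2)) * (X ab.1 ^ (q - 1) * X ab.2)

/-- a valuation of `Ω` with its residue map, field of constants `E`, residue constants `k` -/
structure Plc (E Ω k κ Γ : Type) [Field E] [Field Ω] [Algebra E Ω] [Field k] [Field κ]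
    [Algebra k κ] [LinearOrderedCommGroupWithZero Γ] where
  v : Valuation Ω Γ
  res : Ω → κ
  res_add : ∀ a b, v a ≤ 1 → v b ≤ 1 → res (a + b) = res a + res b
  res_mul : ∀ a b, v a ≤ 1 → v b ≤ 1 → res (a * b) = res a * res b
  res_one : res 1 = 1
  res_eq_zero : ∀ a, v a ≤ 1 → (res a = 0 ↔ v a < 1)
  /-- every value is the value of a constant -/
  val : ∀ y : Ω, y ≠ 0 → ∃ s : E, s ≠ 0 ∧ v (algebraMap E Ω s) = v y
  res_const : ∀ a : E, v (algebraMap E Ω a) ≤ 1 → ∃ c : k, algebraMap k κ c =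
    res (algebraMap E Ω a)
  const_res : ∀ c : k, ∃ a : E, v (algebraMap E Ω a) ≤ 1 ∧
    res (algebraMap E Ω a) = algebraMap k κ c
  arch : ∀ γ : Γ, γ < 1 → ∀ b : Ω, b ≠ 0 → ∃ n : ℕ, γ ^ n < v b

/-- forms of degree `q` with coefficients in `E` (integral for the valuation) which are congruent
to the model modulo `ℓ^(2 n^2 + 1)` -/
structure Fam {E Ω Γ : Type} [Field E] [Field Ω] [Algebra E Ω]
    [LinearOrderedCommGroupWithZero Γ] (v : Valuation Ω Γ) (n q ℓ : ℕ)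
    (F : Fin n → MvPolynomial (Fin n) E) : Prop where
  hom : ∀ j, (F j).IsHomogeneous q
  cong : ∀ j, ∃ G : MvPolynomial (Fin n) E, (∀ t, v (algebraMap E Ω (coeff t G)) ≤ 1) ∧
    F j = X j ^ q + per E n q ℓ j + C ((ℓ : E) ^ (2 * n ^ 2 + 1)) * G

/-- an algebraic relation of total degree at most `D` over `k` between two elements -/
def Rel2 (k : Type) [Field k] {κ : Type} [Field κ] [Algebra k κ] (D : ℕ) (a b : κ) : Prop :=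
  ∃ P : MvPolynomial (Fin 2) k, P ≠ 0 ∧ P.totalDegree ≤ D ∧ aeval ![a, b] P = 0

/-! ## H: Hilbert functions and relations of bounded degree -/

/-- HWQ -/
def HwqStatement : Prop :=
  ∀ (K : Type) [Field K] (Ω : Type) [Field Ω] [Algebra K Ω] (ι : Type) [Fintype ι] (x : ι → Ω)
    (Q : Ideal (MvPolynomial ι K)), (∀ G, aeval x G = 0 ↔ G ∈ Q) → ∀ T : ℕ,
    HW K x T + Module.finrank K ↥(homogeneousSubmodule ι K T ⊓ Q.restrictScalars K) =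
      Module.finrank K (homogeneousSubmodule ι K T)

/-- HWE -/
def HweStatement : Prop :=
  ∀ (K E Ω : Type) [Field K] [Field E] [Field Ω] [Algebra K E] [Algebra E Ω] [Algebra K Ω]
    [IsScalarTower K E Ω] (ι : Type) [Fintype ι] (y : ι → Ω) (T : ℕ), HW E y T ≤ HW K y T

/-- HFO, the Hilbert functions along a periodic orbit are uniformly bounded -/
def HfoStatement : Prop :=
  ∀ (K : Type) [Field K] (Ω : Type) [Field Ω] [Algebra K Ω] (ι : Type) [Fintype ι] (q r c : ℕ)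
    (F : ι → MvPolynomial ι K) (x : ι → Ω), 1 ≤ q → 0 < r → (∀ i, (F i).IsHomogeneous q) →
    (∀ T, HW K x T ≤ c * (T + 1)) →
    (∀ G : MvPolynomial ι K, aeval x G = 0 → aeval x ((bind₁ F)^[r] G) = 0) →
    ∀ i T : ℕ, HW K ((gAct F Ω)^[i] x) T ≤ c * q ^ r * (T + 1)

/-- RELW, relations between a ratio of coordinates and a character -/
def RelwStatement : Prop :=
  ∀ (E : Type) [Field E] (Ω : Type) [Field Ω] [Algebra E Ω] (ι : Type) [Fintype ι] (y : ι → Ω)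
    (c : ℕ), (∀ T, HW E y T ≤ c * (T + 1)) → ∀ (p m : ι → ℕ), ∑ i, p i = ∑ i, m i →
    ∀ a b : ι, Rel2 E (2 * c * ((∑ i, p i) + 1)) (y b / y a)
      ((∏ i, y i ^ p i) / ∏ i, y i ^ m i)

/-- DEGF, degrees over the field generated by a ratio of coordinates -/
def DegfStatement : Prop :=
  ∀ (E : Type) [Field E] (Ω : Type) [Field Ω] [Algebra E Ω] (ι : Type) [Fintype ι] (y : ι → Ω)
    (c : ℕ), (∀ T, HW E y T ≤ c * (T + 1)) → ∀ a b : ι, y a ≠ 0 →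
    ∀ f ∈ IntermediateField.adjoin E (Set.range fun j => y j / y a),
      ∃ P : MvPolynomial (Fin 2) E, P ≠ 0 ∧ P.degreeOf 1 ≤ c ∧ aeval ![y b / y a, f] P = 0

/-! ## R: the valuation -/

/-- RED1, the Hilbert function does not decrease under reduction -/
def Red1Statement : Prop :=
  ∀ (K : Type) [Field K] (A : ValuationSubring K) (ι : Type) [Fintype ι]
    (Q : Ideal (MvPolynomial ι K)), (∀ G ∈ Q, ∀ d, homogeneousComponent d G ∈ Q) →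
    ∀ T : ℕ, Module.finrank (IsLocalRing.ResidueField A)
        ↥(homogeneousSubmodule ι (IsLocalRing.ResidueField A) T ⊓
          (Ideal.map (MvPolynomial.map (IsLocalRing.residue A))
            (Q.comap (MvPolynomial.map A.subtype))).restrictScalars
              (IsLocalRing.ResidueField A)) ≤
      Module.finrank K ↥(homogeneousSubmodule ι K T ⊓ Q.restrictScalars K)

/-- PAIR, two coordinates are independent modulo a homogeneous ideal of dimension at least 2 -/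
def PairStatement : Prop :=
  ∀ (k : Type) [Field k] (n : ℕ) (J : Ideal (MvPolynomial (Fin n) k)),
    (∀ G ∈ J, ∀ d, homogeneousComponent d G ∈ J) →
    (∀ T : ℕ, Module.finrank k ↥(homogeneousSubmodule (Fin n) k T ⊓ J.restrictScalars k) +
      (T + 1) ≤ Module.finrank k (homogeneousSubmodule (Fin n) k T)) →
    ∃ a b : Fin n, a < b ∧ ∀ P : MvPolynomial (Fin 2) k, P ≠ 0 →
      aeval ![(X a : MvPolynomial (Fin n) k), X b] P ∉ J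

/-- CHEV, a valuation ring of `Ω` for which two coordinates have independent residues -/
def ChevStatement : Prop :=
  ∀ (K : Type) [Field K] (A : ValuationSubring K) (Ω : Type) [Field Ω] [Algebra K Ω] (n : ℕ)
    (x : Fin n → Ω) (Q : Ideal (MvPolynomial (Fin n) K)), (∀ G, aeval x G = 0 ↔ G ∈ Q) →
    ∀ a b : Fin n, (∀ P : MvPolynomial (Fin 2) (IsLocalRing.ResidueField A), P ≠ 0 →
      aeval ![(X a : MvPolynomial (Fin n) (IsLocalRing.ResidueField A)), X b] P ∉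
        Ideal.map (MvPolynomial.map (IsLocalRing.residue A))
          (Q.comap (MvPolynomial.map A.subtype))) →
    ∃ O : ValuationSubring Ω, (∀ j, x j ∈ O) ∧ (∀ c ∈ A, algebraMap K Ω c ∈ O) ∧
      (∀ c : K, A.valuation c < 1 → O.valuation (algebraMap K Ω c) < 1) ∧
      ∀ P : MvPolynomial (Fin 2) K, (∀ t, coeff t P ∈ A) → (∃ t, A.valuation (coeff t P) = 1) →
        O.valuation (aeval ![x a, x b] P) = 1

/-- VGRP, the value group is generated by `v ℓ` up to torsion -/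
def VgrpStatement : Prop :=
  ∀ (K : Type) [Field K] [NumberField K] (Ω : Type) [Field Ω] [Algebra K Ω] (Γ : Type)
    [LinearOrderedCommGroupWithZero Γ] (v : Valuation Ω Γ) (ℓ : ℕ), ℓ.Prime → v (ℓ : Ω) < 1 →
    ∀ α β : Ω, v α ≤ 1 → v β ≤ 1 →
    (∀ P : MvPolynomial (Fin 2) ℤ, (∃ t, ¬ (ℓ : ℤ) ∣ coeff t P) → v (aeval ![α, β] P) = 1) →
    (∀ y : Ω, IsAlgebraic (IntermediateField.adjoin K {α, β}) y) →
    ∀ y : Ω, y ≠ 0 → ∃ (m : ℕ) (b : ℤ), 0 < m ∧ v y ^ m = v (ℓ : Ω) ^ b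

/-- PLCA, the valuation ring and its residue field as a `Plc` -/
def PlcaStatement : Prop :=
  ∀ (K : Type) [Field K] [NumberField K] (Ω : Type) [Field Ω] [IsAlgClosed Ω] [Algebra K Ω]
    (O : ValuationSubring Ω) (ℓ : ℕ), ℓ.Prime → O.valuation (ℓ : Ω) < 1 →
    (∀ y : Ω, y ≠ 0 → ∃ (m : ℕ) (b : ℤ), 0 < m ∧
      O.valuation y ^ m = O.valuation (ℓ : Ω) ^ b) →
    ∀ α β : Ω, α ∈ O → β ∈ O →
    (∀ P : MvPolynomial (Fin 2) ℤ, (∃ t, ¬ (ℓ : ℤ) ∣ coeff t P) →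
      O.valuation (aeval ![α, β] P) = 1) →
    ∃ (k κ : Type) (_ : Field k) (_ : Field κ) (_ : Algebra k κ)
      (𝔭 : Plc (algebraicClosure K Ω) Ω k κ O.ValueGroup),
      IsAlgClosed k ∧ IsAlgClosed κ ∧ CharP k ℓ ∧ 𝔭.v = O.valuation ∧
      AlgebraicIndependent k ![𝔭.res α, 𝔭.res β]

/-- PLACE, the valuation attached to a periodic curve -/
def PlaceStatement : Prop :=
  ∀ (K : Type) [Field K] [NumberField K] (Ω : Type) [Field Ω] [IsAlgClosed Ω] [Algebra K Ω]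
    (ℓ n c : ℕ) (x : Fin n → Ω) (Q : Ideal (MvPolynomial (Fin n) K)), ℓ.Prime →
    (∀ G, aeval x G = 0 ↔ G ∈ Q) → (∀ G ∈ Q, ∀ d, homogeneousComponent d G ∈ Q) →
    (∀ T, Module.finrank K ↥(homogeneousSubmodule (Fin n) K T ⊓ Q.restrictScalars K) + (T + 1) ≤
      Module.finrank K (homogeneousSubmodule (Fin n) K T)) →
    (∀ T, HW K x T ≤ c * (T + 1)) →
    (∀ y : Ω, IsAlgebraic (IntermediateField.adjoin K (Set.range x)) y) →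
    ∃ (k κ Γ : Type) (_ : Field k) (_ : Field κ) (_ : Algebra k κ)
      (_ : LinearOrderedCommGroupWithZero Γ) (𝔭 : Plc (algebraicClosure K Ω) Ω k κ Γ),
      IsAlgClosed k ∧ IsAlgClosed κ ∧ CharP k ℓ ∧ (∀ j, 𝔭.v (x j) ≤ 1) ∧
      ∃ a b : Fin n, a < b ∧ AlgebraicIndependent k ![𝔭.res (x a), 𝔭.res (x b)]

/-! ## L: lacunary relations -/

/-- AUT, conjugates -/
def AutStatement : Prop :=
  ∀ (k κ : Type) [Field k] [IsAlgClosed k] [Field κ] [IsAlgClosed κ] [Algebra k κ] (t : κ)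
    (L : IntermediateField k κ) (ht : t ∈ L), Transcendental k t →
    (∀ z ∈ L, IsAlgebraic (IntermediateField.adjoin k {t}) z) →
    ∀ Q M D : ℕ, 1 ≤ Q → (Q : k) ≠ 0 → 1 ≤ M → ∀ (S : κ) (hS : S ∈ L),
    Rel2 k D (t ^ (M * Q)) S →
    ∃ (Z : Finset k) (ρ : k → (L →ₐ[k] κ)), Q ≤ D * Z.card ∧
      (∀ ζ ∈ Z, ζ ^ Q = 1 ∧ ρ ζ ⟨t, ht⟩ = algebraMap k κ ζ * t) ∧
      ∀ ζ ∈ Z, ∀ ζ' ∈ Z, ρ ζ ⟨S, hS⟩ = ρ ζ' ⟨S, hS⟩

/-- DEGB, differences of conjugates have bounded degree -/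
def DegbStatement : Prop :=
  ∀ (k κ : Type) [Field k] [Field κ] [Algebra k κ] (t : κ), Transcendental k t →
    ∀ P : MvPolynomial (Fin 2) k, P ≠ 0 → ∃ B : ℕ, ∀ (ζ ζ' : k) (φ φ' : κ) (Λ : ℤ →₀ k),
      ζ ≠ 0 → ζ' ≠ 0 → aeval ![algebraMap k κ ζ * t, φ] P = 0 →
      aeval ![algebraMap k κ ζ' * t, φ'] P = 0 →
      φ - φ' = Λ.sum (fun e c => algebraMap k κ c * t ^ e) →
      ∀ e ∈ Λ.support, -(B : ℤ) ≤ e ∧ e ≤ B

/-- LAC0 -/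
def Lac0Statement : Prop :=
  ∀ (k κ : Type) [Field k] [IsAlgClosed k] [Field κ] [IsAlgClosed κ] [Algebra k κ] (t φ : κ)
    (q M D : ℕ), Transcendental k t → 2 ≤ q → (q : k) ≠ 0 → 1 ≤ M →
    (∀ i : ℕ, Rel2 k D (t ^ (M * q ^ i)) φ) → φ ∈ Set.range (algebraMap k κ)

/-- LAC -/
def LacStatement : Prop :=
  ∀ (k κ : Type) [Field k] [IsAlgClosed k] [Field κ] [IsAlgClosed κ] [Algebra k κ] (t : κ)
    (q M D : ℕ), Transcendental k t → 2 ≤ q → (q : k) ≠ 0 → 1 ≤ M →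
    ∀ (J : Type) [Fintype J] [Nonempty J] (e : J → ℤ) (r : J → ℕ → k) (φ : ℕ → κ),
    (∀ p, e p ≠ 0) → (∀ p p', p ≠ p' → ∀ i j : ℕ, e p * q ^ i ≠ e p' * q ^ j) →
    (∀ p i, r p i ≠ 0) →
    (∀ i, φ (i + 1) = q * φ i + ∑ p, algebraMap k κ (r p i) * t ^ (e p * q ^ i)) →
    (∀ i, Rel2 k D (t ^ (M * q ^ i)) (φ i)) → False

/-- COSET -/
def CosetStatement : Prop :=
  ∀ (k κ : Type) [Field k] [IsAlgClosed k] [Field κ] [IsAlgClosed κ] [Algebra k κ] (u w : κ)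
    (q D : ℕ), Transcendental k u → w ≠ 0 → 2 ≤ q → (q : k) ≠ 0 →
    (∀ i : ℕ, Rel2 k D (u ^ (q ^ i)) (w ^ (q ^ i))) →
    ∃ (β : ℕ) (α : ℤ) (c : k), 1 ≤ β ∧ c ≠ 0 ∧ w ^ β = algebraMap k κ c * u ^ α

/-- COMT, a common parameter -/
def ComtStatement : Prop :=
  ∀ (k κ : Type) [Field k] [IsAlgClosed k] [Field κ] [IsAlgClosed κ] [Algebra k κ] (n ℓ : ℕ)
    (A : Finset (Fin n)) (z : Fin n → κ) (a b : Fin n), 2 ≤ ℓ → a ∈ A → b ∈ A →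
    (∀ j ∈ A, z j ≠ 0) → Transcendental k (z b / z a) →
    (∀ j ∈ A, ∃ (β : ℕ) (α : ℤ) (c : k), 1 ≤ β ∧ c ≠ 0 ∧
      (z j / z a) ^ β = algebraMap k κ c * (z b / z a) ^ α) →
    ∃ (t : κ) (m : Fin n → ℤ) (c : Fin n → k), Transcendental k t ∧ (∀ j, c j ≠ 0) ∧
      (∀ j ∈ A, z j = z a * (algebraMap k κ (c j) * t ^ m j)) ∧ m a = 0 ∧ 1 ≤ m b ∧
      ∃ j ∈ A, ¬ (ℓ : ℤ) ∣ m j

/-! ## O: three or more coordinates are units -/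

/-- REDP, reduction of a polynomial relation -/
def RedpStatement : Prop :=
  ∀ (E Ω k κ Γ : Type) [Field E] [Field Ω] [Algebra E Ω] [Field k] [Field κ] [Algebra k κ]
    [LinearOrderedCommGroupWithZero Γ] (𝔭 : Plc E Ω k κ Γ) (y : Fin 2 → Ω)
    (P : MvPolynomial (Fin 2) E), (∀ i, 𝔭.v (y i) ≤ 1) → P ≠ 0 → aeval y P = 0 →
    ∃ R : MvPolynomial (Fin 2) k, R ≠ 0 ∧ R.support ⊆ P.support ∧
      aeval (fun i => 𝔭.res (y i)) R = 0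

/-- REDR, reduction of a relation -/
def RedrStatement : Prop :=
  ∀ (E Ω k κ Γ : Type) [Field E] [Field Ω] [Algebra E Ω] [Field k] [Field κ] [Algebra k κ]
    [LinearOrderedCommGroupWithZero Γ] (𝔭 : Plc E Ω k κ Γ) (D : ℕ) (u G : Ω) (a s : E),
    𝔭.v u ≤ 1 → 𝔭.v G ≤ 1 → s ≠ 0 →
    Rel2 E D u (algebraMap E Ω a + algebraMap E Ω s * G) → Rel2 k D (𝔭.res u) (𝔭.res G)

/-- DIST, the distance to the constants -/
def DistStatement : Prop :=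
  ∀ (E Ω k κ Γ : Type) [Field E] [IsAlgClosed E] [Field Ω] [Algebra E Ω] [Field k] [Field κ]
    [Algebra k κ] [LinearOrderedCommGroupWithZero Γ] (𝔭 : Plc E Ω k κ Γ) (D : ℕ) (u g : Ω),
    𝔭.v u ≤ 1 → Transcendental k (𝔭.res u) → Rel2 E D u g → g ∉ Set.range (algebraMap E Ω) →
    ∃ a s : E, s ≠ 0 ∧ 𝔭.v (g - algebraMap E Ω a) = 𝔭.v (algebraMap E Ω s) ∧
      𝔭.res ((g - algebraMap E Ω a) / algebraMap E Ω s) ∉ Set.range (algebraMap k κ)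

/-- ITER -/
def IterStatement : Prop :=
  ∀ (E Ω k κ Γ : Type) [Field E] [Field Ω] [Algebra E Ω] [Field k] [Field κ] [Algebra k κ]
    [LinearOrderedCommGroupWithZero Γ] (𝔭 : Plc E Ω k κ Γ) (q : ℕ) (s a : E) (g : ℕ → Ω)
    (β : ℕ → E) (ρ : ℕ → Ω) (G : Ω), 1 ≤ q → s ≠ 0 → 𝔭.v (algebraMap E Ω s) < 1 →
    (∀ i, 𝔭.v (algebraMap E Ω (β i)) < 1) → (∀ i, 𝔭.v (ρ i) ≤ 1) →
    (∀ i, g (i + 1) = g i ^ q * (1 + algebraMap E Ω (β i) + algebraMap E Ω s * ρ i)) →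
    𝔭.v (algebraMap E Ω a) = 1 → 𝔭.v G ≤ 1 →
    g 0 = algebraMap E Ω a * (1 + algebraMap E Ω s * G) →
    ∃ (a' : ℕ → E) (G' : ℕ → Ω), G' 0 = G ∧ (∀ i, 𝔭.v (algebraMap E Ω (a' i)) = 1) ∧
      (∀ i, 𝔭.v (G' i) ≤ 1) ∧
      (∀ i, g i = algebraMap E Ω (a' i) * (1 + algebraMap E Ω s * G' i)) ∧
      ∀ i, 𝔭.res (G' (i + 1)) = q * 𝔭.res (G' i) + 𝔭.res (ρ i)

/-- OBD, a character is as close to a constant as the perturbation allows -/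
def ObdStatement : Prop :=
  ∀ (E Ω k κ Γ : Type) [Field E] [IsAlgClosed E] [Field Ω] [Algebra E Ω] [Field k]
    [IsAlgClosed k] [Field κ] [IsAlgClosed κ] [Algebra k κ]
    [LinearOrderedCommGroupWithZero Γ] (𝔭 : Plc E Ω k κ Γ) (q M D : ℕ) (s : E) (g u ρ : ℕ → Ω)
    (β : ℕ → E) (t : κ) (c : ℕ → k), 2 ≤ q → (q : k) ≠ 0 → 1 ≤ M → Transcendental k t →
    s ≠ 0 → 𝔭.v (algebraMap E Ω s) < 1 →
    (∀ i, 𝔭.v (algebraMap E Ω (β i)) < 1) → (∀ i, 𝔭.v (ρ i) ≤ 1) →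
    (∀ i, g (i + 1) = g i ^ q * (1 + algebraMap E Ω (β i) + algebraMap E Ω s * ρ i)) →
    (∀ i, 𝔭.v (u i) ≤ 1) → (∀ i, c i ≠ 0) →
    (∀ i, 𝔭.res (u i) = algebraMap k κ (c i) * t ^ (M * q ^ i)) →
    (∀ i, Rel2 E D (u i) (g i)) → 𝔭.v (g 0) = 1 → 𝔭.res (g 0) ∈ Set.range (algebraMap k κ) →
    ∃ (a : E) (G : Ω), 𝔭.v (algebraMap E Ω a) = 1 ∧ 𝔭.v G ≤ 1 ∧
      g 0 = algebraMap E Ω a * (1 + algebraMap E Ω s * G)

/-- EXPW -/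
def ExpwStatement : Prop :=
  ∀ (Ω Γ : Type) [Field Ω] [LinearOrderedCommGroupWithZero Γ] (v : Valuation Ω Γ) (η : Ω)
    (w : ℤ), v η < 1 → v ((1 + η) ^ w - 1 - w * η) ≤ v η ^ 2

/-- OSTEP, one step for a character -/
def OstepStatement : Prop :=
  ∀ (E Ω Γ : Type) [Field E] [Field Ω] [Algebra E Ω] [LinearOrderedCommGroupWithZero Γ]
    (v : Valuation Ω Γ) (n q ℓ : ℕ) (F : Fin n → MvPolynomial (Fin n) E), 2 ≤ n → 2 ≤ q →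
    v (ℓ : Ω) < 1 → Fam v n q ℓ F → ∀ (A : Finset (Fin n)) (x : Fin n → Ω) (w : Fin n → ℤ),
    (∀ j ∈ A, v (x j) = 1) → (∀ j ∉ A, v (x j) ≤ v (ℓ : Ω) ^ (2 * n ^ 2)) →
    v ((∏ j ∈ A, gAct F Ω x j ^ w j) / (∏ j ∈ A, x j ^ w j) ^ q -
      (1 + ∑ j ∈ A, ∑ k ∈ A.erase j, (w j : Ω) * (ℓ : Ω) ^ ex j k * (x k / x j) ^ (q - 1))) ≤
      v (ℓ : Ω) ^ (2 * n ^ 2)

/-- LEMW -/
def LemwStatement : Prop :=
  ∀ (n ℓ : ℕ) (A : Finset (Fin n)) (m : Fin n → ℤ), ℓ.Prime → 3 ≤ A.card →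
    (∃ j ∈ A, ∃ k ∈ A, ¬ (ℓ : ℤ) ∣ m j - m k) →
    ∃ (w : Fin n → ℤ) (N₀ : ℕ), (∀ j ∉ A, w j = 0) ∧ ∑ j, w j = 0 ∧ ∑ j, w j * m j = 0 ∧
      1 ≤ N₀ ∧ N₀ + 1 ≤ 2 * n ^ 2 ∧
      (∀ j ∈ A, ∀ k ∈ A, m j ≠ m k → (ℓ : ℤ) ^ N₀ ∣ w j * (ℓ : ℤ) ^ ex j k) ∧
      (∃ j ∈ A, ∃ k ∈ A, m j ≠ m k ∧ ¬ (ℓ : ℤ) ^ (N₀ + 1) ∣ w j * (ℓ : ℤ) ^ ex j k) ∧
      ∀ j ∈ A, ∀ k ∈ A, ∀ j' ∈ A, ∀ k' ∈ A, m j ≠ m k → m j' ≠ m k' →
        ¬ (ℓ : ℤ) ^ (N₀ + 1) ∣ w j * (ℓ : ℤ) ^ ex j k →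
        ¬ (ℓ : ℤ) ^ (N₀ + 1) ∣ w j' * (ℓ : ℤ) ^ ex j' k' → (j, k) ≠ (j', k') →
        ∀ q r s : ℕ, ¬ ℓ ∣ q → (m k - m j) * (q : ℤ) ^ r ≠ (m k' - m j') * (q : ℤ) ^ s

/-- OFIN, the case of three or more units -/
def OfinStatement : Prop :=
  ∀ (E Ω k κ Γ : Type) [Field E] [CharZero E] [IsAlgClosed E] [Field Ω] [Algebra E Ω] [Field k]
    [IsAlgClosed k] [Field κ] [IsAlgClosed κ] [Algebra k κ]
    [LinearOrderedCommGroupWithZero Γ] (𝔭 : Plc E Ω k κ Γ) (n q ℓ c : ℕ)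
    (F : Fin n → MvPolynomial (Fin n) E) (x : Fin n → Ω) (A : Finset (Fin n)), ℓ.Prime →
    2 ≤ q → ¬ ℓ ∣ q → CharP k ℓ → Fam 𝔭.v n q ℓ F →
    (∀ i T, HW E ((gAct F Ω)^[i] x) T ≤ c * (T + 1)) → 3 ≤ A.card →
    (∀ j ∈ A, 𝔭.v (x j) = 1) → (∀ j ∉ A, 𝔭.v (x j) ≤ 𝔭.v (ℓ : Ω) ^ (2 * n ^ 2)) →
    ∀ (a b : Fin n) (t : κ) (m : Fin n → ℤ) (d : Fin n → k), a ∈ A → b ∈ A →
    Transcendental k t → (∀ j, d j ≠ 0) →
    (∀ j ∈ A, 𝔭.res (x j) = 𝔭.res (x a) * (algebraMap k κ (d j) * t ^ m j)) →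
    m a = 0 → 1 ≤ m b → (∃ j ∈ A, ¬ (ℓ : ℤ) ∣ m j) → False

/-! ## T: exactly two coordinates are units -/

/-- RESQ, the reduction of the orbit -/
def ResqStatement : Prop :=
  ∀ (E Ω k κ Γ : Type) [Field E] [Field Ω] [Algebra E Ω] [Field k] [Field κ] [Algebra k κ]
    [LinearOrderedCommGroupWithZero Γ] (𝔭 : Plc E Ω k κ Γ) (n q ℓ : ℕ)
    (F : Fin n → MvPolynomial (Fin n) E), 1 ≤ n → 2 ≤ q → 𝔭.v (ℓ : Ω) < 1 → Fam 𝔭.v n q ℓ F →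
    ∀ y : Fin n → Ω, (∀ j, 𝔭.v (y j) ≤ 1) → ∀ i : ℕ,
    (∀ j, 𝔭.v ((gAct F Ω)^[i] y j) ≤ 1) ∧
    (∀ j, 𝔭.res ((gAct F Ω)^[i] y j) = 𝔭.res (y j) ^ (q ^ i))

/-- SMALL, the small coordinates become very small -/
def SmallStatement : Prop :=
  ∀ (E Ω k κ Γ : Type) [Field E] [Field Ω] [Algebra E Ω] [Field k] [Field κ] [Algebra k κ]
    [LinearOrderedCommGroupWithZero Γ] (𝔭 : Plc E Ω k κ Γ) (n q ℓ : ℕ)
    (F : Fin n → MvPolynomial (Fin n) E), 1 ≤ n → 2 ≤ q → (ℓ : Ω) ≠ 0 → 𝔭.v (ℓ : Ω) < 1 →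
    Fam 𝔭.v n q ℓ F → ∀ r : Γ, r < 1 → ∃ i₀ : ℕ, ∀ y : Fin n → Ω, (∀ j, 𝔭.v (y j) ≤ 1) →
    ∀ j, 𝔭.v (y j) ≤ r → ∀ i, i₀ ≤ i → 𝔭.v ((gAct F Ω)^[i] y j) ≤ 𝔭.v (ℓ : Ω) ^ (2 * n ^ 2)

/-- SLOPE -/
def SlopeStatement : Prop :=
  ∀ (E Ω k κ Γ : Type) [Field E] [Field Ω] [Algebra E Ω] [Field k] [Field κ] [Algebra k κ]
    [LinearOrderedCommGroupWithZero Γ] (𝔭 : Plc E Ω k κ Γ) (P : MvPolynomial (Fin 2) E),
    P ≠ 0 → ∃ r : Γ, r < 1 ∧ ∀ U V : Ω, 𝔭.v U ≤ 1 → Transcendental k (𝔭.res U) → 𝔭.v V < 1 →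
      aeval ![U, V] P = 0 → 𝔭.v V ≤ r

/-- GOODR, conjugates of the orbit -/
def GoodrStatement : Prop :=
  ∀ (E Ω k κ Γ : Type) [Field E] [Field Ω] [Algebra E Ω] [Field k] [Field κ] [Algebra k κ]
    [LinearOrderedCommGroupWithZero Γ] (𝔭 : Plc E Ω k κ Γ) (n q ℓ : ℕ)
    (F : Fin n → MvPolynomial (Fin n) E), 2 ≤ q → 𝔭.v (ℓ : Ω) < 1 → Fam 𝔭.v n q ℓ F →
    ∀ (a : Fin n) (y y' : Fin n → Ω) (i : ℕ), (∀ j, 𝔭.v (y j) ≤ 1) → y a = 1 → y' a = 1 →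
    (∀ j, (gAct F Ω)^[i] y' j * (gAct F Ω)^[i] y a =
      (gAct F Ω)^[i] y j * (gAct F Ω)^[i] y' a) →
    (∀ j, 𝔭.v (y' j) ≤ 1) ∧ ∀ j, 𝔭.res (y' j) ^ (q ^ i) = 𝔭.res (y j) ^ (q ^ i)

/-- TCORE, injectivity near a coordinate line -/
def TcoreStatement : Prop :=
  ∀ (E Ω k κ Γ : Type) [Field E] [Field Ω] [Algebra E Ω] [Field k] [Field κ] [Algebra k κ]
    [LinearOrderedCommGroupWithZero Γ] (𝔭 : Plc E Ω k κ Γ) (n q ℓ : ℕ)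
    (F : Fin n → MvPolynomial (Fin n) E), 3 ≤ n → 2 ≤ q → (ℓ : Ω) ≠ 0 → 𝔭.v (ℓ : Ω) < 1 →
    𝔭.v (q : Ω) = 1 → Fam 𝔭.v n q ℓ F → ∀ (a b : Fin n), a < b → ∀ Y Y' : Fin n → Ω,
    Y a = 1 → Y' a = 1 → 𝔭.v (Y b) ≤ 1 → 𝔭.v (Y' b) ≤ 1 →
    Transcendental k (𝔭.res (Y b)) → Transcendental k (𝔭.res (Y' b)) →
    (∀ j, j ≠ a → j ≠ b → 𝔭.v (Y j) ≤ 𝔭.v (ℓ : Ω) ^ (2 * n ^ 2)) →
    (∀ j, j ≠ a → j ≠ b → 𝔭.v (Y' j) ≤ 𝔭.v (ℓ : Ω) ^ (2 * n ^ 2)) →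
    (∀ j, gAct F Ω Y' j * gAct F Ω Y a = gAct F Ω Y j * gAct F Ω Y' a) → Y' = Y

/-- FIXF -/
def FixfStatement : Prop :=
  ∀ (E Ω : Type) [Field E] [CharZero E] [Field Ω] [IsAlgClosed Ω] [Algebra E Ω]
    (K' L : IntermediateField E Ω) (_ : K' ≤ L), (∀ z ∈ L, IsAlgebraic K' z) →
    ∀ (f : Ω) (hf : f ∈ L), (∀ τ : L →ₐ[E] Ω, (∀ z : L, (z : Ω) ∈ K' → τ z = z) →
      τ ⟨f, hf⟩ = f) → f ∈ K'

/-- TFIN, the case of two units -/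
def TfinStatement : Prop :=
  ∀ (E Ω k κ Γ : Type) [Field E] [CharZero E] [Field Ω] [IsAlgClosed Ω] [Algebra E Ω] [Field k]
    [Field κ] [Algebra k κ] [LinearOrderedCommGroupWithZero Γ] (𝔭 : Plc E Ω k κ Γ)
    (n q ℓ c : ℕ) (F : Fin n → MvPolynomial (Fin n) E) (x : Fin n → Ω), 3 ≤ n → ℓ.Prime →
    2 ≤ q → ¬ ℓ ∣ q → CharP k ℓ → Fam 𝔭.v n q ℓ F →
    (∀ i T, HW E ((gAct F Ω)^[i] x) T ≤ c * (T + 1)) → ∀ a b : Fin n, a < b →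
    (∀ j, 𝔭.v (x j) ≤ 1) → (∀ j, j ≠ a → j ≠ b → 𝔭.v (x j) < 1) →
    AlgebraicIndependent k ![𝔭.res (x a), 𝔭.res (x b)] → False

/-! ## F: the result -/

/-- NOPER, no periodic curves -/
def NoperStatement : Prop :=
  ∀ (K : Type) [Field K] [NumberField K] (n q ℓ : ℕ) (F : Fin n → MvPolynomial (Fin n) (𝓞 K)),
    3 ≤ n → 2 ≤ q → ℓ.Prime → ¬ ℓ ∣ q → (∀ j, (F j).IsHomogeneous q) →
    (∀ j, ∃ G : MvPolynomial (Fin n) (𝓞 K),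
      F j = X j ^ q + per (𝓞 K) n q ℓ j + C ((ℓ : 𝓞 K) ^ (2 * n ^ 2 + 1)) * G) →
    ∀ (r e : ℕ) (Q : Ideal (MvPolynomial (Fin n) K)), 0 < r → Q.IsPrime →
    (∀ G ∈ Q, ∀ d, homogeneousComponent d G ∈ Q) →
    (∀ T, Module.finrank K ↥(homogeneousSubmodule (Fin n) K T ⊓ Q.restrictScalars K) + (T + 1) ≤
      Module.finrank K (homogeneousSubmodule (Fin n) K T)) →
    (∀ T, Module.finrank K (homogeneousSubmodule (Fin n) K T) ≤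
      Module.finrank K ↥(homogeneousSubmodule (Fin n) K T ⊓ Q.restrictScalars K) +
        e * (T + 1)) →
    ¬ ∀ G ∈ Q, (bind₁ fun j => map (algebraMap (𝓞 K) K) (F j))^[r] G ∈ Q

/-- CLS, the forms over the integers -/
def ClsStatement : Prop :=
  ∀ (n q p ℓ : ℕ), 3 ≤ n → 2 ≤ q → p.Prime → ℓ.Prime → p ≠ ℓ →
    ∃ (N : ℕ) (A : Fin n → MvPolynomial (Fin n) ℤ), 0 < N ∧ (∀ j, (A j).IsHomogeneous q) ∧
    ∀ (K : Type) [Field K] [NumberField K] (F : Fin n → MvPolynomial (Fin n) (𝓞 K)),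
      (∀ j t, (N : 𝓞 K) ∣ coeff t (F j) - ((coeff t (A j) : ℤ) : 𝓞 K)) →
      (∀ j, ∃ G : MvPolynomial (Fin n) (𝓞 K),
        F j = X j ^ q + per (𝓞 K) n q ℓ j + C ((ℓ : 𝓞 K) ^ (2 * n ^ 2 + 1)) * G) ∧
      ∀ j, ∃ G : MvPolynomial (Fin n) (𝓞 K), F j = X j ^ q + C (p : 𝓞 K) * G

end Pool.DynLehmer.FN
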