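import Mathlib
import Pool.Agent.Lib.MP_2194ec_nt.FN.Iface

set_option autoImplicit false

/-!
# COMT: a common parameter
-/

namespace Pool.DynLehmer.FN
open MvPolynomial NumberField Pool.DynLehmer Pool.DynLehmer.SB
open scoped Classical

namespace ComtAux

/-- an element of an extension with a power in an algebraically closed field is in that field -/
theorem mem_of_pow {k κ : Type} [Field k] [IsAlgClosed k] [Field κ] [Algebra k κ] (w : κ)
    (β : ℕ) (hβ : 1 ≤ β) (c : k) (h : w ^ β = algebraMap k κ c) :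
    ∃ d : k, algebraMap k κ d = w := by
  have hint : IsIntegral k w := by
    refine IsIntegral.of_pow (n := β) (by omega) ?_
    rw [h]
    exact isIntegral_algebraMap
  have hd := IsAlgClosed.degree_eq_one_of_irreducible k (minpoly.irreducible hint)
  exact minpoly.mem_range_of_degree_eq_one k w hd

theorem exp_exists {k κ : Type} [Field k] [IsAlgClosed k] [Field κ] [Algebra k κ] (t0 w : κ)
    (β γ : ℕ) (α : ℤ) (c : k) (ht : t0 ≠ 0) (hβ : 1 ≤ β) (hc : c ≠ 0)
    (h : w ^ β = algebraMap k κ c * (t0 ^ (β * γ)) ^ α) :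
    ∃ (m : ℤ) (d : k), d ≠ 0 ∧ w = algebraMap k κ d * t0 ^ m := by
  have hpos : t0 ^ ((γ : ℤ) * α) ≠ 0 := zpow_ne_zero _ ht
  have h2 : (w / t0 ^ ((γ : ℤ) * α)) ^ β = algebraMap k κ c := by
    rw [div_pow, h, ← zpow_natCast (t0 ^ ((γ : ℤ) * α)) β, ← zpow_mul, ← zpow_natCast t0 (β * γ),
      ← zpow_mul]
    have : ((β * γ : ℕ) : ℤ) * α = (γ : ℤ) * α * (β : ℤ) := by push_cast; ring
    rw [this]
    exact mul_div_cancel_right₀ _ (zpow_ne_zero _ ht)
  obtain ⟨d, hd⟩ := mem_of_pow _ β hβ c h2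
  refine ⟨(γ : ℤ) * α, d, ?_, ?_⟩
  · rintro rfl
    rw [map_zero] at hd
    rw [← hd, zero_pow (by omega)] at h2
    exact hc ((map_eq_zero_iff _ (algebraMap k κ).injective).1 h2.symm)
  · rw [hd]
    field_simp

theorem transc_pow {k κ : Type} [Field k] [Field κ] [Algebra k κ] (t : κ) (g : ℕ)
    (hg : 0 < g) (ht : Transcendental k t) : Transcendental k (t ^ g) := by
  intro h
  exact ht (IsAlgebraic.of_pow hg h)

end ComtAux

open ComtAux in
theorem comt : ComtStatement := by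
  intro k κ _ _ _ _ _ n ℓ A z a b hℓ ha hb hz htr H
  have hza : z a ≠ 0 := hz a ha
  have hzb : z b ≠ 0 := hz b hb
  have hab : a ≠ b := by
    rintro rfl
    rw [div_self hza] at htr
    exact htr isAlgebraic_one
  have H' : ∀ j : Fin n, ∃ β : ℕ, 1 ≤ β ∧ (j ∈ A → ∃ (α : ℤ) (c : k), c ≠ 0 ∧
      (z j / z a) ^ β = algebraMap k κ c * (z b / z a) ^ α) := by
    intro j
    by_cases hj : j ∈ A
    · obtain ⟨β, α, c, h1, h2, h3⟩ := H j hj
      exact ⟨β, h1, fun _ => ⟨α, c, h2, h3⟩⟩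
    · exact ⟨1, le_rfl, fun h => absurd h hj⟩
  choose β hβ1 hβ using H'
  set Mx : ℕ := ∏ j ∈ A, β j with hMx
  have hMxpos : 0 < Mx := Finset.prod_pos fun j _ => hβ1 j
  obtain ⟨t0, ht0⟩ := IsAlgClosed.exists_pow_nat_eq (z b / z a) hMxpos
  have ht0ne : t0 ≠ 0 := by
    rintro rfl
    rw [zero_pow hMxpos.ne'] at ht0
    exact div_ne_zero hzb hza ht0.symm
  have ht0tr : Transcendental k t0 := by
    intro h
    apply htr
    rw [← ht0]
    exact h.pow _
  have key : ∀ j : Fin n, ∃ (m : ℤ) (d : k), d ≠ 0 ∧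
      (j ∈ A → z j = z a * (algebraMap k κ d * t0 ^ m)) ∧ (j = a → m = 0) ∧
      (j = b → m = Mx) := by
    intro j
    by_cases hja : j = a
    · refine ⟨0, 1, one_ne_zero, fun _ => ?_, fun _ => rfl, fun h => ?_⟩
      · rw [hja]; simp
      · exact absurd (hja.symm.trans h) hab
    by_cases hjb : j = b
    · refine ⟨(Mx : ℤ), 1, one_ne_zero, fun _ => ?_, fun h => absurd h hja, fun _ => rfl⟩
      rw [hjb, zpow_natCast, ht0, map_one, one_mul]
      field_simp
    by_cases hj : j ∈ A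
    · obtain ⟨α, c, hc, h⟩ := hβ j hj
      have hdvd : β j ∣ Mx := Finset.dvd_prod_of_mem β hj
      obtain ⟨γ, hγ⟩ := hdvd
      rw [← ht0, hγ] at h
      obtain ⟨m, d, hd, hw⟩ := exp_exists t0 (z j / z a) (β j) γ α c ht0ne (hβ1 j) hc h
      refine ⟨m, d, hd, fun _ => ?_, fun h => absurd h hja, fun h => absurd h hjb⟩
      rw [← hw]
      field_simp
    · exact ⟨0, 1, one_ne_zero, fun h => absurd h hj, fun h => absurd h hja,
        fun h => absurd h hjb⟩
  choose m' d hd hzj hma hmb using key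
  have hmbpos : m' b ≠ 0 := by
    rw [hmb b rfl]
    exact_mod_cast hMxpos.ne'
  set g : ℤ := A.gcd m' with hg
  have hgne : g ≠ 0 := by
    intro h0
    rw [hg, Finset.gcd_eq_zero_iff] at h0
    exact hmbpos (h0 b hb)
  have hgnn : 0 ≤ g := by
    have h1 : normalize g = g := Finset.normalize_gcd
    exact Int.nonneg_of_normalize_eq_self h1
  have hgpos : 0 < g := lt_of_le_of_ne hgnn (Ne.symm hgne)
  have hgdvd : ∀ j ∈ A, g ∣ m' j := fun j hj => Finset.gcd_dvd hj
  refine ⟨t0 ^ g.toNat, fun j => m' j / g, d, transc_pow t0 _ (by omega) ht0tr, hd, ?_, ?_, ?_, ?_⟩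
  · intro j hj
    rw [hzj j hj, ← zpow_natCast t0, ← zpow_mul, Int.toNat_of_nonneg hgnn,
      Int.mul_ediv_cancel' (hgdvd j hj)]
  · simp [hma a rfl]
  · obtain ⟨e, he⟩ := hgdvd b hb
    have hpos : 0 < m' b := by
      rw [hmb b rfl]
      exact_mod_cast hMxpos
    show 1 ≤ m' b / g
    rw [he, Int.mul_ediv_cancel_left _ hgne]
    rw [he] at hpos
    have := pos_of_mul_pos_right hpos hgnn
    omega
  · by_contra hcon
    push Not at hcon
    have h1 : A.gcd (fun j => m' j / g) = 1 := Finset.gcd_div_eq_one hb hmbpos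
    have h2 : (ℓ : ℤ) ∣ A.gcd (fun j => m' j / g) := Finset.dvd_gcd hcon
    rw [h1] at h2
    have h3 := Int.eq_one_of_dvd_one (by positivity) h2
    omega

end Pool.DynLehmer.FN
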