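import Mathlib
import Pool.Agent.Lib.MP_2194ec_nt.FN.Iface

set_option autoImplicit false

namespace Pool.DynLehmer.FN
open MvPolynomial
open scoped Classical

namespace LAC0Aux

lemma mem_range_of_isAlgebraic {k κ : Type} [Field k] [IsAlgClosed k] [Field κ] [Algebra k κ]
    {x : κ} (h : IsAlgebraic k x) : x ∈ Set.range (algebraMap k κ) := by
  have hi := h.isIntegral
  have h1 : (minpoly k x).degree = 1 :=
    IsAlgClosed.degree_eq_one_of_irreducible k (minpoly.irreducible hi)
  exact minpoly.mem_range_of_degree_eq_one k x h1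

lemma aeval_two {k S : Type} [Field k] [CommRing S] [Algebra k S] (x y : S)
    (P : MvPolynomial (Fin 2) k) :
    aeval ![x, y] P = Polynomial.eval₂
      (aeval (fun _ : Fin 1 => y) : MvPolynomial (Fin 1) k →ₐ[k] S).toRingHom x
      (finSuccEquiv k 1 P) := by
  have h : (aeval ![x, y] : MvPolynomial (Fin 2) k →ₐ[k] S).toRingHom =
      (Polynomial.eval₂RingHom
        (aeval (fun _ : Fin 1 => y) : MvPolynomial (Fin 1) k →ₐ[k] S).toRingHom x).comp
        (finSuccEquiv k 1).toAlgHom.toRingHom := by
    apply MvPolynomial.ringHom_ext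
    · intro r
      simp [finSuccEquiv_apply]
    · intro i
      refine Fin.cases ?_ (fun j => ?_) i
      · change aeval ![x, y] (X 0) = Polynomial.eval₂ _ x (finSuccEquiv k 1 (X 0))
        rw [finSuccEquiv_X_zero, Polynomial.eval₂_X, aeval_X]
        rfl
      · have hj : j = 0 := Subsingleton.elim _ _
        subst hj
        change aeval ![x, y] (X (Fin.succ 0)) =
          Polynomial.eval₂ _ x (finSuccEquiv k 1 (X (Fin.succ 0)))
        rw [finSuccEquiv_X_succ, Polynomial.eval₂_C, aeval_X]
        change y = aeval (fun _ : Fin 1 => y) (X 0)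
        rw [aeval_X]
  exact congrArg (fun f => f P) h

lemma injective_aeval {k S : Type} [Field k] [CommRing S] [Algebra k S] {y : S}
    (hy : Transcendental k y) :
    Function.Injective (aeval (fun _ : Fin 1 => y) : MvPolynomial (Fin 1) k →ₐ[k] S).toRingHom := by
  have h : AlgebraicIndependent k (fun _ : Fin 1 => y) := by
    rw [algebraicIndependent_unique_type_iff]
    exact hy
  exact h

lemma card_le {k κ : Type} [Field k] [Field κ] [Algebra k κ] (P : MvPolynomial (Fin 2) k)
    (hP : P ≠ 0) (M : ℕ) (hM : 1 ≤ M) (φ : κ) (hφ : Transcendental k φ) (Z : Finset κ)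
    (hZ : ∀ z ∈ Z, aeval ![z ^ M, φ] P = 0) :
    Z.card ≤ (finSuccEquiv k 1 P).natDegree * M := by
  set f := (aeval (fun _ : Fin 1 => φ) : MvPolynomial (Fin 1) k →ₐ[k] κ).toRingHom with hf
  have hfi : Function.Injective f := injective_aeval hφ
  set Q : Polynomial κ := (finSuccEquiv k 1 P).map f with hQ
  have hP' : finSuccEquiv k 1 P ≠ 0 := by
    intro h
    exact hP ((finSuccEquiv k 1).injective (by rw [h, map_zero]))
  have hQ0 : Q ≠ 0 := by
    intro h
    exact hP' (Polynomial.map_injective f hfi (by rw [Polynomial.map_zero]; exact h))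
  have hW0 : Polynomial.expand κ M Q ≠ 0 := (Polynomial.expand_ne_zero hM).2 hQ0
  have h1 : Z.card ≤ (Polynomial.expand κ M Q).natDegree := by
    refine Polynomial.card_le_degree_of_subset_roots ?_
    intro z hz
    rw [Polynomial.mem_roots hW0, Polynomial.IsRoot, Polynomial.expand_eval,
      hQ, Polynomial.eval_map, ← aeval_two]
    exact hZ z hz
  rw [Polynomial.natDegree_expand] at h1
  exact h1.trans (Nat.mul_le_mul_right _ Polynomial.natDegree_map_le)

lemma alg_of_rel {k κ : Type} [Field k] [Field κ] [Algebra k κ] (F : IntermediateField k κ)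
    {a b : κ} (ha : a ∈ F) (hat : Transcendental k a) (P : MvPolynomial (Fin 2) k)
    (hP : P ≠ 0) (h : aeval ![a, b] P = 0) : IsAlgebraic F b := by
  have hat' : Transcendental k (⟨a, ha⟩ : F) := by
    intro h1
    exact hat (by simpa using h1.algebraMap (A := κ))
  set P' : MvPolynomial (Fin 2) k := rename (Equiv.swap (0 : Fin 2) 1) P with hP'
  have hP'0 : P' ≠ 0 := by
    intro h1
    exact hP (rename_injective _ (Equiv.swap (0 : Fin 2) 1).injective (by rw [map_zero]; exact h1))
  have h2 : aeval ![b, a] P' = 0 := by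
    rw [hP', aeval_rename]
    have : (![b, a] ∘ (Equiv.swap (0 : Fin 2) 1)) = ![a, b] := by
      funext i
      fin_cases i <;> simp
    rw [this]
    exact h
  set f := (aeval (fun _ : Fin 1 => (⟨a, ha⟩ : F)) : MvPolynomial (Fin 1) k →ₐ[k] F).toRingHom
    with hf
  refine ⟨(finSuccEquiv k 1 P').map f, ?_, ?_⟩
  · intro h3
    have h4 : finSuccEquiv k 1 P' = 0 :=
      Polynomial.map_injective f (injective_aeval hat') (by rw [Polynomial.map_zero]; exact h3)
    exact hP'0 ((finSuccEquiv k 1).injective (by rw [h4, map_zero]))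
  · rw [Polynomial.aeval_def, Polynomial.eval₂_map]
    have h5 : (algebraMap F κ).comp f =
        (aeval (fun _ : Fin 1 => a) : MvPolynomial (Fin 1) k →ₐ[k] κ).toRingHom := by
      apply MvPolynomial.ringHom_ext
      · intro r
        have e1 : f (C r) = algebraMap k F r := by
          rw [hf]
          exact (aeval (fun _ : Fin 1 => (⟨a, ha⟩ : F)) : MvPolynomial (Fin 1) k →ₐ[k] F).commutes r
        have e2 : (aeval (fun _ : Fin 1 => a) : MvPolynomial (Fin 1) k →ₐ[k] κ).toRingHom (C r) =
            algebraMap k κ r :=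
          (aeval (fun _ : Fin 1 => a) : MvPolynomial (Fin 1) k →ₐ[k] κ).commutes r
        rw [e2, RingHom.comp_apply, e1]
        rfl
      · intro i
        simp [hf]
    rw [h5, ← aeval_two]
    exact h2

end LAC0Aux

open LAC0Aux in
theorem lac0 (haut : AutStatement) : Lac0Statement := by
  intro k κ _ _ _ _ _ t φ q M D ht hq hqk hM hrel
  by_contra hφ
  have hφt : Transcendental k φ := fun h => hφ (mem_range_of_isAlgebraic h)
  obtain ⟨P, hP0, -, hP⟩ := hrel 0
  rw [pow_zero, mul_one] at hP
  have ht0 : t ≠ 0 := by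
    rintro rfl
    exact ht isAlgebraic_zero
  have htF : t ∈ IntermediateField.adjoin k {t} :=
    IntermediateField.subset_adjoin k {t} (Set.mem_singleton t)
  set L : IntermediateField k κ :=
    (algebraicClosure (IntermediateField.adjoin k {t}) κ).restrictScalars k with hL
  have hmem : ∀ z : κ, z ∈ L ↔ IsAlgebraic (IntermediateField.adjoin k {t}) z := fun z => by
    rw [hL, IntermediateField.mem_restrictScalars, mem_algebraicClosure_iff]
  have htL : t ∈ L := (hmem t).2 (isAlgebraic_algebraMap (⟨t, htF⟩ : IntermediateField.adjoin k {t}))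
  have hφL : φ ∈ L := (hmem φ).2
    (alg_of_rel _ (pow_mem htF M) (ht.pow (by omega)) P hP0 hP)
  set B := (finSuccEquiv k 1 P).natDegree * M with hB
  have key : ∀ i : ℕ, q ^ i ≤ D * B := by
    intro i
    obtain ⟨Z, ρ, hQ, hZ, hS⟩ := haut k κ t L htL ht (fun z hz => (hmem z).1 hz) (q ^ i) M D
      (Nat.one_le_pow _ _ (by omega)) (by rw [Nat.cast_pow]; exact pow_ne_zero _ hqk) hM φ hφL
      (hrel i)
    refine hQ.trans (Nat.mul_le_mul_left _ ?_)
    rcases Z.eq_empty_or_nonempty with h0 | ⟨ζ₀, hζ₀⟩
    · rw [h0]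
      simp
    · set φ' := ρ ζ₀ ⟨φ, hφL⟩ with hφ'
      have hφ't : Transcendental k φ' := by
        intro h1
        rw [hφ', isAlgebraic_algHom_iff (ρ ζ₀) (ρ ζ₀).toRingHom.injective] at h1
        exact hφt (by simpa using h1.algebraMap (A := κ))
      have hcard : (Z.image fun ζ => algebraMap k κ ζ * t).card = Z.card := by
        apply Finset.card_image_of_injective
        intro a b hab
        exact (algebraMap k κ).injective (mul_right_cancel₀ ht0 hab)
      rw [← hcard]
      refine card_le P hP0 M hM φ' hφ't _ ?_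
      intro z hz
      obtain ⟨ζ, hζ, rfl⟩ := Finset.mem_image.1 hz
      have h2 : aeval ![(⟨t, htL⟩ : L) ^ M, (⟨φ, hφL⟩ : L)] P = 0 := by
        apply (algebraMap L κ).injective
        rw [map_zero, ← aeval_algebraMap_apply]
        rw [← hP]
        congr 2
        funext j
        fin_cases j <;> simp
      have h3 := congrArg (ρ ζ) h2
      rw [map_zero, comp_aeval_apply] at h3
      rw [← h3, hφ', hS ζ₀ hζ₀ ζ hζ, ← (hZ ζ hζ).2]
      congr 2
      funext j
      fin_cases j
      · exact (map_pow (ρ ζ) (⟨t, htL⟩ : L) M).symm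
      · rfl
  have h1 := key (D * B)
  have h2 : D * B < q ^ (D * B) := Nat.lt_pow_self (by omega)
  omega

end Pool.DynLehmer.FN
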