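import Mathlib
import Pool.Agent.Lib.MP_2194ec_nt.FN.Lac0

set_option autoImplicit false

/-!
# COSET: a uniform relation between the powers of two elements
-/

namespace Pool.DynLehmer.FN
open MvPolynomial
open scoped Classical

namespace CosetAux

section

variable {k S : Type} [Field k] [CommRing S] [Algebra k S]

/-- the value of a polynomial in two variables -/
lemma aeval_eq (u w : S) (P : MvPolynomial (Fin 2) k) :
    aeval ![u, w] P = ∑ d ∈ P.support, algebraMap k S (coeff d P) * (u ^ d 0 * w ^ d 1) := by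
  rw [aeval_def, eval₂_eq']
  refine Finset.sum_congr rfl fun d _ => ?_
  rw [Fin.prod_univ_two]
  rfl

/-- the polynomial with the same monomials and coefficients multiplied by `f` -/
noncomputable def wt (P : MvPolynomial (Fin 2) k) (f : (Fin 2 →₀ ℕ) → k) :
    MvPolynomial (Fin 2) k := ∑ d ∈ P.support, monomial d (coeff d P * f d)

lemma coeff_wt (P : MvPolynomial (Fin 2) k) (f : (Fin 2 →₀ ℕ) → k) (e : Fin 2 →₀ ℕ) :
    coeff e (wt P f) = coeff e P * f e := by
  unfold wt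
  rw [coeff_sum]
  simp only [coeff_monomial]
  rw [Finset.sum_ite_eq' P.support e]
  split_ifs with h
  · rfl
  · rw [notMem_support_iff.1 h, zero_mul]

lemma support_wt (P : MvPolynomial (Fin 2) k) (f : (Fin 2 →₀ ℕ) → k) :
    (wt P f).support ⊆ P.support := by
  intro e he
  rw [mem_support_iff, coeff_wt] at he
  rw [mem_support_iff]
  exact left_ne_zero_of_mul he

lemma aeval_wt (u w : S) (P : MvPolynomial (Fin 2) k) (f : (Fin 2 →₀ ℕ) → k) :
    aeval ![u, w] (wt P f) =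
      ∑ d ∈ P.support, algebraMap k S (coeff d P * f d) * (u ^ d 0 * w ^ d 1) := by
  unfold wt
  rw [map_sum]
  refine Finset.sum_congr rfl fun d _ => ?_
  rw [aeval_monomial, Finsupp.prod_fintype _ _ (fun i => pow_zero _), Fin.prod_univ_two]
  rfl

/-- scaling the variables -/
lemma aeval_scl (u w : S) (P : MvPolynomial (Fin 2) k) (η ξ : k) :
    aeval ![u, w] (wt P fun d => η ^ d 0 * ξ ^ d 1) =
      aeval ![algebraMap k S η * u, algebraMap k S ξ * w] P := by
  rw [aeval_wt, aeval_eq]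
  refine Finset.sum_congr rfl fun d _ => ?_
  rw [map_mul, map_mul, map_pow, map_pow, mul_pow, mul_pow]
  ring

end

section

variable {k κ : Type} [Field k] [Field κ] [Algebra k κ]

/-- the monomials of a relation with the least number of monomials are eigenvectors with the same
eigenvalue -/
lemma eig (u w : κ) (P : MvPolynomial (Fin 2) k)
    (hP : aeval ![u, w] P = 0)
    (hmin : ∀ R : MvPolynomial (Fin 2) k, aeval ![u, w] R = 0 → R.support.card < P.support.card →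
      R = 0)
    (η ξ : k) (h : aeval ![u, w] (wt P fun d => η ^ d 0 * ξ ^ d 1) = 0)
    (d d' : Fin 2 →₀ ℕ) (hd : d ∈ P.support) (hd' : d' ∈ P.support) :
    η ^ d 0 * ξ ^ d 1 = η ^ d' 0 * ξ ^ d' 1 := by
  have h1 : aeval ![u, w] (wt P fun d => η ^ d 0 * ξ ^ d 1 - η ^ d' 0 * ξ ^ d' 1) = 0 := by
    rw [aeval_wt] at h ⊢
    rw [aeval_eq] at hP
    have h2 : ∀ e ∈ P.support, algebraMap k κ (coeff e P * (η ^ e 0 * ξ ^ e 1 -
        η ^ d' 0 * ξ ^ d' 1)) * (u ^ e 0 * w ^ e 1) =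
        algebraMap k κ (coeff e P * (η ^ e 0 * ξ ^ e 1)) * (u ^ e 0 * w ^ e 1) -
        algebraMap k κ (η ^ d' 0 * ξ ^ d' 1) * (algebraMap k κ (coeff e P) *
          (u ^ e 0 * w ^ e 1)) := by
      intro e _
      rw [mul_sub, map_sub, map_mul (algebraMap k κ) (coeff e P) (η ^ d' 0 * ξ ^ d' 1)]
      ring
    rw [Finset.sum_congr rfl h2, Finset.sum_sub_distrib, h, ← Finset.mul_sum, hP, mul_zero,
      sub_zero]
  have h2 : (wt P fun d => η ^ d 0 * ξ ^ d 1 - η ^ d' 0 * ξ ^ d' 1).support ⊆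
      P.support.erase d' := by
    intro e he
    refine Finset.mem_erase.2 ⟨?_, support_wt _ _ he⟩
    rintro rfl
    rw [mem_support_iff, coeff_wt, sub_self, mul_zero] at he
    exact he rfl
  have h3 := hmin _ h1 (lt_of_le_of_lt (Finset.card_le_card h2)
    (Finset.card_erase_lt_of_mem hd'))
  have h4 : coeff d (wt P fun d => η ^ d 0 * ξ ^ d 1 - η ^ d' 0 * ξ ^ d' 1) = 0 := by
    rw [h3, coeff_zero]
  rw [coeff_wt] at h4
  rcases mul_eq_zero.1 h4 with h5 | h5
  · exact absurd h5 (mem_support_iff.1 hd)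
  · exact sub_eq_zero.1 h5

/-- the determinant of three exponents -/
def dt (d0 d1 d2 : Fin 2 →₀ ℕ) : ℤ :=
  ((d1 0 : ℤ) - d0 0) * ((d2 1 : ℤ) - d0 1) - ((d2 0 : ℤ) - d0 0) * ((d1 1 : ℤ) - d0 1)

lemma zeq {η ξ : k} (hη : η ≠ 0) (hξ : ξ ≠ 0) {a b a0 b0 : ℕ}
    (h : η ^ a * ξ ^ b = η ^ a0 * ξ ^ b0) :
    η ^ ((a : ℤ) - a0) * ξ ^ ((b : ℤ) - b0) = 1 := by
  rw [zpow_sub₀ hη, zpow_sub₀ hξ, zpow_natCast, zpow_natCast, zpow_natCast, zpow_natCast]
  have h1 : η ^ a0 ≠ 0 := pow_ne_zero _ hη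
  have h2 : ξ ^ b0 ≠ 0 := pow_ne_zero _ hξ
  rw [div_mul_div_comm, h, div_self (mul_ne_zero h1 h2)]

lemma det_pow {η ξ : k} (hη : η ≠ 0) (hξ : ξ ≠ 0) {d0 d1 d2 : Fin 2 →₀ ℕ}
    (h1 : η ^ d1 0 * ξ ^ d1 1 = η ^ d0 0 * ξ ^ d0 1)
    (h2 : η ^ d2 0 * ξ ^ d2 1 = η ^ d0 0 * ξ ^ d0 1) : η ^ dt d0 d1 d2 = 1 := by
  have e1 := zeq hη hξ h1
  have e2 := zeq hη hξ h2
  set A : ℤ := (d1 0 : ℤ) - d0 0
  set B : ℤ := (d1 1 : ℤ) - d0 1
  set A' : ℤ := (d2 0 : ℤ) - d0 0
  set B' : ℤ := (d2 1 : ℤ) - d0 1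
  have e3 : (η ^ A * ξ ^ B) ^ B' = 1 := by rw [e1, one_zpow]
  have e4 : (η ^ A' * ξ ^ B') ^ B = 1 := by rw [e2, one_zpow]
  rw [mul_zpow, ← zpow_mul, ← zpow_mul] at e3 e4
  have e5 : dt d0 d1 d2 = A * B' - A' * B := rfl
  rw [e5, zpow_sub₀ hη, div_eq_one_iff_eq (zpow_ne_zero _ hη)]
  have e6 : ξ ^ (B * B') ≠ 0 := zpow_ne_zero _ hξ
  have e7 : η ^ (A * B') * ξ ^ (B * B') = η ^ (A' * B) * ξ ^ (B * B') := by
    rw [e3, ← e4, mul_comm B' B]
  exact mul_right_cancel₀ e6 e7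

lemma pow_natAbs {x : k} {n : ℤ} (h : x ^ n = 1) : x ^ n.natAbs = 1 := by
  rcases Int.natAbs_eq n with h1 | h1
  · rw [h1, zpow_natCast] at h
    exact h
  · rw [h1, zpow_neg, zpow_natCast, inv_eq_one] at h
    exact h

/-- Bezout on a line -/
lemma line {α β x y : ℤ} (hc : IsCoprime α β) (h : x * β = y * α) :
    ∃ j : ℤ, x = j * α ∧ y = j * β := by
  obtain ⟨r, s, hrs⟩ := hc
  refine ⟨r * x + s * y, ?_, ?_⟩
  · linear_combination (-x) * hrs + s * h
  · linear_combination (-y) * hrs - r * h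

/-- a Laurent polynomial relation with a coefficient which is not cancelled -/
lemma alg_of_laurent {J : Type*} (s : Finset J) (j : J → ℤ) (c : J → k) (h : κ) (hh : h ≠ 0)
    (hj : ∀ a ∈ s, ∀ b ∈ s, j a = j b → a = b) (a0 : J) (ha0 : a0 ∈ s) (hc : c a0 ≠ 0)
    (hsum : ∑ a ∈ s, algebraMap k κ (c a) * h ^ j a = 0) : IsAlgebraic k h := by
  set M : ℕ := ∑ a ∈ s, (j a).natAbs with hM
  have hMa : ∀ a ∈ s, 0 ≤ j a + M := by
    intro a ha
    have h1 : (j a).natAbs ≤ M := Finset.single_le_sum (f := fun a => (j a).natAbs)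
      (fun _ _ => Nat.zero_le _) ha
    have h2 : -(j a) ≤ (j a).natAbs := by
      rw [← Int.natAbs_neg]
      exact Int.le_natAbs
    have h3 : ((j a).natAbs : ℤ) ≤ M := by exact_mod_cast h1
    omega
  refine ⟨∑ a ∈ s, Polynomial.monomial (j a + M).toNat (c a), ?_, ?_⟩
  · intro h0
    have h1 := congrArg (fun P => Polynomial.coeff P (j a0 + M).toNat) h0
    simp only [Polynomial.finsetSum_coeff, Polynomial.coeff_monomial, Polynomial.coeff_zero] at h1
    rw [Finset.sum_eq_single a0] at h1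
    · rw [if_pos rfl] at h1
      exact hc h1
    · intro b hb hne
      rw [if_neg]
      intro h2
      apply hne
      apply hj b hb a0 ha0
      have h3 := hMa b hb
      have h4 := hMa a0 ha0
      have h5 : ((j b + M).toNat : ℤ) = (j a0 + M).toNat := by rw [h2]
      rw [Int.toNat_of_nonneg h3, Int.toNat_of_nonneg h4] at h5
      omega
    · intro h2
      exact absurd ha0 h2
  · rw [map_sum]
    have h1 : ∀ a ∈ s, Polynomial.aeval h (Polynomial.monomial (j a + M).toNat (c a)) =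
        h ^ M * (algebraMap k κ (c a) * h ^ j a) := by
      intro a ha
      rw [Polynomial.aeval_monomial, ← zpow_natCast h (j a + M).toNat,
        Int.toNat_of_nonneg (hMa a ha), zpow_add₀ hh, zpow_natCast]
      ring
    rw [Finset.sum_congr rfl h1, ← Finset.mul_sum, hsum, mul_zero]

end

end CosetAux

open CosetAux LAC0Aux in
/-- COSET -/
theorem coset (haut : AutStatement) : CosetStatement := by
  intro k κ _ _ _ _ _ u w q D hu hw hq hqk hrel
  have hu0 : u ≠ 0 := by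
    rintro rfl
    exact hu isAlgebraic_zero
  -- a relation with the least number of monomials
  obtain ⟨P0, hP00, -, hP0⟩ := hrel 0
  rw [pow_zero, pow_one, pow_one] at hP0
  have hex : ∃ n : ℕ, ∃ P : MvPolynomial (Fin 2) k, P ≠ 0 ∧ aeval ![u, w] P = 0 ∧
      P.support.card = n := ⟨_, P0, hP00, hP0, rfl⟩
  obtain ⟨P, hPne, hP, hPc⟩ := Nat.find_spec hex
  have hmin : ∀ R : MvPolynomial (Fin 2) k, aeval ![u, w] R = 0 →
      R.support.card < P.support.card → R = 0 := by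
    intro R hR hlt
    by_contra hne
    rw [hPc] at hlt
    exact Nat.find_min hex hlt ⟨R, hne, hR, rfl⟩
  -- the exponents are collinear
  have hcol : ∀ d0 ∈ P.support, ∀ d1 ∈ P.support, ∀ d2 ∈ P.support, dt d0 d1 d2 = 0 := by
    intro d0 hd0 d1 hd1 d2 hd2
    by_contra hdet
    have huF : u ∈ IntermediateField.adjoin k {u} :=
      IntermediateField.subset_adjoin k {u} (Set.mem_singleton u)
    set L : IntermediateField k κ :=
      (algebraicClosure (IntermediateField.adjoin k {u}) κ).restrictScalars k with hL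
    have hmem : ∀ z : κ, z ∈ L ↔ IsAlgebraic (IntermediateField.adjoin k {u}) z := fun z => by
      rw [hL, IntermediateField.mem_restrictScalars, mem_algebraicClosure_iff]
    have huL : u ∈ L :=
      (hmem u).2 (isAlgebraic_algebraMap (⟨u, huF⟩ : IntermediateField.adjoin k {u}))
    have hwL : w ∈ L := (hmem w).2 (alg_of_rel _ huF hu P hPne hP)
    -- relations in `L`
    have hin : ∀ R : MvPolynomial (Fin 2) k, aeval ![u, w] R =
        algebraMap L κ (aeval ![(⟨u, huL⟩ : L), (⟨w, hwL⟩ : L)] R) := by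
      intro R
      rw [← aeval_algebraMap_apply]
      congr 2
      funext j
      fin_cases j <;> simp
    have hρ : ∀ (ρ : L →ₐ[k] κ) (R : MvPolynomial (Fin 2) k),
        aeval ![u, w] R = 0 ↔ aeval ![ρ ⟨u, huL⟩, ρ ⟨w, hwL⟩] R = 0 := by
      intro ρ R
      have h1 : aeval ![ρ ⟨u, huL⟩, ρ ⟨w, hwL⟩] R =
          ρ (aeval ![(⟨u, huL⟩ : L), (⟨w, hwL⟩ : L)] R) := by
        rw [comp_aeval_apply]
        congr 2
        funext j
        fin_cases j <;> simp
      rw [h1, hin, map_eq_zero_iff _ (algebraMap L κ).injective]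
      exact (map_eq_zero ρ).symm
    have key : ∀ i : ℕ, q ^ i ≤ D * (dt d0 d1 d2).natAbs := by
      intro i
      obtain ⟨Z, ρ, hQ, hZ, hS⟩ := haut k κ u L huL hu (fun z hz => (hmem z).1 hz) (q ^ i) 1 D
        (Nat.one_le_pow _ _ (by omega)) (by rw [Nat.cast_pow]; exact pow_ne_zero _ hqk) le_rfl
        (w ^ (q ^ i)) (pow_mem hwL _) (by rw [one_mul]; exact hrel i)
      refine hQ.trans (Nat.mul_le_mul_left _ ?_)
      rcases Z.eq_empty_or_nonempty with h0 | ⟨ζ₀, hζ₀⟩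
      · rw [h0]
        simp
      have hQ0 : q ^ i ≠ 0 := pow_ne_zero _ (by omega)
      have hZ0 : ∀ ζ ∈ Z, ζ ≠ 0 := by
        rintro ζ hζ rfl
        have := (hZ 0 hζ).1
        rw [zero_pow hQ0] at this
        exact zero_ne_one this
      have hroot : ∀ ζ ∈ Z, ζ ^ (dt d0 d1 d2).natAbs = ζ₀ ^ (dt d0 d1 d2).natAbs := by
        intro ζ hζ
        set w1 := ρ ζ ⟨w, hwL⟩ with hw1
        set w0 := ρ ζ₀ ⟨w, hwL⟩ with hw0
        have hw0ne : w0 ≠ 0 := by
          rw [hw0, Ne, map_eq_zero]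
          intro h
          exact hw (congrArg Subtype.val h)
        have hpow : w1 ^ (q ^ i) = w0 ^ (q ^ i) := by
          rw [hw1, hw0, ← map_pow, ← map_pow]
          exact hS ζ hζ ζ₀ hζ₀
        have hξ' : (w1 / w0) ^ (q ^ i) = 1 := by
          rw [div_pow, hpow, div_self (pow_ne_zero _ hw0ne)]
        have hξa : IsAlgebraic k (w1 / w0) := by
          refine IsAlgebraic.of_pow (n := q ^ i) (Nat.pos_of_ne_zero hQ0) ?_
          rw [hξ']
          exact isAlgebraic_one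
        obtain ⟨ξ, hξ⟩ := mem_range_of_isAlgebraic hξa
        have hξ0 : ξ ≠ 0 := by
          rintro rfl
          rw [map_zero] at hξ
          rw [← hξ, zero_pow hQ0] at hξ'
          exact zero_ne_one hξ'
        have hζ0 : ζ₀ ≠ 0 := hZ0 ζ₀ hζ₀
        have hζn : ζ ≠ 0 := hZ0 ζ hζ
        have hη0 : ζ / ζ₀ ≠ 0 := div_ne_zero hζn hζ0
        have e1 : aeval ![ρ ζ ⟨u, huL⟩, ρ ζ ⟨w, hwL⟩] P = 0 := (hρ (ρ ζ) P).1 hP
        have e2 : aeval ![u, w] (wt P fun d => (ζ / ζ₀) ^ d 0 * ξ ^ d 1) = 0 := by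
          rw [hρ (ρ ζ₀), aeval_scl, hξ, (hZ ζ₀ hζ₀).2, ← hw0, div_mul_cancel₀ _ hw0ne]
          rw [(hZ ζ hζ).2, ← hw1] at e1
          have e3 : algebraMap k κ (ζ / ζ₀) * (algebraMap k κ ζ₀ * u) = algebraMap k κ ζ * u := by
            rw [← mul_assoc, ← map_mul, div_mul_cancel₀ _ hζ0]
          rw [e3]
          exact e1
        have f1 := eig u w P hP hmin (ζ / ζ₀) ξ e2 d1 d0 hd1 hd0
        have f2 := eig u w P hP hmin (ζ / ζ₀) ξ e2 d2 d0 hd2 hd0
        have f3 := pow_natAbs (det_pow hη0 hξ0 f1 f2)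
        rw [div_pow, div_eq_one_iff_eq (pow_ne_zero _ hζ0)] at f3
        exact f3
      have hN : 0 < (dt d0 d1 d2).natAbs := Int.natAbs_pos.2 hdet
      have h1 : Z ⊆ (Polynomial.nthRoots (dt d0 d1 d2).natAbs
          (ζ₀ ^ (dt d0 d1 d2).natAbs)).toFinset := by
        intro ζ hζ
        rw [Multiset.mem_toFinset, Polynomial.mem_nthRoots hN]
        exact hroot ζ hζ
      exact (Finset.card_le_card h1).trans ((Multiset.toFinset_card_le _).trans
        (Polynomial.card_nthRoots _ _))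
    have h1 := key (D * (dt d0 d1 d2).natAbs)
    have h2 : D * (dt d0 d1 d2).natAbs < q ^ (D * (dt d0 d1 d2).natAbs) :=
      Nat.lt_pow_self (by omega)
    omega
  -- two different exponents
  obtain ⟨d0, hd0⟩ : ∃ d0, d0 ∈ P.support := by
    have := MvPolynomial.support_nonempty.2 hPne
    exact this
  obtain ⟨d1, hd1, hne⟩ : ∃ d1 ∈ P.support, d1 ≠ d0 := by
    by_contra hcon
    push Not at hcon
    have h1 : P.support = {d0} := by
      ext d
      rw [Finset.mem_singleton]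
      exact ⟨hcon d, fun h => h ▸ hd0⟩
    rw [aeval_eq, h1, Finset.sum_singleton] at hP
    have h2 : algebraMap k κ (coeff d0 P) ≠ 0 := by
      rw [Ne, map_eq_zero_iff _ (algebraMap k κ).injective]
      exact mem_support_iff.1 hd0
    exact mul_ne_zero h2 (mul_ne_zero (pow_ne_zero _ hu0) (pow_ne_zero _ hw)) hP
  obtain ⟨A, hA⟩ : ∃ A : ℤ, A = (d1 0 : ℤ) - d0 0 := ⟨_, rfl⟩
  obtain ⟨B, hB⟩ : ∃ B : ℤ, B = (d1 1 : ℤ) - d0 1 := ⟨_, rfl⟩
  have hAB : A ≠ 0 ∨ B ≠ 0 := by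
    by_contra hcon
    push Not at hcon
    apply hne
    ext i
    fin_cases i
    · show d1 0 = d0 0
      omega
    · show d1 1 = d0 1
      omega
  obtain ⟨g, α, β, hg, hc, hAg, hBg⟩ : ∃ g α β : ℤ, g ≠ 0 ∧ IsCoprime α β ∧ A = g * α ∧
      B = g * β := by
    have hpos : 0 < Int.gcd A B := by
      rw [Int.gcd_pos_iff]
      exact hAB
    obtain ⟨α, β, h1, h2, h3⟩ := Int.exists_gcd_one (m := A) (n := B) hpos
    refine ⟨(Int.gcd A B : ℤ), α, β, by exact_mod_cast hpos.ne', ?_, ?_, ?_⟩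
    · rw [Int.isCoprime_iff_gcd_eq_one]
      exact h1
    · rw [mul_comm]; exact h2
    · rw [mul_comm]; exact h3
  have hj : ∀ d : Fin 2 →₀ ℕ, ∃ j : ℤ, d ∈ P.support → (d 0 : ℤ) - d0 0 = j * α ∧
      (d 1 : ℤ) - d0 1 = j * β := by
    intro d
    by_cases hd : d ∈ P.support
    · have h1 := hcol d0 hd0 d1 hd1 d hd
      unfold dt at h1
      rw [← hA, ← hB, hAg, hBg] at h1
      have h2 : ((d 0 : ℤ) - d0 0) * β = ((d 1 : ℤ) - d0 1) * α := by
        have h3 : g * (((d 0 : ℤ) - d0 0) * β) = g * (((d 1 : ℤ) - d0 1) * α) := by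
          linear_combination -h1
        exact mul_left_cancel₀ hg h3
      obtain ⟨j, h3, h4⟩ := line hc h2
      exact ⟨j, fun _ => ⟨h3, h4⟩⟩
    · exact ⟨0, fun h => absurd h hd⟩
  choose j hj using hj
  obtain ⟨h, hh⟩ : ∃ h : κ, h = u ^ α * w ^ β := ⟨_, rfl⟩
  have hh0 : h ≠ 0 := by
    rw [hh]
    exact mul_ne_zero (zpow_ne_zero _ hu0) (zpow_ne_zero _ hw)
  have hmon : ∀ d ∈ P.support, u ^ d 0 * w ^ d 1 = (u ^ d0 0 * w ^ d0 1) * h ^ j d := by
    intro d hd
    obtain ⟨h1, h2⟩ := hj d hd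
    rw [hh, mul_zpow, ← zpow_mul, ← zpow_mul, mul_comm α, mul_comm β, ← h1, ← h2,
      ← zpow_natCast u (d 0), ← zpow_natCast w (d 1), ← zpow_natCast u (d0 0),
      ← zpow_natCast w (d0 1)]
    have e1 : u ^ ((d 0 : ℕ) : ℤ) = u ^ ((d0 0 : ℕ) : ℤ) * u ^ ((d 0 : ℤ) - d0 0) := by
      rw [← zpow_add₀ hu0]
      congr 1
      ring
    have e2 : w ^ ((d 1 : ℕ) : ℤ) = w ^ ((d0 1 : ℕ) : ℤ) * w ^ ((d 1 : ℤ) - d0 1) := by
      rw [← zpow_add₀ hw]
      congr 1
      ring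
    rw [e1, e2]
    ring
  have hsum : ∑ d ∈ P.support, algebraMap k κ (coeff d P) * h ^ j d = 0 := by
    have h1 := hP
    rw [aeval_eq] at h1
    have h2 : ∀ d ∈ P.support, algebraMap k κ (coeff d P) * (u ^ d 0 * w ^ d 1) =
        (u ^ d0 0 * w ^ d0 1) * (algebraMap k κ (coeff d P) * h ^ j d) := by
      intro d hd
      rw [hmon d hd]
      ring
    rw [Finset.sum_congr rfl h2, ← Finset.mul_sum] at h1
    exact (mul_eq_zero.1 h1).resolve_left (mul_ne_zero (pow_ne_zero _ hu0) (pow_ne_zero _ hw))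
  have halg : IsAlgebraic k h := by
    refine alg_of_laurent P.support j (fun d => coeff d P) h hh0 ?_ d0 hd0
      (mem_support_iff.1 hd0) hsum
    intro a ha b hb hab
    obtain ⟨h1, h2⟩ := hj a ha
    obtain ⟨h3, h4⟩ := hj b hb
    rw [hab] at h1 h2
    ext i
    fin_cases i
    · show a 0 = b 0
      omega
    · show a 1 = b 1
      omega
  obtain ⟨c, hc'⟩ := mem_range_of_isAlgebraic halg
  have hc0 : c ≠ 0 := by
    rintro rfl
    rw [map_zero] at hc'
    exact hh0 hc'.symm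
  have hβ : β ≠ 0 := by
    rintro rfl
    rw [isCoprime_zero_right, Int.isUnit_iff] at hc
    rw [zpow_zero, mul_one] at hh
    rcases hc with rfl | rfl
    · rw [zpow_one] at hh
      rw [hh] at halg
      exact hu halg
    · rw [zpow_neg_one] at hh
      rw [hh] at halg
      exact hu (by simpa using halg.inv)
  rcases lt_or_gt_of_ne hβ with hneg | hpos
  · refine ⟨(-β).toNat, α, c⁻¹, by omega, inv_ne_zero hc0, ?_⟩
    rw [← zpow_natCast, Int.toNat_of_nonneg (by omega), map_inv₀, hc', hh, zpow_neg]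
    have h1 : u ^ α ≠ 0 := zpow_ne_zero _ hu0
    have h2 : w ^ β ≠ 0 := zpow_ne_zero _ hw
    field_simp
  · refine ⟨β.toNat, -α, c, by omega, hc0, ?_⟩
    rw [← zpow_natCast, Int.toNat_of_nonneg (by omega), hc', hh, zpow_neg]
    have h1 : u ^ α ≠ 0 := zpow_ne_zero _ hu0
    field_simp

end Pool.DynLehmer.FN
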