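import Mathlib
import Pool.Agent.Lib.MP_2194ec_nt.FN.Iface

set_option autoImplicit false

/-!
# DEGB: differences of conjugates have bounded degree
-/

namespace Pool.DynLehmer.FN
open MvPolynomial NumberField Pool.DynLehmer Pool.DynLehmer.SB
open scoped Classical

namespace DegbAux

variable {k κ Γ : Type} [Field k] [Field κ] [Algebra k κ] [LinearOrderedCommGroupWithZero Γ]

/-- distinct powers of `t` have distinct values, so a Laurent sum has the value of its largest
term -/
theorem lau (v : Valuation κ Γ) (hk : ∀ c : k, c ≠ 0 → v (algebraMap k κ c) = 1) (t : κ)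
    (ht : t ≠ 0) (ht1 : v t ≠ 1) {ι : Type} (s : Finset ι) (e : ι → ℤ)
    (he : ∀ i ∈ s, ∀ j ∈ s, e i = e j → i = j) (c : ι → k) (hc : ∀ i ∈ s, c i ≠ 0) :
    ∀ i ∈ s, v t ^ e i ≤ v (∑ i ∈ s, algebraMap k κ (c i) * t ^ e i) := by
  intro i hi
  obtain ⟨j, hj, hmax⟩ := Finset.exists_max_image s (fun i => v t ^ e i) ⟨i, hi⟩
  have hv : ∀ l ∈ s, v (algebraMap k κ (c l) * t ^ e l) = v t ^ e l := by
    intro l hl
    rw [map_mul, hk _ (hc l hl), one_mul, map_zpow₀]
  have h1 : v (∑ i ∈ s, algebraMap k κ (c i) * t ^ e i) =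
      v (algebraMap k κ (c j) * t ^ e j) := by
    refine Valuation.map_sum_eq_of_lt v hj ?_
    intro l hl
    rw [Finset.mem_sdiff, Finset.mem_singleton] at hl
    rw [hv l hl.1, hv j hj]
    refine lt_of_le_of_ne (hmax l hl.1) ?_
    intro h
    have h0 : 0 < v t := by
      rw [zero_lt_iff]
      exact (Valuation.ne_zero_iff v).2 ht
    exact hl.2 (he l hl.1 j hj (zpow_right_injective₀ h0 ht1 h))
  rw [h1, hv j hj]
  exact hmax i hi

theorem bound (v : Valuation κ Γ) (hk : ∀ c : k, c ≠ 0 → v (algebraMap k κ c) = 1) (t : κ)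
    (ht : t ≠ 0) (ht1 : v t ≠ 1) (N : ℕ) (L U : Γ) (hL : 0 < L)
    (hLU : ∀ n ≤ N, L ≤ v t ^ n ∧ v t ^ n ≤ U) (P : MvPolynomial (Fin 2) k) (hP : P ≠ 0)
    (hN : P.totalDegree ≤ N) (ζ : k) (hζ : ζ ≠ 0) (φ : κ)
    (h : aeval ![algebraMap k κ ζ * t, φ] P = 0) : v φ * L ≤ U := by
  by_contra hcon
  rw [not_le] at hcon
  have h01 := hLU 0 (Nat.zero_le _)
  rw [pow_zero] at h01
  have hφ1 : 1 < v φ := by
    by_contra h1
    rw [not_lt] at h1
    have h2 : v φ * L ≤ 1 * 1 := mul_le_mul' h1 h01.1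
    rw [one_mul] at h2
    exact absurd (lt_of_lt_of_le hcon h2) (not_lt.2 h01.2)
  have hne : P.support.Nonempty := by
    rw [Finset.nonempty_iff_ne_empty]
    intro h'
    exact hP (MvPolynomial.support_eq_empty.1 h')
  obtain ⟨m0, hm0, hmax⟩ := Finset.exists_max_image P.support (fun m => m 1) hne
  have hdeg : ∀ m ∈ P.support, m 0 ≤ N := by
    intro m hm
    refine le_trans ?_ (le_trans (MvPolynomial.le_totalDegree hm) hN)
    rw [Finsupp.sum_fintype _ _ (fun _ => rfl), Fin.sum_univ_two]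
    exact Nat.le_add_right _ _
  -- the expansion
  have hexp : aeval ![algebraMap k κ ζ * t, φ] P =
      ∑ m ∈ P.support, algebraMap k κ (coeff m P) *
        ((algebraMap k κ ζ * t) ^ m 0 * φ ^ m 1) := by
    rw [MvPolynomial.aeval_def, MvPolynomial.eval₂_eq']
    refine Finset.sum_congr rfl ?_
    intro m _
    rw [Fin.prod_univ_two]
    rfl
  have hsplit := Finset.sum_filter_add_sum_filter_not P.support (fun m => m 1 = m0 1)
    (fun m => algebraMap k κ (coeff m P) * ((algebraMap k κ ζ * t) ^ m 0 * φ ^ m 1))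
  rw [← hexp, h] at hsplit
  set s1 := P.support.filter (fun m => m 1 = m0 1) with hs1
  set s2 := P.support.filter (fun m => ¬ m 1 = m0 1) with hs2
  have hA : ∑ m ∈ s1, algebraMap k κ (coeff m P) * ((algebraMap k κ ζ * t) ^ m 0 * φ ^ m 1) =
      φ ^ m0 1 * ∑ m ∈ s1, algebraMap k κ (coeff m P * ζ ^ m 0) * t ^ ((m 0 : ℕ) : ℤ) := by
    rw [Finset.mul_sum]
    refine Finset.sum_congr rfl ?_
    intro m hm
    rw [hs1, Finset.mem_filter] at hm
    rw [hm.2, map_mul, map_pow, zpow_natCast]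
    ring
  have hvA : v φ ^ m0 1 * L ≤ v (∑ m ∈ s1, algebraMap k κ (coeff m P) *
      ((algebraMap k κ ζ * t) ^ m 0 * φ ^ m 1)) := by
    rw [hA, map_mul, map_pow]
    refine mul_le_mul_right ?_ _
    have h1 := lau v hk t ht ht1 s1 (fun m => ((m 0 : ℕ) : ℤ)) (by
      intro i hi j hj hij
      rw [hs1, Finset.mem_filter] at hi hj
      ext a
      fin_cases a
      · simpa using hij
      · simp only [Fin.mk_one]
        rw [hi.2, hj.2]) (fun m => coeff m P * ζ ^ m 0) (by
      intro m hm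
      rw [hs1, Finset.mem_filter] at hm
      exact mul_ne_zero (MvPolynomial.mem_support_iff.1 hm.1) (pow_ne_zero _ hζ)) m0 (by
      rw [hs1, Finset.mem_filter]
      exact ⟨hm0, rfl⟩)
    refine le_trans ?_ h1
    simp only [zpow_natCast]
    exact (hLU _ (hdeg m0 hm0)).1
  have hvB : v (∑ m ∈ s2, algebraMap k κ (coeff m P) *
      ((algebraMap k κ ζ * t) ^ m 0 * φ ^ m 1)) < v φ ^ m0 1 * L := by
    refine Valuation.map_sum_lt v ?_ ?_
    · exact mul_ne_zero (pow_ne_zero _ (ne_of_gt (lt_trans zero_lt_one hφ1))) (ne_of_gt hL)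
    · intro m hm
      rw [hs2, Finset.mem_filter] at hm
      have hlt : m 1 < m0 1 := lt_of_le_of_ne (hmax m hm.1) hm.2
      rw [map_mul, map_mul, map_pow, map_pow, map_mul, hk _ (MvPolynomial.mem_support_iff.1 hm.1),
        hk _ hζ, one_mul, one_mul]
      have h1 : v t ^ m 0 * v φ ^ m 1 ≤ U * v φ ^ m 1 :=
        mul_le_mul_left (hLU _ (hdeg m hm.1)).2 _
      have hφ0 : 0 < v φ ^ m 1 := pow_pos (lt_trans zero_lt_one hφ1) _
      have h2 : U * v φ ^ m 1 < v φ * L * v φ ^ m 1 := mul_lt_mul_of_pos_right hcon hφ0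
      have h3 : v φ * L * v φ ^ m 1 = v φ ^ (m 1 + 1) * L := by
        rw [pow_succ]
        rw [mul_comm (v φ ^ m 1) (v φ), mul_assoc, mul_assoc, mul_comm L]
      rw [h3] at h2
      refine lt_of_le_of_lt h1 (lt_of_lt_of_le h2 ?_)
      exact mul_le_mul_left (pow_le_pow_right₀ hφ1.le hlt) _
  have hAB : v (∑ m ∈ s1, algebraMap k κ (coeff m P) *
      ((algebraMap k κ ζ * t) ^ m 0 * φ ^ m 1)) = v (∑ m ∈ s2, algebraMap k κ (coeff m P) *
      ((algebraMap k κ ζ * t) ^ m 0 * φ ^ m 1)) := by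
    have h1 := eq_neg_of_add_eq_zero_left hsplit
    rw [h1, Valuation.map_neg]
  exact absurd (lt_of_le_of_lt hvA (hAB ▸ hvB)) (lt_irrefl _)

/-- a valuation trivial on the constants with `v t < 1` -/
theorem exval (t : κ) (ht : Transcendental k t) : ∃ O : ValuationSubring κ,
    (∀ c : k, c ≠ 0 → O.valuation (algebraMap k κ c) = 1) ∧ O.valuation t < 1 := by
  let A : Subring κ := (Polynomial.aeval (R := k) t).range.toSubring
  have hAk : ∀ c : k, algebraMap k κ c ∈ A := by
    intro c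
    exact ⟨Polynomial.C c, by simp⟩
  have htA : t ∈ A := ⟨Polynomial.X, by simp⟩
  let I : Ideal A := Ideal.span {(⟨t, htA⟩ : A)}
  have hI : I ≠ ⊤ := by
    intro h
    rw [Ideal.eq_top_iff_one, Ideal.mem_span_singleton'] at h
    obtain ⟨⟨a, p, hp⟩, ha⟩ := h
    have h1 : a * t = 1 := congrArg Subtype.val ha
    have h2 : Polynomial.aeval t (p * Polynomial.X - 1 : Polynomial k) = 0 := by
      have hp' : Polynomial.aeval t p = a := hp
      rw [map_sub, map_mul, Polynomial.aeval_X, map_one, hp', h1, sub_self]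
    have h3 : (p * Polynomial.X - 1 : Polynomial k) = 0 := by
      by_contra h4
      exact ht ⟨_, h4, h2⟩
    have h5 := congrArg (Polynomial.eval 0) h3
    simp at h5
  obtain ⟨O, hO, hO2⟩ := Ideal.image_subset_nonunits_valuationSubring I hI
  refine ⟨O, ?_, ?_⟩
  · intro c hc
    have h1 : O.valuation (algebraMap k κ c) ≤ 1 := by
      rw [ValuationSubring.valuation_le_one_iff]
      exact hO (hAk c)
    have h2 : O.valuation (algebraMap k κ c⁻¹) ≤ 1 := by
      rw [ValuationSubring.valuation_le_one_iff]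
      exact hO (hAk c⁻¹)
    refine le_antisymm h1 ?_
    have h3 : O.valuation (algebraMap k κ c) * O.valuation (algebraMap k κ c⁻¹) = 1 := by
      rw [← map_mul, ← map_mul, mul_inv_cancel₀ hc, map_one, map_one]
    calc (1 : O.ValueGroup) = O.valuation (algebraMap k κ c) * O.valuation (algebraMap k κ c⁻¹) :=
          h3.symm
      _ ≤ O.valuation (algebraMap k κ c) * 1 := mul_le_mul_right h2 _
      _ = O.valuation (algebraMap k κ c) := mul_one _
  · have h1 : t ∈ O.nonunits := hO2 ⟨⟨t, htA⟩, Ideal.mem_span_singleton_self _, rfl⟩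
    rwa [ValuationSubring.mem_nonunits_iff] at h1

end DegbAux

open DegbAux in
theorem degb : DegbStatement := by
  intro k κ _ _ _ t ht P hP
  refine ⟨P.totalDegree, ?_⟩
  intro ζ ζ' φ φ' Λ hζ hζ' h h' hΛ e he
  have ht0 : t ≠ 0 := by
    rintro rfl
    exact ht (isAlgebraic_zero)
  have hti : Transcendental k t⁻¹ := by
    intro h1
    exact ht (IsAlgebraic.inv_iff.1 h1)
  have hsum : Λ.sum (fun e c => algebraMap k κ c * t ^ e) =
      ∑ i ∈ Λ.support, algebraMap k κ (Λ i) * t ^ i := rfl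
  -- the comparison
  have key : ∀ (Γ : Type) (_ : LinearOrderedCommGroupWithZero Γ) (v : Valuation κ Γ),
      (∀ c : k, c ≠ 0 → v (algebraMap k κ c) = 1) → v t ≠ 1 → ∀ (L U : Γ), 0 < L →
      (∀ n ≤ P.totalDegree, L ≤ v t ^ n ∧ v t ^ n ≤ U) → v t ^ e * L ≤ U := by
    intro Γ _ v hk ht1 L U hL hLU
    have h1 := bound v hk t ht0 ht1 P.totalDegree L U hL hLU P hP le_rfl ζ hζ φ h
    have h2 := bound v hk t ht0 ht1 P.totalDegree L U hL hLU P hP le_rfl ζ' hζ' φ' h'
    have h3 := lau v hk t ht0 ht1 Λ.support (fun i => i) (fun _ _ _ _ h => h) (fun i => Λ i)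
      (fun i hi => Finsupp.mem_support_iff.1 hi) e he
    rw [← hsum, ← hΛ] at h3
    have h4 : v (φ - φ') ≤ max (v φ) (v φ') := Valuation.map_sub v φ φ'
    rcases le_max_iff.1 (h3.trans h4) with h5 | h5
    · exact le_trans (mul_le_mul_left h5 _) h1
    · exact le_trans (mul_le_mul_left h5 _) h2
  constructor
  · -- `v t < 1`
    obtain ⟨O, hO1, hO2⟩ := exval (k := k) t ht
    have hv0 : 0 < O.valuation t := by
      rw [zero_lt_iff]
      exact (Valuation.ne_zero_iff _).2 ht0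
    have h1 := key O.ValueGroup inferInstance O.valuation hO1 (ne_of_lt hO2)
      (O.valuation t ^ P.totalDegree) 1 (pow_pos hv0 _) (by
        intro n hn
        exact ⟨pow_le_pow_of_le_one hv0.le hO2.le hn, pow_le_one₀ hv0.le hO2.le⟩)
    rw [← zpow_natCast, ← zpow_add₀ (ne_of_gt hv0)] at h1
    have h2 : 0 ≤ e + (P.totalDegree : ℤ) := by
      by_contra h3
      rw [not_le] at h3
      exact absurd h1 (not_le.2 (one_lt_zpow_of_neg₀ hv0 hO2 h3))
    omega
  · -- `v t > 1`
    obtain ⟨O, hO1, hO2⟩ := exval (k := k) t⁻¹ hti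
    rw [map_inv₀] at hO2
    have hv0 : 0 < O.valuation t := by
      rw [zero_lt_iff]
      exact (Valuation.ne_zero_iff _).2 ht0
    have hv1 : 1 < O.valuation t := by
      rwa [inv_lt_one₀ hv0] at hO2
    have h1 := key O.ValueGroup inferInstance O.valuation hO1 (ne_of_gt hv1)
      1 (O.valuation t ^ P.totalDegree) zero_lt_one (by
        intro n hn
        exact ⟨one_le_pow₀ hv1.le, pow_le_pow_right₀ hv1.le hn⟩)
    rw [mul_one, ← zpow_natCast] at h1
    exact (zpow_le_zpow_iff_right₀ hv1).1 h1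

end Pool.DynLehmer.FN
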