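import Mathlib
import Pool.Agent.Lib.MP_2194ec_nt.FN.Iface
import Pool.Agent.Lib.MP_2194ec_nt.SP.Curve

set_option autoImplicit false

/-!
# Module RELW (helper33): bounded relation between a ratio of coordinates and a character
-/

namespace Pool.DynLehmer.FN
open MvPolynomial NumberField Pool.DynLehmer Pool.DynLehmer.SB
open scoped Classical

namespace RelwAux

/-- an element which is too often multiplied into a finite dimensional space gives a relation -/
theorem rel_of_card {E Ω : Type} [Field E] [Field Ω] [Algebra E Ω] (W : Submodule E Ω)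
    [Module.Finite E W] (m n : ℕ) (hc : Module.finrank E W < (m + 1) * (n + 1)) (α β z : Ω)
    (hz : z ≠ 0) (h : ∀ r ≤ m, ∀ s ≤ n, α ^ r * β ^ s * z ∈ W) :
    ∃ P : MvPolynomial (Fin 2) E, P ≠ 0 ∧ P.totalDegree ≤ m + n ∧ P.degreeOf 1 ≤ n ∧
      aeval ![α, β] P = 0 := by
  have h1 : ¬ LinearIndependent E (fun i : Fin (m + 1) × Fin (n + 1) =>
      (⟨α ^ (i.1 : ℕ) * β ^ (i.2 : ℕ) * z, h _ (by omega) _ (by omega)⟩ : W)) := by
    intro hli
    have := hli.fintype_card_le_finrank
    rw [Fintype.card_prod, Fintype.card_fin, Fintype.card_fin] at this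
    omega
  obtain ⟨g, hg, i₀, hi₀⟩ := Fintype.not_linearIndependent_iff.1 h1
  set e : Fin (m + 1) × Fin (n + 1) → (Fin 2 →₀ ℕ) := fun i =>
    Finsupp.single 0 (i.1 : ℕ) + Finsupp.single 1 (i.2 : ℕ) with he
  have he0 : ∀ i, e i 0 = i.1 := fun i => by simp [he]
  have he1 : ∀ i, e i 1 = i.2 := fun i => by simp [he]
  have hinj : Function.Injective e := by
    intro i j hij
    have h2 := he0 i
    have h3 := he1 i
    rw [hij, he0] at h2
    rw [hij, he1] at h3
    exact Prod.ext (Fin.ext h2.symm) (Fin.ext h3.symm)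
  refine ⟨∑ i, monomial (e i) (g i), ?_, ?_, ?_, ?_⟩
  · intro h0
    have h2 := congrArg (coeff (e i₀)) h0
    rw [coeff_sum, Finset.sum_eq_single i₀] at h2
    · rw [coeff_monomial, if_pos rfl, coeff_zero] at h2
      exact hi₀ h2
    · intro j _ hj
      rw [coeff_monomial, if_neg fun h => hj (hinj h)]
    · intro h
      exact absurd (Finset.mem_univ _) h
  · refine totalDegree_finsetSum_le fun i _ => ?_
    refine (totalDegree_monomial_le _ _).trans ?_
    rw [Finsupp.sum_fintype _ _ (fun _ => rfl), Fin.sum_univ_two, he0, he1]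
    simp only [id]
    have := i.1.2
    have := i.2.2
    omega
  · refine (degreeOf_sum_le _ _ _).trans (Finset.sup_le fun i _ => ?_)
    refine (degreeOf_le_iff.2 fun d hd => ?_)
    have h2 := support_monomial_subset hd
    rw [Finset.mem_singleton] at h2
    rw [h2, he1]
    have := i.2.2
    omega
  · have h2 : (aeval ![α, β] (∑ i, monomial (e i) (g i))) * z = 0 := by
      have h3 := congrArg (fun w : W => (w : Ω)) hg
      simp only [Submodule.coe_sum, Submodule.coe_smul, Submodule.coe_zero] at h3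
      rw [map_sum, Finset.sum_mul, ← h3]
      refine Finset.sum_congr rfl fun i _ => ?_
      rw [aeval_monomial, Finsupp.prod_fintype _ _ (fun _ => pow_zero _), Fin.prod_univ_two,
        he0, he1, Algebra.smul_def]
      simp only [Matrix.cons_val_zero, Matrix.cons_val_one]
      ring
    exact (mul_eq_zero.1 h2).resolve_right hz

theorem pow_mem {K : Type} [Field K] {B : Type} [CommRing B] [Algebra K B] {ι : Type}
    {y : ι → B} {T : ℕ} {a : B} (ha : a ∈ VW K y T) (n : ℕ) : a ^ n ∈ VW K y (n * T) := by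
  induction n with
  | zero => simpa using SP.CurveAux.one_mem y
  | succ n ih =>
    rw [pow_succ, Nat.succ_mul]
    exact SP.CurveAux.mul_mem ih ha

theorem prod_mem {K : Type} [Field K] {B : Type} [CommRing B] [Algebra K B] {ι : Type}
    [Fintype ι] (y : ι → B) (p : ι → ℕ) : ∏ i, y i ^ p i ∈ VW K y (∑ i, p i) := by
  have key : ∀ s : Finset ι, ∏ i ∈ s, y i ^ p i ∈ VW K y (∑ i ∈ s, p i) := by
    intro s
    induction s using Finset.induction_on with
    | empty => simpa using SP.CurveAux.one_mem y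
    | insert a s ha ih =>
      rw [Finset.prod_insert ha, Finset.sum_insert ha]
      have h1 := pow_mem (SP.CurveAux.var_mem (K := K) y a) (p a)
      rw [mul_one] at h1
      exact SP.CurveAux.mul_mem h1 ih
  exact key _

theorem one_le {E Ω : Type} [Field E] [Field Ω] [Algebra E Ω] {ι : Type} [Fintype ι]
    (y : ι → Ω) : 1 ≤ HW E y 0 := by
  have := SP.CurveAux.finite_VW (K := E) y 0
  have h1 : (⟨1, SP.CurveAux.one_mem y⟩ : VW E y 0) ≠ 0 := by
    intro h
    exact one_ne_zero (congrArg Subtype.val h)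
  have : Nontrivial (VW E y 0) := ⟨⟨_, _, h1⟩⟩
  exact Module.finrank_pos

end RelwAux

open RelwAux SP.CurveAux in
/-- RELW -/
theorem relw : RelwStatement := by
  intro E _ Ω _ _ ι _ y c hc p m hpm a b
  have hc1 : 1 ≤ c := by
    have h1 := hc 0
    have h2 := one_le (E := E) y
    omega
  set w := ∑ i, p i with hw
  have hD : 1 ≤ 2 * c * (w + 1) := by
    have := Nat.mul_le_mul (show 1 ≤ 2 * c by omega) (show 1 ≤ w + 1 by omega)
    omega
  by_cases ha : y a = 0
  · refine ⟨X 0, X_ne_zero _, ?_, ?_⟩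
    · rw [totalDegree_X]
      exact hD
    · rw [aeval_X, ha]
      simp
  by_cases hm : ∏ i, y i ^ m i = 0
  · refine ⟨X 1, X_ne_zero _, ?_, ?_⟩
    · rw [totalDegree_X]
      exact hD
    · rw [aeval_X, hm]
      simp
  have := finite_VW (K := E) y (w * (2 * c) + (2 * c) * w)
  obtain ⟨P, hP, hPd, -, hP0⟩ := rel_of_card (VW E y (w * (2 * c) + (2 * c) * w))
    (w * (2 * c)) (2 * c) (by
      have h1 := hc (w * (2 * c) + (2 * c) * w)
      unfold HW at h1
      refine lt_of_le_of_lt h1 ?_
      nlinarith [Nat.zero_le (w * c)]) (y b / y a)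
    ((∏ i, y i ^ p i) / ∏ i, y i ^ m i) (y a ^ (w * (2 * c)) * (∏ i, y i ^ m i) ^ (2 * c))
    (mul_ne_zero (pow_ne_zero _ ha) (pow_ne_zero _ hm)) (fun r hr s hs => by
      obtain ⟨r', hr'⟩ := Nat.exists_eq_add_of_le hr
      obtain ⟨s', hs'⟩ := Nat.exists_eq_add_of_le hs
      have h1 : (y b / y a) ^ r * ((∏ i, y i ^ p i) / ∏ i, y i ^ m i) ^ s *
          (y a ^ (w * (2 * c)) * (∏ i, y i ^ m i) ^ (2 * c)) =
          (y b ^ r * y a ^ r') * ((∏ i, y i ^ p i) ^ s * (∏ i, y i ^ m i) ^ s') := by
        rw [hr', hs', pow_add, pow_add, div_pow, div_pow]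
        field_simp
      rw [h1]
      have h2 := mul_mem (pow_mem (var_mem (K := E) y b) r) (pow_mem (var_mem (K := E) y a) r')
      have h3 := mul_mem (pow_mem (prod_mem (K := E) y p) s) (pow_mem (prod_mem (K := E) y m) s')
      have h4 := mul_mem h2 h3
      have e : r * 1 + r' * 1 + (s * ∑ i, p i + s' * ∑ i, m i) =
          w * (2 * c) + (2 * c) * w := by
        rw [← hpm, ← hw, mul_one, mul_one, ← hr', ← Nat.add_mul, ← hs']
      rw [e] at h4
      exact h4)
  refine ⟨P, hP, hPd.trans (le_of_eq ?_), hP0⟩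
  ring

end Pool.DynLehmer.FN
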