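import Mathlib
import Pool.Agent.Lib.MP_2194ec_nt.FN.Relw

set_option autoImplicit false

/-!
# Module DEGF (helper33): degrees over the field generated by a ratio of coordinates
-/

namespace Pool.DynLehmer.FN
open MvPolynomial NumberField Pool.DynLehmer Pool.DynLehmer.SB
open scoped Classical

namespace DegfAux
open SP.CurveAux

/-- elements of the field generated by the ratios `y j / y a` are quotients of values of forms
of the same degree -/
theorem quot {E Ω : Type} [Field E] [Field Ω] [Algebra E Ω] {ι : Type} (y : ι → Ω) (a : ι)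
    (ha : y a ≠ 0) (f : Ω)
    (hf : f ∈ IntermediateField.adjoin E (Set.range fun j => y j / y a)) :
    ∃ D : ℕ, ∃ g ∈ VW E y D, ∃ h ∈ VW E y D, h ≠ 0 ∧ f = g / h := by
  induction hf using IntermediateField.adjoin_induction with
  | mem x hx =>
    obtain ⟨j, rfl⟩ := hx
    exact ⟨1, y j, var_mem y j, y a, var_mem y a, ha, rfl⟩
  | algebraMap c =>
    refine ⟨0, algebraMap E Ω c, ?_, 1, one_mem y, one_ne_zero, (div_one _).symm⟩
    rw [Algebra.algebraMap_eq_smul_one]
    exact Submodule.smul_mem _ _ (one_mem y)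
  | add x z _ _ hx hz =>
    obtain ⟨D, g, hg, h, hh, h0, rfl⟩ := hx
    obtain ⟨D', g', hg', h', hh', h0', rfl⟩ := hz
    refine ⟨D + D', g * h' + h * g', Submodule.add_mem _ (mul_mem hg hh') (mul_mem hh hg'),
      h * h', mul_mem hh hh', mul_ne_zero h0 h0', ?_⟩
    rw [div_add_div _ _ h0 h0']
  | mul x z _ _ hx hz =>
    obtain ⟨D, g, hg, h, hh, h0, rfl⟩ := hx
    obtain ⟨D', g', hg', h', hh', h0', rfl⟩ := hz
    exact ⟨D + D', g * g', mul_mem hg hg', h * h', mul_mem hh hh', mul_ne_zero h0 h0',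
      div_mul_div_comm _ _ _ _⟩
  | inv x _ hx =>
    obtain ⟨D, g, hg, h, hh, h0, rfl⟩ := hx
    by_cases hg0 : g = 0
    · exact ⟨D, 0, Submodule.zero_mem _, h, hh, h0, by rw [hg0]; simp⟩
    · exact ⟨D, h, hh, g, hg, hg0, inv_div _ _⟩

end DegfAux

open DegfAux RelwAux SP.CurveAux in
/-- DEGF -/
theorem degf : DegfStatement := by
  intro E _ Ω _ _ ι _ y c hc a b ha f hf
  obtain ⟨D, g, hg, h, hh, h0, rfl⟩ := quot y a ha f hf
  have := finite_VW (K := E) y (c * c * D + c * D)
  obtain ⟨P, hP, -, hPd, hP0⟩ := rel_of_card (VW E y (c * c * D + c * D))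
    (c * c * D) c (by
      have h1 := hc (c * c * D + c * D)
      unfold HW at h1
      refine lt_of_le_of_lt h1 ?_
      nlinarith) (y b / y a) (g / h) (y a ^ (c * c * D) * h ^ c)
    (mul_ne_zero (pow_ne_zero _ ha) (pow_ne_zero _ h0)) (fun r hr s hs => by
      obtain ⟨r', hr'⟩ := Nat.exists_eq_add_of_le hr
      obtain ⟨s', hs'⟩ := Nat.exists_eq_add_of_le hs
      have h1 : (y b / y a) ^ r * (g / h) ^ s * (y a ^ (c * c * D) * h ^ c) =
          (y b ^ r * y a ^ r') * (g ^ s * h ^ s') := by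
        have e1 : y a ^ (c * c * D) = y a ^ r * y a ^ r' := by rw [hr', pow_add]
        have e2 : h ^ c = h ^ s * h ^ s' := by rw [← pow_add, ← hs']
        rw [e1, e2, div_pow, div_pow]
        field_simp
      rw [h1]
      have h2 := mul_mem (pow_mem (var_mem (K := E) y b) r) (pow_mem (var_mem (K := E) y a) r')
      have h3 := mul_mem (pow_mem hg s) (pow_mem hh s')
      have h4 := mul_mem h2 h3
      have e : r * 1 + r' * 1 + (s * D + s' * D) = c * c * D + c * D := by
        rw [mul_one, mul_one, ← hr', ← Nat.add_mul, ← hs']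
      rw [e] at h4
      exact h4)
  exact ⟨P, hP, hPd, hP0⟩

end Pool.DynLehmer.FN
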