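import Mathlib
import Pool.Agent.Lib.MP_2194ec_nt.FN.Iface

set_option autoImplicit false

/-!
# DIST: the distance to the constants
-/

namespace Pool.DynLehmer.FN
open MvPolynomial NumberField Pool.DynLehmer Pool.DynLehmer.SB
open scoped Classical

namespace DistAux

variable {E Ω k κ Γ : Type} [Field E] [Field Ω] [Algebra E Ω] [Field k] [Field κ] [Algebra k κ]
  [LinearOrderedCommGroupWithZero Γ] (𝔭 : Plc E Ω k κ Γ)

theorem res_zero : 𝔭.res 0 = 0 := by
  rw [𝔭.res_eq_zero 0 (by simp)]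
  simp

theorem res_sum {ι : Type} (s : Finset ι) (f : ι → Ω) (h : ∀ i ∈ s, 𝔭.v (f i) ≤ 1) :
    𝔭.res (∑ i ∈ s, f i) = ∑ i ∈ s, 𝔭.res (f i) := by
  induction s using Finset.induction_on with
  | empty => simpa using res_zero 𝔭
  | insert a s ha ih =>
    rw [Finset.sum_insert ha, Finset.sum_insert ha, 𝔭.res_add _ _ (h a (by simp))
      (Valuation.map_sum_le 𝔭.v fun i hi => h i (by simp [hi])), ih fun i hi => h i (by simp [hi])]

theorem v_pow_le {a : Ω} (h : 𝔭.v a ≤ 1) (n : ℕ) : 𝔭.v (a ^ n) ≤ 1 := by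
  rw [map_pow]
  exact pow_le_one₀ zero_le h

theorem v_mul_le {a b : Ω} (ha : 𝔭.v a ≤ 1) (hb : 𝔭.v b ≤ 1) : 𝔭.v (a * b) ≤ 1 := by
  rw [map_mul]
  exact mul_le_one' ha hb

theorem res_pow {a : Ω} (h : 𝔭.v a ≤ 1) (n : ℕ) : 𝔭.res (a ^ n) = 𝔭.res a ^ n := by
  induction n with
  | zero => simpa using 𝔭.res_one
  | succ n ih => rw [pow_succ, 𝔭.res_mul _ _ (v_pow_le 𝔭 h n) h, ih, pow_succ]

theorem near_one {y : Ω} (h : 𝔭.v (y - 1) < 1) : 𝔭.v y ≤ 1 ∧ 𝔭.res y = 1 := by
  have e : y = 1 + (y - 1) := by ring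
  constructor
  · rw [e]
    refine (𝔭.v.map_add _ _).trans (max_le (by simp) h.le)
  · rw [e, 𝔭.res_add _ _ (by simp) h.le, 𝔭.res_one, (𝔭.res_eq_zero _ h.le).2 h, add_zero]

theorem near_one_mul {y z : Ω} (hy : 𝔭.v (y - 1) < 1) (hz : 𝔭.v (z - 1) < 1) :
    𝔭.v (y * z - 1) < 1 := by
  have e : y * z - 1 = (y - 1) * z + (z - 1) := by ring
  rw [e]
  refine lt_of_le_of_lt (𝔭.v.map_add _ _) (max_lt ?_ hz)
  rw [map_mul]
  exact mul_lt_one_of_lt_of_le hy (near_one 𝔭 hz).1

/-- one linear factor -/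
theorem linear {g : Ω} {a' r : E}
    (h : 𝔭.v (g - algebraMap E Ω a') < 𝔭.v (g - algebraMap E Ω r)) :
    a' ≠ r ∧ ∃ y : Ω, 𝔭.v (y - 1) < 1 ∧
      g - algebraMap E Ω r = algebraMap E Ω (a' - r) * y := by
  have hne : a' ≠ r := by
    rintro rfl
    exact lt_irrefl _ h
  have hv : 𝔭.v (algebraMap E Ω (a' - r)) = 𝔭.v (g - algebraMap E Ω r) := by
    have e : algebraMap E Ω (a' - r) = (g - algebraMap E Ω r) - (g - algebraMap E Ω a') := by
      rw [map_sub]; ring
    rw [e, Valuation.map_sub_eq_of_lt_left _ h]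
  have hne' : algebraMap E Ω (a' - r) ≠ 0 := by
    rw [Ne, map_eq_zero_iff _ (algebraMap E Ω).injective]
    exact sub_ne_zero.2 hne
  refine ⟨hne, (g - algebraMap E Ω r) / algebraMap E Ω (a' - r), ?_, ?_⟩
  · have e : (g - algebraMap E Ω r) / algebraMap E Ω (a' - r) - 1 =
        (g - algebraMap E Ω a') / algebraMap E Ω (a' - r) := by
      rw [div_sub_one hne', map_sub]
      congr 1
      ring
    rw [e, map_div₀, hv]
    refine (div_lt_one₀ ?_).2 h
    exact lt_of_le_of_lt zero_le h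
  · field_simp

/-- a product of linear factors -/
theorem prod_linear {g : Ω} {a' : E} (m : Multiset E)
    (h : ∀ r ∈ m, 𝔭.v (g - algebraMap E Ω a') < 𝔭.v (g - algebraMap E Ω r)) :
    (m.map fun r => a' - r).prod ≠ 0 ∧ ∃ y : Ω, 𝔭.v (y - 1) < 1 ∧
      (m.map fun r => g - algebraMap E Ω r).prod =
        algebraMap E Ω (m.map fun r => a' - r).prod * y := by
  induction m using Multiset.induction_on with
  | empty => exact ⟨by simp, 1, by simp, by simp⟩
  | cons r m ih =>
    obtain ⟨h1, y, hy, e⟩ := ih fun r hr => h r (Multiset.mem_cons_of_mem hr)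
    obtain ⟨h2, z, hz, e'⟩ := linear 𝔭 (h r (Multiset.mem_cons_self r m))
    refine ⟨?_, z * y, near_one_mul 𝔭 hz hy, ?_⟩
    · rw [Multiset.map_cons, Multiset.prod_cons]
      exact mul_ne_zero (sub_ne_zero.2 h2) h1
    · rw [Multiset.map_cons, Multiset.prod_cons, Multiset.map_cons, Multiset.prod_cons, e, e',
        map_mul]
      ring

/-- a polynomial near `a'` -/
theorem poly_near [IsAlgClosed E] {g : Ω} {a' : E} (h : Polynomial E) (hne : h ≠ 0)
    (H : ∀ r ∈ h.roots, 𝔭.v (g - algebraMap E Ω a') < 𝔭.v (g - algebraMap E Ω r)) :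
    h.eval a' ≠ 0 ∧ ∃ y : Ω, 𝔭.v (y - 1) < 1 ∧
      Polynomial.aeval g h = algebraMap E Ω (h.eval a') * y := by
  have hs : h = Polynomial.C h.leadingCoeff * (h.roots.map fun r => Polynomial.X -
      Polynomial.C r).prod := (IsAlgClosed.splits h).eq_prod_roots
  obtain ⟨h1, y, hy, e⟩ := prod_linear 𝔭 h.roots H
  have ev : h.eval a' = h.leadingCoeff * (h.roots.map fun r => a' - r).prod := by
    conv_lhs => rw [hs]
    rw [Polynomial.eval_mul, Polynomial.eval_C, Polynomial.eval_multiset_prod, Multiset.map_map]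
    congr 3
    ext r
    simp
  have ea : Polynomial.aeval g h = algebraMap E Ω h.leadingCoeff *
      (h.roots.map fun r => g - algebraMap E Ω r).prod := by
    conv_lhs => rw [hs]
    rw [map_mul, Polynomial.aeval_C, map_multiset_prod, Multiset.map_map]
    congr 3
    ext r
    simp
  refine ⟨?_, y, hy, ?_⟩
  · rw [ev]
    exact mul_ne_zero (by simpa using hne) h1
  · rw [ea, ev, e, map_mul]
    ring

/-- the coefficients with respect to the second variable -/
noncomputable def co (P : MvPolynomial (Fin 2) E) (r : ℕ) : Polynomial E :=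
  ∑ t ∈ P.support.filter (fun t => t 0 = r), Polynomial.monomial (t 1) (coeff t P)

theorem co_coeff (P : MvPolynomial (Fin 2) E) (t : Fin 2 →₀ ℕ) (ht : t ∈ P.support) :
    (co P (t 0)).coeff (t 1) = coeff t P := by
  unfold co
  rw [Polynomial.finsetSum_coeff, Finset.sum_eq_single t]
  · rw [Polynomial.coeff_monomial, if_pos rfl]
  · intro t' ht' hne
    rw [Polynomial.coeff_monomial, if_neg]
    intro h1
    apply hne
    ext i
    fin_cases i
    · exact (Finset.mem_filter.1 ht').2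
    · exact h1
  · intro h
    exact (h (Finset.mem_filter.2 ⟨ht, rfl⟩)).elim

theorem co_sum (P : MvPolynomial (Fin 2) E) (u g : Ω) :
    aeval ![u, g] P = ∑ r ∈ P.support.image (fun t => t 0),
      Polynomial.aeval g (co P r) * u ^ r := by
  rw [MvPolynomial.aeval_def, MvPolynomial.eval₂_eq']
  rw [← Finset.sum_fiberwise_of_maps_to (t := P.support.image (fun t => t 0))
    (g := fun t : Fin 2 →₀ ℕ => t 0) (fun t ht => Finset.mem_image_of_mem _ ht)]
  refine Finset.sum_congr rfl fun r _ => ?_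
  unfold co
  rw [map_sum, Finset.sum_mul]
  refine Finset.sum_congr rfl fun t ht => ?_
  rw [Fin.prod_univ_two, Polynomial.aeval_monomial]
  rw [(Finset.mem_filter.1 ht).2]
  simp only [Matrix.cons_val_zero, Matrix.cons_val_one]
  ring

/-- better approximations avoiding finitely many constants -/
theorem closer {g : Ω} (H : ∀ a : E, ∃ a' : E,
    𝔭.v (g - algebraMap E Ω a') < 𝔭.v (g - algebraMap E Ω a)) (R : Finset E) :
    ∃ a' : E, ∀ r ∈ R, 𝔭.v (g - algebraMap E Ω a') < 𝔭.v (g - algebraMap E Ω r) := by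
  induction R using Finset.induction_on with
  | empty => exact ⟨0, by simp⟩
  | insert r R _ ih =>
    obtain ⟨a', ha'⟩ := ih
    by_cases h : 𝔭.v (g - algebraMap E Ω a') < 𝔭.v (g - algebraMap E Ω r)
    · refine ⟨a', fun s hs => ?_⟩
      rcases Finset.mem_insert.1 hs with rfl | hs
      · exact h
      · exact ha' s hs
    · obtain ⟨b, hb⟩ := H r
      refine ⟨b, fun s hs => ?_⟩
      rcases Finset.mem_insert.1 hs with rfl | hs
      · exact hb
      · exact hb.trans_le ((not_lt.1 h).trans (ha' s hs).le)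

end DistAux

open DistAux in
theorem dist : DistStatement := by
  intro E Ω k κ Γ _ _ _ _ _ _ _ _ 𝔭 D u g hu htr hrel hg
  by_contra hcon
  push Not at hcon
  have H : ∀ a : E, ∃ a' : E,
      𝔭.v (g - algebraMap E Ω a') < 𝔭.v (g - algebraMap E Ω a) := by
    intro a
    have hne : g - algebraMap E Ω a ≠ 0 := by
      intro h
      exact hg ⟨a, (sub_eq_zero.1 h).symm⟩
    obtain ⟨s, hs, hvs⟩ := 𝔭.val _ hne
    have hsne : algebraMap E Ω s ≠ 0 := by
      rw [Ne, map_eq_zero_iff _ (algebraMap E Ω).injective]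
      exact hs
    obtain ⟨c, hc⟩ := hcon a s hs hvs.symm
    obtain ⟨b, hb, hbc⟩ := 𝔭.const_res c
    set w := (g - algebraMap E Ω a) / algebraMap E Ω s with hw
    have hvw : 𝔭.v w = 1 := by
      rw [hw, map_div₀, hvs, div_self]
      exact (Valuation.ne_zero_iff _).2 hne
    have hneg : 𝔭.v (-algebraMap E Ω b) ≤ 1 := by rwa [Valuation.map_neg]
    have hres : 𝔭.res (w - algebraMap E Ω b) = 0 := by
      have h1 := 𝔭.res_add w (-algebraMap E Ω b) hvw.le hneg
      have h2 := 𝔭.res_add (algebraMap E Ω b) (-algebraMap E Ω b) hb hneg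
      rw [add_neg_cancel, res_zero] at h2
      rw [sub_eq_add_neg, h1, ← hc, ← hbc]
      exact h2.symm
    have hle : 𝔭.v (w - algebraMap E Ω b) ≤ 1 := by
      refine (𝔭.v.map_sub _ _).trans (max_le hvw.le hb)
    have hlt := (𝔭.res_eq_zero _ hle).1 hres
    refine ⟨a + s * b, ?_⟩
    have e : g - algebraMap E Ω (a + s * b) = algebraMap E Ω s * (w - algebraMap E Ω b) := by
      rw [hw, map_add, map_mul]
      field_simp
      ring
    rw [e, map_mul, ← hvs]
    refine mul_lt_of_lt_one_right ?_ hlt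
    exact (Valuation.pos_iff _).2 hsne
  obtain ⟨P, hP, -, hP0⟩ := hrel
  obtain ⟨a', ha'⟩ := closer 𝔭 H ((P.support.image (fun t => t 0)).biUnion
    fun r => (co P r).roots.toFinset)
  have hroots : ∀ r ∈ P.support.image (fun t => t 0), ∀ x ∈ (co P r).roots,
      𝔭.v (g - algebraMap E Ω a') < 𝔭.v (g - algebraMap E Ω x) := by
    intro r hr x hx
    exact ha' x (Finset.mem_biUnion.2 ⟨r, hr, Multiset.mem_toFinset.2 hx⟩)
  have hco : ∀ r ∈ P.support.image (fun t => t 0), co P r ≠ 0 := by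
    intro r hr h0
    obtain ⟨t, ht, rfl⟩ := Finset.mem_image.1 hr
    have h1 := co_coeff P t ht
    rw [h0, Polynomial.coeff_zero] at h1
    exact (MvPolynomial.mem_support_iff.1 ht) h1.symm
  have hy : ∀ r : ℕ, ∃ y : Ω, r ∈ P.support.image (fun t => t 0) →
      ((co P r).eval a' ≠ 0 ∧ 𝔭.v (y - 1) < 1 ∧
        Polynomial.aeval g (co P r) = algebraMap E Ω ((co P r).eval a') * y) := by
    intro r
    by_cases hr : r ∈ P.support.image (fun t => t 0)
    · obtain ⟨h1, y, h2, h3⟩ := poly_near 𝔭 (co P r) (hco r hr) (hroots r hr)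
      exact ⟨y, fun _ => ⟨h1, h2, h3⟩⟩
    · exact ⟨0, fun h => absurd h hr⟩
  choose y hy using hy
  have hne : (P.support.image (fun t => t 0)).Nonempty := by
    obtain ⟨t, ht⟩ := (MvPolynomial.support_nonempty.2 hP)
    exact ⟨t 0, Finset.mem_image_of_mem _ ht⟩
  obtain ⟨r0, hr0, hmax⟩ := Finset.exists_max_image (P.support.image (fun t => t 0))
    (fun r => 𝔭.v (algebraMap E Ω ((co P r).eval a'))) hne
  set s : E := (co P r0).eval a' with hs
  have hs0 : s ≠ 0 := (hy r0 hr0).1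
  have hs0' : algebraMap E Ω s ≠ 0 := by
    rw [Ne, map_eq_zero_iff _ (algebraMap E Ω).injective]
    exact hs0
  have hvs0 : 0 < 𝔭.v (algebraMap E Ω s) := (Valuation.pos_iff _).2 hs0'
  have hc : ∀ r : ℕ, ∃ d : k, r ∈ P.support.image (fun t => t 0) →
      (𝔭.v (algebraMap E Ω ((co P r).eval a' / s)) ≤ 1 ∧
      algebraMap k κ d = 𝔭.res (algebraMap E Ω ((co P r).eval a' / s))) := by
    intro r
    by_cases hr : r ∈ P.support.image (fun t => t 0)
    · have h1 : 𝔭.v (algebraMap E Ω ((co P r).eval a' / s)) ≤ 1 := by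
        rw [map_div₀, map_div₀]
        exact (div_le_one₀ hvs0).2 (hmax r hr)
      obtain ⟨d, hd⟩ := 𝔭.res_const _ h1
      exact ⟨d, fun _ => ⟨h1, hd⟩⟩
    · exact ⟨0, fun h => absurd h hr⟩
  choose d hd using hc
  have hsum : ∑ r ∈ P.support.image (fun t => t 0),
      algebraMap E Ω ((co P r).eval a' / s) * y r * u ^ r = 0 := by
    have h1 : aeval ![u, g] P = algebraMap E Ω s * ∑ r ∈ P.support.image (fun t => t 0),
        algebraMap E Ω ((co P r).eval a' / s) * y r * u ^ r := by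
      rw [co_sum, Finset.mul_sum]
      refine Finset.sum_congr rfl fun r hr => ?_
      rw [(hy r hr).2.2, map_div₀]
      field_simp
    rw [hP0] at h1
    rcases mul_eq_zero.1 h1.symm with h2 | h2
    · exact absurd h2 hs0'
    · exact h2
  have hres := congrArg 𝔭.res hsum
  rw [res_zero, res_sum 𝔭 _ _ (fun r hr => v_mul_le 𝔭 (v_mul_le 𝔭 (hd r hr).1
    (near_one 𝔭 (hy r hr).2.1).1) (v_pow_le 𝔭 hu r))] at hres
  apply htr
  refine ⟨∑ r ∈ P.support.image (fun t => t 0), Polynomial.monomial r (d r), ?_, ?_⟩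
  · intro h0
    have h1 := congrArg (fun p => Polynomial.coeff p r0) h0
    simp only [Polynomial.finsetSum_coeff, Polynomial.coeff_monomial, Polynomial.coeff_zero,
      Finset.sum_ite_eq', if_pos hr0] at h1
    have h2 := (hd r0 hr0).2
    rw [h1, map_zero, ← hs, div_self hs0, map_one, 𝔭.res_one] at h2
    exact zero_ne_one h2
  · rw [map_sum, ← hres]
    refine Finset.sum_congr rfl fun r hr => ?_
    rw [Polynomial.aeval_monomial, 𝔭.res_mul _ _ (v_mul_le 𝔭 (hd r hr).1
      (near_one 𝔭 (hy r hr).2.1).1) (v_pow_le 𝔭 hu r), 𝔭.res_mul _ _ (hd r hr).1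
      (near_one 𝔭 (hy r hr).2.1).1, (near_one 𝔭 (hy r hr).2.1).2, res_pow 𝔭 hu, (hd r hr).2,
      mul_one]

end Pool.DynLehmer.FN
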