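import Mathlib
import Pool.Agent.Lib.MP_2194ec_nt.SP.All
import Pool.Agent.Lib.MP_2194ec_nt.H28.FamFinal
import Pool.Agent.Lib.MP_2194ec_nt.FN.Iface

set_option autoImplicit false

/-!
# FAM_N: the result for the congruence classes
-/

namespace Pool.DynLehmer.FN
open MvPolynomial NumberField Pool.DynLehmer Pool.DynLehmer.SB Pool.DynLehmer.SP
open scoped Classical

namespace FinalAux

theorem coeff_cong {K : Type} [Field K] [NumberField K] {n q p : ℕ}
    {F : MvPolynomial (Fin n) (𝓞 K)} {j : Fin n} {G : MvPolynomial (Fin n) (𝓞 K)}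
    (h : F = X j ^ q + C (p : 𝓞 K) * G) (t : Fin n →₀ ℕ) :
    coeff t (map (algebraMap (𝓞 K) K) F) =
      (if Finsupp.single j q = t then 1 else 0) + (p : K) * algebraMap (𝓞 K) K (coeff t G) := by
  rw [coeff_map, h, coeff_add, coeff_X_pow, coeff_C_mul, map_add, map_mul, map_natCast]
  congr 1
  split_ifs <;> simp

end FinalAux

open FinalAux

theorem fam_lehmer (hN : NoperStatement) (hC : ClsStatement) (n p s : ℕ) (hn : 3 ≤ n)
    (hp : p.Prime) (hs : 1 ≤ s) :
    ∃ (M : ℕ) (A : Fin n → MvPolynomial (Fin n) ℤ), 0 < M ∧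
      (∀ i, (A i).IsHomogeneous (p ^ s)) ∧
      ∀ (K : Type) [Field K] [NumberField K] (F : Fin n → MvPolynomial (Fin n) (𝓞 K)),
        (∀ i, (F i).IsHomogeneous (p ^ s)) →
        (∀ i t, (M : 𝓞 K) ∣ coeff t (F i) - ((coeff t (A i) : ℤ) : 𝓞 K)) →
        (∀ z : Fin n → AlgebraicClosure K,
          (∀ i, aeval z (MvPolynomial.map (algebraMap (𝓞 K) K) (F i)) = 0) → z = 0) ∧
        ∃ c : ℝ, 0 < c ∧ ∀ (L : Type) [Field L] [NumberField L] [Algebra K L],
          ∀ x : Fin n → L, x ≠ 0 →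
          (¬ ∃ m n' : ℕ, m ≠ n' ∧ ∃ c : L, c ≠ 0 ∧
            (gAct (fun i => MvPolynomial.map (algebraMap (𝓞 K) K) (F i)) L)^[n'] x =
              c • (gAct (fun i => MvPolynomial.map (algebraMap (𝓞 K) K) (F i)) L)^[m] x) →
          ∃ h : ℝ, Filter.Tendsto (fun n' : ℕ => Height.logHeight
            ((gAct (fun i => MvPolynomial.map (algebraMap (𝓞 K) K) (F i)) L)^[n'] x) /
            (Module.finrank ℚ L : ℝ) / ((p ^ s : ℕ) : ℝ) ^ n') Filter.atTop (nhds h) ∧
            c / (Module.finrank K L : ℝ) ≤ h := by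
  have hq2 : 2 ≤ p ^ s := hp.two_le.trans (Nat.le_self_pow (by omega) p)
  -- the auxiliary prime
  obtain ⟨ℓ, hℓp, hℓ⟩ : ∃ ℓ : ℕ, p ≠ ℓ ∧ ℓ.Prime := by
    by_cases h : p = 2
    · exact ⟨3, by omega, Nat.prime_three⟩
    · exact ⟨2, h, Nat.prime_two⟩
  have hℓq : ¬ ℓ ∣ p ^ s := fun h =>
    hℓp ((Nat.prime_dvd_prime_iff_eq hℓ hp).1 (hℓ.dvd_of_dvd_pow h)).symm
  obtain ⟨M, A, hM, hA, H⟩ := hC n (p ^ s) p ℓ hn hq2 hp hℓ hℓp
  refine ⟨M, A, hM, hA, ?_⟩
  intro K _ _ F hF hcong
  obtain ⟨Hℓ, Hp⟩ := H K F hcong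
  choose G hG using Hp
  obtain ⟨v, hv⟩ := Pool.DynLehmerFam.exists_place K hp
  set P : Fin n → MvPolynomial (Fin n) K :=
    fun i => MvPolynomial.map (algebraMap (𝓞 K) K) (F i) with hPdef
  have hPh : ∀ i, (P i).IsHomogeneous (p ^ s) := fun i => (hF i).map _
  have hint0 : ∀ a : 𝓞 K, v (algebraMap (𝓞 K) K a) ≤ 1 := fun a => int_le_one v a
  have hsm : ∀ a : 𝓞 K, v ((p : K) * algebraMap (𝓞 K) K a) < 1 := by
    intro a
    rw [map_mul]
    have h1 := hint0 a
    have h2 : 0 ≤ v (algebraMap (𝓞 K) K a) := apply_nonneg v _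
    have h3 : 0 ≤ v (p : K) := apply_nonneg v _
    nlinarith
  have hco : ∀ i t, coeff t (P i) = (if Finsupp.single i (p ^ s) = t then 1 else 0) +
      (p : K) * algebraMap (𝓞 K) K (coeff t (G i)) := fun i t => coeff_cong (hG i) t
  have hint : ∀ i t, v (coeff t (P i)) ≤ 1 := by
    intro i t
    simp only [hPdef, coeff_map]
    exact hint0 _
  have hred : ∀ i t, (∀ j, t ≠ Finsupp.single j (p ^ s)) → v (coeff t (P i)) < 1 := by
    intro i t ht
    rw [hco, if_neg (fun h => ht i h.symm), zero_add]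
    exact hsm _
  have hdet : v (Matrix.det (Matrix.of fun i j =>
      coeff (Finsupp.single j (p ^ s)) (P i))) = 1 := by
    -- the matrix is the image of a matrix over the integers congruent to 1
    set B : Matrix (Fin n) (Fin n) (𝓞 K) :=
      Matrix.of fun i j => coeff (Finsupp.single j (p ^ s)) (G i) with hB
    have h1 : (Matrix.of fun i j => coeff (Finsupp.single j (p ^ s)) (P i)) =
        (algebraMap (𝓞 K) K).mapMatrix (1 + (p : 𝓞 K) • B) := by
      ext i j
      simp only [Matrix.of_apply, RingHom.mapMatrix_apply, Matrix.map_apply, Matrix.add_apply,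
        Matrix.smul_apply, map_add, smul_eq_mul, map_mul, map_natCast, hB]
      rw [hco]
      congr 1
      by_cases hij : i = j
      · subst hij
        simp
      · rw [if_neg, Matrix.one_apply_ne hij, map_zero]
        intro h
        have h2 := DFunLike.congr_fun h i
        rw [Finsupp.single_eq_same, Finsupp.single_eq_of_ne hij] at h2
        omega
    rw [h1, ← RingHom.map_det]
    have h2 : (p : 𝓞 K) ∣ (1 + (p : 𝓞 K) • B).det - 1 := by
      rw [← Ideal.mem_span_singleton, ← Ideal.Quotient.eq_zero_iff_mem, map_sub, map_one,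
        RingHom.map_det, map_add, map_one]
      have h3 : (Ideal.Quotient.mk (Ideal.span {(p : 𝓞 K)})).mapMatrix ((p : 𝓞 K) • B) = 0 := by
        ext i j
        simp only [RingHom.mapMatrix_apply, Matrix.map_apply, Matrix.smul_apply, smul_eq_mul,
          Matrix.zero_apply]
        rw [Ideal.Quotient.eq_zero_iff_mem]
        exact Ideal.mul_mem_right _ _ (Ideal.mem_span_singleton_self _)
      rw [h3, add_zero, Matrix.det_one, sub_self]
    obtain ⟨a, ha⟩ := h2
    have h4 : (1 + (p : 𝓞 K) • B).det = 1 + p * a := by rw [← ha]; ring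
    rw [h4, map_add, map_one, map_mul, map_natCast]
    have h5 : v ((p : K) * algebraMap (𝓞 K) K a) < v 1 := by rw [map_one]; exact hsm a
    have h6 : v (1 + (p : K) * algebraMap (𝓞 K) K a) ≤ 1 :=
      (FinitePlace.add_le v _ _).trans (max_le (by rw [map_one]) (hsm a).le)
    refine le_antisymm h6 ?_
    by_contra hlt
    push Not at hlt
    have h7 : v (1 : K) ≤ max (v (1 + (p : K) * algebraMap (𝓞 K) K a))
        (v (-((p : K) * algebraMap (𝓞 K) K a))) := by
      have h8 := FinitePlace.add_le v (1 + (p : K) * algebraMap (𝓞 K) K a)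
        (-((p : K) * algebraMap (𝓞 K) K a))
      rwa [add_neg_cancel_right] at h8
    rw [map_one, map_neg_eq_map] at h7
    rcases le_max_iff.1 h7 with h9 | h9
    · linarith
    · linarith [hsm a]
  obtain ⟨Φ, hΦP, hϖ0, hϖ, hunif⟩ := exists_GF v hp P hPh hv hint hred hdet
  have hz := gno_common_zero hp Φ hϖ P hΦP
  refine ⟨hz, ?_⟩
  have hne : Nonempty (Fin n) := ⟨⟨0, by omega⟩⟩
  obtain ⟨c, hc0, H⟩ := space_lehmer nsStatement crvnStatement
    (by rw [Fintype.card_fin]; omega) hq2 P hPh hz hp hs v P hPh hv hint hred hdet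
    (fun i j => mul_comm _ _)
  refine ⟨c, hc0, ?_⟩
  intro L _ _ _ x hx hw
  obtain ⟨h, hlim, hle⟩ := H L x hx hw
  refine ⟨h, hlim, ?_⟩
  rcases hle with hle | ⟨r, k, e, Q, hk, hQ, hhom, hlow, hup, -, hper⟩
  · exact hle
  · exact absurd hper (hN K n (p ^ s) ℓ F hn hq2 hℓ hℓq hF Hℓ k e Q hk hQ hhom hlow hup)

end Pool.DynLehmer.FN
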