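import Pool.Agent.Lib.MP_2194ec_nt.FN.Iface

set_option autoImplicit false

namespace Pool.DynLehmer.FN
open Polynomial

theorem fixf : FixfStatement := by
  intro E Ω _ _ _ _ _ K' L hKL halg f hf hfix
  let algKL : Algebra K' L := (IntermediateField.inclusion hKL).toRingHom.toAlgebra
  have hmap : ∀ z : K', ((algebraMap K' L z : L) : Ω) = (z : Ω) := fun z => rfl
  have : IsScalarTower K' L Ω := IsScalarTower.of_algebraMap_eq (fun z => rfl)
  have : IsScalarTower E K' L := IsScalarTower.of_algebraMap_eq (fun z => rfl)
  have : CharZero K' := charZero_of_injective_algebraMap (algebraMap E K').injective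
  have : Algebra.IsAlgebraic K' L := by
    constructor
    intro z
    exact (isAlgebraic_algebraMap_iff (A := Ω) (FaithfulSMul.algebraMap_injective L Ω)).1
      (halg z z.2)
  set x : L := ⟨f, hf⟩ with hx
  have hint : IsIntegral K' x := (Algebra.IsAlgebraic.isAlgebraic x).isIntegral
  have hroots : (minpoly K' x).rootSet Ω ⊆ {f} := by
    intro y hy
    rw [← Algebra.IsAlgebraic.range_eval_eq_rootSet_minpoly (A := Ω) x] at hy
    obtain ⟨ψ, hψ⟩ := hy
    have h1 := hfix (ψ.restrictScalars E) (by
      intro z hz
      have h2 : z = algebraMap K' L ⟨(z : Ω), hz⟩ := Subtype.ext rfl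
      have h3 : ψ (algebraMap K' L ⟨(z : Ω), hz⟩) = (z : Ω) := by
        rw [AlgHom.commutes]
        rfl
      rw [AlgHom.restrictScalars_apply]
      rw [← h2] at h3
      exact h3)
    rw [AlgHom.restrictScalars_apply] at h1
    simp only [Set.mem_singleton_iff]
    rw [← hψ]
    exact h1
  have hsep : (minpoly K' x).Separable := (minpoly.irreducible hint).separable
  have hspl : ((minpoly K' x).map (algebraMap K' Ω)).Splits := IsAlgClosed.splits _
  have hcard : Fintype.card ((minpoly K' x).rootSet Ω) = (minpoly K' x).natDegree :=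
    Polynomial.card_rootSet_eq_natDegree hsep hspl
  have hle : Fintype.card ((minpoly K' x).rootSet Ω) ≤ 1 := by
    rw [Fintype.card_le_one_iff_subsingleton]
    constructor
    intro a b
    apply Subtype.ext
    have ha := hroots a.2
    have hb := hroots b.2
    rw [Set.mem_singleton_iff] at ha hb
    rw [ha, hb]
  have hdeg : (minpoly K' x).natDegree = 1 :=
    le_antisymm (hcard ▸ hle) (minpoly.natDegree_pos hint)
  obtain ⟨z, hz⟩ := (minpoly.natDegree_eq_one_iff).1 hdeg
  have h5 : (z : Ω) = f := congrArg Subtype.val hz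
  rw [← h5]
  exact z.2

end Pool.DynLehmer.FN
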