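import Mathlib
import Pool.Agent.Lib.MP_2194ec_nt.FN.Iface
import Pool.Agent.Lib.MP_2194ec_nt.SP.Img

set_option autoImplicit false

/-!
# Module HFO (helper72): the Hilbert functions along a periodic orbit are uniformly bounded
-/

namespace Pool.DynLehmer.FN
open MvPolynomial NumberField Pool.DynLehmer Pool.DynLehmer.SB
open scoped Classical

namespace HfoAux

variable {K : Type} [Field K] {ι : Type} {Ω : Type} [Field Ω] [Algebra K Ω]

theorem aeval_iter (F : ι → MvPolynomial ι K) (x : ι → Ω) (j : ℕ) (G : MvPolynomial ι K) :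
    aeval ((gAct F Ω)^[j] x) G = aeval x ((bind₁ F)^[j] G) := by
  induction j generalizing G with
  | zero => rfl
  | succ j ih =>
    rw [Function.iterate_succ_apply', SP.ImgAux.aeval_gAct, ih, ← Function.iterate_succ_apply]

/-- specialisation does not increase the Hilbert function -/
theorem le_of_spec [Fintype ι] {x y : ι → Ω}
    (h : ∀ G : MvPolynomial ι K, aeval x G = 0 → aeval y G = 0) (T : ℕ) :
    HW K y T ≤ HW K x T := by
  have hfd : FiniteDimensional K (homogeneousSubmodule ι K T) :=
    Module.Finite.iff_fg.2 (homogeneousSubmodule_fg ι K T)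
  let f : homogeneousSubmodule ι K T →ₗ[K] Ω :=
    (aeval x : MvPolynomial ι K →ₐ[K] Ω).toLinearMap.comp (homogeneousSubmodule ι K T).subtype
  let g : homogeneousSubmodule ι K T →ₗ[K] Ω :=
    (aeval y : MvPolynomial ι K →ₐ[K] Ω).toLinearMap.comp (homogeneousSubmodule ι K T).subtype
  have hf : HW K x T = Module.finrank K (LinearMap.range f) := by
    unfold HW VW
    rw [LinearMap.range_comp, Submodule.range_subtype]
  have hg : HW K y T = Module.finrank K (LinearMap.range g) := by
    unfold HW VW
    rw [LinearMap.range_comp, Submodule.range_subtype]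
  have h1 := f.finrank_range_add_finrank_ker
  have h2 := g.finrank_range_add_finrank_ker
  have h3 : Module.finrank K (LinearMap.ker f) ≤ Module.finrank K (LinearMap.ker g) := by
    refine Submodule.finrank_mono ?_
    intro G hG
    rw [LinearMap.mem_ker] at hG ⊢
    exact h _ hG
  rw [hf, hg]
  omega

theorem hw_iter [Fintype ι] {q : ℕ} {F : ι → MvPolynomial ι K}
    (hF : ∀ i, (F i).IsHomogeneous q) (x : ι → Ω) (s T : ℕ) :
    HW K ((gAct F Ω)^[s] x) T ≤ HW K x (q ^ s * T) := by
  induction s generalizing T with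
  | zero => simp
  | succ s ih =>
    rw [Function.iterate_succ_apply']
    refine (SP.ImgAux.hw_gAct_le hF _ T).trans ((ih (q * T)).trans (le_of_eq ?_))
    rw [pow_succ, mul_assoc]

end HfoAux

open HfoAux

/-- **HFO** -/
theorem hfo : HfoStatement := by
  intro K _ Ω _ _ ι _ q r c F x hq hr hF hx hrel i T
  have hrel' : ∀ (j : ℕ) (G : MvPolynomial ι K), aeval x G = 0 →
      aeval ((gAct F Ω)^[r * j] x) G = 0 := by
    intro j
    induction j with
    | zero => intro G hG; exact hG
    | succ j ih =>
      intro G hG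
      rw [aeval_iter, Nat.mul_succ, Function.iterate_add_apply, ← aeval_iter]
      exact ih _ (hrel G hG)
  have hi : i = i % r + r * (i / r) := (Nat.mod_add_div i r).symm
  have hs : i % r < r := Nat.mod_lt _ hr
  rw [hi, Function.iterate_add_apply]
  calc HW K ((gAct F Ω)^[i % r] ((gAct F Ω)^[r * (i / r)] x)) T ≤
      HW K ((gAct F Ω)^[r * (i / r)] x) (q ^ (i % r) * T) := hw_iter hF _ _ _
    _ ≤ HW K x (q ^ (i % r) * T) := le_of_spec (hrel' _) _
    _ ≤ c * (q ^ (i % r) * T + 1) := hx _
    _ ≤ c * (q ^ r * T + q ^ r) := by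
        have h1 : q ^ (i % r) ≤ q ^ r := Nat.pow_le_pow_right hq hs.le
        have h2 : 1 ≤ q ^ r := Nat.one_le_pow _ _ hq
        have h3 : q ^ (i % r) * T ≤ q ^ r * T := Nat.mul_le_mul_right _ h1
        exact Nat.mul_le_mul_left _ (by omega)
    _ = c * q ^ r * (T + 1) := by ring

end Pool.DynLehmer.FN
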