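import Mathlib
import Pool.Agent.Lib.MP_2194ec_nt.FN.Iface

set_option autoImplicit false

namespace Pool.DynLehmer.FN
open MvPolynomial NumberField Pool.DynLehmer Pool.DynLehmer.SB
open scoped Classical

theorem hwe : HweStatement := by
  intro K E Ω _ _ _ _ _ _ _ ι _ y T
  have hf : Module.Finite K (homogeneousSubmodule ι K T) :=
    Module.Finite.iff_fg.2 (homogeneousSubmodule_fg ι K T)
  have hfin : Module.Finite K (VW K y T) := by unfold VW; infer_instance
  have hle : VW E y T ≤ Submodule.span E (VW K y T : Set Ω) := by
    rintro _ ⟨φ, hφ, rfl⟩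
    rw [AlgHom.toLinearMap_apply, aeval_def, eval₂_eq']
    refine Submodule.sum_mem _ fun t ht => ?_
    rw [← Algebra.smul_def]
    refine Submodule.smul_mem _ _ (Submodule.subset_span ⟨monomial t 1, ?_, ?_⟩)
    · refine isHomogeneous_monomial (1 : K) ?_
      have h1 := (mem_homogeneousSubmodule T φ).1 hφ (mem_support_iff.1 ht)
      rw [Finsupp.degree_eq_weight_one]
      exact h1
    · rw [AlgHom.toLinearMap_apply, aeval_monomial, map_one, one_mul, Finsupp.prod_fintype]
      intro i; exact pow_zero _
  let b := Module.finBasis K (VW K y T)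
  have hsp : Submodule.span E (VW K y T : Set Ω) ≤
      Submodule.span E (Set.range fun i => ((b i : VW K y T) : Ω)) := by
    refine Submodule.span_le.2 fun z hz => ?_
    have h2 := b.sum_repr ⟨z, hz⟩
    have h3 : z = ∑ i, (b.repr ⟨z, hz⟩ i) • ((b i : VW K y T) : Ω) := by
      have := congrArg (fun w : VW K y T => (w : Ω)) h2
      simp only [Submodule.coe_sum, Submodule.coe_smul] at this
      exact this.symm
    rw [h3]
    refine Submodule.sum_mem _ fun i _ => ?_
    rw [← algebraMap_smul E (b.repr ⟨z, hz⟩ i) ((b i : VW K y T) : Ω)]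
    exact Submodule.smul_mem _ _ (Submodule.subset_span ⟨i, rfl⟩)
  have hfs : Module.Finite E (Submodule.span E (Set.range fun i => ((b i : VW K y T) : Ω))) :=
    Module.Finite.span_of_finite E (Set.finite_range _)
  calc HW E y T ≤ Module.finrank E
        (Submodule.span E (Set.range fun i => ((b i : VW K y T) : Ω))) :=
        Submodule.finrank_mono (hle.trans hsp)
    _ ≤ Fintype.card (Fin (Module.finrank K (VW K y T))) := finrank_range_le_card _
    _ = HW K y T := by rw [Fintype.card_fin]; rfl

end Pool.DynLehmer.FN
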