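import Pool.Agent.Lib.MP_2194ec_nt.FN.Iface
import Pool.Agent.Lib.MP_2194ec_nt.SB.Mono

set_option autoImplicit false

/-!
# Module HWQ: rank-nullity for the Hilbert function
-/

namespace Pool.DynLehmer.FN
open MvPolynomial NumberField Pool.DynLehmer Pool.DynLehmer.SB
open scoped Classical

theorem hwq : HwqStatement := by
  intro K _ Ω _ _ ι _ x Q hQ T
  have hfin : Module.Finite K (homogeneousSubmodule ι K T) := finite_hom K ι T
  have h1 := LinearMap.finrank_range_add_finrank_ker
    ((aeval x : MvPolynomial ι K →ₐ[K] Ω).toLinearMap.domRestrict (homogeneousSubmodule ι K T))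
  have h2 : LinearMap.range ((aeval x : MvPolynomial ι K →ₐ[K] Ω).toLinearMap.domRestrict
      (homogeneousSubmodule ι K T)) = VW K x T := by
    rw [LinearMap.range_domRestrict]
    rfl
  have h3 : (LinearMap.ker ((aeval x : MvPolynomial ι K →ₐ[K] Ω).toLinearMap.domRestrict
      (homogeneousSubmodule ι K T))).map (homogeneousSubmodule ι K T).subtype =
      homogeneousSubmodule ι K T ⊓ Q.restrictScalars K := by
    ext G
    rw [Submodule.mem_map, Submodule.mem_inf]
    constructor
    · rintro ⟨⟨G', hG'⟩, h4, rfl⟩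
      refine ⟨hG', ?_⟩
      exact (hQ G').1 h4
    · rintro ⟨h4, h5⟩
      exact ⟨⟨G, h4⟩, (hQ G).2 h5, rfl⟩
  have h4 : Module.finrank K ↥(homogeneousSubmodule ι K T ⊓ Q.restrictScalars K) =
      Module.finrank K (LinearMap.ker ((aeval x : MvPolynomial ι K →ₐ[K] Ω).toLinearMap.domRestrict
        (homogeneousSubmodule ι K T))) := by
    rw [← h3]
    exact (LinearEquiv.finrank_eq (Submodule.equivMapOfInjective _
      (homogeneousSubmodule ι K T).injective_subtype _)).symm
  rw [h4]
  unfold HW
  rw [← h2]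
  exact h1

end Pool.DynLehmer.FN
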