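import Pool.Agent.Lib.MP_2194ec_nt.FN.Expw

set_option autoImplicit false

/-!
# ITER (helper62)
-/

namespace Pool.DynLehmer.FN

namespace IterAux

variable {E Ω k κ Γ : Type} [Field E] [Field Ω] [Algebra E Ω] [Field k] [Field κ] [Algebra k κ]
  [LinearOrderedCommGroupWithZero Γ] (𝔭 : Plc E Ω k κ Γ)

theorem res_zero : 𝔭.res 0 = 0 :=
  (𝔭.res_eq_zero 0 (by rw [Valuation.map_zero]; exact zero_le_one)).2
    (by rw [Valuation.map_zero]; exact zero_lt_one)

theorem res_nat (n : ℕ) : 𝔭.res (n : Ω) = n := by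
  induction n with
  | zero => simp [res_zero]
  | succ n ih =>
    push_cast
    rw [𝔭.res_add _ _ (ExpwAux.nat_le 𝔭.v n) (by rw [Valuation.map_one]), ih, 𝔭.res_one]

/-- the sequence of the constants -/
noncomputable def aa (q : ℕ) (a : E) (β : ℕ → E) : ℕ → E
  | 0 => a
  | i + 1 => aa q a β i ^ q * (1 + β i)

end IterAux

open IterAux in
/-- **ITER** -/
theorem iter : IterStatement := by
  intro E Ω k κ Γ _ _ _ _ _ _ _ 𝔭 q s a g β ρ G hq hs hsv hβ hρ hg ha hG h0
  set j := algebraMap E Ω with hj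
  have hs0 : j s ≠ 0 := by rwa [ne_eq, map_eq_zero]
  have hav : ∀ i, 𝔭.v (j (aa q a β i)) = 1 := by
    intro i
    induction i with
    | zero => exact ha
    | succ i ih =>
      have e : j (aa q a β (i + 1)) = j (aa q a β i) ^ q * (1 + j (β i)) := by
        simp [aa, hj]
      rw [e, Valuation.map_mul, Valuation.map_pow, ih, one_pow, one_mul]
      exact ExpwAux.eq_one 𝔭.v (hβ i)
  have ha0 : ∀ i, j (aa q a β i) ≠ 0 := by
    intro i h
    have := hav i
    rw [h, Valuation.map_zero] at this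
    exact zero_ne_one this
  obtain ⟨G', hG'⟩ : ∃ G' : ℕ → Ω, ∀ i, G' i = (g i / j (aa q a β i) - 1) / j s :=
    ⟨_, fun _ => rfl⟩
  have hgi : ∀ i, g i = j (aa q a β i) * (1 + j s * G' i) := by
    intro i
    rw [hG' i]
    have := ha0 i
    field_simp
    ring
  have hG0 : G' 0 = G := by
    have h1 := hgi 0
    rw [h0] at h1
    have h2 : j a ≠ 0 := ha0 0
    have h3 : (1 + j s * G) = 1 + j s * G' 0 := mul_left_cancel₀ h2 h1
    exact (mul_left_cancel₀ hs0 (add_left_cancel h3)).symm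
  have step : ∀ i, 𝔭.v (G' i) ≤ 1 → 𝔭.v (G' (i + 1) - (q * G' i + ρ i)) < 1 := by
    intro i hi
    have hb1 : 𝔭.v (1 + j (β i)) = 1 := ExpwAux.eq_one 𝔭.v (hβ i)
    have hb0 : 1 + j (β i) ≠ 0 := by
      intro h
      rw [h, Valuation.map_zero] at hb1
      exact zero_ne_one hb1
    obtain ⟨ρ', hρ'⟩ : ∃ ρ', ρ' = ρ i / (1 + j (β i)) := ⟨_, rfl⟩
    have hρ'v : 𝔭.v ρ' ≤ 1 := by
      rw [hρ', map_div₀, hb1, div_one]
      exact hρ i
    have e1 : G' (i + 1) = ((1 + j s * G' i) ^ q * (1 + j s * ρ') - 1) / j s := by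
      rw [hG' (i + 1), hg i]
      congr 2
      have e : j (aa q a β (i + 1)) = j (aa q a β i) ^ q * (1 + j (β i)) := by
        simp [aa, hj]
      have h3 : g i ^ q = j (aa q a β i) ^ q * (1 + j s * G' i) ^ q := by
        rw [← mul_pow, ← hgi i]
      rw [e, h3, hρ']
      have := pow_ne_zero q (ha0 i)
      field_simp
    have hsG : 𝔭.v (j s * G' i) ≤ 𝔭.v (j s) := by
      rw [Valuation.map_mul]
      exact mul_le_of_le_one_right' hi
    have hP := ExpwAux.pow_nat 𝔭.v (η := j s * G' i) (hsG.trans hsv.le) q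
    have hsρ : 𝔭.v (1 + j s * ρ') ≤ 1 := by
      refine 𝔭.v.map_add_le (by rw [Valuation.map_one]) ?_
      rw [Valuation.map_mul]
      exact (mul_le_of_le_one_right' hρ'v).trans hsv.le
    have e2 : G' (i + 1) - (q * G' i + ρ i) =
        (((1 + j s * G' i) ^ q - 1 - q * (j s * G' i)) * (1 + j s * ρ')) / j s +
          (j s * (q * G' i * ρ') + (ρ' - ρ i)) := by
      rw [e1]
      field_simp
      ring
    rw [e2]
    refine 𝔭.v.map_add_lt ?_ (𝔭.v.map_add_lt ?_ ?_)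
    · rw [map_div₀, Valuation.map_mul]
      have h5 : 𝔭.v ((1 + j s * G' i) ^ q - 1 - q * (j s * G' i)) * 𝔭.v (1 + j s * ρ') ≤
          𝔭.v (j s) ^ 2 := by
        refine (mul_le_of_le_one_right' hsρ).trans (hP.trans ?_)
        exact pow_le_pow_left' hsG 2
      have hsv0 : 𝔭.v (j s) ≠ 0 := (Valuation.ne_zero_iff _).2 hs0
      refine lt_of_le_of_lt ?_ hsv
      rw [div_le_iff₀ (zero_lt_iff.2 hsv0), ← pow_two]
      exact h5
    · rw [Valuation.map_mul]
      refine lt_of_le_of_lt (mul_le_of_le_one_right' ?_) hsv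
      rw [Valuation.map_mul, Valuation.map_mul]
      exact mul_le_one' (mul_le_one' (ExpwAux.nat_le 𝔭.v q) hi) hρ'v
    · have e3 : ρ' - ρ i = -(ρ' * j (β i)) := by
        rw [hρ']
        field_simp
        ring
      rw [e3, Valuation.map_neg, Valuation.map_mul]
      exact lt_of_le_of_lt (mul_le_of_le_one_left' hρ'v) (hβ i)
  have hqGρ : ∀ i, 𝔭.v (G' i) ≤ 1 → 𝔭.v (q * G' i + ρ i) ≤ 1 := by
    intro i hi
    refine 𝔭.v.map_add_le ?_ (hρ i)
    rw [Valuation.map_mul]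
    exact mul_le_one' (ExpwAux.nat_le 𝔭.v q) hi
  have hGv : ∀ i, 𝔭.v (G' i) ≤ 1 := by
    intro i
    induction i with
    | zero => rw [hG0]; exact hG
    | succ i ih =>
      have e : G' (i + 1) = (G' (i + 1) - (q * G' i + ρ i)) + (q * G' i + ρ i) := by ring
      rw [e]
      exact 𝔭.v.map_add_le (step i ih).le (hqGρ i ih)
  refine ⟨aa q a β, G', hG0, hav, hGv, hgi, fun i => ?_⟩
  have e : G' (i + 1) = (G' (i + 1) - (q * G' i + ρ i)) + (q * G' i + ρ i) := by ring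
  have hd := step i (hGv i)
  rw [e, 𝔭.res_add _ _ hd.le (hqGρ i (hGv i)), (𝔭.res_eq_zero _ hd.le).2 hd, zero_add,
    𝔭.res_add _ _ ?_ (hρ i), 𝔭.res_mul _ _ (ExpwAux.nat_le 𝔭.v q) (hGv i), res_nat]
  rw [Valuation.map_mul]
  exact mul_le_one' (ExpwAux.nat_le 𝔭.v q) (hGv i)

end Pool.DynLehmer.FN
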