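import Pool.Agent.Lib.MP_2194ec_nt.FN.Iface

set_option autoImplicit false

/-!
# LAC: no lacunary sums with relations of bounded degree
Proof: `FN/Paper.md`, section L.
-/

namespace Pool.DynLehmer.FN
open MvPolynomial
open scoped Classical

namespace LacAux

/-- scaling the second argument of a relation -/
theorem rel2_smul {k κ : Type} [Field k] [Field κ] [Algebra k κ] {D : ℕ} {a b : κ} (c : k)
    (hc : c ≠ 0) (h : Rel2 k D a b) : Rel2 k D a (algebraMap k κ c * b) := by
  obtain ⟨P, hP0, hPd, hP⟩ := h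
  set P' : MvPolynomial (Fin 2) k :=
    ∑ m ∈ P.support, monomial m (coeff m P * (c⁻¹) ^ (m 1)) with hP'
  have hcoeff : ∀ n, coeff n P' = coeff n P * (c⁻¹) ^ (n 1) := by
    intro n
    rw [hP', coeff_sum]
    simp only [coeff_monomial]
    rw [Finset.sum_ite_eq']
    split_ifs with h1
    · rfl
    · rw [notMem_support_iff.mp h1, zero_mul]
  refine ⟨P', ?_, ?_, ?_⟩
  · intro h0
    obtain ⟨m, hm⟩ := ne_zero_iff.mp hP0
    have h1 := hcoeff m
    rw [h0, coeff_zero] at h1
    exact mul_ne_zero hm (pow_ne_zero _ (inv_ne_zero hc)) h1.symm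
  · refine le_trans (totalDegree_le_of_support_subset ?_) hPd
    intro m hm
    rw [mem_support_iff] at hm ⊢
    rw [hcoeff] at hm
    exact left_ne_zero_of_mul hm
  · have h1 : aeval ![a, algebraMap k κ c * b] P' = aeval ![a, b] P := by
      rw [hP', map_sum]
      conv_rhs => rw [P.as_sum, map_sum]
      refine Finset.sum_congr rfl fun m _ => ?_
      rw [aeval_monomial, aeval_monomial, Finsupp.prod_fintype _ _ (fun _ => pow_zero _),
        Finsupp.prod_fintype _ _ (fun _ => pow_zero _), Fin.prod_univ_two, Fin.prod_univ_two]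
      simp only [Matrix.cons_val_zero, Matrix.cons_val_one, map_mul, map_pow, map_inv₀]
      have hc' : algebraMap k κ c ≠ 0 := by simpa using hc
      have hc2 : (algebraMap k κ c)⁻¹ ^ m 1 * (algebraMap k κ c) ^ m 1 = 1 := by
        rw [← mul_pow, inv_mul_cancel₀ hc', one_pow]
      rw [mul_pow]
      linear_combination (algebraMap k κ (coeff m P) * a ^ m 0 * b ^ m 1) * hc2
    rw [h1, hP]

/-- a pair of independent elements -/
theorem algInd_pair {k κ : Type} [Field k] [Field κ] [Algebra k κ] {t φ : κ}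
    (ht : Transcendental k t) (hφ : Transcendental (IntermediateField.adjoin k {t}) φ) :
    AlgebraicIndependent k ![t, φ] := by
  refine (AlgebraicIndependent.iff_transcendental_adjoin_image (x := ![t, φ]) 1).mpr ⟨?_, ?_⟩
  · have hss : Subsingleton {j : Fin 2 // j ≠ 1} := by
      constructor
      rintro ⟨i, hi⟩ ⟨j, hj⟩
      apply Subtype.ext
      show i = j
      omega
    rw [algebraicIndependent_singleton_iff (⟨0, by decide⟩ : {j : Fin 2 // j ≠ 1})]
    exact ht
  · have hle : Algebra.adjoin k ((![t, φ] : Fin 2 → κ) '' {1}ᶜ) ≤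
        (IntermediateField.adjoin k {t}).toSubalgebra := by
      rw [Algebra.adjoin_le_iff]
      rintro _ ⟨j, hj, rfl⟩
      have hj0 : j = 0 := by
        fin_cases j
        · rfl
        · exact absurd rfl hj
      subst hj0
      exact IntermediateField.mem_adjoin_simple_self k t
    exact Transcendental.of_tower_top_of_subalgebra_le hle hφ

end LacAux

open LacAux in
/-- LAC -/
theorem lac (hAut : AutStatement) (hDegb : DegbStatement) : LacStatement := by
  intro k κ _ _ _ _ _ t q M D ht hq hqk hM J _ _ e r φ he hee hr hφ hrel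
  have ht0 : t ≠ 0 := by
    rintro rfl
    exact ht isAlgebraic_zero
  have hinj : Function.Injective (algebraMap k κ) := (algebraMap k κ).injective
  -- the normalized sums
  set c : ℕ → J → k := fun i p => (q : k)⁻¹ ^ (i + 1) * r p i with hc
  have hc0 : ∀ i p, c i p ≠ 0 := fun i p =>
    mul_ne_zero (pow_ne_zero _ (inv_ne_zero hqk)) (hr p i)
  set S : ℕ → κ := fun n => algebraMap k κ ((q : k)⁻¹ ^ n) * φ n with hS
  have hSsum : ∀ n, S n = φ 0 +
      ∑ i ∈ Finset.range n, ∑ p, algebraMap k κ (c i p) * t ^ (e p * q ^ i) := by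
    intro n
    induction n with
    | zero => simp [hS]
    | succ n ih =>
      rw [Finset.sum_range_succ, ← add_assoc, ← ih]
      simp only [hS, hc]
      rw [hφ n, mul_add, Finset.mul_sum]
      congr 1
      · rw [pow_succ, map_mul]
        have hq' : (q : κ) ≠ 0 := by
          intro h
          apply hqk
          apply hinj
          rw [map_natCast, h, map_zero]
        have h2 : algebraMap k κ ((q : k)⁻¹) = (q : κ)⁻¹ := by rw [map_inv₀, map_natCast]
        rw [h2]
        field_simp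
      · refine Finset.sum_congr rfl fun p _ => ?_
        rw [map_mul, mul_assoc]
  have hSrel : ∀ n, Rel2 k D (t ^ (M * q ^ n)) (S n) := fun n =>
    rel2_smul _ (pow_ne_zero _ (inv_ne_zero hqk)) (hrel n)
  -- `t` and `φ 0` are dependent
  have hdep : ¬ AlgebraicIndependent k ![t, φ 0] := by
    intro hind
    obtain ⟨P, hP0, -, hP⟩ := hrel 0
    have hind2 : AlgebraicIndependent k
        (fun i => Polynomial.aeval ((![t, φ 0] : Fin 2 → κ) i)
          ((![Polynomial.X ^ M, Polynomial.X] : Fin 2 → Polynomial k) i)) := by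
      apply hind.polynomial_aeval_of_transcendental
      intro i
      fin_cases i
      · exact (Polynomial.transcendental_X k).pow (by omega)
      · exact Polynomial.transcendental_X k
    have hfun : (fun i => Polynomial.aeval ((![t, φ 0] : Fin 2 → κ) i)
          ((![Polynomial.X ^ M, Polynomial.X] : Fin 2 → Polynomial k) i)) =
        ![t ^ (M * q ^ 0), φ 0] := by
      funext i
      fin_cases i <;> simp
    rw [hfun, algebraicIndependent_iff] at hind2
    exact hP0 (hind2 P hP)
  have hφalg : IsAlgebraic (IntermediateField.adjoin k {t}) (φ 0) := by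
    by_contra h
    exact hdep (algInd_pair ht h)
  obtain ⟨P, hP0, hP⟩ : ∃ P : MvPolynomial (Fin 2) k, P ≠ 0 ∧ aeval ![t, φ 0] P = 0 := by
    by_contra h
    push Not at h
    apply hdep
    rw [algebraicIndependent_iff]
    intro P hP
    by_contra h0
    exact h P h0 hP
  obtain ⟨B, hB⟩ := hDegb k κ t ht P hP0
  -- the field `L`
  set L : IntermediateField k κ :=
    (algebraicClosure (IntermediateField.adjoin k {t}) κ).restrictScalars k with hL
  have hmemL : ∀ z : κ, z ∈ L ↔ IsAlgebraic (IntermediateField.adjoin k {t}) z := by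
    intro z
    rw [hL, IntermediateField.mem_restrictScalars, mem_algebraicClosure_iff]
  have htL : t ∈ L := by
    rw [hmemL]
    exact isAlgebraic_algebraMap
      (⟨t, IntermediateField.mem_adjoin_simple_self k t⟩ : IntermediateField.adjoin k {t})
  have hφL : φ 0 ∈ L := (hmemL _).mpr hφalg
  have hSL : ∀ n, S n ∈ L := by
    intro n
    rw [hSsum]
    refine add_mem hφL (sum_mem fun i _ => sum_mem fun p _ => mul_mem ?_ ?_)
    · exact L.algebraMap_mem _
    · exact zpow_mem htL _
  -- the choice of the index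
  obtain ⟨p₀⟩ := (inferInstance : Nonempty J)
  set i₀ : ℕ := B + 1 with hi₀
  set N : ℕ := (e p₀).natAbs * q ^ i₀ with hN
  have hN1 : 1 ≤ N := Nat.mul_pos (Int.natAbs_pos.mpr (he p₀)) (pow_pos (by omega) _)
  have hNB : B < N := by
    calc B < q ^ B := Nat.lt_pow_self (by omega)
      _ ≤ q ^ i₀ := Nat.pow_le_pow_right (by omega) (by omega)
      _ ≤ N := Nat.le_mul_of_pos_left _ (Int.natAbs_pos.mpr (he p₀))
  set n : ℕ := i₀ + D * N + 1 with hn
  have hni : i₀ < n := by omega
  have hnD : D * N < q ^ n := by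
    calc D * N ≤ n := by omega
      _ < q ^ n := Nat.lt_pow_self (by omega)
  -- conjugates
  obtain ⟨Z, ρ, hZc, hZ, hZZ⟩ := hAut k κ t L htL ht
    (fun z hz => (hmemL z).mp hz) (q ^ n) M D (Nat.one_le_pow _ _ (by omega))
    (by rw [Nat.cast_pow]; exact pow_ne_zero _ hqk) hM (S n) (hSL n) (hSrel n)
  have hζ0 : ∀ ζ ∈ Z, ζ ≠ 0 := by
    rintro ζ hζ rfl
    have h1 := (hZ 0 hζ).1
    rw [zero_pow (pow_ne_zero _ (by omega))] at h1
    exact zero_ne_one h1
  -- the images of the sums
  have hρS : ∀ ζ ∈ Z, ρ ζ ⟨S n, hSL n⟩ = ρ ζ ⟨φ 0, hφL⟩ +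
      ∑ i ∈ Finset.range n, ∑ p, algebraMap k κ (c i p * ζ ^ (e p * q ^ i)) *
        t ^ (e p * q ^ i) := by
    intro ζ hζ
    have h1 : (⟨S n, hSL n⟩ : L) = ⟨φ 0, hφL⟩ +
        ∑ i ∈ Finset.range n, ∑ p, algebraMap k L (c i p) * ⟨t, htL⟩ ^ (e p * q ^ i) := by
      have h0 : L.val (⟨φ 0, hφL⟩ +
          ∑ i ∈ Finset.range n, ∑ p, algebraMap k L (c i p) * ⟨t, htL⟩ ^ (e p * q ^ i)) =
          S n := by
        rw [map_add, map_sum, hSsum n]
        congr 1
        refine Finset.sum_congr rfl fun i _ => ?_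
        rw [map_sum]
        refine Finset.sum_congr rfl fun p _ => ?_
        rw [map_mul, map_zpow₀]
        rfl
      exact Subtype.ext h0.symm
    rw [h1, map_add, map_sum]
    congr 1
    refine Finset.sum_congr rfl fun i _ => ?_
    rw [map_sum]
    refine Finset.sum_congr rfl fun p _ => ?_
    have h2 : algebraMap k κ (c i p * ζ ^ (e p * q ^ i)) =
        algebraMap k κ (c i p) * algebraMap k κ ζ ^ (e p * q ^ i) := by
      rw [map_mul, map_zpow₀]
    rw [h2, map_mul, map_zpow₀, AlgHom.commutes, (hZ ζ hζ).2, mul_zpow]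
    ring
  have hρP : ∀ ζ ∈ Z, aeval ![algebraMap k κ ζ * t, ρ ζ ⟨φ 0, hφL⟩] P = 0 := by
    intro ζ hζ
    have h1 : aeval ![(⟨t, htL⟩ : L), ⟨φ 0, hφL⟩] P = 0 := by
      have h2 : L.val (aeval ![(⟨t, htL⟩ : L), ⟨φ 0, hφL⟩] P) = 0 := by
        rw [← hP, ← AlgHom.comp_apply, comp_aeval]
        congr 2
        funext i
        fin_cases i <;> rfl
      apply Subtype.ext
      exact h2
    have h2 : aeval ![algebraMap k κ ζ * t, ρ ζ ⟨φ 0, hφL⟩] P =
        ρ ζ (aeval ![(⟨t, htL⟩ : L), ⟨φ 0, hφL⟩] P) := by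
      rw [← AlgHom.comp_apply, comp_aeval]
      congr 2
      funext i
      fin_cases i
      · exact (hZ ζ hζ).2.symm
      · rfl
    rw [h2, h1, map_zero]
  -- all elements of `Z` have the same power
  have hpow : ∀ ζ ∈ Z, ∀ ζ' ∈ Z, ζ ^ (e p₀ * q ^ i₀) = ζ' ^ (e p₀ * q ^ i₀) := by
    intro ζ hζ ζ' hζ'
    set Λ : ℤ →₀ k := ∑ i ∈ Finset.range n, ∑ p,
      Finsupp.single (e p * q ^ i) (c i p * (ζ' ^ (e p * q ^ i) - ζ ^ (e p * q ^ i))) with hΛ
    have hdiff : ρ ζ ⟨φ 0, hφL⟩ - ρ ζ' ⟨φ 0, hφL⟩ =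
        Λ.sum (fun e c => algebraMap k κ c * t ^ e) := by
      have hlin : ∀ Λ : ℤ →₀ k, Λ.sum (fun e c => algebraMap k κ c * t ^ e) =
          Finsupp.liftAddHom (fun e : ℤ => (AddMonoidHom.mulRight (t ^ e)).comp
            (algebraMap k κ).toAddMonoidHom) Λ := by
        intro Λ
        rw [Finsupp.liftAddHom_apply]
        rfl
      rw [hlin, hΛ, map_sum]
      have h3 := hρS ζ hζ
      rw [hZZ ζ hζ ζ' hζ', hρS ζ' hζ'] at h3
      have h4 : ρ ζ ⟨φ 0, hφL⟩ - ρ ζ' ⟨φ 0, hφL⟩ =
          (∑ i ∈ Finset.range n, ∑ p, algebraMap k κ (c i p * ζ' ^ (e p * q ^ i)) *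
            t ^ (e p * q ^ i)) -
          ∑ i ∈ Finset.range n, ∑ p, algebraMap k κ (c i p * ζ ^ (e p * q ^ i)) *
            t ^ (e p * q ^ i) := by
        linear_combination -h3
      rw [h4, ← Finset.sum_sub_distrib]
      refine Finset.sum_congr rfl fun i _ => ?_
      rw [map_sum, ← Finset.sum_sub_distrib]
      refine Finset.sum_congr rfl fun p _ => ?_
      rw [Finsupp.liftAddHom_apply_single]
      show _ = algebraMap k κ (c i p * (ζ' ^ (e p * q ^ i) - ζ ^ (e p * q ^ i))) *
        t ^ (e p * q ^ i)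
      rw [mul_sub, map_sub, sub_mul]
    have hbd := hB ζ ζ' _ _ Λ (hζ0 ζ hζ) (hζ0 ζ' hζ') (hρP ζ hζ) (hρP ζ' hζ') hdiff
    have hval : Λ (e p₀ * q ^ i₀) =
        c i₀ p₀ * (ζ' ^ (e p₀ * q ^ i₀) - ζ ^ (e p₀ * q ^ i₀)) := by
      rw [hΛ, Finsupp.finset_sum_apply]
      rw [Finset.sum_eq_single i₀]
      · rw [Finsupp.finset_sum_apply, Finset.sum_eq_single p₀]
        · rw [Finsupp.single_eq_same]
        · intro p _ hp
          rw [Finsupp.single_apply, if_neg]
          exact hee p p₀ hp i₀ i₀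
        · intro h
          exact absurd (Finset.mem_univ _) h
      · intro i _ hi
        rw [Finsupp.finset_sum_apply]
        refine Finset.sum_eq_zero fun p _ => ?_
        rw [Finsupp.single_apply, if_neg]
        by_cases hp : p = p₀
        · subst hp
          intro h
          apply hi
          have h5 := mul_left_cancel₀ (he p) h
          have h6 : q ^ i = q ^ i₀ := by exact_mod_cast h5
          exact Nat.pow_right_injective hq h6
        · exact hee p p₀ hp i i₀
      · intro h
        exact absurd (Finset.mem_range.mpr hni) h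
    by_contra hne
    have hmem : e p₀ * q ^ i₀ ∈ Λ.support := by
      rw [Finsupp.mem_support_iff, hval]
      refine mul_ne_zero (hc0 _ _) ?_
      rw [sub_ne_zero]
      exact fun h => hne h.symm
    have h7 := hbd _ hmem
    have h8 : (e p₀ * (q : ℤ) ^ i₀).natAbs = N := by
      rw [Int.natAbs_mul, Int.natAbs_pow, Int.natAbs_natCast]
    omega
  -- the count
  have hZne : Z.Nonempty := by
    rw [Finset.nonempty_iff_ne_empty]
    rintro rfl
    rw [Finset.card_empty, mul_zero] at hZc
    have := Nat.one_le_pow n q (by omega)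
    omega
  obtain ⟨ζ₀, hζ₀⟩ := hZne
  have hcard : Z.card ≤ N := by
    have hsub : Z ⊆ (Polynomial.nthRoots N (ζ₀ ^ N)).toFinset := by
      intro ζ hζ
      rw [Multiset.mem_toFinset, Polynomial.mem_nthRoots (by omega)]
      have h9 := hpow ζ hζ ζ₀ hζ₀
      rcases Int.natAbs_eq (e p₀ * (q : ℤ) ^ i₀) with h10 | h10
      · have h8 : (e p₀ * (q : ℤ) ^ i₀).natAbs = N := by
          rw [Int.natAbs_mul, Int.natAbs_pow, Int.natAbs_natCast]
        rw [h10, h8, zpow_natCast, zpow_natCast] at h9
        exact h9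
      · have h8 : (e p₀ * (q : ℤ) ^ i₀).natAbs = N := by
          rw [Int.natAbs_mul, Int.natAbs_pow, Int.natAbs_natCast]
        rw [h10, h8, zpow_neg, zpow_neg, zpow_natCast, zpow_natCast] at h9
        exact inv_injective h9
    calc Z.card ≤ _ := Finset.card_le_card hsub
      _ ≤ Multiset.card (Polynomial.nthRoots N (ζ₀ ^ N)) := Multiset.toFinset_card_le _
      _ ≤ N := Polynomial.card_nthRoots _ _
  have hfin : q ^ n ≤ D * N := le_trans hZc (Nat.mul_le_mul_left _ hcard)
  omega

end Pool.DynLehmer.FN
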