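import Mathlib
import Pool.Agent.Lib.MP_2194ec_nt.FN.Iface

set_option autoImplicit false

/-!
# LEMW: the combinatorial choice of the character
-/

namespace Pool.DynLehmer.FN

namespace LemwAux

variable {n : ℕ}

theorem ex_lt {j j' : Fin n} (h : j < j') (k k' : Fin n) : ex j k < ex j' k' := by
  have h1 : (k - j).val < n := (k - j).isLt
  have h2 : j.val + 1 ≤ j'.val := h
  have h3 : (j.val + 1) * n ≤ j'.val * n := Nat.mul_le_mul_right _ h2
  unfold ex
  nlinarith

theorem ex_le (j k : Fin n) : ex j k + 1 ≤ 2 * n ^ 2 := by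
  have h1 : (k - j).val < n := (k - j).isLt
  have h2 : j.val + 1 ≤ n := j.isLt
  have h3 : (j.val + 1) * n ≤ n * n := Nat.mul_le_mul_right _ h2
  unfold ex
  nlinarith

theorem ex_pos (j k : Fin n) : 1 ≤ ex j k := by
  have h2 : j.val + 1 ≤ n := j.isLt
  have h3 : 1 ≤ n ^ 2 := Nat.one_le_pow _ _ (by omega)
  unfold ex
  omega

theorem ex_inj {j k k' : Fin n} (h : ex j k = ex j k') : k = k' := by
  unfold ex at h
  have h1 : (k - j).val = (k' - j).val := by omega
  have h2 : k - j = k' - j := Fin.ext h1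
  have : NeZero n := ⟨by have := j.isLt; omega⟩
  exact sub_left_injective h2

/-- in the row of `j`: larger indices in their order, then the smaller ones -/
theorem ex_lt_row {j k k' : Fin n} (h : j < k) (h' : k < k' ∨ k' < j) : ex j k < ex j k' := by
  have e1 : (k - j).val = k.val - j.val := Fin.sub_val_of_le (le_of_lt h)
  have hjk : j.val < k.val := h
  have hk := k.isLt
  unfold ex
  rcases h' with h' | h'
  · have e2 : (k' - j).val = k'.val - j.val := Fin.sub_val_of_le (le_of_lt (h.trans h'))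
    have h'' : k.val < k'.val := h'
    omega
  · have e2 : (k' - j).val = n + k'.val - j.val := (Fin.coe_sub_iff_lt).2 h'
    have h'' : k'.val < j.val := h'
    omega

theorem dvd_of_le {ℓ : ℕ} {N e : ℕ} (w : ℤ) (h : N ≤ e) : (ℓ : ℤ) ^ N ∣ w * (ℓ : ℤ) ^ e :=
  (pow_dvd_pow _ h).mul_left w

theorem not_dvd {ℓ : ℕ} (hℓ : ℓ.Prime) {e : ℕ} {w : ℤ} (h : ¬ (ℓ : ℤ) ∣ w) :
    ¬ (ℓ : ℤ) ^ (e + 1) ∣ w * (ℓ : ℤ) ^ e := by
  intro h1
  apply h
  have h2 : (ℓ : ℤ) ^ e ≠ 0 := pow_ne_zero _ (by exact_mod_cast hℓ.ne_zero)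
  rw [pow_succ, mul_comm ((ℓ : ℤ) ^ e) (ℓ : ℤ)] at h1
  exact Int.dvd_of_mul_dvd_mul_right h2 h1

/-- the conclusion of LEMW when a single pair is exact -/
theorem single {ℓ : ℕ} (hℓ : ℓ.Prime) (A : Finset (Fin n)) (m w : Fin n → ℤ) (a b : Fin n)
    (ha : a ∈ A) (hb : b ∈ A) (hab : m a ≠ m b) (hw : ∀ j ∉ A, w j = 0) (hs : ∑ j, w j = 0)
    (hsm : ∑ j, w j * m j = 0) (hu : ¬ (ℓ : ℤ) ∣ w a)
    (hmin : ∀ j ∈ A, ∀ k ∈ A, m j ≠ m k → (j, k) ≠ (a, b) → w j = 0 ∨ ex a b < ex j k) :
    ∃ (w : Fin n → ℤ) (N₀ : ℕ), (∀ j ∉ A, w j = 0) ∧ ∑ j, w j = 0 ∧ ∑ j, w j * m j = 0 ∧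
      1 ≤ N₀ ∧ N₀ + 1 ≤ 2 * n ^ 2 ∧
      (∀ j ∈ A, ∀ k ∈ A, m j ≠ m k → (ℓ : ℤ) ^ N₀ ∣ w j * (ℓ : ℤ) ^ ex j k) ∧
      (∃ j ∈ A, ∃ k ∈ A, m j ≠ m k ∧ ¬ (ℓ : ℤ) ^ (N₀ + 1) ∣ w j * (ℓ : ℤ) ^ ex j k) ∧
      ∀ j ∈ A, ∀ k ∈ A, ∀ j' ∈ A, ∀ k' ∈ A, m j ≠ m k → m j' ≠ m k' →
        ¬ (ℓ : ℤ) ^ (N₀ + 1) ∣ w j * (ℓ : ℤ) ^ ex j k →
        ¬ (ℓ : ℤ) ^ (N₀ + 1) ∣ w j' * (ℓ : ℤ) ^ ex j' k' → (j, k) ≠ (j', k') →
        ∀ q r s : ℕ, ¬ ℓ ∣ q → (m k - m j) * (q : ℤ) ^ r ≠ (m k' - m j') * (q : ℤ) ^ s := by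
  have key : ∀ j ∈ A, ∀ k ∈ A, m j ≠ m k → (j, k) ≠ (a, b) →
      (ℓ : ℤ) ^ (ex a b + 1) ∣ w j * (ℓ : ℤ) ^ ex j k := by
    intro j hj k hk hjk hne
    rcases hmin j hj k hk hjk hne with h | h
    · rw [h, zero_mul]
      exact dvd_zero _
    · exact dvd_of_le _ h
  refine ⟨w, ex a b, hw, hs, hsm, ex_pos a b, ex_le a b, ?_, ⟨a, ha, b, hb, hab,
    not_dvd hℓ hu⟩, ?_⟩
  · intro j hj k hk hjk
    by_cases hne : (j, k) = (a, b)
    · obtain ⟨rfl, rfl⟩ := Prod.mk.inj hne
      exact dvd_of_le _ le_rfl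
    · exact (pow_dvd_pow _ (Nat.le_succ _)).trans (key j hj k hk hjk hne)
  · intro j hj k hk j' hj' k' hk' hjk hjk' h1 h2 hne
    exfalso
    have e1 : (j, k) = (a, b) := by
      by_contra h
      exact h1 (key j hj k hk hjk h)
    have e2 : (j', k') = (a, b) := by
      by_contra h
      exact h2 (key j' hj' k' hk' hjk' h)
    exact hne (e1.trans e2.symm)

/-- the weights supported by three indices -/
def tri (m : Fin n → ℤ) (a b c : Fin n) (j : Fin n) : ℤ :=
  (if j = a then m b - m c else 0) + (if j = b then m c - m a else 0) +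
    (if j = c then m a - m b else 0)

theorem tri_sum (m : Fin n → ℤ) (a b c : Fin n) : ∑ j, tri m a b c j = 0 := by
  unfold tri
  simp only [Finset.sum_add_distrib, Finset.sum_ite_eq', Finset.mem_univ, if_true]
  ring

theorem tri_sum_mul (m : Fin n → ℤ) (a b c : Fin n) : ∑ j, tri m a b c j * m j = 0 := by
  unfold tri
  simp only [add_mul, ite_mul, zero_mul, Finset.sum_add_distrib, Finset.sum_ite_eq',
    Finset.mem_univ, if_true]
  ring

end LemwAux

open LemwAux in
theorem lemw : LemwStatement := by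
  intro n ℓ A m hℓ hA hmm
  -- the two least elements
  have hA0 : A.Nonempty := Finset.card_pos.1 (by omega)
  set j0 := A.min' hA0 with hj0
  have hj0A : j0 ∈ A := A.min'_mem hA0
  have hj0le : ∀ k ∈ A, j0 ≤ k := fun k hk => A.min'_le k hk
  have hBc : (A.erase j0).card = A.card - 1 := Finset.card_erase_of_mem hj0A
  have hB0 : (A.erase j0).Nonempty := Finset.card_pos.1 (by omega)
  set j1 := (A.erase j0).min' hB0 with hj1
  have hj1B : j1 ∈ A.erase j0 := (A.erase j0).min'_mem hB0
  have hj1A : j1 ∈ A := (Finset.mem_erase.1 hj1B).2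
  have hj10 : j1 ≠ j0 := (Finset.mem_erase.1 hj1B).1
  have hj01 : j0 < j1 := lt_of_le_of_ne (hj0le j1 hj1A) (Ne.symm hj10)
  have hlt0 : ∀ k ∈ A, k ≠ j0 → j0 < k := fun k hk hne => lt_of_le_of_ne (hj0le k hk) (Ne.symm hne)
  have hle1 : ∀ k ∈ A, k ≠ j0 → j1 ≤ k := fun k hk hne =>
    (A.erase j0).min'_le k (Finset.mem_erase.2 ⟨hne, hk⟩)
  have hlt1 : ∀ k ∈ A, k ≠ j0 → k ≠ j1 → j1 < k := fun k hk hne hne1 =>
    lt_of_le_of_ne (hle1 k hk hne) (Ne.symm hne1)
  by_cases hI : ∃ b ∈ A, ∃ c ∈ A, b ≠ j0 ∧ c ≠ j0 ∧ ¬ (ℓ : ℤ) ∣ m b - m c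
  · -- Case I
    obtain ⟨b, hb, c, hc, hb0, hc0, hbc⟩ := hI
    have hbc' : b ≠ c := by
      rintro rfl
      exact hbc (by simp)
    -- the first valid index
    have hV : (A.filter (fun k => m k ≠ m j0)).Nonempty := by
      by_contra h
      rw [Finset.not_nonempty_iff_eq_empty, Finset.filter_eq_empty_iff] at h
      have h1 := h hb
      have h2 := h hc
      rw [not_not] at h1 h2
      exact hbc (by rw [h1, h2, sub_self]; exact dvd_zero _)
    obtain ⟨k0, hk0, hk0min⟩ := Finset.exists_min_image _ (fun k => ex j0 k) hV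
    rw [Finset.mem_filter] at hk0
    have hwj0 : tri m j0 b c j0 = m b - m c := by
      unfold tri
      rw [if_pos rfl, if_neg (Ne.symm hb0), if_neg (Ne.symm hc0)]
      ring
    refine single hℓ A m (tri m j0 b c) j0 k0 hj0A hk0.1 (Ne.symm hk0.2) ?_ (tri_sum m j0 b c)
      (tri_sum_mul m j0 b c) (by rw [hwj0]; exact hbc) ?_
    · intro j hj
      unfold tri
      rw [if_neg, if_neg, if_neg]
      · ring
      · rintro rfl; exact hj hc
      · rintro rfl; exact hj hb
      · rintro rfl; exact hj hj0A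
    · intro j hj k hk hjk hne
      right
      rcases (hj0le j hj).eq_or_lt with h | h
      · subst h
        have hk' : k ∈ A.filter (fun k => m k ≠ m j0) :=
          Finset.mem_filter.2 ⟨hk, Ne.symm hjk⟩
        rcases (hk0min k hk').eq_or_lt with h' | h'
        · exact absurd (by rw [LemwAux.ex_inj h']) hne
        · exact h'
      · exact ex_lt h _ _
  · -- Case II
    have hcong : ∀ b ∈ A, ∀ c ∈ A, b ≠ j0 → c ≠ j0 → (ℓ : ℤ) ∣ m b - m c := by
      intro b hb c hc hb0 hc0
      by_contra h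
      exact hI ⟨b, hb, c, hc, hb0, hc0, h⟩
    -- the value at `j0` is different modulo `ℓ`
    have hj0n : ∀ k ∈ A, k ≠ j0 → ¬ (ℓ : ℤ) ∣ m j0 - m k := by
      intro k hk hk0 hd
      obtain ⟨a, ha, b, hb, hab⟩ := hmm
      apply hab
      have h1 : ∀ a ∈ A, (ℓ : ℤ) ∣ m a - m k := by
        intro a ha
        by_cases h : a = j0
        · rw [h]; exact hd
        · exact hcong a ha k hk h hk0
      have : m a - m b = (m a - m k) - (m b - m k) := by ring
      rw [this]
      exact dvd_sub (h1 a ha) (h1 b hb)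
    have hj0ne : ∀ k ∈ A, k ≠ j0 → m j0 ≠ m k := by
      intro k hk hk0 h
      exact hj0n k hk hk0 (by rw [h, sub_self]; exact dvd_zero _)
    by_cases hIIa : ∃ k ∈ A, k ≠ j0 ∧ k ≠ j1 ∧ m k ≠ m j1
    · -- Case IIa
      have hV : (A.filter (fun k => k ≠ j0 ∧ k ≠ j1 ∧ m k ≠ m j1)).Nonempty := by
        obtain ⟨k, hk, hk'⟩ := hIIa
        exact ⟨k, Finset.mem_filter.2 ⟨hk, hk'⟩⟩
      set k1 := (A.filter (fun k => k ≠ j0 ∧ k ≠ j1 ∧ m k ≠ m j1)).min' hV with hk1
      have hk1m := (A.filter (fun k => k ≠ j0 ∧ k ≠ j1 ∧ m k ≠ m j1)).min'_mem hV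
      rw [← hk1, Finset.mem_filter] at hk1m
      obtain ⟨hk1A, hk10, hk11, hk1n⟩ := hk1m
      have hk1min : ∀ k ∈ A, k ≠ j0 → k ≠ j1 → m k ≠ m j1 → k1 ≤ k := fun k hk h1 h2 h3 =>
        Finset.min'_le _ _ (Finset.mem_filter.2 ⟨hk, h1, h2, h3⟩)
      have hj1k1 : j1 < k1 := hlt1 k1 hk1A hk10 hk11
      -- the weights
      have hw0 : tri m j0 j1 k1 j0 = m j1 - m k1 := by
        unfold tri
        rw [if_pos rfl, if_neg (Ne.symm hj10), if_neg (Ne.symm hk10)]
        ring
      have hw1 : tri m j0 j1 k1 j1 = m k1 - m j0 := by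
        unfold tri
        rw [if_neg hj10, if_pos rfl, if_neg (Ne.symm hk11)]
        ring
      have hw2 : ∀ j, j ≠ j0 → j ≠ j1 → j ≠ k1 → tri m j0 j1 k1 j = 0 := by
        intro j h0 h1 h2
        unfold tri
        rw [if_neg h0, if_neg h1, if_neg h2]
        ring
      -- the order of the first weight
      have hne0 : m j1 - m k1 ≠ 0 := sub_ne_zero.2 (Ne.symm hk1n)
      have hfin : FiniteMultiplicity (ℓ : ℤ) (m j1 - m k1) := by
        apply Int.finiteMultiplicity_iff.2
        refine ⟨?_, hne0⟩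
        rw [Int.natAbs_natCast]
        exact hℓ.one_lt.ne'
      obtain ⟨u, hu, hun⟩ := hfin.exists_eq_pow_mul_and_not_dvd
      set v := multiplicity (ℓ : ℤ) (m j1 - m k1) with hv
      set N₀ := min (v + ex j0 j1) (ex j1 k1) with hN
      -- the values
      have hval0 : ∀ k, tri m j0 j1 k1 j0 * (ℓ : ℤ) ^ ex j0 k = u * (ℓ : ℤ) ^ (v + ex j0 k) := by
        intro k
        rw [hw0, hu, pow_add]
        ring
      have hu1 : ¬ (ℓ : ℤ) ∣ tri m j0 j1 k1 j1 := by
        rw [hw1]
        intro h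
        apply hj0n k1 hk1A hk10
        have := (dvd_neg (a := (ℓ : ℤ))).2 h
        rwa [neg_sub] at this
      have hbig : ∀ j ∈ A, ∀ k ∈ A, m j ≠ m k → (j, k) ≠ (j0, j1) → (j, k) ≠ (j1, k1) →
          (ℓ : ℤ) ^ (N₀ + 1) ∣ tri m j0 j1 k1 j * (ℓ : ℤ) ^ ex j k := by
        intro j hj k hk hjk h1 h2
        by_cases e0 : j = j0
        · subst e0
          rw [hval0]
          apply dvd_of_le
          have hkj : k ≠ j1 := by
            rintro rfl
            exact h1 rfl
          have hk0 : k ≠ j0 := by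
            rintro rfl
            exact hjk rfl
          have := ex_lt_row (j := j0) (k := j1) (k' := k) hj01 (Or.inl (hlt1 k hk hk0 hkj))
          have h3 : N₀ ≤ v + ex j0 j1 := min_le_left _ _
          omega
        · by_cases e1 : j = j1
          · subst e1
            apply dvd_of_le
            have h3 : N₀ ≤ ex j1 k1 := min_le_right _ _
            have hkk : k ≠ k1 := by
              rintro rfl
              exact h2 rfl
            have : ex j1 k1 < ex j1 k := by
              apply ex_lt_row hj1k1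
              by_cases hk0 : k = j0
              · right
                rw [hk0]
                exact hj01
              · left
                have hkj : k ≠ j1 := by
                  rintro rfl
                  exact hjk rfl
                exact lt_of_le_of_ne (hk1min k hk hk0 hkj (Ne.symm hjk)) (Ne.symm hkk)
            omega
          · by_cases e2 : j = k1
            · apply dvd_of_le
              have h3 : N₀ ≤ ex j1 k1 := min_le_right _ _
              have : ex j1 k1 < ex j k := ex_lt (by rw [e2]; exact hj1k1) _ _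
              omega
            · rw [hw2 j e0 e1 e2, zero_mul]
              exact dvd_zero _
      refine ⟨tri m j0 j1 k1, N₀, ?_, tri_sum _ _ _ _, tri_sum_mul _ _ _ _, ?_, ?_, ?_, ?_, ?_⟩
      · intro j hj
        apply hw2
        · rintro rfl; exact hj hj0A
        · rintro rfl; exact hj hj1A
        · rintro rfl; exact hj hk1A
      · have h1 := ex_pos j0 j1
        have h2 := ex_pos j1 k1
        exact le_min (by omega) h2
      · have h1 := ex_le j1 k1
        have h3 : N₀ ≤ ex j1 k1 := min_le_right _ _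
        omega
      · intro j hj k hk hjk
        by_cases h1 : (j, k) = (j0, j1)
        · obtain ⟨rfl, rfl⟩ := Prod.mk.inj h1
          rw [hval0]
          exact dvd_of_le _ (min_le_left _ _)
        · by_cases h2 : (j, k) = (j1, k1)
          · obtain ⟨e1, e2⟩ := Prod.mk.inj h2
            rw [e1, e2]
            exact dvd_of_le _ (min_le_right _ _)
          · exact (pow_dvd_pow _ (Nat.le_succ _)).trans (hbig j hj k hk hjk h1 h2)
      · rcases le_total (v + ex j0 j1) (ex j1 k1) with h | h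
        · refine ⟨j0, hj0A, j1, hj1A, hj0ne j1 hj1A hj10, ?_⟩
          have : N₀ = v + ex j0 j1 := min_eq_left h
          rw [hval0, this]
          exact not_dvd hℓ hun
        · refine ⟨j1, hj1A, k1, hk1A, Ne.symm hk1n, ?_⟩
          have : N₀ = ex j1 k1 := min_eq_right h
          rw [this]
          exact not_dvd hℓ hu1
      · intro j hj k hk j' hj' k' hk' hjk hjk' h1 h2 hne q r s hq
        have c1 : (j, k) = (j0, j1) ∨ (j, k) = (j1, k1) := by
          by_contra h
          rw [not_or] at h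
          exact h1 (hbig j hj k hk hjk h.1 h.2)
        have c2 : (j', k') = (j0, j1) ∨ (j', k') = (j1, k1) := by
          by_contra h
          rw [not_or] at h
          exact h2 (hbig j' hj' k' hk' hjk' h.1 h.2)
        have hpq : ∀ r : ℕ, ¬ (ℓ : ℤ) ∣ (m j1 - m j0) * (q : ℤ) ^ r := by
          intro r h
          have hp : Prime (ℓ : ℤ) := Nat.prime_iff_prime_int.1 hℓ
          rcases hp.dvd_or_dvd h with h | h
          · apply hj0n j1 hj1A hj10
            have := (dvd_neg (a := (ℓ : ℤ))).2 h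
            rwa [neg_sub] at this
          · exact hq (by exact_mod_cast hp.dvd_of_dvd_pow h)
        have hpd : ∀ s : ℕ, (ℓ : ℤ) ∣ (m k1 - m j1) * (q : ℤ) ^ s := fun s =>
          (hcong k1 hk1A j1 hj1A hk10 hj10).mul_right _
        rcases c1 with c1 | c1 <;> rcases c2 with c2 | c2
        · exact absurd (c1.trans c2.symm) hne
        · obtain ⟨e1, e2⟩ := Prod.mk.inj c1
          obtain ⟨e3, e4⟩ := Prod.mk.inj c2
          rw [e1, e2, e3, e4]
          intro h
          exact hpq r (by rw [h]; exact hpd s)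
        · obtain ⟨e1, e2⟩ := Prod.mk.inj c1
          obtain ⟨e3, e4⟩ := Prod.mk.inj c2
          rw [e1, e2, e3, e4]
          intro h
          exact hpq s (by rw [← h]; exact hpd r)
        · exact absurd (c1.trans c2.symm) hne
    · -- Case IIb
      have hall : ∀ k ∈ A, k ≠ j0 → m k = m j1 := by
        intro k hk hk0
        by_cases h : k = j1
        · rw [h]
        · by_contra h'
          exact hIIa ⟨k, hk, hk0, h, h'⟩
      obtain ⟨k2, hk2⟩ : ((A.erase j0).erase j1).Nonempty := by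
        apply Finset.card_pos.1
        rw [Finset.card_erase_of_mem hj1B]
        omega
      rw [Finset.mem_erase, Finset.mem_erase] at hk2
      obtain ⟨hk21, hk20, hk2A⟩ := hk2
      have hj1k2 : j1 < k2 := hlt1 k2 hk2A hk20 hk21
      have hmk2 : m k2 = m j1 := hall k2 hk2A hk20
      refine single hℓ A m (fun j => (if j = j1 then 1 else 0) - (if j = k2 then 1 else 0)) j1 j0
        hj1A hj0A (Ne.symm (hj0ne j1 hj1A hj10)) ?_ ?_ ?_ ?_ ?_
      · intro j hj
        have h1 : j ≠ j1 := by rintro rfl; exact hj hj1A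
        have h2 : j ≠ k2 := by rintro rfl; exact hj hk2A
        simp only [if_neg h1, if_neg h2, sub_self]
      · simp only [Finset.sum_sub_distrib, Finset.sum_ite_eq', Finset.mem_univ, if_true, sub_self]
      · simp only [sub_mul, ite_mul, zero_mul, one_mul, Finset.sum_sub_distrib,
          Finset.sum_ite_eq', Finset.mem_univ, if_true]
        rw [hmk2, sub_self]
      · simp only [if_true, if_neg (Ne.symm hk21), sub_zero]
        intro h
        have h1 : (ℓ : ℤ).natAbs ∣ (1 : ℤ).natAbs := Int.natAbs_dvd_natAbs.2 h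
        rw [Int.natAbs_natCast, Int.natAbs_one] at h1
        exact hℓ.one_lt.ne' (Nat.dvd_one.1 h1)
      · intro j hj k hk hjk hne
        by_cases e1 : j = j1
        · exfalso
          by_cases hk0 : k = j0
          · exact hne (by rw [e1, hk0])
          · exact hjk (by rw [e1, hall k hk hk0])
        · by_cases e2 : j = k2
          · right
            rw [e2]
            exact ex_lt hj1k2 _ _
          · left
            simp only [if_neg e1, if_neg e2, sub_self]

end Pool.DynLehmer.FN
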