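import Pool.Agent.Lib.MP_2194ec_nt.FN.Iter

set_option autoImplicit false

/-!
# Sums, products and polynomials for a `Plc`; the family (helper62)
-/

namespace Pool.DynLehmer.FN
open MvPolynomial Pool.DynLehmer Pool.DynLehmer.SB

namespace ValAux

section val

variable {Ω Γ : Type} [Field Ω] [LinearOrderedCommGroupWithZero Γ] (v : Valuation Ω Γ)

theorem sum_le {ι : Type} (s : Finset ι) {f : ι → Ω} {g : Γ} (h : ∀ i ∈ s, v (f i) ≤ g) :
    v (∑ i ∈ s, f i) ≤ g := v.map_sum_le h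

theorem prod_le_one {ι : Type} (s : Finset ι) {f : ι → Ω} (h : ∀ i ∈ s, v (f i) ≤ 1) :
    v (∏ i ∈ s, f i) ≤ 1 := by
  classical
  induction s using Finset.induction_on with
  | empty => simp
  | insert a s ha ih =>
    rw [Finset.prod_insert ha, v.map_mul]
    exact mul_le_one' (h a (Finset.mem_insert_self a s))
      (ih fun i hi => h i (Finset.mem_insert_of_mem hi))

theorem pow_le_one {a : Ω} (h : v a ≤ 1) (n : ℕ) : v (a ^ n) ≤ 1 := by
  rw [v.map_pow]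
  exact pow_le_one' h n

/-- a monomial -/
theorem mono_le {n : ℕ} {y : Fin n → Ω} (hy : ∀ j, v (y j) ≤ 1) (t : Fin n → ℕ) :
    v (∏ i, y i ^ t i) ≤ 1 :=
  prod_le_one v _ fun i _ => pow_le_one v (hy i) _

theorem aeval_le {E : Type} [Field E] [Algebra E Ω] {n : ℕ} {y : Fin n → Ω}
    (hy : ∀ j, v (y j) ≤ 1) {G : MvPolynomial (Fin n) E}
    (hG : ∀ t, v (algebraMap E Ω (coeff t G)) ≤ 1) : v (aeval y G) ≤ 1 := by
  rw [aeval_def, eval₂_eq']
  refine sum_le v _ fun t _ => ?_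
  rw [v.map_mul]
  exact mul_le_one' (hG t) (mono_le v hy _)

end val

section plc

variable {E Ω k κ Γ : Type} [Field E] [Field Ω] [Algebra E Ω] [Field k] [Field κ] [Algebra k κ]
  [LinearOrderedCommGroupWithZero Γ] (𝔭 : Plc E Ω k κ Γ)

theorem res_sum {ι : Type} (s : Finset ι) {f : ι → Ω} (h : ∀ i ∈ s, 𝔭.v (f i) ≤ 1) :
    𝔭.res (∑ i ∈ s, f i) = ∑ i ∈ s, 𝔭.res (f i) := by
  classical
  induction s using Finset.induction_on with
  | empty => simp [IterAux.res_zero]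
  | insert a s ha ih =>
    have h1 : ∀ i ∈ s, 𝔭.v (f i) ≤ 1 := fun i hi => h i (Finset.mem_insert_of_mem hi)
    rw [Finset.sum_insert ha, Finset.sum_insert ha,
      𝔭.res_add _ _ (h a (Finset.mem_insert_self a s)) (sum_le 𝔭.v s h1), ih h1]

theorem res_prod {ι : Type} (s : Finset ι) {f : ι → Ω} (h : ∀ i ∈ s, 𝔭.v (f i) ≤ 1) :
    𝔭.res (∏ i ∈ s, f i) = ∏ i ∈ s, 𝔭.res (f i) := by
  classical
  induction s using Finset.induction_on with
  | empty => simp [𝔭.res_one]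
  | insert a s ha ih =>
    have h1 : ∀ i ∈ s, 𝔭.v (f i) ≤ 1 := fun i hi => h i (Finset.mem_insert_of_mem hi)
    rw [Finset.prod_insert ha, Finset.prod_insert ha,
      𝔭.res_mul _ _ (h a (Finset.mem_insert_self a s)) (prod_le_one 𝔭.v s h1), ih h1]

theorem res_pow {a : Ω} (h : 𝔭.v a ≤ 1) (n : ℕ) : 𝔭.res (a ^ n) = 𝔭.res a ^ n := by
  have := res_prod 𝔭 (Finset.range n) (f := fun _ => a) fun _ _ => h
  simpa using this

theorem res_congr {a b : Ω} (hb : 𝔭.v b ≤ 1) (h : 𝔭.v (a - b) < 1) :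
    𝔭.v a ≤ 1 ∧ 𝔭.res a = 𝔭.res b := by
  have e : a = (a - b) + b := by ring
  have h1 : 𝔭.v a ≤ 1 := by
    rw [e]
    exact 𝔭.v.map_add_le h.le hb
  refine ⟨h1, ?_⟩
  conv_lhs => rw [e]
  rw [𝔭.res_add _ _ h.le hb, (𝔭.res_eq_zero _ h.le).2 h, zero_add]

end plc

section fam

variable {E Ω Γ : Type} [Field E] [Field Ω] [Algebra E Ω] [LinearOrderedCommGroupWithZero Γ]
  {v : Valuation Ω Γ} {n q ℓ : ℕ} {F : Fin n → MvPolynomial (Fin n) E}

/-- the sum of the perturbation terms -/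
noncomputable def pert (n q ℓ : ℕ) (j : Fin n) (y : Fin n → Ω) : Ω :=
  (∑ k ∈ Finset.univ.filter (fun k : Fin n => k ≠ j),
    (ℓ : Ω) ^ ex j k * (y j * y k ^ (q - 1))) +
  ∑ ab ∈ Finset.univ.filter (fun ab : Fin n × Fin n =>
      ab.1 < ab.2 ∧ jj ab.1.val ab.2.val = j.val),
    (ℓ : Ω) ^ (2 * n ^ 2) * (y ab.1 ^ (q - 1) * y ab.2)

theorem Fam.eval (hF : Fam v n q ℓ F) (j : Fin n) :
    ∃ G : MvPolynomial (Fin n) E, (∀ t, v (algebraMap E Ω (coeff t G)) ≤ 1) ∧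
      ∀ y : Fin n → Ω, gAct F Ω y j =
        y j ^ q + pert n q ℓ j y + (ℓ : Ω) ^ (2 * n ^ 2 + 1) * aeval y G := by
  obtain ⟨G, hG, he⟩ := hF.cong j
  refine ⟨G, hG, fun y => ?_⟩
  show aeval y (F j) = _
  rw [he]
  unfold per pert
  simp [map_sum]

theorem pert_le (hl : v (ℓ : Ω) ≤ 1) (j : Fin n) {y : Fin n → Ω}
    (hy : ∀ j, v (y j) ≤ 1) :
    v (pert n q ℓ j y) ≤ max (v (ℓ : Ω) ^ (n ^ 2) * v (y j)) (v (ℓ : Ω) ^ (2 * n ^ 2)) := by
  unfold pert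
  refine v.map_add_le ?_ ?_
  · refine le_max_of_le_left (sum_le v _ fun k _ => ?_)
    rw [v.map_mul, v.map_pow, v.map_mul]
    refine mul_le_mul' ?_ ?_
    · exact pow_le_pow_right_of_le_one' hl (by unfold ex; omega)
    · exact mul_le_of_le_one_right' (pow_le_one v (hy k) _)
  · refine le_max_of_le_right (sum_le v _ fun k _ => ?_)
    rw [v.map_mul, v.map_pow, v.map_mul]
    exact mul_le_of_le_one_right' (mul_le_one' (pow_le_one v (hy _) _) (hy _))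

theorem Fam.sub_le (hF : Fam v n q ℓ F) (hl : v (ℓ : Ω) ≤ 1) (j : Fin n) {y : Fin n → Ω}
    (hy : ∀ j, v (y j) ≤ 1) :
    v (gAct F Ω y j - y j ^ q) ≤
      max (v (ℓ : Ω) ^ (n ^ 2) * v (y j)) (v (ℓ : Ω) ^ (2 * n ^ 2)) := by
  obtain ⟨G, hG, he⟩ := Fam.eval hF j
  have e : gAct F Ω y j - y j ^ q = pert n q ℓ j y + (ℓ : Ω) ^ (2 * n ^ 2 + 1) * aeval y G := by
    rw [he]
    ring
  rw [e]
  refine v.map_add_le (pert_le hl j hy) (le_max_of_le_right ?_)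
  rw [v.map_mul, v.map_pow]
  refine (mul_le_of_le_one_right' (aeval_le v hy hG)).trans ?_
  exact pow_le_pow_right_of_le_one' hl (by omega)

theorem Fam.sub_le' (hF : Fam v n q ℓ F) (hn : 1 ≤ n) (hl : v (ℓ : Ω) ≤ 1) (j : Fin n)
    {y : Fin n → Ω} (hy : ∀ j, v (y j) ≤ 1) : v (gAct F Ω y j - y j ^ q) ≤ v (ℓ : Ω) := by
  refine (Fam.sub_le hF hl j hy).trans (max_le ?_ ?_)
  · have h1 : v (ℓ : Ω) ^ (n ^ 2) ≤ v (ℓ : Ω) := by
      have := pow_le_pow_right_of_le_one' hl (n := 1) (m := n ^ 2) (Nat.one_le_pow _ _ hn)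
      rwa [pow_one] at this
    exact (mul_le_of_le_one_right' (hy j)).trans h1
  · have := pow_le_pow_right_of_le_one' hl (n := 1) (m := 2 * n ^ 2)
      (by have := Nat.one_le_pow 2 n hn; omega)
    rwa [pow_one] at this

end fam

end ValAux

end Pool.DynLehmer.FN
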