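import Pool.Agent.Lib.MP_2194ec_nt.FN.Place
import Pool.Agent.Lib.MP_2194ec_nt.FN.ValAux

set_option autoImplicit false

/-!
# Module TFIN (helper27): the case of two units
-/

namespace Pool.DynLehmer.FN
open MvPolynomial Pool.DynLehmer Pool.DynLehmer.SB ValAux
open scoped Classical

namespace TfinAux

section plc

variable {E Ω k κ Γ : Type} [Field E] [Field Ω] [Algebra E Ω] [Field k] [Field κ] [Algebra k κ]
  [LinearOrderedCommGroupWithZero Γ] (𝔭 : Plc E Ω k κ Γ)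

theorem res_nat (m : ℕ) : 𝔭.v (m : Ω) ≤ 1 ∧ 𝔭.res (m : Ω) = (m : κ) := by
  induction m with
  | zero => simp [IterAux.res_zero]
  | succ m ih =>
    push_cast
    refine ⟨𝔭.v.map_add_le ih.1 (by simp), ?_⟩
    rw [𝔭.res_add _ _ ih.1 (by simp), ih.2, 𝔭.res_one]

theorem v_one_of_res {y : Ω} (h : 𝔭.v y ≤ 1) (h' : 𝔭.res y ≠ 0) : 𝔭.v y = 1 := by
  by_contra hne
  exact h' ((𝔭.res_eq_zero y h).2 (lt_of_le_of_ne h hne))

theorem res_div {y z : Ω} (hy : 𝔭.v y ≤ 1) (hz : 𝔭.v z ≤ 1) (hz' : 𝔭.res z ≠ 0) :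
    𝔭.v (y / z) ≤ 1 ∧ 𝔭.res (y / z) = 𝔭.res y / 𝔭.res z := by
  have h1 := v_one_of_res 𝔭 hz hz'
  have hz0 : z ≠ 0 := by
    rintro rfl
    simp at h1
  have h2 : 𝔭.v (y / z) ≤ 1 := by
    rw [map_div₀, h1, div_one]
    exact hy
  refine ⟨h2, ?_⟩
  rw [eq_div_iff hz', ← 𝔭.res_mul _ _ h2 hz, div_mul_cancel₀ _ hz0]

/-- an element with transcendental residue is transcendental -/
theorem trans_of_res {u : Ω} (hu : 𝔭.v u ≤ 1) (h : Transcendental k (𝔭.res u)) :
    Transcendental E u := by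
  rw [transcendental_iff]
  intro p hp
  by_contra hp0
  obtain ⟨i₀, hi₀, hmax⟩ := p.support.exists_max_image
    (fun i => 𝔭.v (algebraMap E Ω (p.coeff i))) (by
      rw [Finset.nonempty_iff_ne_empty]
      simpa using hp0)
  have hc0 : p.coeff i₀ ≠ 0 := Polynomial.mem_support_iff.1 hi₀
  have hv0 : 0 < 𝔭.v (algebraMap E Ω (p.coeff i₀)) := by
    rw [zero_lt_iff, Valuation.ne_zero_iff]
    exact (map_ne_zero _).2 hc0
  have hle : ∀ i, 𝔭.v (algebraMap E Ω (p.coeff i / p.coeff i₀)) ≤ 1 := by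
    intro i
    rw [map_div₀, map_div₀]
    by_cases hi : i ∈ p.support
    · exact (div_le_one₀ hv0).2 (hmax i hi)
    · rw [Polynomial.notMem_support_iff.1 hi]
      simp
  choose cc hcc using fun i => 𝔭.res_const _ (hle i)
  refine h ⟨∑ i ∈ Finset.range (p.natDegree + 1), Polynomial.monomial i (cc i), ?_, ?_⟩
  · intro h0
    have h1 := congrArg (fun s => Polynomial.coeff s i₀) h0
    simp only [Polynomial.finsetSum_coeff, Polynomial.coeff_monomial, Polynomial.coeff_zero] at h1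
    rw [Finset.sum_ite_eq', if_pos (Finset.mem_range.2 (Nat.lt_succ_of_le
      (Polynomial.le_natDegree_of_ne_zero hc0)))] at h1
    have h2 := hcc i₀
    rw [h1, map_zero, div_self hc0, map_one, 𝔭.res_one] at h2
    exact zero_ne_one h2
  · rw [map_sum]
    have h1 : 𝔭.res (∑ i ∈ Finset.range (p.natDegree + 1),
        algebraMap E Ω (p.coeff i / p.coeff i₀) * u ^ i) =
        ∑ i ∈ Finset.range (p.natDegree + 1),
          𝔭.res (algebraMap E Ω (p.coeff i / p.coeff i₀)) * 𝔭.res u ^ i := by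
      rw [res_sum 𝔭 _ fun i _ => by
        rw [Valuation.map_mul]
        exact mul_le_one' (hle i) (pow_le_one 𝔭.v hu i)]
      refine Finset.sum_congr rfl fun i _ => ?_
      rw [𝔭.res_mul _ _ (hle i) (pow_le_one 𝔭.v hu i), res_pow 𝔭 hu]
    have h2 : ∑ i ∈ Finset.range (p.natDegree + 1),
        algebraMap E Ω (p.coeff i / p.coeff i₀) * u ^ i = 0 := by
      have h3 : algebraMap E Ω (p.coeff i₀) * ∑ i ∈ Finset.range (p.natDegree + 1),
          algebraMap E Ω (p.coeff i / p.coeff i₀) * u ^ i = Polynomial.aeval u p := by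
        rw [Polynomial.aeval_eq_sum_range, Finset.mul_sum]
        refine Finset.sum_congr rfl fun i _ => ?_
        rw [Algebra.smul_def, ← mul_assoc, ← map_mul, mul_div_cancel₀ _ hc0]
      rw [hp] at h3
      exact (mul_eq_zero.1 h3).resolve_left ((map_ne_zero _).2 hc0)
    rw [h2, IterAux.res_zero] at h1
    rw [h1]
    refine Finset.sum_congr rfl fun i _ => ?_
    rw [Polynomial.aeval_monomial, hcc]

end plc

/-- a sparse relation -/
theorem rel_sparse {k κ : Type} [Field k] [Field κ] [Algebra k κ] (U : κ)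
    (hU : Transcendental k U) (Q c : ℕ) (hc : c < Q) (R : MvPolynomial (Fin 2) k) (hR : R ≠ 0)
    (hdeg : ∀ t ∈ R.support, t 1 ≤ c) (h : aeval ![U ^ Q, U] R = 0) : False := by
  let S : Polynomial k := aeval ![Polynomial.X ^ Q, Polynomial.X] R
  have hS : Polynomial.aeval U S = 0 := by
    have h1 : Polynomial.aeval U (aeval ![Polynomial.X ^ Q, Polynomial.X] R : Polynomial k) =
        aeval (fun i => Polynomial.aeval U ((![Polynomial.X ^ Q, Polynomial.X] :
          Fin 2 → Polynomial k) i)) R := by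
      rw [← comp_aeval_apply]
    show Polynomial.aeval U (aeval ![Polynomial.X ^ Q, Polynomial.X] R : Polynomial k) = 0
    rw [h1, ← h]
    congr 2
    funext i
    fin_cases i <;> simp
  have hS0 : S = 0 := by
    by_contra hne
    exact hU ⟨S, hne, hS⟩
  obtain ⟨t, ht⟩ := (ne_zero_iff).1 hR
  have hts : t ∈ R.support := mem_support_iff.2 ht
  have h1 : S = ∑ s ∈ R.support, Polynomial.monomial (Q * s 0 + s 1) (coeff s R) := by
    show aeval _ R = _
    rw [aeval_def, eval₂_eq']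
    refine Finset.sum_congr rfl fun s _ => ?_
    rw [Fin.prod_univ_two]
    simp only [Matrix.cons_val_zero, Matrix.cons_val_one, Polynomial.algebraMap_eq]
    rw [← pow_mul, ← pow_add, Polynomial.C_mul_X_pow_eq_monomial]
  have h2 := congrArg (fun s => Polynomial.coeff s (Q * t 0 + t 1)) h1
  simp only [hS0, Polynomial.coeff_zero, Polynomial.finsetSum_coeff,
    Polynomial.coeff_monomial] at h2
  rw [Finset.sum_eq_single t] at h2
  · rw [if_pos rfl] at h2
    exact ht h2.symm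
  · intro s hs hst
    rw [if_neg]
    intro heq
    apply hst
    have e1 : s 1 < Q := lt_of_le_of_lt (hdeg s hs) hc
    have e2 : t 1 < Q := lt_of_le_of_lt (hdeg t hts) hc
    have e3 : s 1 = t 1 := by
      have := congrArg (· % Q) heq
      simp only [Nat.mul_add_mod] at this
      rwa [Nat.mod_eq_of_lt e1, Nat.mod_eq_of_lt e2] at this
    have e4 : s 0 = t 0 := by
      rw [e3] at heq
      exact Nat.eq_of_mul_eq_mul_left (by omega) (Nat.add_right_cancel heq)
    ext i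
    fin_cases i
    · exact e4
    · exact e3
  · intro hn
    exact absurd hts hn

/-- values of polynomials at elements of an intermediate field -/
theorem gAct_mem {E Ω : Type} [Field E] [Field Ω] [Algebra E Ω] {n : ℕ}
    (F : Fin n → MvPolynomial (Fin n) E) (L : IntermediateField E Ω) (w : Fin n → Ω)
    (hw : ∀ j, w j ∈ L) (j : Fin n) : gAct F Ω w j ∈ L := by
  have h1 := congrFun (gAct_map F L.val (fun j => (⟨w j, hw j⟩ : L))) j
  have h2 : (fun i => L.val (⟨w i, hw i⟩ : L)) = w := rfl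
  rw [h2] at h1
  rw [h1]
  exact (gAct F L (fun j => (⟨w j, hw j⟩ : L)) j).2

end TfinAux

theorem tfin (_hrelw : RelwStatement) (hdegf : DegfStatement) (hredp : RedpStatement)
    (hresq : ResqStatement) (hsmall : SmallStatement) (hslope : SlopeStatement)
    (hgoodr : GoodrStatement) (htcore : TcoreStatement) (hfixf : FixfStatement) :
    TfinStatement := by
  intro E Ω k κ Γ _ _ _ _ _ _ _ _ _ 𝔭 n q ℓ c F x hn hℓ hq hlq hch hF hHW a b hab hx hx' hind
  have hCΩ : CharZero Ω := charZero_of_injective_algebraMap (algebraMap E Ω).injective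
  have hl0 : (ℓ : Ω) ≠ 0 := by exact_mod_cast hℓ.ne_zero
  have hlk : (ℓ : k) = 0 := CharP.cast_eq_zero k ℓ
  have hlκ : (ℓ : κ) = 0 := by
    have h1 : algebraMap k κ (ℓ : k) = 0 := by rw [hlk, map_zero]
    rwa [map_natCast] at h1
  have hlv : 𝔭.v (ℓ : Ω) < 1 := by
    obtain ⟨h1, h2⟩ := TfinAux.res_nat 𝔭 ℓ
    exact (𝔭.res_eq_zero _ h1).1 (by rw [h2, hlκ])
  have hqk : (q : k) ≠ 0 := by
    rw [Ne, CharP.cast_eq_zero_iff k ℓ q]
    exact hlq
  have hqκ : (q : κ) ≠ 0 := by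
    intro h0
    apply hqk
    apply (algebraMap k κ).injective
    simpa using h0
  have hqv : 𝔭.v (q : Ω) = 1 := by
    obtain ⟨h1, h2⟩ := TfinAux.res_nat 𝔭 q
    exact TfinAux.v_one_of_res 𝔭 h1 (by rw [h2]; exact hqκ)
  have hra : 𝔭.res (x a) ≠ 0 := hind.ne_zero 0
  obtain ⟨w, hwdef⟩ : ∃ w, w = 𝔭.res (x b) / 𝔭.res (x a) := ⟨_, rfl⟩
  have hw : Transcendental k w := by
    rw [hwdef]
    exact PlaceAux.trans_ratio _ _ fun P hP h0 => hP ((algebraicIndependent_iff.1 hind) P h0)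
  have hab' : a ≠ b := hab.ne
  -- the orbit
  obtain ⟨X, hXdef⟩ : ∃ X : ℕ → Fin n → Ω, X = fun i => (gAct F Ω)^[i] x := ⟨_, rfl⟩
  have hX0 : X 0 = x := by rw [hXdef]; rfl
  have hXs : ∀ i, X (i + 1) = gAct F Ω (X i) := by
    intro i
    rw [hXdef]
    exact Function.iterate_succ_apply' _ _ _
  have hXv : ∀ i j, 𝔭.v (X i j) ≤ 1 := by
    intro i
    rw [hXdef]
    exact (hresq E Ω k κ Γ 𝔭 n q ℓ F (by omega) hq hlv hF x hx i).1
  have hXr : ∀ i j, 𝔭.res (X i j) = 𝔭.res (x j) ^ (q ^ i) := by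
    intro i
    rw [hXdef]
    exact (hresq E Ω k κ Γ 𝔭 n q ℓ F (by omega) hq hlv hF x hx i).2
  have hXra : ∀ i, 𝔭.res (X i a) ≠ 0 := by
    intro i
    rw [hXr]
    exact pow_ne_zero _ hra
  have hXa0 : ∀ i, X i a ≠ 0 := by
    intro i h0
    have := hXra i
    rw [h0, IterAux.res_zero] at this
    exact this rfl
  -- the normalised orbit
  obtain ⟨Z, hZdef⟩ : ∃ Z : ℕ → Fin n → Ω, Z = fun i j => X i j / X i a := ⟨_, rfl⟩
  have hZ : ∀ i j, Z i j = X i j / X i a := fun i j => by rw [hZdef]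
  have hZa : ∀ i, Z i a = 1 := fun i => by rw [hZ, div_self (hXa0 i)]
  have hZv : ∀ i j, 𝔭.v (Z i j) ≤ 1 := fun i j => by
    rw [hZ]
    exact (TfinAux.res_div 𝔭 (hXv i j) (hXv i a) (hXra i)).1
  have hZr : ∀ i j, 𝔭.res (Z i j) = (𝔭.res (x j) / 𝔭.res (x a)) ^ (q ^ i) := fun i j => by
    rw [hZ, (TfinAux.res_div 𝔭 (hXv i j) (hXv i a) (hXra i)).2, hXr, hXr, div_pow]
  have hZrb : ∀ i, 𝔭.res (Z i b) = w ^ (q ^ i) := fun i => by rw [hZr, hwdef]
  have hZtr : ∀ i, Transcendental k (𝔭.res (Z i b)) := fun i => by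
    rw [hZrb]
    exact hw.pow (by positivity)
  have hZs : ∀ i, Z i = (X i a)⁻¹ • X i := by
    intro i
    funext j
    rw [hZ, Pi.smul_apply, smul_eq_mul, div_eq_inv_mul]
  have hZg : ∀ i j, gAct F Ω (Z i) j / gAct F Ω (Z i) a = Z (i + 1) j := by
    intro i j
    rw [hZs i, gAct_smul F hF.hom, Pi.smul_apply, Pi.smul_apply, smul_eq_mul, smul_eq_mul,
      mul_div_mul_left _ _ (pow_ne_zero _ (inv_ne_zero (hXa0 i))), ← hXs, hZ]
  -- the fields
  obtain ⟨Kf, hKdef⟩ : ∃ Kf : ℕ → IntermediateField E Ω, Kf = fun i =>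
    IntermediateField.adjoin E (Set.range (Z i)) := ⟨_, rfl⟩
  have hKm : ∀ i j, Z i j ∈ Kf i := by
    intro i j
    rw [hKdef]
    exact IntermediateField.subset_adjoin E _ ⟨j, rfl⟩
  have hKle : ∀ i (M : IntermediateField E Ω), (∀ j, Z i j ∈ M) → Kf i ≤ M := by
    intro i M hM
    rw [hKdef]
    refine IntermediateField.adjoin_le_iff.2 ?_
    rintro _ ⟨j, rfl⟩
    exact hM j
  have hKs : ∀ i, Kf (i + 1) ≤ Kf i := by
    intro i
    refine hKle _ _ fun j => ?_
    rw [← hZg]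
    exact div_mem (TfinAux.gAct_mem F _ _ (hKm i) j) (TfinAux.gAct_mem F _ _ (hKm i) a)
  have hK0 : ∀ i, Kf i ≤ Kf 0 := by
    intro i
    induction i with
    | zero => exact le_rfl
    | succ i ih => exact (hKs i).trans ih
  have hKeq : ∀ i, Kf i = IntermediateField.adjoin E (Set.range fun j => X i j / X i a) := by
    intro i
    rw [hKdef]
    simp only
    congr 1
    exact congrArg Set.range (funext fun j => hZ i j)
  have hdeg : ∀ i, ∀ f ∈ Kf i, ∃ P : MvPolynomial (Fin 2) E, P ≠ 0 ∧ P.degreeOf 1 ≤ c ∧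
      aeval ![Z i b, f] P = 0 := by
    intro i f hf
    have h1 := hdegf E Ω (Fin n) (X i) c (by rw [hXdef]; exact hHW i) a b (hXa0 i) f
      (by rw [← hKeq]; exact hf)
    rwa [← hZ] at h1
  have hZtE : ∀ i, Transcendental E (Z i b) := fun i =>
    TfinAux.trans_of_res 𝔭 (hZv i b) (hZtr i)
  have halg : ∀ i, ∀ z ∈ Kf 0, IsAlgebraic (Kf i) z := by
    intro i z hz
    obtain ⟨P, hP0, -, hP⟩ := hdeg 0 z hz
    have e1 := PlaceAux.alg_of_rel _ _ (hZtE 0) P hP0 hP
    obtain ⟨P', hP0', -, hP'⟩ := hdeg 0 (Z i b) (hK0 i (hKm i b))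
    have e2 : IsAlgebraic (IntermediateField.adjoin E {Z i b}) (Z 0 b) := by
      refine PlaceAux.alg_of_rel _ _ (hZtE i) (rename (Equiv.swap 0 1) P') ?_ ?_
      · intro h0
        exact hP0' (rename_injective _ (Equiv.swap (0 : Fin 2) 1).injective (by
          rw [h0, map_zero]))
      · rw [aeval_rename, ← hP']
        congr 2
        funext s
        fin_cases s <;> simp
    have e3 : IsAlgebraic (IntermediateField.adjoin E {Z i b}) z :=
      PlaceAux.alg_of_gen {Z 0 b} _ (by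
        intro s hs
        rw [Set.mem_singleton_iff.1 hs]
        exact e2) z e1
    have hle : IntermediateField.adjoin E {Z i b} ≤ Kf i := by
      rw [IntermediateField.adjoin_le_iff, Set.singleton_subset_iff]
      exact hKm i b
    exact PlaceAux.alg_mono (IntermediateField.inclusion hle).toRingHom (fun r => rfl) e3
  -- the slopes of the other coordinates
  have hxa0 : x a ≠ 0 := by rw [← hX0]; exact hXa0 0
  have hslp : ∃ (r : Γ) (P : Fin n → MvPolynomial (Fin 2) E), r < 1 ∧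
      (∀ j, aeval ![Z 0 b, Z 0 j] (P j) = 0) ∧
      ∀ j, ∀ U V : Ω, 𝔭.v U ≤ 1 → Transcendental k (𝔭.res U) → 𝔭.v V < 1 →
        aeval ![U, V] (P j) = 0 → 𝔭.v V ≤ r := by
    have h1 : ∀ j, ∃ P : MvPolynomial (Fin 2) E, P ≠ 0 ∧ aeval ![Z 0 b, Z 0 j] P = 0 := by
      intro j
      obtain ⟨P, hP0, -, hP⟩ := hdeg 0 (Z 0 j) (hKm 0 j)
      exact ⟨P, hP0, hP⟩
    choose P hP0 hP using h1
    have h2 : ∀ j, ∃ r : Γ, r < 1 ∧ ∀ U V : Ω, 𝔭.v U ≤ 1 → Transcendental k (𝔭.res U) →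
        𝔭.v V < 1 → aeval ![U, V] (P j) = 0 → 𝔭.v V ≤ r := fun j =>
      hslope E Ω k κ Γ 𝔭 (P j) (hP0 j)
    choose r hr1 hr using h2
    obtain ⟨j₀, -, hmax⟩ := (Finset.univ : Finset (Fin n)).exists_max_image r ⟨a, by simp⟩
    exact ⟨r j₀, P, hr1 j₀, hP, fun j U V e1 e2 e3 e4 =>
      (hr j U V e1 e2 e3 e4).trans (hmax j (by simp))⟩
  obtain ⟨r, P, hr1, hPZ, hPr⟩ := hslp
  obtain ⟨i₀, hi₀⟩ := hsmall E Ω k κ Γ 𝔭 n q ℓ F (by omega) hq hl0 hlv hF r hr1
  have hZ0 : ∀ j, j ≠ a → j ≠ b → 𝔭.v (Z 0 j) ≤ r := by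
    intro j hja hjb
    refine hPr j (Z 0 b) (Z 0 j) (hZv 0 b) (hZtr 0) ?_ (hPZ j)
    refine (𝔭.res_eq_zero _ (hZv 0 j)).1 ?_
    rw [hZr, (𝔭.res_eq_zero _ (hx j)).2 (hx' j hja hjb), zero_div, pow_zero, pow_one]
  -- the orbit over the field `L`
  let L : IntermediateField E Ω := Kf 0
  let yL : Fin n → L := fun j => ⟨Z 0 j, hKm 0 j⟩
  obtain ⟨A, hAdef⟩ : ∃ A : ℕ → Fin n → L, A = fun i => (gAct F L)^[i] yL := ⟨_, rfl⟩
  have hAs : ∀ i, A (i + 1) = gAct F L (A i) := by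
    intro i
    rw [hAdef]
    exact Function.iterate_succ_apply' _ _ _
  have hAΩ : ∀ i j, ((A i j : L) : Ω) = (gAct F Ω)^[i] (Z 0) j := by
    intro i j
    have h1 := congrFun (gAct_iter_map F L.val i yL) j
    rw [hAdef]
    exact h1.symm
  have hAX : ∀ i j, ((A i j : L) : Ω) = (x a)⁻¹ ^ (q ^ i) * X i j := by
    intro i j
    rw [hAΩ, hZs 0, gAct_iter_smul F hF.hom, Pi.smul_apply, smul_eq_mul, hX0, hXdef]
  have hA0 : ∀ i, A i a ≠ 0 := by
    intro i h0
    have h1 := hAX i a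
    rw [h0] at h1
    exact mul_ne_zero (pow_ne_zero _ (inv_ne_zero hxa0)) (hXa0 i) h1.symm
  have hAZ : ∀ i j, ((A i j / A i a : L) : Ω) = Z i j := by
    intro i j
    have h1 : ((A i j / A i a : L) : Ω) = ((A i j : L) : Ω) / ((A i a : L) : Ω) := rfl
    rw [h1, hAX, hAX, mul_div_mul_left _ _ (pow_ne_zero _ (inv_ne_zero hxa0)), hZ]
  have hAa : ∀ i, ((A i a : L) : Ω) ≠ 0 := fun i h0 => hA0 i (Subtype.ext h0)
  have hvA : ∀ i, 𝔭.v ((A i a : L) : Ω) = 1 := by
    intro i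
    obtain ⟨e1, e2⟩ := hresq E Ω k κ Γ 𝔭 n q ℓ F (by omega) hq hlv hF (Z 0) (hZv 0) i
    rw [hAΩ]
    refine TfinAux.v_one_of_res 𝔭 (e1 a) ?_
    rw [e2, hZa, 𝔭.res_one, one_pow]
    exact one_ne_zero
  have key : ∀ i, i₀ ≤ i → ∀ τ : L →ₐ[E] Ω, (∀ z : L, (z : Ω) ∈ Kf (i + 1) → τ z = z) →
      ∀ j, τ (A i j / A i a) = Z i j := by
    intro i hi τ hτ
    obtain ⟨y', hy'def⟩ : ∃ y' : Fin n → Ω, y' = fun j => τ (yL j) := ⟨_, rfl⟩
    have hyi : ∀ m j, (gAct F Ω)^[m] y' j = τ (A m j) := by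
      intro m j
      rw [hy'def, hAdef]
      exact congrFun (gAct_iter_map F τ m yL) j
    have hτA : ∀ m, τ (A m a) ≠ 0 := fun m => (map_ne_zero τ).2 (hA0 m)
    have hfix : ∀ j, τ (A (i + 1) j) * ((A (i + 1) a : L) : Ω) =
        ((A (i + 1) j : L) : Ω) * τ (A (i + 1) a) := by
      intro j
      have h1 := hτ (A (i + 1) j / A (i + 1) a) (by rw [hAZ]; exact hKm (i + 1) j)
      rw [map_div₀] at h1
      have h2 : ((A (i + 1) j / A (i + 1) a : L) : Ω) =
        ((A (i + 1) j : L) : Ω) / ((A (i + 1) a : L) : Ω) := rfl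
      rw [h2, div_eq_div_iff (hτA _) (hAa _)] at h1
      exact h1
    have hya : y' a = 1 := by
      have h1 : yL a = 1 := Subtype.ext (hZa 0)
      rw [hy'def]
      show τ (yL a) = 1
      rw [h1, map_one]
    obtain ⟨g1, g2⟩ := hgoodr E Ω k κ Γ 𝔭 n q ℓ F hq hlv hF a (Z 0) y' (i + 1) (hZv 0) (hZa 0)
      hya (fun j => by
        rw [hyi, hyi, ← hAΩ, ← hAΩ]
        exact hfix j)
    have hytr : Transcendental k (𝔭.res (y' b)) := by
      intro h0
      refine ((hZtr 0).pow (n := q ^ (i + 1)) (by positivity)) ?_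
      rw [← g2 b]
      exact h0.pow _
    have hyj : ∀ j, j ≠ a → j ≠ b → 𝔭.v (y' j) ≤ r := by
      intro j hja hjb
      refine hPr j (y' b) (y' j) (g1 b) hytr ?_ ?_
      · refine (𝔭.res_eq_zero _ (g1 j)).1 ?_
        have h1 := g2 j
        rw [hZr 0 j, (𝔭.res_eq_zero _ (hx j)).2 (hx' j hja hjb), zero_div, pow_zero, pow_one,
          zero_pow (by positivity)] at h1
        exact pow_eq_zero_iff (by positivity) |>.1 h1
      · have h1 : aeval ![yL b, yL j] (P j) = 0 := by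
          apply Subtype.ext
          have h2 := comp_aeval_apply L.val (f := ![yL b, yL j]) (P j)
          have h3 : (fun s => L.val ((![yL b, yL j] : Fin 2 → L) s)) = ![Z 0 b, Z 0 j] := by
            funext s
            fin_cases s <;> rfl
          rw [h3, hPZ j] at h2
          exact h2
        have h2 := comp_aeval_apply τ (f := ![yL b, yL j]) (P j)
        rw [h1, map_zero] at h2
        have h3 : (fun s => τ ((![yL b, yL j] : Fin 2 → L) s)) = ![y' b, y' j] := by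
          rw [hy'def]
          funext s
          fin_cases s <;> rfl
        rw [h3] at h2
        exact h2.symm
    obtain ⟨e1, e2⟩ := hresq E Ω k κ Γ 𝔭 n q ℓ F (by omega) hq hlv hF y' g1 i
    have hvτ : 𝔭.v (τ (A i a)) = 1 := by
      rw [← hyi]
      refine TfinAux.v_one_of_res 𝔭 (e1 a) ?_
      rw [e2, hya, 𝔭.res_one, one_pow]
      exact one_ne_zero
    have hrτ : 𝔭.res (τ (A i a)) = 1 := by
      rw [← hyi, e2, hya, 𝔭.res_one, one_pow]
    obtain ⟨Y', hY'def⟩ : ∃ Y' : Fin n → Ω, Y' = fun j => τ (A i j / A i a) := ⟨_, rfl⟩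
    have hY' : ∀ j, Y' j = τ (A i j) / τ (A i a) := fun j => by
      rw [hY'def]
      exact map_div₀ _ _ _
    have hYs : Y' = (τ (A i a))⁻¹ • (gAct F Ω)^[i] y' := by
      funext j
      rw [hY', Pi.smul_apply, smul_eq_mul, hyi, div_eq_inv_mul]
    have hZs' : Z i = (((A i a : L) : Ω))⁻¹ • (gAct F Ω)^[i] (Z 0) := by
      funext j
      rw [Pi.smul_apply, smul_eq_mul, ← hAΩ, ← hAZ]
      have : ((A i j / A i a : L) : Ω) = ((A i j : L) : Ω) / ((A i a : L) : Ω) := rfl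
      rw [this, div_eq_inv_mul]
    have hvY : ∀ j, 𝔭.v (Y' j) ≤ 𝔭.v ((gAct F Ω)^[i] y' j) := by
      intro j
      rw [hY', map_div₀, hvτ, div_one, hyi]
    have hYr : ∀ j, 𝔭.res (Y' j) = 𝔭.res (y' j) ^ (q ^ i) := by
      intro j
      rw [hY', (TfinAux.res_div 𝔭 (by rw [← hyi]; exact e1 j) hvτ.le
        (by rw [hrτ]; exact one_ne_zero)).2, hrτ, div_one, ← hyi, e2]
    have h := htcore E Ω k κ Γ 𝔭 n q ℓ F hn hq hl0 hlv hqv hF a b hab (Z i) Y' (hZa i)
      (by rw [hY', div_self (hτA i)]) (hZv i b) ((hvY b).trans (e1 b)) (hZtr i)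
      (by rw [hYr]; exact hytr.pow (by positivity))
      (fun j hja hjb => by
        have h1 := hi₀ (Z 0) (hZv 0) j (hZ0 j hja hjb) i hi
        rw [hZs', Pi.smul_apply, smul_eq_mul, Valuation.map_mul, map_inv₀, hvA, inv_one, one_mul]
        exact h1)
      (fun j hja hjb => (hvY j).trans (hi₀ y' g1 j (hyj j hja hjb) i hi))
      (fun j => by
        rw [hYs, hZs', gAct_smul F hF.hom, gAct_smul F hF.hom]
        simp only [Pi.smul_apply, smul_eq_mul]
        rw [← Function.iterate_succ_apply' (gAct F Ω), ← Function.iterate_succ_apply' (gAct F Ω),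
          hyi, hyi, ← hAΩ, ← hAΩ]
        have h1 := hfix j
        simp only [Nat.succ_eq_add_one]
        linear_combination ((τ (A i a))⁻¹ ^ q * (((A i a : L) : Ω))⁻¹ ^ q) * h1)
    intro j
    rw [← h, hY'def]
  have hKinc : ∀ i, i₀ ≤ i → Kf i ≤ Kf (i + 1) := by
    intro i hi
    refine hKle _ _ fun j => ?_
    refine hfixf E Ω (Kf (i + 1)) L (hK0 (i + 1)) (halg (i + 1)) (Z i j) (hK0 i (hKm i j))
      fun τ hτ => ?_
    have h1 := key i hi τ hτ j
    have h2 : (⟨Z i j, hK0 i (hKm i j)⟩ : L) = A i j / A i a := Subtype.ext (hAZ i j).symm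
    rw [h2]
    exact h1
  have hKall : ∀ m, Kf i₀ ≤ Kf (i₀ + m) := by
    intro m
    induction m with
    | zero => exact le_rfl
    | succ m ih => exact ih.trans (hKinc (i₀ + m) (by omega))
  obtain ⟨R₀, hR0, hRd, hR⟩ := hdeg (i₀ + c) (Z i₀ b) (hKall c (hKm i₀ b))
  obtain ⟨R, hR0', hRs, hR'⟩ := hredp E Ω k κ Γ 𝔭 ![Z (i₀ + c) b, Z i₀ b] R₀ (fun i => by
    fin_cases i
    · exact hZv _ _
    · exact hZv _ _) hR0 hR
  refine TfinAux.rel_sparse (𝔭.res (Z i₀ b)) (hZtr i₀) (q ^ c) c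
    (Nat.lt_pow_self (by omega)) R hR0' (fun t ht => ?_) ?_
  · exact (degreeOf_le_iff.1 hRd) t (hRs ht)
  · rw [← hR']
    congr 2
    funext s
    fin_cases s
    · simp only [Fin.zero_eta, Matrix.cons_val_zero]
      rw [hZrb, hZrb, ← pow_mul, ← pow_add]
    · rfl

end Pool.DynLehmer.FN
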