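import Mathlib
import Pool.Agent.Lib.MP_2194ec_nt.FN.Tfin

set_option autoImplicit false

/-!
# Module NOPER (helper10): no periodic curves
-/

namespace Pool.DynLehmer.FN
open MvPolynomial NumberField Pool.DynLehmer Pool.DynLehmer.SB ValAux
open scoped Classical

namespace NoperAux

/-- images of the perturbation -/
theorem map_per {R S : Type} [CommRing R] [CommRing S] (f : R →+* S) (n q ℓ : ℕ) (j : Fin n) :
    map f (per R n q ℓ j) = per S n q ℓ j := by
  unfold per
  simp [map_sum]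

/-- rational integers and algebraic integers are integral for every valuation -/
theorem val_int_le {Ω Γ : Type} [Field Ω] [LinearOrderedCommGroupWithZero Γ]
    (v : Valuation Ω Γ) {a : Ω} (ha : IsIntegral ℤ a) : v a ≤ 1 := by
  have h1 : IsIntegral v.valuationSubring a := by
    obtain ⟨p, hp, hpa⟩ := ha
    refine ⟨p.map (algebraMap ℤ v.valuationSubring), hp.map _, ?_⟩
    rw [Polynomial.eval₂_map, ← IsScalarTower.algebraMap_eq]
    exact hpa
  obtain ⟨b, hb⟩ := IsIntegrallyClosed.isIntegral_iff.1 h1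
  rw [← hb]
  exact b.2

/-- the generic point of a prime ideal -/
theorem generic {K : Type} [Field K] {n : ℕ} (Q : Ideal (MvPolynomial (Fin n) K)) [Q.IsPrime] :
    ∃ (Ω : Type) (_ : Field Ω) (_ : IsAlgClosed Ω) (_ : Algebra K Ω) (x : Fin n → Ω),
      (∀ G, aeval x G = 0 ↔ G ∈ Q) ∧
      ∀ y : Ω, IsAlgebraic (IntermediateField.adjoin K (Set.range x)) y := by
  let R := MvPolynomial (Fin n) K ⧸ Q
  let L := FractionRing R
  let Ω := AlgebraicClosure L
  let π : MvPolynomial (Fin n) K →ₐ[K] Ω :=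
    ((IsScalarTower.toAlgHom K L Ω).comp (IsScalarTower.toAlgHom K R L)).comp
      (Ideal.Quotient.mkₐ K Q)
  have hπ : ∀ G, π G = algebraMap L Ω (algebraMap R L (Ideal.Quotient.mk Q G)) := fun G => rfl
  have hker : ∀ G, π G = 0 ↔ G ∈ Q := by
    intro G
    rw [hπ, map_eq_zero, map_eq_zero_iff _ (IsFractionRing.injective R L),
      Ideal.Quotient.eq_zero_iff_mem]
  have hae : (aeval fun j => π (X j) : MvPolynomial (Fin n) K →ₐ[K] Ω) = π := by
    ext j
    rw [aeval_X]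
  refine ⟨Ω, inferInstance, inferInstance, inferInstance, fun j => π (X j), ?_, ?_⟩
  · intro G
    rw [hae]
    exact hker G
  · intro y
    set M := IntermediateField.adjoin K (Set.range fun j => π (X j)) with hM
    have hmemπ : ∀ G, π G ∈ M := by
      intro G
      have h1 : ∀ G, (aeval (fun j => π (X j)) : MvPolynomial (Fin n) K →ₐ[K] Ω) G ∈ M := by
        intro G
        have h2 : (aeval (fun j => π (X j)) : MvPolynomial (Fin n) K →ₐ[K] Ω) G ∈
            Algebra.adjoin K (Set.range fun j => π (X j)) := by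
          rw [Algebra.adjoin_range_eq_range_aeval]
          exact ⟨G, rfl⟩
        exact IntermediateField.algebra_adjoin_le_adjoin K _ h2
      rw [← hae]
      exact h1 G
    have hmemL : ∀ l : L, algebraMap L Ω l ∈ M := by
      intro l
      obtain ⟨a, b, hb, rfl⟩ := IsFractionRing.div_surjective (A := R) l
      obtain ⟨A, rfl⟩ := Ideal.Quotient.mk_surjective a
      obtain ⟨B, rfl⟩ := Ideal.Quotient.mk_surjective b
      rw [map_div₀]
      exact div_mem (hmemπ A) (hmemπ B)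
    have hy : IsAlgebraic L y := Algebra.IsAlgebraic.isAlgebraic y
    obtain ⟨p, hp0, hp⟩ := hy
    let f : L →+* M := (algebraMap L Ω).codRestrict M.toSubfield hmemL
    refine ⟨p.map f, ?_, ?_⟩
    · rw [Ne, Polynomial.map_eq_zero]
      exact hp0
    · rw [Polynomial.aeval_def, Polynomial.eval₂_map]
      exact hp

/-- the total degree only depends on the support -/
theorem rel_reduce {E Ω k κ Γ : Type} [Field E] [Field Ω] [Algebra E Ω] [Field k] [Field κ]
    [Algebra k κ] [LinearOrderedCommGroupWithZero Γ] (hREDP : RedpStatement)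
    (𝔭 : Plc E Ω k κ Γ) {D : ℕ} {u g : Ω} (hu : 𝔭.v u ≤ 1) (hg : 𝔭.v g ≤ 1)
    (h : Rel2 E D u g) : Rel2 k D (𝔭.res u) (𝔭.res g) := by
  obtain ⟨P, hP, hdeg, hPe⟩ := h
  obtain ⟨R, hR, hsupp, hRe⟩ := hREDP E Ω k κ Γ 𝔭 ![u, g] P (by
    intro i
    fin_cases i
    · exact hu
    · exact hg) hP hPe
  refine ⟨R, hR, (Finset.sup_mono hsupp).trans hdeg, ?_⟩
  have h1 : (fun i => 𝔭.res (![u, g] i)) = ![𝔭.res u, 𝔭.res g] := by
    funext i
    fin_cases i <;> rfl
  rw [h1] at hRe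
  exact hRe

theorem iterate_add_gAct {E : Type} [Field E] {n : ℕ} (F : Fin n → MvPolynomial (Fin n) E)
    (Ω : Type) [Field Ω] [Algebra E Ω] (x : Fin n → Ω) (i j : ℕ) :
    (gAct F Ω)^[i] ((gAct F Ω)^[j] x) = (gAct F Ω)^[i + j] x := by
  rw [Function.iterate_add_apply]

end NoperAux

open NoperAux

theorem noper (hHWQ : HwqStatement) (hHWE : HweStatement) (hHFO : HfoStatement)
    (hRELW : RelwStatement) (hPLACE : PlaceStatement) (hCOSET : CosetStatement)
    (hCOMT : ComtStatement) (hOFIN : OfinStatement) (hREDP : RedpStatement)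
    (hSMALL : SmallStatement) (hRESQ : ResqStatement) (hTFIN : TfinStatement) :
    NoperStatement := by
  intro K _ _ n q ℓ F hn hq hℓ hℓq hF hcong r e Q hr hQ hhom hlow hup hper
  obtain ⟨Ω, _, _, _, x, hxQ, halg⟩ := generic Q
  set FK : Fin n → MvPolynomial (Fin n) K := fun j => map (algebraMap (𝓞 K) K) (F j) with hFK
  have hFKh : ∀ i, (FK i).IsHomogeneous q := fun i => (hF i).map _
  have hHW : ∀ T, HW K x T ≤ e * (T + 1) := by
    intro T
    have h1 := hHWQ K Ω (Fin n) x Q hxQ T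
    have h2 := hup T
    omega
  obtain ⟨k, κ, Γ, _, _, _, _, 𝔭, hk, hκ, hch, hxv, a, b, hab, hind⟩ :=
    hPLACE K Ω ℓ n e x Q hℓ hxQ hhom hlow hHW halg
  have hCΩ : CharZero Ω := charZero_of_injective_algebraMap (algebraMap K Ω).injective
  have hCE : CharZero (algebraicClosure K Ω) :=
    charZero_of_injective_algebraMap (algebraMap K (algebraicClosure K Ω)).injective
  have hEac : IsAlgClosed (algebraicClosure K Ω) :=
    (algebraicClosure.isAlgClosure K Ω).isAlgClosed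
  -- the forms over the constants
  set FE : Fin n → MvPolynomial (Fin n) (algebraicClosure K Ω) :=
    fun j => map (algebraMap K (algebraicClosure K Ω)) (FK j) with hFE
  have hact : gAct FE Ω = gAct FK Ω := by
    funext y j
    simp only [gAct, hFE]
    rw [aeval_map_algebraMap]
  have hl0 : (ℓ : Ω) ≠ 0 := by exact_mod_cast hℓ.ne_zero
  have hlk : (ℓ : k) = 0 := CharP.cast_eq_zero k ℓ
  have hlκ : (ℓ : κ) = 0 := by
    have h1 : algebraMap k κ (ℓ : k) = 0 := by rw [hlk, map_zero]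
    rwa [map_natCast] at h1
  have hlv : 𝔭.v (ℓ : Ω) < 1 := by
    obtain ⟨h1, h2⟩ := TfinAux.res_nat 𝔭 ℓ
    exact (𝔭.res_eq_zero _ h1).1 (by rw [h2, hlκ])
  have hqk : (q : k) ≠ 0 := by
    rw [Ne, CharP.cast_eq_zero_iff k ℓ q]
    exact hℓq
  have hFam : Fam 𝔭.v n q ℓ FE := by
    refine ⟨fun j => (hFKh j).map _, fun j => ?_⟩
    obtain ⟨G, hG⟩ := hcong j
    refine ⟨map ((algebraMap K (algebraicClosure K Ω)).comp (algebraMap (𝓞 K) K)) G, ?_, ?_⟩
    · intro t
      rw [coeff_map]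
      apply val_int_le
      have h1 : IsIntegral ℤ (coeff t G : 𝓞 K) := RingOfIntegers.isIntegral _
      exact h1.map ((algebraMap (algebraicClosure K Ω) Ω).comp ((algebraMap K (algebraicClosure K Ω)).comp
        (algebraMap (𝓞 K) K))).toIntAlgHom
    · simp only [hFE, hFK, map_map]
      rw [hG, map_add, map_add, map_pow, map_X, map_per, map_mul, map_C, map_pow, map_natCast]
  have hHWo : ∀ i T, HW (algebraicClosure K Ω) ((gAct FE Ω)^[i] x) T ≤ e * q ^ r * (T + 1) := by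
    intro i T
    refine (hHWE K (algebraicClosure K Ω) Ω (Fin n) _ T).trans ?_
    rw [hact]
    refine hHFO K Ω (Fin n) q r e FK x (by omega) hr hFKh hHW ?_ i T
    intro G hG
    rw [hxQ] at hG ⊢
    exact hper G hG
  obtain ⟨c, hc⟩ : ∃ c, c = e * q ^ r := ⟨_, rfl⟩
  rw [← hc] at hHWo
  -- residues
  have hra : 𝔭.res (x a) ≠ 0 := hind.ne_zero 0
  have hrb : 𝔭.res (x b) ≠ 0 := hind.ne_zero 1
  have htr : Transcendental k (𝔭.res (x b) / 𝔭.res (x a)) :=
    PlaceAux.trans_ratio _ _ fun P hP h0 => hP ((algebraicIndependent_iff.1 hind) P h0)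
  have hXv : ∀ i j, 𝔭.v ((gAct FE Ω)^[i] x j) ≤ 1 := fun i =>
    (hRESQ _ Ω k κ Γ 𝔭 n q ℓ FE (by omega) hq hlv hFam x hxv i).1
  have hXr : ∀ i j, 𝔭.res ((gAct FE Ω)^[i] x j) = 𝔭.res (x j) ^ (q ^ i) := fun i =>
    (hRESQ _ Ω k κ Γ 𝔭 n q ℓ FE (by omega) hq hlv hFam x hxv i).2
  have hXra : ∀ i, 𝔭.res ((gAct FE Ω)^[i] x a) ≠ 0 := by
    intro i
    rw [hXr]
    exact pow_ne_zero _ hra
  -- the support
  set A : Finset (Fin n) := Finset.univ.filter fun j => 𝔭.v (x j) = 1 with hA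
  have hmemA : ∀ j, j ∈ A ↔ 𝔭.v (x j) = 1 := fun j => by simp [hA]
  have haA : a ∈ A := (hmemA a).2 (TfinAux.v_one_of_res 𝔭 (hxv a) hra)
  have hbA : b ∈ A := (hmemA b).2 (TfinAux.v_one_of_res 𝔭 (hxv b) hrb)
  have hnotA : ∀ j, j ∉ A → 𝔭.v (x j) < 1 := fun j hj =>
    lt_of_le_of_ne (hxv j) fun h => hj ((hmemA j).2 h)
  have hrA : ∀ j ∈ A, 𝔭.res (x j) ≠ 0 := by
    intro j hj h0
    have h1 := (𝔭.res_eq_zero _ (hxv j)).1 h0
    rw [(hmemA j).1 hj] at h1
    exact lt_irrefl _ h1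
  -- relations between the residues
  have hrel : ∀ j i, Rel2 k (2 * c * (1 + 1)) ((𝔭.res (x b) / 𝔭.res (x a)) ^ (q ^ i))
      ((𝔭.res (x j) / 𝔭.res (x a)) ^ (q ^ i)) := by
    intro j i
    have h1 := hRELW _ Ω (Fin n) ((gAct FE Ω)^[i] x) c (hHWo i) (Pi.single j 1) (Pi.single a 1)
      (by simp) a b
    have h2 : ∀ (z : Fin n → Ω) (m : Fin n), ∏ l, z l ^ (Pi.single m 1 : Fin n → ℕ) l = z m := by
      intro z m
      rw [Finset.prod_eq_single m]
      · simp
      · intro l _ hl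
        rw [Pi.single_eq_of_ne hl, pow_zero]
      · simp
    have h3 : ∑ l, (Pi.single j 1 : Fin n → ℕ) l = 1 := by simp
    rw [h2, h2, h3] at h1
    have h4 := TfinAux.res_div 𝔭 (hXv i b) (hXv i a) (hXra i)
    have h5 := TfinAux.res_div 𝔭 (hXv i j) (hXv i a) (hXra i)
    have h6 := rel_reduce hREDP 𝔭 h4.1 h5.1 h1
    rw [h4.2, h5.2, hXr, hXr, hXr, ← div_pow, ← div_pow] at h6
    exact h6
  by_cases hcard : 3 ≤ A.card
  · -- three or more units
    obtain ⟨t, m, d, ht, hd, hz, hma, hmb, hml⟩ := hCOMT k κ n ℓ A (fun j => 𝔭.res (x j)) a b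
      hℓ.two_le haA hbA hrA htr (fun j hj => hCOSET k κ _ _ q _ htr
        (div_ne_zero (hrA j hj) hra) hq hqk (hrel j))
    -- wait until the other coordinates are small
    have hsm : ∀ j, ∃ i₀ : ℕ, j ∉ A → ∀ i, i₀ ≤ i →
        𝔭.v ((gAct FE Ω)^[i] x j) ≤ 𝔭.v (ℓ : Ω) ^ (2 * n ^ 2) := by
      intro j
      by_cases hj : j ∈ A
      · exact ⟨0, fun h => absurd hj h⟩
      · obtain ⟨i₀, hi₀⟩ := hSMALL _ Ω k κ Γ 𝔭 n q ℓ FE (by omega) hq hl0 hlv hFam
          (𝔭.v (x j)) (hnotA j hj)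
        exact ⟨i₀, fun _ i hi => hi₀ x hxv j le_rfl i hi⟩
    choose i₀ hi₀ using hsm
    obtain ⟨i₁, hi₁⟩ : ∃ i₁, ∀ j, i₀ j ≤ i₁ := ⟨Finset.univ.sup i₀, fun j =>
      Finset.le_sup (f := i₀) (Finset.mem_univ j)⟩
    refine hOFIN _ Ω k κ Γ 𝔭 n q ℓ c FE ((gAct FE Ω)^[i₁] x) A hℓ hq hℓq hch hFam ?_ hcard ?_ ?_
      a b (t ^ (q ^ i₁)) m (fun j => d j ^ (q ^ i₁)) haA hbA (ht.pow (by positivity))
      (fun j => pow_ne_zero _ (hd j)) ?_ hma hmb hml
    · intro i T
      rw [iterate_add_gAct]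
      exact hHWo _ T
    · intro j hj
      refine TfinAux.v_one_of_res 𝔭 (hXv _ j) ?_
      rw [hXr]
      exact pow_ne_zero _ (hrA j hj)
    · intro j hj
      exact hi₀ j hj i₁ (hi₁ j)
    · intro j hj
      rw [hXr, hXr, hz j hj, mul_pow, mul_pow, map_pow]
      have h1 : (t ^ m j) ^ (q ^ i₁) = (t ^ (q ^ i₁)) ^ m j := by
        rw [← zpow_natCast (t ^ m j), ← zpow_natCast t, ← zpow_mul, ← zpow_mul, mul_comm (m j)]
      rw [h1]
  · -- exactly two units
    have hA2 : ∀ j, j ≠ a → j ≠ b → 𝔭.v (x j) < 1 := by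
      intro j hja hjb
      apply hnotA
      intro hj
      apply hcard
      have h1 : ({a, b, j} : Finset (Fin n)) ⊆ A := by
        intro l hl
        simp only [Finset.mem_insert, Finset.mem_singleton] at hl
        rcases hl with rfl | rfl | rfl
        · exact haA
        · exact hbA
        · exact hj
      have h2 : ({a, b, j} : Finset (Fin n)).card = 3 := by
        rw [Finset.card_insert_of_notMem, Finset.card_insert_of_notMem, Finset.card_singleton]
        · simpa using fun h : b = j => hjb h.symm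
        · simp only [Finset.mem_insert, Finset.mem_singleton, not_or]
          exact ⟨hab.ne, fun h => hja h.symm⟩
      rw [← h2]
      exact Finset.card_le_card h1
    exact hTFIN _ Ω k κ Γ 𝔭 n q ℓ c FE x hn hℓ hq hℓq hch hFam hHWo a b hab hxv hA2 hind

end Pool.DynLehmer.FN
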