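import Mathlib
import Pool.Agent.Lib.MP_2194ec_nt.FN.Iface

set_option autoImplicit false

namespace Pool.DynLehmer.FN
open MvPolynomial
open scoped Classical

namespace OBDAux

/-- scaling both arguments of a relation -/
lemma rel2_scale {k κ : Type} [Field k] [Field κ] [Algebra k κ] {D : ℕ} {x y : κ} {a b : k}
    (ha : a ≠ 0) (hb : b ≠ 0) (h : Rel2 k D (algebraMap k κ a * x) (algebraMap k κ b * y)) :
    Rel2 k D x y := by
  obtain ⟨P, hP0, hPd, hP⟩ := h
  set P' : MvPolynomial (Fin 2) k :=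
    ∑ s ∈ P.support, monomial s (a ^ s 0 * b ^ s 1 * coeff s P) with hP'
  have hcoeff : ∀ s, coeff s P' = a ^ s 0 * b ^ s 1 * coeff s P := by
    intro s
    rw [hP', coeff_sum]
    simp only [coeff_monomial]
    rw [Finset.sum_ite_eq' P.support s]
    by_cases hs : s ∈ P.support
    · rw [if_pos hs]
    · rw [if_neg hs, notMem_support_iff.1 hs, mul_zero]
  refine ⟨P', ?_, ?_, ?_⟩
  · obtain ⟨s, hs⟩ := MvPolynomial.ne_zero_iff.1 hP0
    refine MvPolynomial.ne_zero_iff.2 ⟨s, ?_⟩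
    rw [hcoeff]
    exact mul_ne_zero (mul_ne_zero (pow_ne_zero _ ha) (pow_ne_zero _ hb)) hs
  · refine le_trans ?_ hPd
    refine totalDegree_le_of_support_subset ?_
    intro s hs
    rw [mem_support_iff, hcoeff] at hs
    exact mem_support_iff.2 (right_ne_zero_of_mul hs)
  · rw [← hP, hP', map_sum, aeval_def ![algebraMap k κ a * x, algebraMap k κ b * y],
      eval₂_eq' _ _ P]
    refine Finset.sum_congr rfl fun s _ => ?_
    rw [aeval_monomial, Finsupp.prod_fintype _ _ (fun i => by simp)]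
    simp only [Fin.prod_univ_two, map_mul, map_pow]
    simp only [Matrix.cons_val_zero, Matrix.cons_val_one, mul_pow]
    ring

end OBDAux

open OBDAux in
theorem obd (hlac0 : Lac0Statement) (hredr : RedrStatement) (hdist : DistStatement)
    (hiter : IterStatement) : ObdStatement := by
  intro E Ω k κ Γ _ _ _ _ _ _ _ _ _ _ 𝔭 q M D s g u ρ β t c hq hqk hM ht hs hvs hβ hρ hg hu hc
    hres hrel hg0 hg0r
  by_cases hmem : g 0 ∈ Set.range (algebraMap E Ω)
  · obtain ⟨a, ha⟩ := hmem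
    exact ⟨a, 0, by rw [ha]; exact hg0, by simp, by simp [ha]⟩
  have htr : Transcendental k (𝔭.res (u 0)) := by
    rw [hres 0, pow_zero, mul_one]
    intro h
    have h1 : IsAlgebraic k (t ^ M) := by
      have h2 := (isAlgebraic_algebraMap (R := k) (A := κ) (c 0)⁻¹).mul h
      rwa [← mul_assoc, ← map_mul, inv_mul_cancel₀ (hc 0), map_one, one_mul] at h2
    exact (ht.pow (by omega)) h1
  obtain ⟨a0, s', hs', hv, hnot⟩ := hdist E Ω k κ Γ 𝔭 D (u 0) (g 0) (hu 0) htr (hrel 0) hmem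
  have hres0 : ∀ x : Ω, 𝔭.v x < 1 → 𝔭.res x = 0 := fun x hx => (𝔭.res_eq_zero x hx.le).2 hx
  have hs'Ω : (algebraMap E Ω s') ≠ 0 := (map_ne_zero _).2 hs'
  have hvs' : 𝔭.v (algebraMap E Ω s') ≠ 0 := (𝔭.v.ne_zero_iff).2 hs'Ω
  -- the distance to the constants
  have hdst : ∀ b : E, 𝔭.v (algebraMap E Ω s') ≤ 𝔭.v (g 0 - algebraMap E Ω b) := by
    intro b
    by_contra hlt
    push Not at hlt
    have h1 : 𝔭.v ((g 0 - algebraMap E Ω b) / algebraMap E Ω s') < 1 := by
      rw [map_div₀]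
      exact (div_lt_one₀ (zero_lt_iff.2 hvs')).2 hlt
    have h2 : 𝔭.v ((g 0 - algebraMap E Ω a0) / algebraMap E Ω s') = 1 := by
      rw [map_div₀, hv, div_self hvs']
    have h3 : algebraMap E Ω ((b - a0) / s') = (g 0 - algebraMap E Ω a0) / algebraMap E Ω s' -
        (g 0 - algebraMap E Ω b) / algebraMap E Ω s' := by
      rw [map_div₀, map_sub, ← sub_div]
      congr 1
      ring
    have h4 : 𝔭.v (algebraMap E Ω ((b - a0) / s')) ≤ 1 := by
      rw [h3]
      exact (𝔭.v.map_sub _ _).trans (max_le h2.le h1.le)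
    have h5 := 𝔭.res_add _ _ h1.le h4
    have h6 : (g 0 - algebraMap E Ω b) / algebraMap E Ω s' + algebraMap E Ω ((b - a0) / s') =
        (g 0 - algebraMap E Ω a0) / algebraMap E Ω s' := by
      rw [h3]; ring
    rw [h6, hres0 _ h1, zero_add] at h5
    obtain ⟨c', hc'⟩ := 𝔭.res_const _ h4
    exact hnot ⟨c', by rw [hc', h5]⟩
  have hvs'1 : 𝔭.v (algebraMap E Ω s') < 1 := by
    obtain ⟨c0, hc0⟩ := hg0r
    obtain ⟨b, hb1, hb2⟩ := 𝔭.const_res c0
    refine (hdst b).trans_lt ?_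
    have h1 : 𝔭.v (g 0 - algebraMap E Ω b) ≤ 1 :=
      (𝔭.v.map_sub _ _).trans (max_le hg0.le hb1)
    have h2 := 𝔭.res_add _ _ h1 hb1
    rw [sub_add_cancel, ← hc0, hb2] at h2
    exact (𝔭.res_eq_zero _ h1).1 (by simpa using h2.symm)
  have hva0 : 𝔭.v (algebraMap E Ω a0) = 1 := by
    have h1 : algebraMap E Ω a0 = g 0 - (g 0 - algebraMap E Ω a0) := by ring
    rw [h1, Valuation.map_sub_eq_of_lt_left _ (by rw [hv, hg0]; exact hvs'1), hg0]
  have ha0Ω : algebraMap E Ω a0 ≠ 0 := by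
    intro h
    rw [h, map_zero] at hva0
    exact zero_ne_one hva0
  have hsΩ : (algebraMap E Ω s) ≠ 0 := (map_ne_zero _).2 hs
  rcases le_or_gt (𝔭.v (algebraMap E Ω s')) (𝔭.v (algebraMap E Ω s)) with hle | hlt
  · refine ⟨a0, (g 0 - algebraMap E Ω a0) / (algebraMap E Ω a0 * algebraMap E Ω s), hva0, ?_, ?_⟩
    · rw [map_div₀, map_mul, hva0, one_mul, hv]
      exact (div_le_one₀ (zero_lt_iff.2 ((𝔭.v.ne_zero_iff).2 hsΩ))).2 hle
    · field_simp
      ring
  · exfalso
    set G₀ : Ω := (g 0 - algebraMap E Ω a0) / (algebraMap E Ω s' * algebraMap E Ω a0) with hG₀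
    have hvG₀ : 𝔭.v G₀ = 1 := by
      rw [hG₀, map_div₀, map_mul, hva0, mul_one, hv, div_self hvs']
    have hρ' : ∀ i, 𝔭.v (algebraMap E Ω (s / s') * ρ i) < 1 := by
      intro i
      rw [map_mul, map_div₀, map_div₀]
      refine mul_lt_one_of_nonneg_of_lt_one_left zero_le ?_ (hρ i)
      exact (div_lt_one₀ (zero_lt_iff.2 hvs')).2 hlt
    obtain ⟨a', G', hG'0, ha', hG', hgi, hres'⟩ := hiter E Ω k κ Γ 𝔭 q s' a0 g β
      (fun i => algebraMap E Ω (s / s') * ρ i) G₀ (by omega) hs' hvs'1 hβ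
      (fun i => (hρ' i).le) (fun i => by
        rw [hg i, map_div₀]
        congr 1
        field_simp) hva0 hvG₀.le (by
        rw [hG₀]
        field_simp
        ring)
    have hresG : ∀ i, 𝔭.res (G' i) = algebraMap k κ ((q : k) ^ i) * 𝔭.res G₀ := by
      intro i
      induction i with
      | zero => rw [hG'0]; simp
      | succ i ih =>
        rw [hres' i, hres0 _ (hρ' i), ih, add_zero, pow_succ, map_mul, map_natCast]
        ring
    have hmemφ : 𝔭.res G₀ ∈ Set.range (algebraMap k κ) := by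
      refine hlac0 k κ t (𝔭.res G₀) q M D ht hq hqk hM ?_
      intro i
      have ha'0 : a' i ≠ 0 := by
        intro h
        have := ha' i
        rw [h, map_zero, map_zero] at this
        exact zero_ne_one this
      have h1 := hredr E Ω k κ Γ 𝔭 D (u i) (G' i) (a' i) (a' i * s') (hu i) (hG' i)
        (mul_ne_zero ha'0 hs') (by
          have h2 : algebraMap E Ω (a' i) + algebraMap E Ω (a' i * s') * G' i = g i := by
            rw [hgi i, map_mul]
            ring
          rw [h2]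
          exact hrel i)
      rw [hres i, hresG i] at h1
      exact rel2_scale (hc i) (pow_ne_zero _ hqk) h1
    obtain ⟨c', hc'⟩ := hmemφ
    obtain ⟨c'', hc''⟩ := 𝔭.res_const a0 hva0.le
    refine hnot ⟨c' * c'', ?_⟩
    rw [map_mul, hc', hc'', ← 𝔭.res_mul _ _ hvG₀.le hva0.le]
    congr 1
    rw [hG₀]
    field_simp

end Pool.DynLehmer.FN
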