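import Pool.Agent.Lib.MP_2194ec_nt.FN.Iface

set_option autoImplicit false

/-!
# OFIN: the case of three or more units
-/

namespace Pool.DynLehmer.FN
open MvPolynomial NumberField Pool.DynLehmer Pool.DynLehmer.SB
open scoped Classical

namespace OfinAux

section plc

variable {E Ω k κ Γ : Type} [Field E] [Field Ω] [Algebra E Ω] [Field k] [Field κ]
  [Algebra k κ] [LinearOrderedCommGroupWithZero Γ]

theorem v_nat (v : Valuation Ω Γ) (N : ℕ) : v (N : Ω) ≤ 1 := by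
  induction N with
  | zero => simp
  | succ N ih =>
    rw [Nat.cast_succ]
    exact (v.map_add _ _).trans (max_le ih (by rw [map_one]))

theorem v_int (v : Valuation Ω Γ) (z : ℤ) : v (z : Ω) ≤ 1 := by
  rcases Int.eq_nat_or_neg z with ⟨N, rfl | rfl⟩
  · simpa using v_nat v N
  · simpa [Valuation.map_neg] using v_nat v N

variable (𝔭 : Plc E Ω k κ Γ)

theorem res_zero : 𝔭.res 0 = 0 := (𝔭.res_eq_zero 0 (by simp)).2 (by simp)

theorem res_of_lt {a : Ω} (h : 𝔭.v a < 1) : 𝔭.res a = 0 := (𝔭.res_eq_zero a h.le).2 h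

theorem res_ne {a : Ω} (h : 𝔭.v a = 1) : 𝔭.res a ≠ 0 := fun h0 =>
  absurd h ((𝔭.res_eq_zero a h.le).1 h0).ne

theorem res_pow {a : Ω} (h : 𝔭.v a ≤ 1) (N : ℕ) : 𝔭.res (a ^ N) = 𝔭.res a ^ N := by
  induction N with
  | zero => simpa using 𝔭.res_one
  | succ N ih =>
    rw [pow_succ, pow_succ, 𝔭.res_mul _ _ (by rw [map_pow]; exact pow_le_one' h N) h, ih]

theorem res_inv {a : Ω} (h : 𝔭.v a = 1) : 𝔭.res a⁻¹ = (𝔭.res a)⁻¹ := by
  have h2 : 𝔭.v a⁻¹ = 1 := by rw [map_inv₀, h, inv_one]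
  have h3 := 𝔭.res_mul a a⁻¹ h.le h2.le
  have ha : a ≠ 0 := by rintro rfl; simp at h
  rw [mul_inv_cancel₀ ha, 𝔭.res_one] at h3
  exact eq_inv_of_mul_eq_one_right h3.symm

theorem res_zpow {a : Ω} (h : 𝔭.v a = 1) (z : ℤ) : 𝔭.res (a ^ z) = 𝔭.res a ^ z := by
  cases z with
  | ofNat N => simpa using res_pow 𝔭 h.le N
  | negSucc N =>
    rw [zpow_negSucc, zpow_negSucc, res_inv 𝔭 (by rw [map_pow, h, one_pow]), res_pow 𝔭 h.le]

theorem v_zpow {a : Ω} (h : 𝔭.v a = 1) (z : ℤ) : 𝔭.v (a ^ z) = 1 := by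
  rw [map_zpow₀, h, one_zpow]

theorem res_div {a b : Ω} (ha : 𝔭.v a ≤ 1) (hb : 𝔭.v b = 1) :
    𝔭.res (a / b) = 𝔭.res a / 𝔭.res b := by
  rw [div_eq_mul_inv, 𝔭.res_mul _ _ ha (by rw [map_inv₀, hb, inv_one]), res_inv 𝔭 hb,
    div_eq_mul_inv]

theorem res_prod {ι : Type} (s : Finset ι) (f : ι → Ω) (h : ∀ i ∈ s, 𝔭.v (f i) = 1) :
    𝔭.res (∏ i ∈ s, f i) = ∏ i ∈ s, 𝔭.res (f i) := by
  induction s using Finset.induction_on with
  | empty => simpa using 𝔭.res_one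
  | insert i s hi ih =>
    rw [Finset.prod_insert hi, Finset.prod_insert hi]
    have h1 : 𝔭.v (∏ i ∈ s, f i) = 1 := by
      rw [map_prod]
      exact Finset.prod_eq_one fun j hj => h j (Finset.mem_insert_of_mem hj)
    rw [𝔭.res_mul _ _ (h i (Finset.mem_insert_self i s)).le h1.le,
      ih fun j hj => h j (Finset.mem_insert_of_mem hj)]

theorem res_sum {ι : Type} (s : Finset ι) (f : ι → Ω) (h : ∀ i ∈ s, 𝔭.v (f i) ≤ 1) :
    𝔭.res (∑ i ∈ s, f i) = ∑ i ∈ s, 𝔭.res (f i) := by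
  induction s using Finset.induction_on with
  | empty => simpa using res_zero 𝔭
  | insert i s hi ih =>
    rw [Finset.sum_insert hi, Finset.sum_insert hi]
    have h1 : 𝔭.v (∑ i ∈ s, f i) ≤ 1 :=
      Valuation.map_sum_le _ fun j hj => h j (Finset.mem_insert_of_mem hj)
    rw [𝔭.res_add _ _ (h i (Finset.mem_insert_self i s)) h1,
      ih fun j hj => h j (Finset.mem_insert_of_mem hj)]

theorem res_neg {a : Ω} (h : 𝔭.v a ≤ 1) : 𝔭.res (-a) = - 𝔭.res a := by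
  have h1 := 𝔭.res_add a (-a) h (by rwa [Valuation.map_neg])
  rw [add_neg_cancel, res_zero] at h1
  exact (neg_eq_of_add_eq_zero_right h1.symm).symm

theorem res_nat (N : ℕ) : 𝔭.res (N : Ω) = N := by
  induction N with
  | zero => simpa using res_zero 𝔭
  | succ N ih =>
    rw [Nat.cast_succ, 𝔭.res_add _ _ (v_nat 𝔭.v N) (by rw [map_one]), ih, 𝔭.res_one,
      Nat.cast_succ]

theorem res_int (z : ℤ) : 𝔭.res (z : Ω) = z := by
  rcases Int.eq_nat_or_neg z with ⟨N, rfl | rfl⟩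
  · simpa using res_nat 𝔭 N
  · rw [Int.cast_neg, Int.cast_natCast, res_neg 𝔭 (v_nat 𝔭.v N), res_nat]
    simp

theorem res_add_small {a b : Ω} (ha : 𝔭.v a ≤ 1) (hb : 𝔭.v b < 1) :
    𝔭.res (a + b) = 𝔭.res a := by
  rw [𝔭.res_add _ _ ha hb.le, res_of_lt 𝔭 hb, add_zero]

end plc

theorem v_aeval_le {E Ω Γ : Type} [Field E] [Field Ω] [Algebra E Ω]
    [LinearOrderedCommGroupWithZero Γ] (v : Valuation Ω Γ) {n : ℕ}
    (G : MvPolynomial (Fin n) E) (y : Fin n → Ω)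
    (hG : ∀ t, v (algebraMap E Ω (coeff t G)) ≤ 1) (hy : ∀ j, v (y j) ≤ 1) :
    v (aeval y G) ≤ 1 := by
  rw [aeval_def, eval₂_eq']
  refine Valuation.map_sum_le _ fun t _ => ?_
  rw [map_mul, map_prod]
  refine mul_le_one' (hG t) (Finset.prod_le_one' fun j _ => ?_)
  rw [map_pow]
  exact pow_le_one' (hy j) _

theorem gAct_small {E Ω Γ : Type} [Field E] [Field Ω] [Algebra E Ω]
    [LinearOrderedCommGroupWithZero Γ] (v : Valuation Ω Γ) {n q ℓ : ℕ}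
    {F : Fin n → MvPolynomial (Fin n) E} (hF : Fam v n q ℓ F) (hq : 1 ≤ q)
    {y : Fin n → Ω} (hy : ∀ j, v (y j) ≤ 1) {j : Fin n}
    (hj : v (y j) ≤ v (ℓ : Ω) ^ (2 * n ^ 2)) :
    v (gAct F Ω y j) ≤ v (ℓ : Ω) ^ (2 * n ^ 2) := by
  have hℓ : v (ℓ : Ω) ≤ 1 := v_nat v ℓ
  obtain ⟨G, hG, hFj⟩ := hF.cong j
  have hpow : ∀ (i : Fin n) (N : ℕ), v (y i ^ N) ≤ 1 := fun i N => by
    rw [map_pow]; exact pow_le_one' (hy i) N
  have hE : ∀ N : ℕ, algebraMap E Ω ((ℓ : E) ^ N) = (ℓ : Ω) ^ N := fun N => by simp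
  unfold gAct
  rw [hFj, map_add (aeval y), map_add (aeval y)]
  refine (v.map_add _ _).trans (max_le ((v.map_add _ _).trans (max_le ?_ ?_)) ?_)
  · rw [map_pow, aeval_X, map_pow]
    calc v (y j) ^ q ≤ v (y j) ^ 1 := pow_le_pow_right_of_le_one' (hy j) hq
      _ = v (y j) := pow_one _
      _ ≤ _ := hj
  · unfold per
    rw [map_add]
    refine (v.map_add _ _).trans (max_le ?_ ?_)
    · rw [map_sum]
      refine Valuation.map_sum_le _ fun i _ => ?_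
      have e : aeval y (C ((ℓ : E) ^ ex j i) * (X j * X i ^ (q - 1))) =
          (ℓ : Ω) ^ ex j i * (y j * y i ^ (q - 1)) := by simp
      rw [e, map_mul, map_mul]
      calc v ((ℓ : Ω) ^ ex j i) * (v (y j) * v (y i ^ (q - 1)))
          ≤ 1 * (v (y j) * 1) := by
            refine mul_le_mul' ?_ (mul_le_mul' le_rfl (hpow i _))
            rw [map_pow]; exact pow_le_one' hℓ _
        _ = v (y j) := by rw [one_mul, mul_one]
        _ ≤ _ := hj
    · rw [map_sum]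
      refine Valuation.map_sum_le _ fun ab _ => ?_
      have e : aeval y (C ((ℓ : E) ^ (2 * n ^ 2)) * (X ab.1 ^ (q - 1) * X ab.2)) =
          (ℓ : Ω) ^ (2 * n ^ 2) * (y ab.1 ^ (q - 1) * y ab.2) := by simp
      rw [e, map_mul, map_mul]
      calc v ((ℓ : Ω) ^ (2 * n ^ 2)) * (v (y ab.1 ^ (q - 1)) * v (y ab.2))
          ≤ v ((ℓ : Ω) ^ (2 * n ^ 2)) * (1 * 1) :=
            mul_le_mul' le_rfl (mul_le_mul' (hpow _ _) (hy _))
        _ = _ := by rw [one_mul, mul_one, map_pow]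
  · rw [map_mul, aeval_C, hE, map_mul, map_pow]
    calc v (ℓ : Ω) ^ (2 * n ^ 2 + 1) * v (aeval y G)
        ≤ v (ℓ : Ω) ^ (2 * n ^ 2 + 1) * 1 := mul_le_mul' le_rfl (v_aeval_le v G y hG hy)
      _ ≤ _ := by
        rw [mul_one]
        exact pow_le_pow_right_of_le_one' hℓ (Nat.le_succ _)

theorem prod_zpow_sum {K ι : Type} [Field K] (s : Finset ι) {a : K} (ha : a ≠ 0) (f : ι → ℤ) :
    ∏ i ∈ s, a ^ f i = a ^ ∑ i ∈ s, f i := by
  induction s using Finset.induction_on with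
  | empty => simp
  | insert i s hi ih => rw [Finset.prod_insert hi, Finset.sum_insert hi, zpow_add₀ ha, ih]

/-- rescaling the first variable of a relation -/
theorem rel2_scale {k κ : Type} [Field k] [Field κ] [Algebra k κ] {D : ℕ} {a b : κ} {c : k}
    (hc : c ≠ 0) (h : Rel2 k D (algebraMap k κ c * a) b) : Rel2 k D a b := by
  obtain ⟨P, hP, hD, h0⟩ := h
  set R : MvPolynomial (Fin 2) k := ∑ t ∈ P.support, monomial t (coeff t P * c ^ t 0) with hR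
  have hco : ∀ s, coeff s R = coeff s P * c ^ s 0 := by
    intro s
    rw [hR, coeff_sum]
    simp only [coeff_monomial]
    rw [Finset.sum_ite_eq' P.support s]
    split_ifs with hs
    · rfl
    · rw [notMem_support_iff.1 hs, zero_mul]
  have hsup : R.support = P.support := by
    ext s
    rw [mem_support_iff, mem_support_iff, hco]
    simp [hc]
  refine ⟨R, ?_, ?_, ?_⟩
  · intro h1
    apply hP
    rw [← support_eq_empty, ← hsup, h1, support_zero]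
  · unfold totalDegree at hD ⊢
    rwa [hsup]
  · rw [aeval_def, eval₂_eq'] at h0 ⊢
    rw [hsup, ← h0]
    refine Finset.sum_congr rfl fun s _ => ?_
    rw [hco]
    simp only [Fin.prod_univ_two, Matrix.cons_val_zero, Matrix.cons_val_one, map_mul, map_pow]
    ring

/-- a relation between a ratio and a character with values in the integers -/
theorem relw' (hrelw : RelwStatement) {E Ω : Type} [Field E] [Field Ω] [Algebra E Ω] {n : ℕ}
    (c : ℕ) (A : Finset (Fin n)) (w : Fin n → ℤ) (hw : ∀ j ∉ A, w j = 0) (hs : ∑ j, w j = 0)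
    (a b : Fin n) : ∃ D : ℕ, ∀ y : Fin n → Ω, (∀ T, HW E y T ≤ c * (T + 1)) →
      (∀ j ∈ A, y j ≠ 0) → Rel2 E D (y b / y a) (∏ j ∈ A, y j ^ w j) := by
  refine ⟨2 * c * ((∑ i, (w i).toNat) + 1), fun y hy h0 => ?_⟩
  have hpm : ∑ i, (w i).toNat = ∑ i, (- w i).toNat := by
    have : (((∑ i, (w i).toNat : ℕ)) : ℤ) - ((∑ i, (- w i).toNat : ℕ) : ℤ) = 0 := by
      push_cast
      rw [← Finset.sum_sub_distrib, ← hs]
      refine Finset.sum_congr rfl fun i _ => ?_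
      have := Int.toNat_sub_toNat_neg (w i)
      simp
    omega
  have key := hrelw E Ω (Fin n) y c hy (fun i => (w i).toNat) (fun i => (- w i).toNat) hpm a b
  have e : (∏ i, y i ^ (w i).toNat) / ∏ i, y i ^ (- w i).toNat = ∏ j ∈ A, y j ^ w j := by
    rw [← Finset.prod_div_distrib]
    rw [← Finset.prod_subset (Finset.subset_univ A)]
    · refine Finset.prod_congr rfl fun i hi => ?_
      have h1 : y i ^ w i = y i ^ (((w i).toNat : ℤ) - ((- w i).toNat : ℤ)) := by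
        rw [Int.toNat_sub_toNat_neg]
      rw [h1, zpow_sub₀ (h0 i hi), zpow_natCast, zpow_natCast]
    · intro i _ hi
      simp [hw i hi]
  rw [e] at key
  exact key

end OfinAux

open OfinAux in
theorem ofin (hrelw : RelwStatement) (hlac : LacStatement) (hredr : RedrStatement)
    (hiter : IterStatement) (hobd : ObdStatement) (hostep : OstepStatement)
    (hlemw : LemwStatement) (hresq : ResqStatement) : OfinStatement := by
  intro E Ω k κ Γ _ _ _ _ _ _ _ _ _ _ _ 𝔭 n q ℓ c F x A hℓp hq hℓq hchar hF hHW hA3 hxA hxs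
    a b t m d ha hb ht hd hrx hma hmb hml
  -- basic facts
  have hv1 : ∀ N : ℕ, 𝔭.v (N : Ω) ≤ 1 := v_nat 𝔭.v
  have hkℓ : (ℓ : k) = 0 := CharP.cast_eq_zero k ℓ
  have hqk : (q : k) ≠ 0 := fun h => hℓq ((CharP.cast_eq_zero_iff k ℓ q).1 h)
  have hℓ1 : 𝔭.v (ℓ : Ω) < 1 := by
    rw [← 𝔭.res_eq_zero _ (hv1 ℓ), res_nat]
    rw [← map_natCast (algebraMap k κ), hkℓ, map_zero]
  have : CharZero Ω := charZero_of_injective_algebraMap (algebraMap E Ω).injective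
  have hℓ0 : (ℓ : Ω) ≠ 0 := Nat.cast_ne_zero.2 hℓp.ne_zero
  have hℓE0 : (ℓ : E) ≠ 0 := Nat.cast_ne_zero.2 hℓp.ne_zero
  have hn : 3 ≤ n := by
    have := Finset.card_le_univ A
    rw [Fintype.card_fin] at this
    omega
  have hℓv0 : 𝔭.v (ℓ : Ω) ≠ 0 := (Valuation.ne_zero_iff _).2 hℓ0
  have hpw : ∀ {r s : ℕ}, r ≤ s → 𝔭.v (ℓ : Ω) ^ s ≤ 𝔭.v (ℓ : Ω) ^ r := fun h =>
    pow_le_pow_right_of_le_one' hℓ1.le h
  have hx1 : ∀ j, 𝔭.v (x j) ≤ 1 := by
    intro j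
    by_cases hj : j ∈ A
    · exact (hxA j hj).le
    · exact (hxs j hj).trans (pow_le_one' hℓ1.le _)
  -- the orbit
  set X' : ℕ → Fin n → Ω := fun i => (gAct F Ω)^[i] x with hX'
  have hXs : ∀ i, X' (i + 1) = gAct F Ω (X' i) := fun i => Function.iterate_succ_apply' _ _ _
  have hR := fun i => hresq E Ω k κ Γ 𝔭 n q ℓ F (by omega) hq hℓ1 hF x hx1 i
  have hX1 : ∀ i j, 𝔭.v (X' i j) ≤ 1 := fun i j => (hR i).1 j
  have hXr : ∀ i j, 𝔭.res (X' i j) = 𝔭.res (x j) ^ (q ^ i) := fun i j => (hR i).2 j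
  have hXA : ∀ i, ∀ j ∈ A, 𝔭.v (X' i j) = 1 := by
    intro i j hj
    by_contra hne
    have hlt : 𝔭.v (X' i j) < 1 := lt_of_le_of_ne (hX1 i j) hne
    have h0 := res_of_lt 𝔭 hlt
    rw [hXr] at h0
    exact res_ne 𝔭 (hxA j hj) (eq_zero_of_pow_eq_zero h0)
  have hXsm : ∀ i, ∀ j ∉ A, 𝔭.v (X' i j) ≤ 𝔭.v (ℓ : Ω) ^ (2 * n ^ 2) := by
    intro i
    induction i with
    | zero => exact hxs
    | succ i ih =>
      intro j hj
      rw [hXs]
      exact gAct_small 𝔭.v hF (by omega) (hX1 i) (ih j hj)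
  have hX0 : ∀ i, ∀ j ∈ A, X' i j ≠ 0 := by
    intro i j hj h
    have := hXA i j hj
    rw [h, map_zero] at this
    exact zero_ne_one this
  have ht0 : t ≠ 0 := by
    rintro rfl
    exact ht (isAlgebraic_zero)
  have hrxa : 𝔭.res (x a) ≠ 0 := res_ne 𝔭 (hxA a ha)
  -- characters
  set g : (Fin n → ℤ) → ℕ → Ω := fun w i => ∏ j ∈ A, X' i j ^ w j with hg
  have hgv : ∀ w i, 𝔭.v (g w i) = 1 := by
    intro w i
    rw [hg, map_prod]
    exact Finset.prod_eq_one fun j hj => v_zpow 𝔭 (hXA i j hj) _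
  have hg0 : ∀ w i, g w i ≠ 0 := by
    intro w i h
    have := hgv w i
    rw [h, map_zero] at this
    exact zero_ne_one this
  have hgres : ∀ w : Fin n → ℤ, ∑ j ∈ A, w j = 0 → ∑ j ∈ A, w j * m j = 0 → ∀ i,
      𝔭.res (g w i) ∈ Set.range (algebraMap k κ) := by
    intro w h1 h2 i
    refine ⟨∏ j ∈ A, (d j) ^ ((q ^ i : ℕ) * w j : ℤ), ?_⟩
    rw [hg]
    dsimp only
    rw [res_prod 𝔭 _ _ fun j hj => v_zpow 𝔭 (hXA i j hj) _]
    have e : ∀ j ∈ A, 𝔭.res (X' i j ^ w j) = 𝔭.res (x a) ^ ((q ^ i : ℕ) * w j : ℤ) *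
        (algebraMap k κ (d j ^ ((q ^ i : ℕ) * w j : ℤ)) * t ^ ((q ^ i : ℕ) * (w j * m j) : ℤ)) := by
      intro j hj
      rw [res_zpow 𝔭 (hXA i j hj), hXr, hrx j hj, ← zpow_natCast, ← zpow_mul, mul_zpow, mul_zpow,
        map_zpow₀, ← zpow_mul t]
      congr 3
      push_cast
      ring
    rw [Finset.prod_congr rfl e, Finset.prod_mul_distrib, Finset.prod_mul_distrib,
      prod_zpow_sum A hrxa, prod_zpow_sum A ht0, ← Finset.mul_sum, ← Finset.mul_sum, h1, h2,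
      mul_zero, zpow_zero, zpow_zero, one_mul, mul_one, map_prod]
  -- the ratio
  set M : ℕ := (m b).toNat with hM
  have hM1 : 1 ≤ M := by omega
  have hMb : m b = (M : ℤ) := by omega
  have hda : algebraMap k κ (d a) = 1 := by
    have h := hrx a ha
    rw [hma, zpow_zero, mul_one] at h
    exact (mul_eq_left₀ hrxa).1 h.symm
  set u : ℕ → Ω := fun i => X' i b / X' i a with hu
  have huv : ∀ i, 𝔭.v (u i) ≤ 1 := by
    intro i
    rw [hu, map_div₀, hXA i b hb, hXA i a ha, div_one]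
  have hur : ∀ i, 𝔭.res (u i) = algebraMap k κ (d b ^ (q ^ i)) * t ^ (M * q ^ i) := by
    intro i
    have h1 : 𝔭.res (x b) = 𝔭.res (x a) * (algebraMap k κ (d b) * t ^ M) := by
      rw [hrx b hb, hMb, zpow_natCast]
    rw [hu]
    dsimp only
    rw [res_div 𝔭 (hXA i b hb).le (hXA i a ha), hXr, hXr, h1, mul_pow, mul_pow, ← pow_mul,
      map_pow, mul_div_cancel_left₀ _ (pow_ne_zero _ hrxa)]
  -- OBD for a shifted orbit
  have obd' : ∀ (w : Fin n → ℤ), (∀ j ∉ A, w j = 0) → ∑ j, w j = 0 → ∑ j, w j * m j = 0 →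
      ∀ (i0 : ℕ) (s : E) (β : ℕ → E) (ρ : ℕ → Ω), s ≠ 0 → 𝔭.v (algebraMap E Ω s) < 1 →
      (∀ l, 𝔭.v (algebraMap E Ω (β l)) < 1) → (∀ l, 𝔭.v (ρ l) ≤ 1) →
      (∀ l, g w (i0 + (l + 1)) = g w (i0 + l) ^ q *
        (1 + algebraMap E Ω (β l) + algebraMap E Ω s * ρ l)) →
      ∃ (a' : E) (G : Ω), 𝔭.v (algebraMap E Ω a') = 1 ∧ 𝔭.v G ≤ 1 ∧
        g w i0 = algebraMap E Ω a' * (1 + algebraMap E Ω s * G) := by
    intro w hw hs1 hs2 i0 s β ρ hs0 hs hβ hρ hrec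
    obtain ⟨D, hD⟩ := relw' hrelw (E := E) (Ω := Ω) c A w hw hs1 a b
    have hsA : ∑ j ∈ A, w j = 0 := by
      rw [Finset.sum_subset (Finset.subset_univ A) fun j _ hj => hw j hj]; exact hs1
    have hsA2 : ∑ j ∈ A, w j * m j = 0 := by
      rw [Finset.sum_subset (Finset.subset_univ A) fun j _ hj => by rw [hw j hj, zero_mul]]
      exact hs2
    have key := hobd E Ω k κ Γ 𝔭 q (M * q ^ i0) D s (fun l => g w (i0 + l))
      (fun l => u (i0 + l)) ρ β t (fun l => d b ^ (q ^ (i0 + l))) hq hqk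
      (Nat.mul_pos hM1 (by positivity)) ht hs0 hs hβ hρ hrec (fun l => huv _)
      (fun l => pow_ne_zero _ (hd b)) (fun l => by
        rw [hur, pow_add, mul_assoc]) (fun l => hD _ (hHW _) (hX0 _)) (hgv w _)
      (hgres w hsA hsA2 _)
    exact key
  have ostep' : ∀ (w : Fin n → ℤ) (i : ℕ), 𝔭.v (g w (i + 1) / g w i ^ q -
      (1 + ∑ j ∈ A, ∑ e ∈ A.erase j, (w j : Ω) * (ℓ : Ω) ^ ex j e *
        (X' i e / X' i j) ^ (q - 1))) ≤ 𝔭.v (ℓ : Ω) ^ (2 * n ^ 2) := by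
    intro w i
    have := hostep E Ω Γ 𝔭.v n q ℓ F (by omega) hq hℓ1 hF A (X' i) w (hXA i) (hXsm i)
    simpa only [hg, hXs] using this
  have hne : NeZero n := ⟨by omega⟩
  have hexlb : ∀ j e : Fin n, j ≠ e → n ^ 2 + 1 ≤ ex j e := by
    intro j e h
    have h1 : (e - j).val ≠ 0 := by
      intro h0
      apply h
      have h2 : e - j = 0 := Fin.ext (by rw [h0]; rfl)
      exact (sub_eq_zero.1 h2).symm
    unfold ex
    have : n ^ 2 ≤ n ^ 2 + j.val * n := Nat.le_add_right _ _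
    omega
  have hratv : ∀ i, ∀ j ∈ A, ∀ e ∈ A, 𝔭.v ((X' i e / X' i j) ^ (q - 1)) = 1 := by
    intro i j hj e he
    rw [map_pow, map_div₀, hXA i e he, hXA i j hj, div_one, one_pow]
  have hpairv : ∀ (w : Fin n → ℤ) i, ∀ j ∈ A, ∀ e ∈ A, ∀ r : ℕ, r ≤ ex j e →
      𝔭.v ((w j : Ω) * (ℓ : Ω) ^ ex j e * (X' i e / X' i j) ^ (q - 1)) ≤ 𝔭.v (ℓ : Ω) ^ r := by
    intro w i j hj e he r hr
    rw [map_mul, map_mul, hratv i j hj e he, mul_one, map_pow]
    calc 𝔭.v (w j : Ω) * 𝔭.v (ℓ : Ω) ^ ex j e ≤ 1 * 𝔭.v (ℓ : Ω) ^ r :=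
          mul_le_mul' (v_int 𝔭.v _) (hpw hr)
      _ = _ := one_mul _
  have hnn : n ^ 2 + 1 ≤ 2 * n ^ 2 := by nlinarith
  -- step 1
  have step1 : ∀ w : Fin n → ℤ, (∀ j ∉ A, w j = 0) → ∑ j, w j = 0 → ∑ j, w j * m j = 0 → ∀ i,
      ∃ (a' : E) (G : Ω), 𝔭.v (algebraMap E Ω a') = 1 ∧ 𝔭.v G ≤ 1 ∧
        g w i = algebraMap E Ω a' * (1 + algebraMap E Ω ((ℓ : E) ^ (n ^ 2 + 1)) * G) := by
    intro w hw h1 h2 i
    have hs0 : ((ℓ : E) ^ (n ^ 2 + 1)) ≠ 0 := pow_ne_zero _ hℓE0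
    have hse : algebraMap E Ω ((ℓ : E) ^ (n ^ 2 + 1)) = (ℓ : Ω) ^ (n ^ 2 + 1) := by simp
    have hsΩ : (ℓ : Ω) ^ (n ^ 2 + 1) ≠ 0 := pow_ne_zero _ hℓ0
    refine obd' w hw h1 h2 i ((ℓ : E) ^ (n ^ 2 + 1)) (fun _ => 0)
      (fun l => (g w (i + (l + 1)) / g w (i + l) ^ q - 1) / (ℓ : Ω) ^ (n ^ 2 + 1)) hs0 ?_ ?_ ?_ ?_
    · rw [hse, map_pow]
      calc 𝔭.v (ℓ : Ω) ^ (n ^ 2 + 1) ≤ 𝔭.v (ℓ : Ω) ^ 1 := hpw (by omega)
        _ = 𝔭.v (ℓ : Ω) := pow_one _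
        _ < 1 := hℓ1
    · intro l; simp
    · intro l
      rw [map_div₀, map_pow]
      refine (div_le_one₀ (zero_lt_iff.2 (pow_ne_zero _ hℓv0))).2 ?_
      have e : g w (i + (l + 1)) / g w (i + l) ^ q - 1 =
          (g w (i + l + 1) / g w (i + l) ^ q - (1 + ∑ j ∈ A, ∑ e ∈ A.erase j,
            (w j : Ω) * (ℓ : Ω) ^ ex j e * (X' (i + l) e / X' (i + l) j) ^ (q - 1))) +
          ∑ j ∈ A, ∑ e ∈ A.erase j,
            (w j : Ω) * (ℓ : Ω) ^ ex j e * (X' (i + l) e / X' (i + l) j) ^ (q - 1) := by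
        rw [← add_assoc i l 1]; ring
      rw [e]
      refine (𝔭.v.map_add _ _).trans (max_le ((ostep' w (i + l)).trans (hpw hnn)) ?_)
      refine Valuation.map_sum_le _ fun j hj => Valuation.map_sum_le _ fun e he => ?_
      exact hpairv w _ j hj e (Finset.mem_of_mem_erase he) _
        (hexlb j e (Finset.ne_of_mem_erase he).symm)
    · intro l
      rw [map_zero, add_zero, hse, mul_div_cancel₀ _ hsΩ, add_sub_cancel,
        mul_div_cancel₀ _ (pow_ne_zero _ (hg0 w _))]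
  -- step 2
  have hrat : ∀ i, ∀ j ∈ A, ∀ e ∈ A, j ≠ e → m j = m e → ∃ a' : E,
      𝔭.v (algebraMap E Ω a') ≤ 1 ∧
      𝔭.v ((X' i e / X' i j) ^ (q - 1) - algebraMap E Ω a') ≤ 𝔭.v (ℓ : Ω) ^ (n ^ 2 + 1) := by
    intro i j hj e he hje hme
    set w : Fin n → ℤ := fun r => if r = e then ((q - 1 : ℕ) : ℤ) else if r = j then
      -((q - 1 : ℕ) : ℤ) else 0 with hw
    have we : w e = ((q - 1 : ℕ) : ℤ) := by simp [hw]
    have wj : w j = -((q - 1 : ℕ) : ℤ) := by simp [hw, hje]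
    have w0 : ∀ r, r ≠ e ∧ r ≠ j → w r = 0 := by
      intro r hr
      simp [hw, hr.1, hr.2]
    obtain ⟨a', G, ha', hG, hgG⟩ := step1 w (fun r hr => w0 r ⟨fun h => hr (h ▸ he),
        fun h => hr (h ▸ hj)⟩)
      (by rw [Finset.sum_eq_add e j hje.symm (fun r _ hr => w0 r hr) (by simp) (by simp), we, wj]
          ring)
      (by rw [Finset.sum_eq_add e j hje.symm (fun r _ hr => by rw [w0 r hr, zero_mul]) (by simp)
            (by simp), we, wj, hme]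
          ring) i
    refine ⟨a', ha'.le, ?_⟩
    have hgw : g w i = (X' i e / X' i j) ^ (q - 1) := by
      rw [hg]
      dsimp only
      rw [Finset.prod_eq_mul e j hje.symm (fun r _ hr => by rw [w0 r hr, zpow_zero])
        (fun h => absurd he h) (fun h => absurd hj h), we, wj, zpow_neg, zpow_natCast,
        zpow_natCast, div_pow, div_eq_mul_inv]
    rw [← hgw, hgG]
    have e1 : algebraMap E Ω a' * (1 + algebraMap E Ω ((ℓ : E) ^ (n ^ 2 + 1)) * G) -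
        algebraMap E Ω a' = algebraMap E Ω a' * ((ℓ : Ω) ^ (n ^ 2 + 1) * G) := by
      rw [map_pow, map_natCast]; ring
    rw [e1, map_mul, ha', one_mul, map_mul, map_pow]
    calc 𝔭.v (ℓ : Ω) ^ (n ^ 2 + 1) * 𝔭.v G ≤ 𝔭.v (ℓ : Ω) ^ (n ^ 2 + 1) * 1 :=
          mul_le_mul' le_rfl hG
      _ = _ := mul_one _
  -- the choice of the character
  obtain ⟨j₁, hj₁, hj₁m⟩ := hml
  obtain ⟨w, N₀, hwA, hws, hwm, hN1, hN2, hdiv, hexi, hdist⟩ := hlemw n ℓ A m hℓp hA3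
    ⟨j₁, hj₁, a, ha, by rw [hma, sub_zero]; exact hj₁m⟩
  have hac : ∀ i : ℕ, ∀ j e : Fin n, ∃ a' : E, 𝔭.v (algebraMap E Ω a') ≤ 1 ∧
      (j ∈ A → e ∈ A → j ≠ e → m j = m e →
        𝔭.v ((X' i e / X' i j) ^ (q - 1) - algebraMap E Ω a') ≤ 𝔭.v (ℓ : Ω) ^ (n ^ 2 + 1)) := by
    intro i j e
    by_cases h : j ∈ A ∧ e ∈ A ∧ j ≠ e ∧ m j = m e
    · obtain ⟨a', h1, h2⟩ := hrat i j h.1 e h.2.1 h.2.2.1 h.2.2.2
      exact ⟨a', h1, fun _ _ _ _ => h2⟩
    · exact ⟨0, by simp, fun h1 h2 h3 h4 => absurd ⟨h1, h2, h3, h4⟩ h⟩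
  choose ac hac1 hac2 using hac
  set z : Fin n → Fin n → ℤ := fun j e => w j * (ℓ : ℤ) ^ ex j e / (ℓ : ℤ) ^ N₀ with hz
  have hzm : ∀ j ∈ A, ∀ e ∈ A, m j ≠ m e → w j * (ℓ : ℤ) ^ ex j e = (ℓ : ℤ) ^ N₀ * z j e :=
    fun j hj e he h => (Int.mul_ediv_cancel' (hdiv j hj e he h)).symm
  have hℓZ0 : (ℓ : ℤ) ^ N₀ ≠ 0 := pow_ne_zero _ (Int.natCast_ne_zero.2 hℓp.ne_zero)
  have hzd : ∀ j ∈ A, ∀ e ∈ A, m j ≠ m e →
      ((ℓ : ℤ) ^ (N₀ + 1) ∣ w j * (ℓ : ℤ) ^ ex j e ↔ (z j e : k) = 0) := by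
    intro j hj e he h
    rw [hzm j hj e he h, pow_succ, mul_dvd_mul_iff_left hℓZ0, CharP.intCast_eq_zero_iff k ℓ]
  set s : E := (ℓ : E) ^ N₀ with hs
  have hs0 : s ≠ 0 := pow_ne_zero _ hℓE0
  have hsΩ : algebraMap E Ω s = (ℓ : Ω) ^ N₀ := by rw [hs, map_pow, map_natCast]
  have hsΩ0 : algebraMap E Ω s ≠ 0 := by rw [hsΩ]; exact pow_ne_zero _ hℓ0
  have hsv : 𝔭.v (algebraMap E Ω s) = 𝔭.v (ℓ : Ω) ^ N₀ := by rw [hsΩ, map_pow]
  have hsv0 : 0 < 𝔭.v (algebraMap E Ω s) := by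
    rw [hsv]; exact zero_lt_iff.2 (pow_ne_zero _ hℓv0)
  have hslt : 𝔭.v (ℓ : Ω) ^ (N₀ + 1) < 𝔭.v (algebraMap E Ω s) := by
    rw [hsv, pow_succ]
    exact mul_lt_of_lt_one_right (zero_lt_iff.2 (pow_ne_zero _ hℓv0)) hℓ1
  set β : ℕ → E := fun i => ∑ j ∈ A, ∑ e ∈ A.erase j,
    if m j = m e then (w j : E) * (ℓ : E) ^ ex j e * ac i j e else 0 with hβ
  set τ : ℕ → Fin n → Fin n → Ω := fun i j e => (w j : Ω) * (ℓ : Ω) ^ ex j e *
    (X' i e / X' i j) ^ (q - 1) -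
    if m j = m e then (w j : Ω) * (ℓ : Ω) ^ ex j e * algebraMap E Ω (ac i j e) else 0 with hτ
  set Er : ℕ → Ω := fun i => g w (i + 1) / g w i ^ q -
      (1 + ∑ j ∈ A, ∑ e ∈ A.erase j, (w j : Ω) * (ℓ : Ω) ^ ex j e *
        (X' i e / X' i j) ^ (q - 1)) with hEr
  set ρ : ℕ → Ω := fun i => (g w (i + 1) / g w i ^ q - 1 - algebraMap E Ω (β i)) /
    algebraMap E Ω s with hρ
  have hβΩ : ∀ i, algebraMap E Ω (β i) = ∑ j ∈ A, ∑ e ∈ A.erase j,
      if m j = m e then (w j : Ω) * (ℓ : Ω) ^ ex j e * algebraMap E Ω (ac i j e) else 0 := by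
    intro i
    rw [hβ]
    dsimp only
    rw [map_sum]
    refine Finset.sum_congr rfl fun j _ => ?_
    rw [map_sum]
    refine Finset.sum_congr rfl fun e _ => ?_
    split_ifs <;> simp
  have hρe : ∀ i, ρ i = Er i / algebraMap E Ω s +
      ∑ j ∈ A, ∑ e ∈ A.erase j, τ i j e / algebraMap E Ω s := by
    intro i
    have h1 : ∑ j ∈ A, ∑ e ∈ A.erase j, τ i j e / algebraMap E Ω s =
        (∑ j ∈ A, ∑ e ∈ A.erase j, τ i j e) / algebraMap E Ω s := by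
      rw [Finset.sum_div]
      exact Finset.sum_congr rfl fun j _ => by rw [Finset.sum_div]
    have h2 : ∑ j ∈ A, ∑ e ∈ A.erase j, τ i j e = (∑ j ∈ A, ∑ e ∈ A.erase j,
        (w j : Ω) * (ℓ : Ω) ^ ex j e * (X' i e / X' i j) ^ (q - 1)) - algebraMap E Ω (β i) := by
      rw [hβΩ, ← Finset.sum_sub_distrib]
      refine Finset.sum_congr rfl fun j _ => ?_
      rw [← Finset.sum_sub_distrib]
    rw [h1, h2, ← add_div, hρ, hEr]
    dsimp only
    congr 1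
    ring
  -- residues of the terms
  set h : ℕ → Fin n → Fin n → κ := fun i j e =>
    if m j ≠ m e ∧ ¬ (ℓ : ℤ) ^ (N₀ + 1) ∣ w j * (ℓ : ℤ) ^ ex j e then
      algebraMap k κ ((z j e : k) * (d e / d j) ^ ((q - 1) * q ^ i)) *
        t ^ (((q - 1 : ℕ) : ℤ) * (m e - m j) * (q : ℤ) ^ i) else 0 with hh
  have hErv : ∀ i, 𝔭.v (Er i / algebraMap E Ω s) < 1 := by
    intro i
    rw [map_div₀]
    refine (div_lt_one₀ hsv0).2 (lt_of_le_of_lt ((ostep' w i).trans (hpw hN2)) hslt)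
  have hterm : ∀ i, ∀ j ∈ A, ∀ e ∈ A.erase j, 𝔭.v (τ i j e / algebraMap E Ω s) ≤ 1 ∧
      𝔭.res (τ i j e / algebraMap E Ω s) = h i j e := by
    intro i j hj e he'
    have he := Finset.mem_of_mem_erase he'
    have hje : j ≠ e := (Finset.ne_of_mem_erase he').symm
    by_cases hme : m j = m e
    · have h1 : τ i j e = (w j : Ω) * (ℓ : Ω) ^ ex j e *
          ((X' i e / X' i j) ^ (q - 1) - algebraMap E Ω (ac i j e)) := by
        rw [hτ]
        dsimp only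
        rw [if_pos hme]
        ring
      have h2 : 𝔭.v (τ i j e) ≤ 𝔭.v (ℓ : Ω) ^ (N₀ + 1) := by
        rw [h1, map_mul, map_mul, map_pow]
        calc 𝔭.v (w j : Ω) * 𝔭.v (ℓ : Ω) ^ ex j e *
              𝔭.v ((X' i e / X' i j) ^ (q - 1) - algebraMap E Ω (ac i j e))
            ≤ 1 * 𝔭.v (ℓ : Ω) ^ (n ^ 2 + 1) * 𝔭.v (ℓ : Ω) ^ (n ^ 2 + 1) :=
              mul_le_mul' (mul_le_mul' (v_int 𝔭.v _) (hpw (hexlb j e hje)))
                (hac2 i j e hj he hje hme)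
          _ = 𝔭.v (ℓ : Ω) ^ (n ^ 2 + 1 + (n ^ 2 + 1)) := by rw [one_mul, ← pow_add]
          _ ≤ _ := hpw (by omega)
      have h3 : 𝔭.v (τ i j e / algebraMap E Ω s) < 1 := by
        rw [map_div₀]
        exact (div_lt_one₀ hsv0).2 (lt_of_le_of_lt h2 hslt)
      refine ⟨h3.le, ?_⟩
      rw [res_of_lt 𝔭 h3, hh]
      dsimp only
      rw [if_neg fun hc => hc.1 hme]
    · have h1 : τ i j e / algebraMap E Ω s = (z j e : Ω) * (X' i e / X' i j) ^ (q - 1) := by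
        have h5 : (w j : Ω) * (ℓ : Ω) ^ ex j e = (ℓ : Ω) ^ N₀ * (z j e : Ω) := by
          exact_mod_cast congrArg (Int.cast (R := Ω)) (hzm j hj e he hme)
        rw [hτ]
        dsimp only
        rw [if_neg hme, sub_zero, h5, hsΩ, mul_assoc, mul_div_cancel_left₀]
        exact pow_ne_zero _ hℓ0
      have hv2 := hratv i j hj e he
      have hv3 : 𝔭.v (X' i e / X' i j) = 1 := by
        rw [map_div₀, hXA i e he, hXA i j hj, div_one]
      have hrr : 𝔭.res ((X' i e / X' i j) ^ (q - 1)) =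
          algebraMap k κ ((d e / d j) ^ ((q - 1) * q ^ i)) *
            t ^ (((q - 1 : ℕ) : ℤ) * (m e - m j) * (q : ℤ) ^ i) := by
        have hdj : algebraMap k κ (d j) ≠ 0 := (map_ne_zero _).2 (hd j)
        have e1 : 𝔭.res (X' i e / X' i j) =
            (algebraMap k κ (d e / d j) * t ^ (m e - m j)) ^ (q ^ i) := by
          rw [res_div 𝔭 (hXA i e he).le (hXA i j hj), hXr, hXr, ← div_pow, hrx e he, hrx j hj,
            map_div₀, zpow_sub₀ ht0]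
          congr 1
          have := zpow_ne_zero (m j) ht0
          field_simp
        rw [res_pow 𝔭 hv3.le, e1, ← pow_mul, mul_pow, map_pow, mul_comm (q ^ i) (q - 1)]
        congr 1
        rw [← zpow_natCast, ← zpow_mul]
        congr 1
        push_cast
        ring
      refine ⟨?_, ?_⟩
      · rw [h1, map_mul, hv2, mul_one]
        exact v_int 𝔭.v _
      · rw [h1, 𝔭.res_mul _ _ (v_int 𝔭.v _) hv2.le, res_int, hrr, hh]
        dsimp only
        split_ifs with hc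
        · rw [map_mul, map_intCast]; ring
        · have hz0 : (z j e : k) = 0 := by
            rw [← hzd j hj e he hme]
            by_contra hcc
            exact hc ⟨hme, hcc⟩
          rw [← map_intCast (algebraMap k κ), hz0, map_zero, zero_mul]
  have hρv : ∀ i, 𝔭.v (ρ i) ≤ 1 := by
    intro i
    rw [hρe]
    refine (𝔭.v.map_add _ _).trans (max_le (hErv i).le ?_)
    exact Valuation.map_sum_le _ fun j hj => Valuation.map_sum_le _ fun e he =>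
      (hterm i j hj e he).1
  have hρr : ∀ i, 𝔭.res (ρ i) = ∑ j ∈ A, ∑ e ∈ A.erase j, h i j e := by
    intro i
    have h1 : ∀ j ∈ A, 𝔭.v (∑ e ∈ A.erase j, τ i j e / algebraMap E Ω s) ≤ 1 := fun j hj =>
      Valuation.map_sum_le _ fun e he => (hterm i j hj e he).1
    rw [hρe, 𝔭.res_add _ _ (hErv i).le (Valuation.map_sum_le _ h1), res_of_lt 𝔭 (hErv i),
      zero_add, res_sum 𝔭 _ _ h1]
    refine Finset.sum_congr rfl fun j hj => ?_
    rw [res_sum 𝔭 _ _ fun e he => (hterm i j hj e he).1]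
    exact Finset.sum_congr rfl fun e he => (hterm i j hj e he).2
  have hβv : ∀ i, 𝔭.v (algebraMap E Ω (β i)) < 1 := by
    intro i
    rw [hβΩ]
    have : 𝔭.v (ℓ : Ω) ^ 1 < 1 := by rwa [pow_one]
    refine lt_of_le_of_lt (Valuation.map_sum_le _ fun j hj => Valuation.map_sum_le _
      fun e he => ?_) this
    split_ifs
    · rw [map_mul, map_mul, map_pow]
      calc 𝔭.v (w j : Ω) * 𝔭.v (ℓ : Ω) ^ ex j e * 𝔭.v (algebraMap E Ω (ac i j e))
          ≤ 1 * 𝔭.v (ℓ : Ω) ^ 1 * 1 := by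
            refine mul_le_mul' (mul_le_mul' (v_int 𝔭.v _) (hpw ?_)) (hac1 i j e)
            have := hexlb j e (Finset.ne_of_mem_erase he).symm
            omega
        _ = _ := by rw [one_mul, mul_one]
    · rw [map_zero]; exact zero_le
  have hrec : ∀ i, g w (i + 1) = g w i ^ q * (1 + algebraMap E Ω (β i) +
      algebraMap E Ω s * ρ i) := by
    intro i
    rw [hρ]
    dsimp only
    rw [mul_div_cancel₀ _ hsΩ0]
    have : 1 + algebraMap E Ω (β i) + (g w (i + 1) / g w i ^ q - 1 - algebraMap E Ω (β i)) =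
        g w (i + 1) / g w i ^ q := by ring
    rw [this, mul_div_cancel₀ _ (pow_ne_zero _ (hg0 w i))]
  have hs1 : 𝔭.v (algebraMap E Ω s) < 1 := by
    rw [hsv]
    calc 𝔭.v (ℓ : Ω) ^ N₀ ≤ 𝔭.v (ℓ : Ω) ^ 1 := hpw hN1
      _ = 𝔭.v (ℓ : Ω) := pow_one _
      _ < 1 := hℓ1
  obtain ⟨a₀, G₀, ha₀, hG₀, hgG⟩ := obd' w hwA hws hwm 0 s β ρ hs0 hs1 hβv hρv
    (fun l => by simpa only [zero_add] using hrec l)
  obtain ⟨a', G', _, ha', hG', hga, hGr⟩ := hiter E Ω k κ Γ 𝔭 q s a₀ (g w) β ρ G₀ (by omega)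
    hs0 hs1 hβv hρv hrec ha₀ hG₀ hgG
  obtain ⟨D, hD⟩ := relw' hrelw (E := E) (Ω := Ω) c A w hwA hws a b
  have ha'0 : ∀ i, a' i ≠ 0 := by
    intro i h0
    have := ha' i
    rw [h0, map_zero, map_zero] at this
    exact zero_ne_one this
  have hrel : ∀ i, Rel2 k D (t ^ (M * q ^ i)) (𝔭.res (G' i)) := by
    intro i
    have h1 : Rel2 E D (u i) (algebraMap E Ω (a' i) + algebraMap E Ω (a' i * s) * G' i) := by
      have e : algebraMap E Ω (a' i) + algebraMap E Ω (a' i * s) * G' i = g w i := by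
        rw [hga i, map_mul]; ring
      rw [e]
      exact hD _ (hHW i) (hX0 i)
    have h2 := hredr E Ω k κ Γ 𝔭 D (u i) (G' i) (a' i) (a' i * s) (huv i) (hG' i)
      (mul_ne_zero (ha'0 i) hs0) h1
    rw [hur] at h2
    exact rel2_scale (pow_ne_zero _ (hd b)) h2
  -- the lacunary relation
  let J : Type := {p : Fin n × Fin n // p.1 ∈ A ∧ p.2 ∈ A ∧ m p.1 ≠ m p.2 ∧
    ¬ (ℓ : ℤ) ^ (N₀ + 1) ∣ w p.1 * (ℓ : ℤ) ^ ex p.1 p.2}
  obtain ⟨j₂, hj₂, e₂, he₂, hm₂, hx₂⟩ := hexi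
  have : Nonempty J := ⟨⟨(j₂, e₂), hj₂, he₂, hm₂, hx₂⟩⟩
  let _ : Fintype J := Fintype.ofFinite J
  have hq1 : (((q - 1 : ℕ) : ℤ)) ≠ 0 := by
    have : q - 1 ≠ 0 := by omega
    exact_mod_cast this
  refine hlac k κ t q M D ht hq hqk hM1 J
    (fun p => ((q - 1 : ℕ) : ℤ) * (m p.1.2 - m p.1.1))
    (fun p i => (z p.1.1 p.1.2 : k) * (d p.1.2 / d p.1.1) ^ ((q - 1) * q ^ i))
    (fun i => 𝔭.res (G' i)) ?_ ?_ ?_ ?_ hrel
  · intro p
    exact mul_ne_zero hq1 (sub_ne_zero.2 p.2.2.2.1.symm)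
  · intro p p' hpp i j heq
    have h1 : (m p.1.2 - m p.1.1) * (q : ℤ) ^ i = (m p'.1.2 - m p'.1.1) * (q : ℤ) ^ j := by
      apply mul_left_cancel₀ hq1
      linarith
    refine hdist p.1.1 p.2.1 p.1.2 p.2.2.1 p'.1.1 p'.2.1 p'.1.2 p'.2.2.1 p.2.2.2.1
      p'.2.2.2.1 p.2.2.2.2 p'.2.2.2.2 ?_ q i j hℓq h1
    intro h2
    exact hpp (Subtype.ext h2)
  · intro p i
    refine mul_ne_zero ?_ (pow_ne_zero _ (div_ne_zero (hd _) (hd _)))
    intro h0
    exact p.2.2.2.2 ((hzd _ p.2.1 _ p.2.2.1 p.2.2.2.1).2 h0)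
  · intro i
    rw [hGr i, hρr i]
    congr 1
    have h1 : ∑ j ∈ A, ∑ e ∈ A.erase j, h i j e = ∑ j ∈ A, ∑ e ∈ A, h i j e := by
      refine Finset.sum_congr rfl fun j hj => ?_
      refine Finset.sum_subset (Finset.erase_subset _ _) fun e he hne => ?_
      have : e = j := by
        by_contra hc
        exact hne (Finset.mem_erase.2 ⟨hc, he⟩)
      rw [this, hh]
      dsimp only
      rw [if_neg fun hc => hc.1 rfl]
    rw [h1, ← Finset.sum_product']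
    have h2 : ∑ p ∈ A ×ˢ A, h i p.1 p.2 = ∑ p ∈ (A ×ˢ A).filter (fun p => m p.1 ≠ m p.2 ∧
        ¬ (ℓ : ℤ) ^ (N₀ + 1) ∣ w p.1 * (ℓ : ℤ) ^ ex p.1 p.2),
        algebraMap k κ ((z p.1 p.2 : k) * (d p.2 / d p.1) ^ ((q - 1) * q ^ i)) *
        t ^ (((q - 1 : ℕ) : ℤ) * (m p.2 - m p.1) * (q : ℤ) ^ i) := by
      rw [Finset.sum_filter]
    rw [h2]
    rw [← Finset.sum_coe_sort]
    refine Fintype.sum_equiv (Equiv.subtypeEquivRight fun p => ?_) _ _ fun p => rfl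
    rw [Finset.mem_filter, Finset.mem_product]
    exact and_assoc

end Pool.DynLehmer.FN
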