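import Mathlib
import Pool.Agent.Lib.MP_2194ec_nt.FN.Iface

set_option autoImplicit false

namespace Pool.DynLehmer.FN
open MvPolynomial
open scoped Classical

namespace PAIRAux

lemma card_le (n D T : ℕ) (S : Finset (Fin n →₀ ℕ)) (hn : 0 < n) (hD : 0 < D)
    (hdeg : ∀ s ∈ S, ∑ i, s i = T)
    (hone : ∀ s ∈ S, ∀ a b : Fin n, a < b → ¬ (D ≤ s a ∧ D ≤ s b)) :
    S.card ≤ n * D ^ n := by
  have hsub : S ⊆ Finset.univ.biUnion (fun a : Fin n =>
      (Finset.univ : Finset (Fin n → Fin D)).image (fun g =>
        (Finsupp.equivFunOnFinite.symm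
          (Function.update (fun i => ((g i : ℕ))) a
            (T - ∑ i ∈ Finset.univ.erase a, (g i : ℕ))) : Fin n →₀ ℕ))) := by
    intro s hs
    have hex : ∃ a : Fin n, ∀ i, i ≠ a → s i < D := by
      by_cases h : ∃ a, D ≤ s a
      · obtain ⟨a, ha⟩ := h
        refine ⟨a, fun i hi => ?_⟩
        by_contra hlt
        push Not at hlt
        rcases lt_or_gt_of_ne hi with h1 | h1
        · exact hone s hs i a h1 ⟨hlt, ha⟩
        · exact hone s hs a i h1 ⟨ha, hlt⟩
      · push Not at h
        exact ⟨⟨0, hn⟩, fun i _ => h i⟩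
    obtain ⟨a, ha⟩ := hex
    simp only [Finset.mem_biUnion, Finset.mem_univ, Finset.mem_image, true_and]
    refine ⟨a, fun i => if h : s i < D then ⟨s i, h⟩ else ⟨0, hD⟩, ?_⟩
    ext i
    simp only [Finsupp.equivFunOnFinite_symm_apply_apply]
    by_cases hi : i = a
    · subst hi
      simp only [Function.update_self]
      have h1 : ∑ j ∈ Finset.univ.erase i,
          (((if h : s j < D then (⟨s j, h⟩ : Fin D) else ⟨0, hD⟩) : Fin D) : ℕ) =
          ∑ j ∈ Finset.univ.erase i, s j := by
        refine Finset.sum_congr rfl fun j hj => ?_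
        rw [dif_pos (ha j (Finset.ne_of_mem_erase hj))]
      rw [h1, ← hdeg s hs, ← Finset.add_sum_erase _ _ (Finset.mem_univ i)]
      omega
    · rw [Function.update_of_ne hi, dif_pos (ha i hi)]
  calc S.card ≤ _ := Finset.card_le_card hsub
    _ ≤ ∑ _a : Fin n, D ^ n := by
        refine Finset.card_biUnion_le.trans (Finset.sum_le_sum fun a _ => ?_)
        refine Finset.card_image_le.trans ?_
        simp
    _ = n * D ^ n := by simp

end PAIRAux

open PAIRAux in
theorem pair : PairStatement := by
  intro k _ n J hJ hT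
  have hfin : ∀ T, Module.Finite k (homogeneousSubmodule (Fin n) k T) := fun T =>
    Module.Finite.iff_fg.2 (homogeneousSubmodule_fg (Fin n) k T)
  have hn : 0 < n := by
    rcases Nat.eq_zero_or_pos n with h0 | h0
    · subst h0
      exfalso
      have h1 := hT 1
      have h2 : homogeneousSubmodule (Fin 0) k 1 = ⊥ := by
        rw [eq_bot_iff]
        intro p hp
        rw [mem_homogeneousSubmodule] at hp
        rw [Submodule.mem_bot]
        by_contra hne
        obtain ⟨s, hs⟩ := MvPolynomial.ne_zero_iff.1 hne
        have h3 := hp hs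
        have h4 : s = 0 := Subsingleton.elim _ _
        rw [h4] at h3
        simp at h3
      rw [h2] at h1
      simp at h1
    · exact h0
  by_contra hcon
  push Not at hcon
  have hP : ∀ p : {p : Fin n × Fin n // p.1 < p.2}, ∃ P : MvPolynomial (Fin 2) k, P ≠ 0 ∧
      aeval ![(X p.1.1 : MvPolynomial (Fin n) k), X p.1.2] P ∈ J := fun p =>
    hcon p.1.1 p.1.2 p.2
  choose P hP0 hPJ using hP
  let m : MonomialOrder (Fin n) := MonomialOrder.lex
  let b : {p : Fin n × Fin n // p.1 < p.2} → MvPolynomial (Fin n) k :=
    fun p => rename ![p.1.1, p.1.2] (P p)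
  have hinj : ∀ p : {p : Fin n × Fin n // p.1 < p.2},
      Function.Injective ![p.1.1, p.1.2] := by
    intro p i j hij
    have := p.2.ne
    fin_cases i <;> fin_cases j <;> simp_all
  have hb0 : ∀ p, b p ≠ 0 := by
    intro p h
    exact hP0 p ((rename_injective _ (hinj p)) (by rw [map_zero]; exact h))
  have hbJ : ∀ p, b p ∈ J := by
    intro p
    have h1 := hPJ p
    have h2 : aeval ![(X p.1.1 : MvPolynomial (Fin n) k), X p.1.2] (P p) = b p := by
      change _ = rename _ _
      rw [rename_eq_aeval]
      congr 2
      funext i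
      fin_cases i <;> simp
    rwa [h2] at h1
  -- the leading exponents
  have hexp : ∃ D : ℕ, 0 < D ∧ ∀ p : {p : Fin n × Fin n // p.1 < p.2}, ∀ s : Fin n →₀ ℕ,
      D ≤ s p.1.1 → D ≤ s p.1.2 → m.degree (b p) ≤ s := by
    refine ⟨(Finset.univ.sum fun p : {p : Fin n × Fin n // p.1 < p.2} =>
      ∑ i, m.degree (b p) i) + 1, Nat.succ_pos _, ?_⟩
    intro p s h1 h2
    have hle : ∀ i, m.degree (b p) i ≤ (Finset.univ.sum fun p : {p : Fin n × Fin n // p.1 < p.2} =>
      ∑ i, m.degree (b p) i) := by
      intro i
      calc m.degree (b p) i ≤ ∑ i, m.degree (b p) i :=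
            Finset.single_le_sum (f := fun i => m.degree (b p) i) (fun _ _ => Nat.zero_le _)
              (Finset.mem_univ i)
        _ ≤ _ := Finset.single_le_sum (f := fun p => ∑ i, m.degree (b p) i)
              (fun _ _ => Nat.zero_le _) (Finset.mem_univ p)
    have hmem : m.degree (b p) ∈ (b p).support := m.degree_mem_support (hb0 p)
    change m.degree (b p) ∈ (rename ![p.1.1, p.1.2] (P p)).support at hmem
    rw [support_rename_of_injective (hinj p)] at hmem
    obtain ⟨s0, -, hs0⟩ := Finset.mem_image.1 hmem
    intro i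
    by_cases hi1 : i = p.1.1
    · subst hi1
      exact ((hle _).trans (Nat.le_succ _)).trans h1
    · by_cases hi2 : i = p.1.2
      · subst hi2
        exact ((hle _).trans (Nat.le_succ _)).trans h2
      · rw [← hs0, Finsupp.mapDomain_of_notMem_range]
        · exact Nat.zero_le _
        · rintro ⟨j, hj⟩
          fin_cases j
          · exact hi1 hj.symm
          · exact hi2 hj.symm
  obtain ⟨D, hD, hD2⟩ := hexp
  -- division
  have key : ∀ T : ℕ, T + 1 ≤ n * D ^ n := by
    intro T
    let S0 : Set (Fin n →₀ ℕ) := {s | (∑ i, s i = T) ∧ ∀ p, ¬ (m.degree (b p) ≤ s)}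
    have hS0fin : S0.Finite := by
      refine Set.Finite.subset (s := {s : Fin n →₀ ℕ | s ≤ Finsupp.equivFunOnFinite.symm
        (fun _ => T)}) (Set.finite_Iic _) ?_
      intro s hs i
      rw [Finsupp.equivFunOnFinite_symm_apply_apply, ← hs.1]
      exact Finset.single_le_sum (f := fun i => s i) (fun _ _ => Nat.zero_le _)
              (Finset.mem_univ i)
    have hcard : hS0fin.toFinset.card ≤ n * D ^ n := by
      refine card_le n D T _ hn hD (fun s hs => ((hS0fin.mem_toFinset).1 hs).1) ?_
      intro s hs a c hac h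
      exact ((hS0fin.mem_toFinset).1 hs).2 ⟨(a, c), hac⟩ (hD2 ⟨(a, c), hac⟩ s h.1 h.2)
    have : Fintype S0 := hS0fin.fintype
    have hNfin : Module.Finite k (restrictSupport k S0) :=
      Module.Finite.of_basis (basisRestrictSupport k S0)
    have hNrank : Module.finrank k (restrictSupport k S0) = hS0fin.toFinset.card := by
      rw [Module.finrank_eq_card_basis (basisRestrictSupport k S0),
        ← Set.toFinset_card]
      congr 1
      ext s
      simp
    have hle : homogeneousSubmodule (Fin n) k T ≤
        (homogeneousSubmodule (Fin n) k T ⊓ J.restrictScalars k) ⊔ restrictSupport k S0 := by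
      intro f hf
      rw [mem_homogeneousSubmodule] at hf
      obtain ⟨g, r, hfr, -, hr⟩ := m.div (b := b) (fun p => by
        rw [isUnit_iff_ne_zero]
        exact (MonomialOrder.leadingCoeff_ne_zero_iff).2 (hb0 p)) f
      have hJ1 : Finsupp.linearCombination (MvPolynomial (Fin n) k) b g ∈ J := by
        rw [Finsupp.linearCombination_apply]
        refine J.sum_mem fun p _ => ?_
        exact J.mul_mem_left _ (hbJ p)
      have hfT : f = homogeneousComponent T (Finsupp.linearCombination (MvPolynomial (Fin n) k) b g)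
          + homogeneousComponent T r := by
        rw [← map_add, ← hfr, homogeneousComponent_of_mem hf, if_pos rfl]
      rw [hfT]
      refine Submodule.add_mem_sup ⟨homogeneousComponent_mem _ _, hJ _ hJ1 T⟩ ?_
      rw [mem_restrictSupport_iff]
      intro s hs
      rw [Finset.mem_coe, mem_support_iff, coeff_homogeneousComponent] at hs
      have h1 : s.degree = T := by
        by_contra h
        rw [if_neg h] at hs
        exact hs rfl
      rw [if_pos h1] at hs
      refine ⟨?_, fun p => hr s (mem_support_iff.2 hs) p⟩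
      rw [← h1, Finsupp.degree_eq_sum]
    have h1 : Module.finrank k (homogeneousSubmodule (Fin n) k T) ≤
        Module.finrank k ↥(homogeneousSubmodule (Fin n) k T ⊓ J.restrictScalars k) +
        Module.finrank k (restrictSupport k S0) := by
      have : Module.Finite k ↥(homogeneousSubmodule (Fin n) k T ⊓ J.restrictScalars k) :=
        Submodule.finiteDimensional_of_le inf_le_left
      exact (Submodule.finrank_mono hle).trans (Submodule.finrank_add_le_finrank_add_finrank _ _)
    have h2 := hT T
    omega
  have := key (n * D ^ n)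
  omega

end Pool.DynLehmer.FN
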