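import Pool.Agent.Lib.MP_2194ec_nt.FN.Iface

set_option autoImplicit false

/-!
# Module PLACE (helper27): the valuation attached to a periodic curve
-/

namespace Pool.DynLehmer.FN
open MvPolynomial NumberField Pool.DynLehmer Pool.DynLehmer.SB
open scoped Classical

namespace PlaceAux

/-- a valuation ring of a number field in which `ℓ` is not a unit -/
theorem exists_A (K : Type) [Field K] [NumberField K] (ℓ : ℕ) (hℓ : ℓ.Prime) :
    ∃ A : ValuationSubring K, A.valuation (ℓ : K) < 1 := by
  have h1 : ¬ IsUnit ((ℓ : ℕ) : 𝓞 K) := by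
    intro h
    have h2 := (NumberField.isUnit_iff_norm (K := K) (x := ((ℓ : ℕ) : 𝓞 K))).1 h
    have h3 : (RingOfIntegers.norm ℚ ((ℓ : ℕ) : 𝓞 K) : ℚ) = (ℓ : ℚ) ^ (Module.finrank ℚ K) := by
      rw [RingOfIntegers.coe_norm]
      have : ((((ℓ : ℕ) : 𝓞 K)) : K) = algebraMap ℚ K (ℓ : ℚ) := by simp
      rw [this, Algebra.norm_algebraMap]
    rw [h3, abs_pow, pow_eq_one_iff_of_nonneg (abs_nonneg _) Module.finrank_pos.ne'] at h2
    rw [Nat.abs_cast] at h2
    exact hℓ.one_lt.ne' (by exact_mod_cast h2)
  obtain ⟨m, hm, hlm⟩ := exists_max_ideal_of_mem_nonunits (show ((ℓ : ℕ) : 𝓞 K) ∈ nonunits _ from h1)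
  have hm0 : m ≠ ⊥ := by
    rintro rfl
    rw [Ideal.mem_bot] at hlm
    exact hℓ.ne_zero (by exact_mod_cast hlm)
  let v : IsDedekindDomain.HeightOneSpectrum (𝓞 K) := ⟨m, hm.isPrime, hm0⟩
  refine ⟨(v.valuation K).valuationSubring, ?_⟩
  rw [← (Valuation.isEquiv_valuation_valuationSubring (v.valuation K)).lt_one_iff_lt_one]
  have := (v.valuation_lt_one_iff_mem (K := K) ((ℓ : ℕ) : 𝓞 K)).2 hlm
  simpa using this

theorem finrank_hom_eq (n : ℕ) (K k : Type) [Field K] [Field k] (T : ℕ) :
    Module.finrank K (homogeneousSubmodule (Fin n) K T) =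
      Module.finrank k (homogeneousSubmodule (Fin n) k T) := by
  have key : ∀ (F : Type) [Field F], Module.finrank F (homogeneousSubmodule (Fin n) F T) =
      Nat.card {d : Fin n →₀ ℕ | d.degree = T} := by
    intro F _
    have h2 : homogeneousSubmodule (Fin n) F T = restrictSupport F {d | d.degree = T} :=
      homogeneousSubmodule_eq_finsupp_supported (Fin n) F T
    rw [h2, Module.finrank_eq_nat_card_basis
      (basisRestrictSupport F {d : Fin n →₀ ℕ | d.degree = T})]
  rw [key, key]

/-- the reduction of a homogeneous ideal is homogeneous -/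
theorem hom_red {K : Type} [Field K] (A : ValuationSubring K) (n : ℕ)
    (Q : Ideal (MvPolynomial (Fin n) K)) (hQ : ∀ G ∈ Q, ∀ d, homogeneousComponent d G ∈ Q) :
    ∀ G ∈ Ideal.map (MvPolynomial.map (IsLocalRing.residue A))
      (Q.comap (MvPolynomial.map A.subtype)), ∀ d, homogeneousComponent d G ∈
        Ideal.map (MvPolynomial.map (IsLocalRing.residue A))
          (Q.comap (MvPolynomial.map A.subtype)) := by
  have hs : Function.Surjective (MvPolynomial.map (σ := Fin n) (IsLocalRing.residue A)) :=
    MvPolynomial.map_surjective _ IsLocalRing.residue_surjective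
  have hc : ∀ {R S : Type} [CommRing R] [CommRing S] (f : R →+* S) (d : ℕ)
      (G : MvPolynomial (Fin n) R), homogeneousComponent d (map f G) =
        map f (homogeneousComponent d G) := by
    intro R S _ _ f d G
    ext t
    simp only [coeff_homogeneousComponent, coeff_map]
    split_ifs <;> simp
  intro G hG d
  obtain ⟨g, hg, rfl⟩ := (Ideal.mem_map_iff_of_surjective _ hs).1 hG
  rw [hc]
  refine Ideal.mem_map_of_mem _ ?_
  rw [Ideal.mem_comap] at hg ⊢
  rw [← hc]
  exact hQ _ hg d

/-- integers prime to `ℓ` are units of the valuation ring -/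
theorem val_int {K : Type} [Field K] (A : ValuationSubring K) (ℓ : ℕ) (hℓ : ℓ.Prime)
    (h : A.valuation (ℓ : K) < 1) (m : ℤ) (hm : ¬ (ℓ : ℤ) ∣ m) : A.valuation (m : K) = 1 := by
  have hle : ∀ z : ℤ, A.valuation (z : K) ≤ 1 := by
    intro z
    rw [A.valuation_le_one_iff]
    exact intCast_mem A z
  obtain ⟨u, w, huw⟩ := ((Nat.prime_iff_prime_int.1 hℓ).irreducible.coprime_iff_not_dvd.2 hm)
  refine le_antisymm (hle m) ?_
  by_contra hlt
  rw [not_le] at hlt
  have h1 : A.valuation ((u * ℓ + w * m : ℤ) : K) < 1 := by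
    push_cast
    refine lt_of_le_of_lt (A.valuation.map_add _ _) (max_lt ?_ ?_)
    · rw [map_mul]
      exact lt_of_le_of_lt (mul_le_of_le_one_left' (hle u)) h
    · rw [map_mul]
      exact lt_of_le_of_lt (mul_le_of_le_one_left' (hle w)) hlt
  rw [huw] at h1
  simp at h1

theorem alg_of_rel {K Ω : Type} [Field K] [Field Ω] [Algebra K Ω] (u v : Ω)
    (hu : Transcendental K u) (P : MvPolynomial (Fin 2) K) (hP : P ≠ 0)
    (h : aeval ![u, v] P = 0) : IsAlgebraic (IntermediateField.adjoin K {u}) v := by
  by_contra hv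
  have h1 : AlgebraicIndepOn K ![u, v] (insert 1 {0}) := by
    rw [AlgebraicIndepOn.insert_iff (by simp)]
    refine ⟨?_, ?_⟩
    · have : Unique ({0} : Set (Fin 2)) := Set.uniqueSingleton 0
      unfold AlgebraicIndepOn
      rw [algebraicIndependent_unique_type_iff]
      have h2 : ((default : ({0} : Set (Fin 2))) : Fin 2) = 0 :=
        Set.mem_singleton_iff.1 (default : ({0} : Set (Fin 2))).2
      rw [h2]
      exact hu
    · intro halg
      apply hv
      have h2 : (![u, v] '' {0}) = {u} := by simp
      have h3 : (![u, v] 1) = v := rfl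
      rw [h3] at halg
      have hle : Algebra.adjoin K (![u, v] '' {0}) ≤
          (IntermediateField.adjoin K {u}).toSubalgebra := by
        rw [h2]
        exact IntermediateField.algebra_adjoin_le_adjoin K _
      obtain ⟨p, hp, hpe⟩ := halg
      let f : Algebra.adjoin K (![u, v] '' {0}) →+* IntermediateField.adjoin K {u} :=
        { toFun := fun z => ⟨z, hle z.2⟩
          map_one' := rfl
          map_mul' := fun _ _ => rfl
          map_zero' := rfl
          map_add' := fun _ _ => rfl }
      have hf : Function.Injective f := by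
        intro z w hzw
        ext
        exact congrArg (fun y : IntermediateField.adjoin K {u} => (y : Ω)) hzw
      refine ⟨p.map f, (Polynomial.map_ne_zero_iff hf).2 hp, ?_⟩
      rw [Polynomial.aeval_def, Polynomial.eval₂_map, ← hpe, Polynomial.aeval_def]
      congr 1
  have h2 : (insert 1 {0} : Set (Fin 2)) = Set.univ := by
    ext i; fin_cases i <;> simp
  rw [h2, AlgebraicIndepOn.univ] at h1
  exact hP ((algebraicIndependent_iff.1 h1) P h)

/-- a polynomial can be scaled to have coefficients in a valuation ring, one of them a unit -/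
theorem scale {K : Type} [Field K] (A : ValuationSubring K) (P : MvPolynomial (Fin 2) K)
    (hP : P ≠ 0) : ∃ c : K, c ≠ 0 ∧ (∀ t, coeff t (C c * P) ∈ A) ∧
      ∃ t, A.valuation (coeff t (C c * P)) = 1 := by
  obtain ⟨t, ht, hmax⟩ := P.support.exists_max_image (fun t => A.valuation (coeff t P))
    (by simpa [Finset.nonempty_iff_ne_empty] using hP)
  have ht0 : coeff t P ≠ 0 := mem_support_iff.1 ht
  refine ⟨(coeff t P)⁻¹, inv_ne_zero ht0, fun s => ?_, t, ?_⟩
  · rw [← A.valuation_le_one_iff, coeff_C_mul, map_mul, map_inv₀]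
    by_cases hs : s ∈ P.support
    · have h1 := hmax s hs
      have h2 : 0 < A.valuation (coeff t P) := by
        rw [zero_lt_iff]
        exact (Valuation.ne_zero_iff _).2 ht0
      rw [inv_mul_le_iff₀ h2, mul_one]
      exact h1
    · rw [notMem_support_iff.1 hs]
      simp
  · rw [coeff_C_mul, inv_mul_cancel₀ ht0, map_one]

theorem indep_of_unit {K Ω : Type} [Field K] [Field Ω] [Algebra K Ω] (A : ValuationSubring K)
    (O : ValuationSubring Ω) (α β : Ω)
    (h : ∀ P : MvPolynomial (Fin 2) K, (∀ t, coeff t P ∈ A) →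
      (∃ t, A.valuation (coeff t P) = 1) → O.valuation (aeval ![α, β] P) = 1) :
    ∀ P : MvPolynomial (Fin 2) K, P ≠ 0 → aeval ![α, β] P ≠ 0 := by
  intro P hP h0
  obtain ⟨c, hc, h1, h2⟩ := scale A P hP
  have h3 := h _ h1 h2
  rw [map_mul, h0, mul_zero, map_zero] at h3
  exact zero_ne_one h3

/-- the ratio of two independent elements is transcendental -/
theorem trans_ratio {K Ω : Type} [Field K] [Field Ω] [Algebra K Ω] (α β : Ω)
    (h : ∀ P : MvPolynomial (Fin 2) K, P ≠ 0 → aeval ![α, β] P ≠ 0) :
    Transcendental K (β / α) := by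
  have hα : α ≠ 0 := by
    have := h (X 0) (X_ne_zero 0)
    simpa using this
  rw [transcendental_iff]
  intro p hp
  by_contra hp0
  -- homogenise
  let P : MvPolynomial (Fin 2) K :=
    ∑ i ∈ Finset.range (p.natDegree + 1), C (p.coeff i) * (X 0 ^ (p.natDegree - i) * X 1 ^ i)
  have h1 : aeval ![α, β] P = 0 := by
    have h2 : aeval ![α, β] P = α ^ p.natDegree * Polynomial.aeval (β / α) p := by
      rw [Polynomial.aeval_eq_sum_range, Finset.mul_sum]
      simp only [P, map_sum, map_mul, map_pow, aeval_X, algHom_C]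
      refine Finset.sum_congr rfl fun i hi => ?_
      have hi' : i ≤ p.natDegree := by
        have := Finset.mem_range.1 hi; omega
      simp only [Matrix.cons_val_zero, Matrix.cons_val_one, Algebra.smul_def, div_pow]
      have h3 : α ^ p.natDegree = α ^ (p.natDegree - i) * α ^ i := by
        rw [← pow_add]; congr 1; omega
      rw [h3]
      field_simp
    rw [h2, hp, mul_zero]
  refine h P ?_ h1
  intro hP0
  have h2 := congrArg (coeff (Finsupp.single (0 : Fin 2) 0 + Finsupp.single 1 p.natDegree)) hP0
  rw [coeff_zero] at h2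
  simp only [P, coeff_sum] at h2
  rw [Finset.sum_eq_single p.natDegree] at h2
  · have h3 : (C (p.coeff p.natDegree) * (X 0 ^ (p.natDegree - p.natDegree) *
        X 1 ^ p.natDegree) : MvPolynomial (Fin 2) K) =
        monomial (Finsupp.single (0 : Fin 2) 0 + Finsupp.single 1 p.natDegree)
          (p.coeff p.natDegree) := by
      rw [Nat.sub_self, pow_zero, one_mul, Finsupp.single_zero, zero_add, C_mul_X_pow_eq_monomial]
    rw [h3, coeff_monomial, if_pos rfl] at h2
    exact hp0 (Polynomial.leadingCoeff_eq_zero.1 h2)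
  · intro b hb hne
    have h3 : (C (p.coeff b) * (X 0 ^ (p.natDegree - b) * X 1 ^ b) : MvPolynomial (Fin 2) K) =
        monomial (Finsupp.single (0 : Fin 2) (p.natDegree - b) + Finsupp.single 1 b)
          (p.coeff b) := by
      rw [X_pow_eq_monomial, X_pow_eq_monomial, monomial_mul, C_mul_monomial]
      simp
    rw [h3, coeff_monomial, if_neg]
    intro heq
    have := DFunLike.congr_fun heq 1
    simp at this
    exact hne this
  · intro hn
    exact absurd (Finset.mem_range.2 (Nat.lt_succ_self _)) hn

theorem alg_mono {Ω R S : Type} [Field Ω] [Field R] [Field S] [Algebra R Ω] [Algebra S Ω]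
    (f : R →+* S) (hf : ∀ r, algebraMap S Ω (f r) = algebraMap R Ω r) {y : Ω}
    (h : IsAlgebraic R y) : IsAlgebraic S y := by
  obtain ⟨p, hp, hpe⟩ := h
  refine ⟨p.map f, (Polynomial.map_ne_zero_iff f.injective).2 hp, ?_⟩
  rw [Polynomial.aeval_def, Polynomial.eval₂_map, ← hpe, Polynomial.aeval_def]
  congr 1
  ext r
  exact hf r

/-- algebraicity over a smaller field -/
theorem alg_of_gen {K Ω : Type} [Field K] [Field Ω] [Algebra K Ω] (S T : Set Ω)
    (hS : ∀ s ∈ S, IsAlgebraic (IntermediateField.adjoin K T) s) (y : Ω)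
    (hy : IsAlgebraic (IntermediateField.adjoin K S) y) :
    IsAlgebraic (IntermediateField.adjoin K T) y := by
  let K' := IntermediateField.adjoin K T
  let M := algebraicClosure K' Ω
  have h1 : IntermediateField.adjoin K S ≤ M.restrictScalars K := by
    rw [IntermediateField.adjoin_le_iff]
    intro s hs
    exact (mem_algebraicClosure_iff).2 (hS s hs)
  have h2 : IsAlgebraic M y := by
    refine alg_mono (f := { toFun := fun z => ⟨z, h1 z.2⟩
                            map_one' := rfl
                            map_mul' := fun _ _ => rfl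
                            map_zero' := rfl
                            map_add' := fun _ _ => rfl }) (fun r => rfl) hy
  exact h2.restrictScalars K'

end PlaceAux

theorem place (hred : Red1Statement) (hpair : PairStatement) (hchev : ChevStatement)
    (hvgrp : VgrpStatement) (hplca : PlcaStatement) (hrelw : RelwStatement) :
    PlaceStatement := by
  intro K _ _ Ω _ _ _ ℓ n c x Q hℓ hxQ hQh hHF hHW halg
  obtain ⟨A, hA⟩ := PlaceAux.exists_A K ℓ hℓ
  have hJh := PlaceAux.hom_red A n Q hQh
  have hJT : ∀ T : ℕ, Module.finrank (IsLocalRing.ResidueField A)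
        ↥(homogeneousSubmodule (Fin n) (IsLocalRing.ResidueField A) T ⊓
          (Ideal.map (MvPolynomial.map (IsLocalRing.residue A))
            (Q.comap (MvPolynomial.map A.subtype))).restrictScalars
              (IsLocalRing.ResidueField A)) + (T + 1) ≤
      Module.finrank (IsLocalRing.ResidueField A)
        (homogeneousSubmodule (Fin n) (IsLocalRing.ResidueField A) T) := by
    intro T
    have e1 := hred K A (Fin n) Q hQh T
    have e2 := hHF T
    rw [PlaceAux.finrank_hom_eq n K (IsLocalRing.ResidueField A) T] at e2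
    omega
  obtain ⟨a, b, hab, hPJ⟩ := hpair (IsLocalRing.ResidueField A) n _ hJh hJT
  obtain ⟨O, hxO, hAO, hmO, hunit⟩ := hchev K A Ω n x Q hxQ a b hPJ
  have hind := PlaceAux.indep_of_unit A O (x a) (x b) hunit
  have htr := PlaceAux.trans_ratio (x a) (x b) hind
  have hxa0 : x a ≠ 0 := by
    have := hind (X 0) (X_ne_zero 0)
    simpa using this
  have hlO : O.valuation (ℓ : Ω) < 1 := by
    have := hmO (ℓ : K) hA
    rwa [map_natCast] at this
  -- the coordinates are algebraic over `K(x_a, x_b)`
  have hxl : ∀ s ∈ Set.range x, IsAlgebraic (IntermediateField.adjoin K {x a, x b}) s := by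
    rintro _ ⟨l, rfl⟩
    obtain ⟨P, hP0, -, hP⟩ := hrelw K Ω (Fin n) x c hHW (Pi.single l 1) (Pi.single a 1)
      (by simp) a b
    have e1 : (∏ i, x i ^ (Pi.single l 1 : Fin n → ℕ) i) = x l := by
      rw [Finset.prod_eq_single l]
      · simp
      · intro j _ hj
        simp [hj]
      · simp
    have e2 : (∏ i, x i ^ (Pi.single a 1 : Fin n → ℕ) i) = x a := by
      rw [Finset.prod_eq_single a]
      · simp
      · intro j _ hj
        simp [hj]
      · simp
    rw [e1, e2] at hP
    have e3 := PlaceAux.alg_of_rel _ _ htr P hP0 hP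
    have hle : IntermediateField.adjoin K {x b / x a} ≤
        IntermediateField.adjoin K {x a, x b} := by
      rw [IntermediateField.adjoin_le_iff, Set.singleton_subset_iff]
      exact div_mem (IntermediateField.subset_adjoin K _ (by simp))
        (IntermediateField.subset_adjoin K _ (by simp))
    have e4 : IsAlgebraic (IntermediateField.adjoin K {x a, x b}) (x l / x a) :=
      PlaceAux.alg_mono (IntermediateField.inclusion hle).toRingHom (fun r => rfl) e3
    have e5 : IsAlgebraic (IntermediateField.adjoin K {x a, x b}) (x a) := by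
      have : x a = algebraMap (IntermediateField.adjoin K {x a, x b}) Ω
        ⟨x a, IntermediateField.subset_adjoin K _ (by simp)⟩ := rfl
      rw [this]
      exact isAlgebraic_algebraMap _
    have e6 := e4.mul e5
    rwa [div_mul_cancel₀ _ hxa0] at e6
  have halg' : ∀ y : Ω, IsAlgebraic (IntermediateField.adjoin K {x a, x b}) y := fun y =>
    PlaceAux.alg_of_gen (Set.range x) _ hxl y (halg y)
  have hz : ∀ P : MvPolynomial (Fin 2) ℤ, (∃ t, ¬ (ℓ : ℤ) ∣ coeff t P) →
      O.valuation (aeval ![x a, x b] P) = 1 := by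
    rintro P ⟨t, ht⟩
    have e1 := hunit (map (algebraMap ℤ K) P) (fun s => by
        rw [coeff_map]
        simp) ⟨t, by
        rw [coeff_map]
        simpa using PlaceAux.val_int A ℓ hℓ hA _ ht⟩
    rwa [aeval_map_algebraMap] at e1
  have hva : O.valuation (x a) ≤ 1 := (O.valuation_le_one_iff _).2 (hxO a)
  have hvb : O.valuation (x b) ≤ 1 := (O.valuation_le_one_iff _).2 (hxO b)
  have hvg := hvgrp K Ω O.ValueGroup O.valuation ℓ hℓ hlO (x a) (x b) hva hvb hz halg'
  obtain ⟨k, κ, i1, i2, i3, 𝔭, hk, hκ, hch, hv, hi⟩ := hplca K Ω O ℓ hℓ hlO hvg (x a) (x b)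
    (hxO a) (hxO b) hz
  refine ⟨k, κ, O.ValueGroup, i1, i2, i3, inferInstance, 𝔭, hk, hκ, hch, fun j => ?_, a, b,
    hab, hi⟩
  rw [hv]
  exact (O.valuation_le_one_iff _).2 (hxO j)

end Pool.DynLehmer.FN
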