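import Mathlib
import Pool.Agent.Lib.MP_2194ec_nt.FN.Iface

set_option autoImplicit false

/-!
# Module PLCA (helper72): the valuation ring and its residue field as a `Plc`
-/

namespace Pool.DynLehmer.FN

namespace PlcaAux

section

variable {Ω : Type} [Field Ω] (O : ValuationSubring Ω)

/-- the residue map, extended by zero -/
noncomputable def rs (a : Ω) : IsLocalRing.ResidueField O := by
  classical
  exact if h : a ∈ O then IsLocalRing.residue O ⟨a, h⟩ else 0

theorem rs_eq {a : Ω} (h : a ∈ O) : rs O a = IsLocalRing.residue O ⟨a, h⟩ := by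
  unfold rs
  exact dif_pos h

theorem rs_coe (a : O) : rs O (a : Ω) = IsLocalRing.residue O a := rs_eq O a.2

theorem rs_zero_iff {a : Ω} (h : a ∈ O) : rs O a = 0 ↔ O.valuation a < 1 := by
  rw [rs_eq O h, IsLocalRing.residue_eq_zero_iff]
  exact O.valuation_lt_one_iff ⟨a, h⟩

/-- the residue field is algebraically closed -/
theorem isAlgClosed [IsAlgClosed Ω] : IsAlgClosed (IsLocalRing.ResidueField O) := by
  refine IsAlgClosed.of_exists_root _ fun p hp hirr => ?_
  have hl : p ∈ Polynomial.lifts (IsLocalRing.residue O) := by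
    rw [Polynomial.lifts_iff_coeff_lifts]
    intro n
    exact IsLocalRing.residue_surjective _
  obtain ⟨g, hg, hdeg, hmon⟩ := Polynomial.lifts_and_natDegree_eq_and_monic hl hp
  have hd : (g.map (algebraMap O Ω)).degree ≠ 0 := by
    rw [hmon.degree_map, Polynomial.degree_eq_natDegree hmon.ne_zero, hdeg]
    have := hirr.natDegree_pos
    exact_mod_cast this.ne'
  obtain ⟨a, ha⟩ := IsAlgClosed.exists_root _ hd
  have hint : IsIntegral O a := ⟨g, hmon, by
    rwa [Polynomial.IsRoot, Polynomial.eval_map] at ha⟩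
  obtain ⟨b, rfl⟩ := IsIntegrallyClosed.isIntegral_iff.1 hint
  have hb : g.eval b = 0 := by
    rw [Polynomial.IsRoot, Polynomial.eval_map, Polynomial.eval₂_at_apply] at ha
    exact (FaithfulSMul.algebraMap_injective O Ω) (by rw [ha, map_zero])
  refine ⟨IsLocalRing.residue O b, ?_⟩
  rw [← hg, Polynomial.eval_map, Polynomial.eval₂_at_apply, hb, map_zero]

/-- the characteristic of the residue field -/
theorem charP {ℓ : ℕ} (hℓ : ℓ.Prime) (hv : O.valuation (ℓ : Ω) < 1) :
    CharP (IsLocalRing.ResidueField O) ℓ := by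
  have h0 : ((ℓ : ℕ) : IsLocalRing.ResidueField O) = 0 := by
    have h1 := (rs_zero_iff O (a := (ℓ : Ω)) (by
      have := (ℓ : O).2
      exact_mod_cast this)).2 hv
    have h2 : rs O (ℓ : Ω) = ((ℓ : ℕ) : IsLocalRing.ResidueField O) := by
      have := rs_coe O (ℓ : O)
      rw [map_natCast] at this
      exact_mod_cast this
    rw [← h2, h1]
  rw [← CharP.ringChar_of_prime_eq_zero hℓ h0]
  infer_instance

end

section

variable {Ω : Type} [Field Ω] (O : ValuationSubring Ω) (ℓ : ℕ) [Fact ℓ.Prime]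
  [Algebra (ZMod ℓ) (IsLocalRing.ResidueField O)]

theorem map_comp : (algebraMap (ZMod ℓ) (IsLocalRing.ResidueField O)).comp
    (Int.castRingHom (ZMod ℓ)) = (IsLocalRing.residue O).comp (Int.castRingHom O) :=
  Subsingleton.elim _ _

/-- residues of algebraic numbers are algebraic -/
theorem res_algebraic [CharZero Ω] {a : Ω} (h : a ∈ O) (ha : IsAlgebraic ℤ a) :
    IsAlgebraic (ZMod ℓ) (rs O a) := by
  obtain ⟨P, hP, hPa⟩ := ha
  have hPa' := Polynomial.aeval_primPart_eq_zero hP hPa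
  refine ⟨P.primPart.map (Int.castRingHom (ZMod ℓ)), ?_, ?_⟩
  · intro h0
    have h1 : Polynomial.C (ℓ : ℤ) ∣ P.primPart := by
      rw [Polynomial.C_dvd_iff_dvd_coeff]
      intro i
      have h2 := congrArg (fun p => Polynomial.coeff p i) h0
      simp only [Polynomial.coeff_map, Polynomial.coeff_zero, eq_intCast] at h2
      exact (ZMod.intCast_zmod_eq_zero_iff_dvd _ _).1 h2
    have h3 := P.isPrimitive_primPart _ h1
    rw [Int.isUnit_iff] at h3
    have := (Fact.out : ℓ.Prime).two_le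
    omega
  · rw [Polynomial.aeval_def, Polynomial.eval₂_map, map_comp, rs_eq O h,
      ← Polynomial.hom_eval₂]
    have h4 : Polynomial.eval₂ (Int.castRingHom O) ⟨a, h⟩ P.primPart = 0 := by
      apply Subtype.ext
      have h5 := Polynomial.hom_eval₂ P.primPart (Int.castRingHom O) (algebraMap O Ω) ⟨a, h⟩
      have h6 : (algebraMap O Ω).comp (Int.castRingHom O) = algebraMap ℤ Ω :=
        Subsingleton.elim _ _
      rw [h6] at h5
      exact h5.trans hPa'
    rw [h4, map_zero]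

/-- algebraic residues are residues of algebraic numbers -/
theorem exists_lift [IsAlgClosed Ω] {c : IsLocalRing.ResidueField O}
    (hc : IsAlgebraic (ZMod ℓ) c) :
    ∃ a : Ω, a ∈ O ∧ IsAlgebraic ℤ a ∧ rs O a = c := by
  have hint : IsIntegral (ZMod ℓ) c := hc.isIntegral
  have hl : minpoly (ZMod ℓ) c ∈ Polynomial.lifts (Int.castRingHom (ZMod ℓ)) := by
    rw [Polynomial.lifts_iff_coeff_lifts]
    intro n
    exact ZMod.intCast_surjective _
  obtain ⟨f, hf, -, hmon⟩ := Polynomial.lifts_and_natDegree_eq_and_monic hl (minpoly.monic hint)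
  obtain ⟨c', hc'⟩ := IsLocalRing.residue_surjective c
  have hfc : O.valuation (Polynomial.eval (c' : Ω) (f.map (Int.castRingHom Ω))) < 1 := by
    have h1 : Polynomial.eval (c' : Ω) (f.map (Int.castRingHom Ω)) =
        ((Polynomial.eval₂ (Int.castRingHom O) c' f : O) : Ω) := by
      have h2 := Polynomial.hom_eval₂ f (Int.castRingHom O) (algebraMap O Ω) c'
      have h3 : (algebraMap O Ω).comp (Int.castRingHom O) = Int.castRingHom Ω :=
        Subsingleton.elim _ _
      rw [h3] at h2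
      rw [Polynomial.eval_map]
      exact h2.symm
    rw [h1, ← O.valuation_lt_one_iff, ← IsLocalRing.residue_eq_zero_iff, Polynomial.hom_eval₂,
      hc', ← map_comp O ℓ, ← Polynomial.eval₂_map, hf]
    exact minpoly.aeval _ _
  have hsp := IsAlgClosed.splits (f.map (Int.castRingHom Ω))
  rw [hsp.eval_eq_prod_roots_of_monic (hmon.map _)] at hfc
  have hex : ∃ a ∈ (f.map (Int.castRingHom Ω)).roots, O.valuation ((c' : Ω) - a) < 1 := by
    by_contra hcon
    push Not at hcon
    rw [map_multiset_prod, Multiset.map_map] at hfc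
    have : 1 ≤ (Multiset.map (O.valuation ∘ fun a => (c' : Ω) - a)
        (f.map (Int.castRingHom Ω)).roots).prod := by
      refine Multiset.one_le_prod_of_one_le fun x hx => ?_
      obtain ⟨a, ha, rfl⟩ := Multiset.mem_map.1 hx
      exact hcon a ha
    exact absurd hfc (not_lt.2 this)
  obtain ⟨a, ha, hav⟩ := hex
  have hroot : Polynomial.eval₂ (algebraMap ℤ Ω) a f = 0 := by
    have := Polynomial.isRoot_of_mem_roots ha
    rwa [Polynomial.IsRoot, Polynomial.eval_map] at this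
  have hintZ : IsIntegral ℤ a := ⟨f, hmon, hroot⟩
  have haO : a ∈ O := by
    have h1 : IsIntegral O a := hintZ.tower_top
    obtain ⟨b, rfl⟩ := IsIntegrallyClosed.isIntegral_iff.1 h1
    exact b.2
  refine ⟨a, haO, hintZ.isAlgebraic, ?_⟩
  have h2 : (c' - ⟨a, haO⟩ : O) ∈ IsLocalRing.maximalIdeal O :=
    (O.valuation_lt_one_iff _).2 hav
  rw [← IsLocalRing.residue_eq_zero_iff, map_sub, sub_eq_zero] at h2
  rw [rs_eq O haO, ← h2, hc']

/-- algebraic independence of the residues -/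
theorem algInd {α β : Ω} (hα : α ∈ O) (hβ : β ∈ O)
    (h : ∀ P : MvPolynomial (Fin 2) ℤ, (∃ t, ¬ (ℓ : ℤ) ∣ MvPolynomial.coeff t P) →
      O.valuation (MvPolynomial.aeval ![α, β] P) = 1) :
    AlgebraicIndependent (ZMod ℓ) ![rs O α, rs O β] := by
  rw [algebraicIndependent_iff]
  intro p hp
  by_contra hne
  obtain ⟨P, hP⟩ := MvPolynomial.map_surjective (σ := Fin 2) (Int.castRingHom (ZMod ℓ))
    ZMod.intCast_surjective p
  obtain ⟨t, ht⟩ := MvPolynomial.ne_zero_iff.1 hne
  have h1 : ¬ (ℓ : ℤ) ∣ MvPolynomial.coeff t P := by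
    intro hd
    rw [← hP, MvPolynomial.coeff_map] at ht
    exact ht ((ZMod.intCast_zmod_eq_zero_iff_dvd _ _).2 hd)
  have h2 := h P ⟨t, h1⟩
  have h3 : MvPolynomial.aeval ![α, β] P =
      ((MvPolynomial.eval₂ (Int.castRingHom O) ![⟨α, hα⟩, ⟨β, hβ⟩] P : O) : Ω) := by
    have h4 := MvPolynomial.eval₂_comp_left (algebraMap O Ω) (Int.castRingHom O)
      ![(⟨α, hα⟩ : O), ⟨β, hβ⟩] P
    have h5 : (algebraMap O Ω).comp (Int.castRingHom O) = algebraMap ℤ Ω :=
      Subsingleton.elim _ _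
    have h6 : (algebraMap O Ω) ∘ ![(⟨α, hα⟩ : O), ⟨β, hβ⟩] = ![α, β] := by
      funext i
      fin_cases i <;> rfl
    rw [h5, h6] at h4
    exact h4.symm
  have h7 : IsLocalRing.residue O (MvPolynomial.eval₂ (Int.castRingHom O)
      ![⟨α, hα⟩, ⟨β, hβ⟩] P) = 0 := by
    rw [MvPolynomial.eval₂_comp_left, ← map_comp O ℓ]
    have h6 : (IsLocalRing.residue O) ∘ ![(⟨α, hα⟩ : O), ⟨β, hβ⟩] = ![rs O α, rs O β] := by
      funext i
      fin_cases i
      · exact (rs_eq O hα).symm
      · exact (rs_eq O hβ).symm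
    rw [h6, ← MvPolynomial.eval₂_map, hP]
    exact hp
  rw [IsLocalRing.residue_eq_zero_iff, O.valuation_lt_one_iff, ← h3, h2] at h7
  exact lt_irrefl _ h7

end

/-- values are archimedean -/
theorem arch {Ω Γ : Type} [Field Ω] [LinearOrderedCommGroupWithZero Γ] (v : Valuation Ω Γ)
    {l : Ω} (hl : v l < 1) (hl0 : l ≠ 0)
    (h : ∀ y : Ω, y ≠ 0 → ∃ (m : ℕ) (b : ℤ), 0 < m ∧ v y ^ m = v l ^ b) {y : Ω} (hy : v y < 1)
    {b : Ω} (hb : b ≠ 0) : ∃ n : ℕ, v y ^ n < v b := by
  have hb0 : v b ≠ 0 := (v.ne_zero_iff).2 hb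
  by_cases hy0 : y = 0
  · refine ⟨1, ?_⟩
    rw [hy0, v.map_zero, pow_one]
    exact zero_lt_iff.2 hb0
  have hvl0 : v l ≠ 0 := (v.ne_zero_iff).2 hl0
  have hvl : 0 < v l := zero_lt_iff.2 hvl0
  obtain ⟨m, c, hm, hc⟩ := h y hy0
  obtain ⟨m', c', hm', hc'⟩ := h b hb
  have hmono : ∀ i j : ℤ, v l ^ i < v l ^ j ↔ j < i := fun i j =>
    zpow_lt_zpow_iff_right_of_lt_one₀ hvl hl
  have hcpos : 0 < c := by
    have h1 : v y ^ m < 1 := pow_lt_one₀ zero_le hy hm.ne'
    rw [hc, ← zpow_zero (v l), hmono] at h1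
    exact h1
  refine ⟨c'.natAbs * m + 1, ?_⟩
  have h2 : (v y ^ (c'.natAbs * m + 1)) ^ (m * m') < v b ^ (m * m') := by
    have e1 : (v y ^ (c'.natAbs * m + 1)) ^ (m * m') = v l ^ (c * ((c'.natAbs * m + 1) * m')) := by
      calc (v y ^ (c'.natAbs * m + 1)) ^ (m * m') = (v y ^ m) ^ ((c'.natAbs * m + 1) * m') := by
            rw [← pow_mul, ← pow_mul]
            congr 1
            ring
        _ = _ := by
            rw [hc, ← zpow_natCast, ← zpow_mul]
            push_cast
            rfl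
    have e2 : v b ^ (m * m') = v l ^ (c' * m) := by
      calc v b ^ (m * m') = (v b ^ m') ^ m := by
            rw [← pow_mul]
            congr 1
            ring
        _ = _ := by
            rw [hc', ← zpow_natCast, ← zpow_mul]
    rw [e1, e2, hmono]
    have h3 : c' ≤ (c'.natAbs : ℤ) := Int.le_natAbs
    have h4 : (1 : ℤ) ≤ m := by exact_mod_cast hm
    have h5 : (1 : ℤ) ≤ m' := by exact_mod_cast hm'
    have h6 : (0 : ℤ) ≤ c'.natAbs := Int.natCast_nonneg _
    have h7 : c' * m ≤ (c'.natAbs : ℤ) * m := mul_le_mul_of_nonneg_right h3 (by omega)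
    have h8 : (c'.natAbs : ℤ) * m + 1 ≤ ((c'.natAbs : ℤ) * m + 1) * m' := by
      nlinarith [mul_nonneg h6 (by omega : (0 : ℤ) ≤ m)]
    have h9 : ((c'.natAbs : ℤ) * m + 1) * m' ≤ c * (((c'.natAbs : ℤ) * m + 1) * m') := by
      nlinarith [mul_nonneg h6 (by omega : (0 : ℤ) ≤ m)]
    linarith
  exact lt_of_pow_lt_pow_left₀ _ zero_le h2

/-- values of constants -/
theorem exists_val {E Ω Γ : Type} [Field E] [IsAlgClosed E] [Field Ω] [Algebra E Ω]
    [LinearOrderedCommGroupWithZero Γ] (v : Valuation Ω Γ) {ℓ : ℕ} (hl0 : (ℓ : Ω) ≠ 0)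
    (h : ∀ y : Ω, y ≠ 0 → ∃ (m : ℕ) (b : ℤ), 0 < m ∧ v y ^ m = v (ℓ : Ω) ^ b) {y : Ω}
    (hy : y ≠ 0) : ∃ s : E, s ≠ 0 ∧ v (algebraMap E Ω s) = v y := by
  obtain ⟨m, b, hm, hmb⟩ := h y hy
  obtain ⟨s, hs⟩ := IsAlgClosed.exists_pow_nat_eq ((ℓ : E) ^ b) hm
  have hlE : (ℓ : E) ≠ 0 := by
    intro h0
    apply hl0
    rw [← map_natCast (algebraMap E Ω), h0, map_zero]
  have hs0 : s ≠ 0 := by
    rintro rfl
    rw [zero_pow hm.ne'] at hs
    exact zpow_ne_zero b hlE hs.symm
  refine ⟨s, hs0, ?_⟩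
  have h1 : v (algebraMap E Ω s) ^ m = v y ^ m := by
    rw [← v.map_pow, ← map_pow, hs, map_zpow₀, map_natCast, map_zpow₀, hmb]
  exact (pow_left_inj₀ zero_le zero_le hm.ne').1 h1

end PlcaAux

open PlcaAux

/-- **PLCA** -/
theorem plca : PlcaStatement := by
  intro K _ _ Ω _ _ _ O ℓ hℓ hv hval α β hα hβ hind
  have hfact : Fact ℓ.Prime := ⟨hℓ⟩
  have hchar : CharP (IsLocalRing.ResidueField O) ℓ := PlcaAux.charP O hℓ hv
  have hch0 : CharZero Ω := charZero_of_injective_algebraMap (algebraMap K Ω).injective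
  have hl0 : (ℓ : Ω) ≠ 0 := by exact_mod_cast hℓ.ne_zero
  let _ : Algebra (ZMod ℓ) (IsLocalRing.ResidueField O) := ZMod.algebra _ ℓ
  have hκ : IsAlgClosed (IsLocalRing.ResidueField O) := PlcaAux.isAlgClosed O
  have hk : IsAlgClosed (algebraicClosure (ZMod ℓ) (IsLocalRing.ResidueField O)) :=
    IsAlgClosure.isAlgClosed (ZMod ℓ)
  have hE : IsAlgClosed (algebraicClosure K Ω) := IsAlgClosure.isAlgClosed K
  have halg : ∀ a : Ω, IsAlgebraic K a ↔ IsAlgebraic ℤ a := by
    intro a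
    constructor
    · intro h
      have h1 : IsAlgebraic ℚ a := h.restrictScalars ℚ
      exact (IsFractionRing.isAlgebraic_iff ℤ ℚ Ω).2 h1
    · intro h
      exact h.extendScalars (algebraMap ℤ K).injective_int
  refine ⟨algebraicClosure (ZMod ℓ) (IsLocalRing.ResidueField O), IsLocalRing.ResidueField O,
    inferInstance, inferInstance, inferInstance,
    { v := O.valuation
      res := rs O
      res_add := ?_
      res_mul := ?_
      res_one := ?_
      res_eq_zero := ?_
      val := ?_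
      res_const := ?_
      const_res := ?_
      arch := ?_ }, hk, hκ, ?_, rfl, ?_⟩
  · intro a b ha hb
    rw [O.valuation_le_one_iff] at ha hb
    rw [rs_eq O ha, rs_eq O hb, rs_eq O (O.add_mem _ _ ha hb), ← map_add]
    rfl
  · intro a b ha hb
    rw [O.valuation_le_one_iff] at ha hb
    rw [rs_eq O ha, rs_eq O hb, rs_eq O (O.mul_mem _ _ ha hb), ← map_mul]
    rfl
  · rw [rs_eq O O.one_mem]
    exact map_one _
  · intro a ha
    rw [O.valuation_le_one_iff] at ha
    exact rs_zero_iff O ha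
  · intro y hy
    exact exists_val O.valuation hl0 hval hy
  · intro a ha
    rw [O.valuation_le_one_iff] at ha
    have h1 : IsAlgebraic K (algebraMap (algebraicClosure K Ω) Ω a) :=
      mem_algebraicClosure_iff.1 a.2
    exact ⟨⟨_, mem_algebraicClosure_iff.2 (res_algebraic O ℓ ha ((halg _).1 h1))⟩, rfl⟩
  · intro c
    obtain ⟨a, ha, haZ, hac⟩ := exists_lift O ℓ (mem_algebraicClosure_iff.1 c.2)
    refine ⟨⟨a, mem_algebraicClosure_iff.2 ((halg a).2 haZ)⟩, ?_, hac⟩
    exact (O.valuation_le_one_iff a).2 ha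
  · intro γ hγ b hb
    obtain ⟨y, rfl⟩ := O.valuation_surjective γ
    exact PlcaAux.arch O.valuation hv hl0 hval hγ hb
  · exact charP_of_injective_algebraMap (algebraMap (ZMod ℓ) _).injective ℓ
  · exact (algInd O ℓ hα hβ hind).algebraicClosure

end Pool.DynLehmer.FN
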