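import Mathlib
import Pool.Agent.Lib.MP_2194ec_nt.FN.Iface

set_option autoImplicit false

namespace Pool.DynLehmer.FN
open MvPolynomial NumberField Pool.DynLehmer Pool.DynLehmer.SB
open scoped Classical

theorem red1_comp {R S : Type} [CommSemiring R] [CommSemiring S] {ι : Type} (f : R →+* S) (T : ℕ)
    (G : MvPolynomial ι R) :
    MvPolynomial.map f (homogeneousComponent T G) = homogeneousComponent T (MvPolynomial.map f G) := by
  ext t
  rw [coeff_map, coeff_homogeneousComponent, coeff_homogeneousComponent, coeff_map]
  split_ifs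
  · rfl
  · exact map_zero f

theorem red1_lift (K : Type) [Field K] (A : ValuationSubring K) (ι : Type)
    (Q : Ideal (MvPolynomial ι K)) (hQ : ∀ G ∈ Q, ∀ d, homogeneousComponent d G ∈ Q) (T : ℕ)
    (P : MvPolynomial ι (IsLocalRing.ResidueField A)) (hP : P.IsHomogeneous T)
    (hPQ : P ∈ Ideal.map (MvPolynomial.map (IsLocalRing.residue A))
            (Q.comap (MvPolynomial.map A.subtype))) :
    ∃ G : MvPolynomial ι A, MvPolynomial.map (IsLocalRing.residue A) G = P ∧
      MvPolynomial.map A.subtype G ∈ Q ∧ (MvPolynomial.map A.subtype G).IsHomogeneous T := by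
  have hsurj : Function.Surjective (MvPolynomial.map (σ := ι) (IsLocalRing.residue A)) :=
    map_surjective _ IsLocalRing.residue_surjective
  obtain ⟨G, hG, rfl⟩ := (Ideal.mem_map_iff_of_surjective _ hsurj).1 hPQ
  rw [Ideal.mem_comap] at hG
  refine ⟨homogeneousComponent T G, ?_, ?_, ?_⟩
  · rw [red1_comp, homogeneousComponent_of_mem hP, if_pos rfl]
  · rw [red1_comp]; exact hQ _ hG T
  · rw [red1_comp]; exact homogeneousComponent_isHomogeneous T _

theorem red1 : Red1Statement := by
  intro K _ A ι _ Q hQ T
  have hf1 : Module.Finite (IsLocalRing.ResidueField A)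
      (homogeneousSubmodule ι (IsLocalRing.ResidueField A) T) :=
    Module.Finite.iff_fg.2 (homogeneousSubmodule_fg ι _ T)
  have hf2 : Module.Finite K (homogeneousSubmodule ι K T) :=
    Module.Finite.iff_fg.2 (homogeneousSubmodule_fg ι K T)
  set V := homogeneousSubmodule ι (IsLocalRing.ResidueField A) T ⊓
          (Ideal.map (MvPolynomial.map (IsLocalRing.residue A))
            (Q.comap (MvPolynomial.map A.subtype))).restrictScalars
              (IsLocalRing.ResidueField A) with hV
  set W := homogeneousSubmodule ι K T ⊓ Q.restrictScalars K with hW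
  have hVf : Module.Finite (IsLocalRing.ResidueField A) V :=
    Submodule.finiteDimensional_of_le (inf_le_left : V ≤ _)
  have hWf : Module.Finite K W := Submodule.finiteDimensional_of_le (inf_le_left : W ≤ _)
  let b := Module.finBasis (IsLocalRing.ResidueField A) V
  have hl : ∀ i, ∃ G : MvPolynomial ι A,
      MvPolynomial.map (IsLocalRing.residue A) G = ((b i : V) : MvPolynomial ι _) ∧
      MvPolynomial.map A.subtype G ∈ Q ∧ (MvPolynomial.map A.subtype G).IsHomogeneous T :=
    fun i => red1_lift K A ι Q hQ T _ (b i).2.1 (b i).2.2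
  choose G hG1 hG2 hG3 using hl
  let g : Fin (Module.finrank (IsLocalRing.ResidueField A) V) → W :=
    fun i => ⟨MvPolynomial.map A.subtype (G i), hG3 i, hG2 i⟩
  have hli : LinearIndependent K g := by
    rw [Fintype.linearIndependent_iff]
    intro c hc
    by_contra hne
    push Not at hne
    obtain ⟨i₁, hi₁⟩ := hne
    have : Nonempty (Fin (Module.finrank (IsLocalRing.ResidueField A) V)) := ⟨i₁⟩
    obtain ⟨i₀, hi₀⟩ := Finite.exists_max fun i => A.valuation (c i)
    have hci₀ : c i₀ ≠ 0 := by
      intro h0
      have := hi₀ i₁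
      rw [h0, map_zero, le_zero_iff, map_eq_zero] at this
      exact hi₁ this
    have hmem : ∀ i, c i / c i₀ ∈ A := by
      intro i
      rw [← A.valuation_le_one_iff, map_div₀]
      exact div_le_one_of_le₀ (hi₀ i) zero_le
    let a : Fin (Module.finrank (IsLocalRing.ResidueField A) V) → A :=
      fun i => ⟨c i / c i₀, hmem i⟩
    have h1 : ∑ i, c i • MvPolynomial.map A.subtype (G i) = 0 := by
      have := congrArg (fun w : W => (w : MvPolynomial ι K)) hc
      simpa [g] using this
    have h2 : MvPolynomial.map A.subtype (∑ i, C (a i) * G i) = 0 := by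
      rw [map_sum]
      have : ∀ i, MvPolynomial.map A.subtype (C (a i) * G i) =
          (c i₀)⁻¹ • (c i • MvPolynomial.map A.subtype (G i)) := by
        intro i
        rw [map_mul, map_C, smul_smul, MvPolynomial.smul_eq_C_mul]
        congr 2
        simp only [a, ValuationSubring.subtype_apply]
        rw [div_eq_mul_inv, mul_comm]
      simp_rw [this]
      rw [← Finset.smul_sum, h1, smul_zero]
    have h3 : ∑ i, C (a i) * G i = 0 :=
      map_injective A.subtype A.subtype_injective (by rw [h2, map_zero])
    have h4 : ∑ i, (IsLocalRing.residue A (a i)) • b i = 0 := by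
      apply Subtype.ext
      rw [Submodule.coe_sum]
      have h5 := congrArg (MvPolynomial.map (IsLocalRing.residue A)) h3
      rw [map_sum, map_zero] at h5
      rw [Submodule.coe_zero, ← h5]
      refine Finset.sum_congr rfl fun i _ => ?_
      rw [map_mul, map_C, hG1 i, Submodule.coe_smul, MvPolynomial.smul_eq_C_mul]
    have h6 := (Fintype.linearIndependent_iff.1 b.linearIndependent) _ h4 i₀
    have h7 : a i₀ = 1 := by
      apply Subtype.ext
      simp only [a]
      rw [div_self hci₀]; rfl
    rw [h7, map_one] at h6
    exact one_ne_zero h6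
  have := hli.fintype_card_le_finrank
  rwa [Fintype.card_fin] at this

end Pool.DynLehmer.FN
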