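import Pool.Agent.Lib.MP_2194ec_nt.FN.ValAux

set_option autoImplicit false

/-!
# REDP, REDR (helper62)
-/

namespace Pool.DynLehmer.FN
open MvPolynomial Pool.DynLehmer Pool.DynLehmer.SB ValAux

/-- **REDP** -/
theorem redp : RedpStatement := by
  intro E Ω k κ Γ _ _ _ _ _ _ _ 𝔭 y P hy hP h0
  classical
  have hne : P.support.Nonempty := by
    rw [Finset.nonempty_iff_ne_empty, ne_eq, support_eq_empty]
    exact hP
  obtain ⟨t0, ht0, hmax⟩ := P.support.exists_max_image
    (fun t => 𝔭.v (algebraMap E Ω (coeff t P))) hne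
  have hc0 : coeff t0 P ≠ 0 := mem_support_iff.1 ht0
  have hv0 : 𝔭.v (algebraMap E Ω (coeff t0 P)) ≠ 0 := by
    rw [Valuation.ne_zero_iff, ne_eq, map_eq_zero]
    exact hc0
  have hle : ∀ t, 𝔭.v (algebraMap E Ω (coeff t P / coeff t0 P)) ≤ 1 := by
    intro t
    rw [map_div₀, map_div₀, div_le_iff₀ (zero_lt_iff.2 hv0), one_mul]
    by_cases ht : t ∈ P.support
    · exact hmax t ht
    · rw [notMem_support_iff.1 ht, map_zero, Valuation.map_zero]
      exact zero_le
  choose r hr using fun t => 𝔭.res_const (coeff t P / coeff t0 P) (hle t)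
  have hr0 : r t0 = 1 := by
    apply (algebraMap k κ).injective
    rw [hr t0, div_self hc0, map_one, map_one, 𝔭.res_one]
  refine ⟨∑ t ∈ P.support, monomial t (r t), ?_, ?_, ?_⟩
  · intro h
    have h1 := congrArg (coeff t0) h
    rw [coeff_sum, coeff_zero] at h1
    simp only [coeff_monomial] at h1
    rw [Finset.sum_ite_eq' P.support t0 r, if_pos ht0, hr0] at h1
    exact one_ne_zero h1
  · intro t ht
    rw [mem_support_iff, coeff_sum] at ht
    by_contra hn
    apply ht
    refine Finset.sum_eq_zero fun u hu => ?_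
    rw [coeff_monomial, if_neg]
    rintro rfl
    exact hn hu
  · have h1 : ∑ t ∈ P.support, algebraMap E Ω (coeff t P / coeff t0 P) * ∏ i, y i ^ t i = 0 := by
      have h2 : aeval y P = ∑ t ∈ P.support, algebraMap E Ω (coeff t P) * ∏ i, y i ^ t i := by
        rw [aeval_def, eval₂_eq']
      rw [h0] at h2
      have h3 : ∀ t ∈ P.support, algebraMap E Ω (coeff t P / coeff t0 P) * ∏ i, y i ^ t i =
          (algebraMap E Ω (coeff t0 P))⁻¹ *
            (algebraMap E Ω (coeff t P) * ∏ i, y i ^ t i) := by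
        intro t _
        rw [map_div₀]
        ring
      rw [Finset.sum_congr rfl h3, ← Finset.mul_sum, ← h2, mul_zero]
    have h4 := res_sum 𝔭 P.support
      (f := fun t => algebraMap E Ω (coeff t P / coeff t0 P) * ∏ i, y i ^ t i) fun t _ => by
        rw [Valuation.map_mul]
        exact mul_le_one' (hle t) (prod_le_one 𝔭.v _ fun i _ => pow_le_one 𝔭.v (hy i) _)
    rw [h1, IterAux.res_zero] at h4
    rw [map_sum, h4]
    refine Finset.sum_congr rfl fun t _ => ?_
    rw [aeval_monomial, 𝔭.res_mul _ _ (hle t)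
      (prod_le_one 𝔭.v _ fun i _ => pow_le_one 𝔭.v (hy i) _), hr t,
      res_prod 𝔭 _ fun i _ => pow_le_one 𝔭.v (hy i) _]
    congr 1
    rw [Finsupp.prod_fintype _ _ (fun i => pow_zero _)]
    exact Finset.prod_congr rfl fun i _ => (res_pow 𝔭 (hy i) _).symm

namespace RedrAux

variable {E : Type} [Field E]

/-- the substitution `(X₀, a + s X₁)` -/
noncomputable def sub (a s : E) : MvPolynomial (Fin 2) E →ₐ[E] MvPolynomial (Fin 2) E :=
  aeval ![X 0, C a + C s * X 1]

theorem sub_comp {a s : E} (hs : s ≠ 0) (P : MvPolynomial (Fin 2) E) :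
    sub (-(a / s)) s⁻¹ (sub a s P) = P := by
  have h : (sub (-(a / s)) s⁻¹).comp (sub a s) = AlgHom.id E _ := by
    refine algHom_ext fun i => ?_
    fin_cases i
    · simp [sub]
    · have hss : (C s : MvPolynomial (Fin 2) E) * C s⁻¹ = 1 := by
        rw [← C_mul, mul_inv_cancel₀ hs, C_1]
      have hsa : (C s : MvPolynomial (Fin 2) E) * C (-(a / s)) = -C a := by
        rw [← C_mul, ← C_neg]
        congr 1
        field_simp
      simp only [sub, AlgHom.comp_apply, aeval_X, AlgHom.id_apply, Fin.mk_one,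
        Matrix.cons_val_one, Matrix.cons_val_fin_one, map_add, map_mul, Fin.isValue]
      have hC : ∀ (f : MvPolynomial (Fin 2) E →ₐ[E] MvPolynomial (Fin 2) E) (c : E),
        f (C c) = C c := fun f c => f.commutes c
      rw [hC, hC, mul_add, ← mul_assoc, hss, hsa]
      ring
  have := congrArg (fun f => f P) h
  exact this

theorem sub_deg (a s : E) (P : MvPolynomial (Fin 2) E) :
    (sub a s P).totalDegree ≤ P.totalDegree := by
  unfold sub
  rw [aeval_def, eval₂_eq']
  refine totalDegree_finsetSum_le fun t ht => ?_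
  rw [Fin.prod_univ_two]
  have h1 : (algebraMap E (MvPolynomial (Fin 2) E) (coeff t P)).totalDegree = 0 :=
    totalDegree_C _
  have h2 : ((C a + C s * X 1 : MvPolynomial (Fin 2) E)).totalDegree ≤ 1 := by
    refine (totalDegree_add _ _).trans (max_le ?_ ?_)
    · rw [totalDegree_C]
      exact Nat.zero_le _
    · refine (totalDegree_mul _ _).trans ?_
      rw [totalDegree_C, zero_add, totalDegree_X]
  have h3 : ((X 0 : MvPolynomial (Fin 2) E) ^ t 0).totalDegree ≤ t 0 := by
    refine (totalDegree_pow _ _).trans ?_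
    rw [totalDegree_X, mul_one]
  have h4 : ((C a + C s * X 1 : MvPolynomial (Fin 2) E) ^ t 1).totalDegree ≤ t 1 := by
    refine (totalDegree_pow _ _).trans ?_
    calc t 1 * _ ≤ t 1 * 1 := Nat.mul_le_mul_left _ h2
      _ = t 1 := mul_one _
  have h5 : t 0 + t 1 ≤ P.totalDegree := by
    have := le_totalDegree ht
    rw [Finsupp.sum_fintype _ _ (fun _ => rfl), Fin.sum_univ_two] at this
    exact this
  refine (totalDegree_mul _ _).trans ?_
  rw [h1, zero_add]
  refine (totalDegree_mul _ _).trans ?_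
  exact (add_le_add h3 h4).trans h5

end RedrAux

open RedrAux in
/-- **REDR** -/
theorem redr (h : RedpStatement) : RedrStatement := by
  intro E Ω k κ Γ _ _ _ _ _ _ _ 𝔭 D u G a s hu hG hs hrel
  obtain ⟨P, hP, hD, h0⟩ := hrel
  have hne : sub a s P ≠ 0 := by
    intro h1
    have := sub_comp (a := a) hs P
    rw [h1, map_zero] at this
    exact hP this.symm
  have hev : aeval ![u, G] (sub a s P) = 0 := by
    have h1 : (aeval ![u, G]).comp (sub a s) =
        aeval ![u, algebraMap E Ω a + algebraMap E Ω s * G] := by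
      refine algHom_ext fun i => ?_
      fin_cases i <;> simp [sub]
    have h2 : aeval ![u, G] (sub a s P) = ((aeval ![u, G]).comp (sub a s)) P := rfl
    rw [h2, h1]
    exact h0
  have hle : ∀ i, 𝔭.v (![u, G] i) ≤ 1 := by
    intro i
    fin_cases i
    · exact hu
    · exact hG
  obtain ⟨R, hR, hsub, hR0⟩ := h E Ω k κ Γ 𝔭 ![u, G] (sub a s P) hle hne hev
  refine ⟨R, hR, ?_, ?_⟩
  · have h1 : R.totalDegree ≤ (sub a s P).totalDegree := by
      unfold totalDegree
      exact Finset.sup_mono hsub
    exact h1.trans ((sub_deg a s P).trans hD)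
  · have h1 : (fun i => 𝔭.res (![u, G] i)) = ![𝔭.res u, 𝔭.res G] := by
      funext i
      fin_cases i <;> rfl
    rw [← h1]
    exact hR0

end Pool.DynLehmer.FN
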