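import Pool.Agent.Lib.MP_2194ec_nt.FN.ValAux

set_option autoImplicit false

/-!
# RESQ, SMALL, GOODR (helper62)
-/

namespace Pool.DynLehmer.FN
open MvPolynomial Pool.DynLehmer Pool.DynLehmer.SB ValAux

/-- **RESQ** -/
theorem resq : ResqStatement := by
  intro E Ω k κ Γ _ _ _ _ _ _ _ 𝔭 n q ℓ F hn hq hl hF y hy i
  induction i with
  | zero => exact ⟨hy, fun j => by simp⟩
  | succ i ih =>
    obtain ⟨h1, h2⟩ := ih
    have key : ∀ j, 𝔭.v ((gAct F Ω)^[i + 1] y j) ≤ 1 ∧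
        𝔭.res ((gAct F Ω)^[i + 1] y j) = 𝔭.res ((gAct F Ω)^[i] y j) ^ q := by
      intro j
      rw [Function.iterate_succ_apply']
      have h3 := lt_of_le_of_lt (Fam.sub_le' hF hn hl.le j h1) hl
      have h4 := res_congr 𝔭 (pow_le_one 𝔭.v (h1 j) q) h3
      rw [res_pow 𝔭 (h1 j)] at h4
      exact h4
    refine ⟨fun j => (key j).1, fun j => ?_⟩
    rw [(key j).2, h2 j, ← pow_mul, pow_succ]

/-- **SMALL** -/
theorem small : SmallStatement := by
  intro E Ω k κ Γ _ _ _ _ _ _ _ 𝔭 n q ℓ F hn hq hl0 hl hF r hr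
  set w := 𝔭.v (ℓ : Ω) with hw
  set V := w ^ (2 * n ^ 2) with hV
  have hn2 : 1 ≤ n ^ 2 := Nat.one_le_pow _ _ hn
  have hVlt : V < 1 := by
    have h1 := pow_le_pow_right_of_le_one' hl.le (n := 1) (m := 2 * n ^ 2) (by omega)
    rw [pow_one] at h1
    exact lt_of_le_of_lt h1 hl
  obtain ⟨r', hr'⟩ : ∃ r', r' = max r V := ⟨_, rfl⟩
  have hr'1 : r' < 1 := by
    rw [hr']
    exact max_lt hr hVlt
  obtain ⟨θ, hθ⟩ : ∃ θ, θ = max (r' ^ (q - 1)) w := ⟨_, rfl⟩
  have hθ1 : θ < 1 := by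
    rw [hθ]
    refine max_lt ?_ hl
    have h1 := pow_le_pow_right_of_le_one' hr'1.le (n := 1) (m := q - 1) (by omega)
    rw [pow_one] at h1
    exact lt_of_le_of_lt h1 hr'1
  have hb : (ℓ : Ω) ^ (2 * n ^ 2) ≠ 0 := pow_ne_zero _ hl0
  obtain ⟨i₀, hi₀⟩ := 𝔭.arch θ hθ1 _ hb
  rw [Valuation.map_pow] at hi₀
  refine ⟨i₀, fun y hy j hj i hi => ?_⟩
  have hy' : ∀ i j, 𝔭.v ((gAct F Ω)^[i] y j) ≤ 1 := fun i =>
    (resq E Ω k κ Γ 𝔭 n q ℓ F hn hq hl hF y hy i).1
  have claim : ∀ i, 𝔭.v ((gAct F Ω)^[i] y j) ≤ max (θ ^ i * r') V := by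
    intro i
    induction i with
    | zero =>
      rw [pow_zero, one_mul]
      refine le_max_of_le_left ?_
      rw [hr']
      exact le_max_of_le_left hj
    | succ i ih =>
      rw [Function.iterate_succ_apply']
      set z := (gAct F Ω)^[i] y with hz
      have e : gAct F Ω z j = (gAct F Ω z j - z j ^ q) + z j ^ q := by ring
      have hsub := Fam.sub_le hF hl.le j (hy' i)
      rw [← hz] at hsub
      have hwn : w ^ (n ^ 2) ≤ w := by
        have := pow_le_pow_right_of_le_one' hl.le (n := 1) (m := n ^ 2) hn2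
        rwa [pow_one] at this
      have hq1 : z j ^ q = z j ^ (q - 1) * z j := by
        rw [← pow_succ]
        congr 1
        omega
      have hθi : θ ^ i ≤ 1 := pow_le_one' hθ1.le i
      rcases le_max_iff.1 ih with h | h
      · have hzr : 𝔭.v (z j) ≤ r' := h.trans (mul_le_of_le_one_left' hθi)
        have a1 : w ^ (n ^ 2) * 𝔭.v (z j) ≤ θ ^ (i + 1) * r' := by
          rw [pow_succ' θ i]
          have : w ^ (n ^ 2) * 𝔭.v (z j) ≤ θ * (θ ^ i * r') :=
            mul_le_mul' (hwn.trans (by rw [hθ]; exact le_max_right _ _)) h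
          rwa [← mul_assoc] at this
        have a2 : 𝔭.v (z j ^ q) ≤ θ ^ (i + 1) * r' := by
          rw [hq1, Valuation.map_mul, Valuation.map_pow, pow_succ' θ i]
          have : 𝔭.v (z j) ^ (q - 1) * 𝔭.v (z j) ≤ θ * (θ ^ i * r') := by
            refine mul_le_mul' ?_ h
            rw [hθ]
            exact (pow_le_pow_left' hzr _).trans (le_max_left _ _)
          rwa [← mul_assoc] at this
        rw [e]
        refine 𝔭.v.map_add_le (hsub.trans (max_le_max a1 le_rfl)) (le_max_of_le_left a2)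
      · rw [e]
        refine le_max_of_le_right (𝔭.v.map_add_le (hsub.trans (max_le ?_ le_rfl)) ?_)
        · exact (mul_le_of_le_one_left' (pow_le_one' hl.le _)).trans h
        · rw [hq1, Valuation.map_mul]
          exact (mul_le_of_le_one_left' (pow_le_one 𝔭.v (hy' i j) _)).trans h
  refine (claim i).trans (max_le ?_ le_rfl)
  refine (mul_le_of_le_one_right' hr'1.le).trans ?_
  exact (pow_le_pow_right_of_le_one' hθ1.le hi).trans hi₀.le

namespace GoodrAux

variable {E Ω Γ : Type} [Field E] [Field Ω] [Algebra E Ω] [LinearOrderedCommGroupWithZero Γ]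
  {v : Valuation Ω Γ} {n q ℓ : ℕ} {F : Fin n → MvPolynomial (Fin n) E}

/-- the perturbation for large vectors -/
theorem big (hF : Fam v n q ℓ F) (hn : 1 ≤ n) (hl : v (ℓ : Ω) ≤ 1) {c : Ω} (hc : c ≠ 0)
    {y : Fin n → Ω} (hy : ∀ j, v (y j) ≤ v c) (j : Fin n) :
    v (gAct F Ω y j - y j ^ q) ≤ v (ℓ : Ω) * v c ^ q := by
  obtain ⟨z, hz⟩ : ∃ z : Fin n → Ω, z = c⁻¹ • y := ⟨_, rfl⟩
  have hyz : y = c • z := by
    rw [hz, smul_smul, mul_inv_cancel₀ hc, one_smul]
  have hvc : v c ≠ 0 := (Valuation.ne_zero_iff _).2 hc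
  have hzv : ∀ j, v (z j) ≤ 1 := by
    intro j
    have e : z j = c⁻¹ * y j := by rw [hz]; rfl
    rw [e, v.map_mul, map_inv₀]
    have := mul_le_mul_right (hy j) (v c)⁻¹
    rwa [inv_mul_cancel₀ hvc] at this
  have h1 : gAct F Ω y j = c ^ q * gAct F Ω z j := by
    rw [hyz, gAct_smul F hF.hom]
    rfl
  have h2 : y j ^ q = c ^ q * z j ^ q := by
    rw [hyz, Pi.smul_apply, smul_eq_mul, mul_pow]
  rw [h1, h2, ← mul_sub, v.map_mul, v.map_pow, mul_comm]
  exact mul_le_mul' (Fam.sub_le' hF hn hl j hzv) le_rfl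

end GoodrAux

open GoodrAux in
/-- **GOODR** -/
theorem goodr (hresq : ResqStatement) : GoodrStatement := by
  intro E Ω k κ Γ _ _ _ _ _ _ _ 𝔭 n q ℓ F hq hl hF a y y' i hy hya hya' hrel
  have hn : 1 ≤ n := by
    have := a.pos
    omega
  have hy'1 : ∀ j, 𝔭.v (y' j) ≤ 1 := by
    by_contra hcon
    have hne : (Finset.univ : Finset (Fin n)).Nonempty := ⟨a, Finset.mem_univ a⟩
    obtain ⟨b, -, hb⟩ := Finset.univ.exists_max_image (fun j => 𝔭.v (y' j)) hne
    have hb1 : 1 < 𝔭.v (y' b) := by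
      obtain ⟨j, hj⟩ := not_forall.1 hcon
      exact lt_of_lt_of_le (not_le.1 hj) (hb j (Finset.mem_univ j))
    have hvb0 : 𝔭.v (y' b) ≠ 0 := (lt_trans zero_lt_one hb1).ne'
    have hb0 : y' b ≠ 0 := (Valuation.ne_zero_iff _).1 hvb0
    -- the orbit of `y'`
    have claim : ∀ i, (∀ j, 𝔭.v ((gAct F Ω)^[i] y' j) ≤ 𝔭.v (y' b) ^ (q ^ i)) ∧
        𝔭.v ((gAct F Ω)^[i] y' a) < 𝔭.v (y' b) ^ (q ^ i) ∧
        𝔭.v ((gAct F Ω)^[i] y' b) = 𝔭.v (y' b) ^ (q ^ i) := by
      intro i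
      induction i with
      | zero =>
        simp only [pow_zero, pow_one, Function.iterate_zero, id]
        refine ⟨fun j => hb j (Finset.mem_univ j), ?_, trivial⟩
        rw [hya', Valuation.map_one]
        exact hb1
      | succ i ih =>
        obtain ⟨h1, h2, h3⟩ := ih
        rw [Function.iterate_succ_apply']
        set z := (gAct F Ω)^[i] y' with hz
        have hc : (y' b) ^ (q ^ i) ≠ 0 := pow_ne_zero _ hb0
        have hcv : 𝔭.v ((y' b) ^ (q ^ i)) = 𝔭.v (y' b) ^ (q ^ i) := Valuation.map_pow _ _ _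
        have hbig := fun j => big hF hn hl.le hc (y := z) (by rw [hcv]; exact h1) j
        rw [hcv, ← pow_mul, ← pow_succ] at hbig
        have hpos : 0 < 𝔭.v (y' b) ^ (q ^ (i + 1)) := zero_lt_iff.2 (pow_ne_zero _ hvb0)
        have hlt : ∀ j, 𝔭.v (gAct F Ω z j - z j ^ q) < 𝔭.v (y' b) ^ (q ^ (i + 1)) := by
          intro j
          refine lt_of_le_of_lt (hbig j) ?_
          exact mul_lt_of_lt_one_left hpos hl
        have e : ∀ j, gAct F Ω z j = (gAct F Ω z j - z j ^ q) + z j ^ q := fun j => by ring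
        have hpw : ∀ x : Γ, (x ≤ 𝔭.v (y' b) ^ (q ^ i) → x ^ q ≤ 𝔭.v (y' b) ^ (q ^ (i + 1))) := by
          intro x hx
          rw [pow_succ, pow_mul]
          exact pow_le_pow_left' hx q
        refine ⟨fun j => ?_, ?_, ?_⟩
        · rw [e j]
          refine 𝔭.v.map_add_le (hlt j).le ?_
          rw [Valuation.map_pow]
          exact hpw _ (h1 j)
        · rw [e a]
          refine 𝔭.v.map_add_lt (hlt a) ?_
          rw [Valuation.map_pow, pow_succ, pow_mul]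
          exact pow_lt_pow_left₀ h2 zero_le (by omega)
        · have h4 : 𝔭.v (z b ^ q) = 𝔭.v (y' b) ^ (q ^ (i + 1)) := by
            rw [Valuation.map_pow, h3, ← pow_mul, ← pow_succ]
          have h5 : gAct F Ω z b = z b ^ q + (gAct F Ω z b - z b ^ q) := by ring
          rw [h5, Valuation.map_add_eq_of_lt_left _ (by rw [h4]; exact hlt b), h4]
    obtain ⟨h1, h2, h3⟩ := claim i
    have hR := hresq E Ω k κ Γ 𝔭 n q ℓ F hn hq hl hF y hy i
    have hra : 𝔭.res ((gAct F Ω)^[i] y a) = 1 := by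
      rw [hR.2 a, hya, 𝔭.res_one, one_pow]
    have hva : 𝔭.v ((gAct F Ω)^[i] y a) = 1 := by
      refine le_antisymm (hR.1 a) (not_lt.1 fun hlt => ?_)
      have := (𝔭.res_eq_zero _ (hR.1 a)).2 hlt
      rw [hra] at this
      exact one_ne_zero this
    have h5 := congrArg 𝔭.v (hrel b)
    rw [Valuation.map_mul, Valuation.map_mul, hva, mul_one, h3] at h5
    have h6 : 𝔭.v ((gAct F Ω)^[i] y b) * 𝔭.v ((gAct F Ω)^[i] y' a) <
        𝔭.v (y' b) ^ (q ^ i) := lt_of_le_of_lt (mul_le_of_le_one_left' (hR.1 b)) h2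
    rw [← h5] at h6
    exact lt_irrefl _ h6
  refine ⟨hy'1, fun j => ?_⟩
  have hR := hresq E Ω k κ Γ 𝔭 n q ℓ F hn hq hl hF y hy i
  have hR' := hresq E Ω k κ Γ 𝔭 n q ℓ F hn hq hl hF y' hy'1 i
  have h1 := congrArg 𝔭.res (hrel j)
  rw [𝔭.res_mul _ _ (hR'.1 j) (hR.1 a), 𝔭.res_mul _ _ (hR.1 j) (hR'.1 a), hR.2, hR'.2, hR.2,
    hR'.2, hya, hya', 𝔭.res_one, one_pow, mul_one, mul_one] at h1
  exact h1

end Pool.DynLehmer.FN
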