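import Pool.Agent.Lib.MP_2194ec_nt.FN.Iface

set_option autoImplicit false

/-!
# FAM_N, module SLOPE: finitely many slopes (helper28)
-/

namespace Pool.DynLehmer.FN
open MvPolynomial NumberField Pool.DynLehmer Pool.DynLehmer.SB
open scoped Classical

namespace SlopeAux

section

variable {E Ω k κ Γ : Type} [Field E] [Field Ω] [Algebra E Ω] [Field k] [Field κ] [Algebra k κ]
  [LinearOrderedCommGroupWithZero Γ] (𝔭 : Plc E Ω k κ Γ)

theorem res_zero : 𝔭.res 0 = 0 := by
  rw [𝔭.res_eq_zero 0 (by rw [map_zero]; exact zero_le_one), map_zero]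
  exact zero_lt_one

theorem res_pow {a : Ω} (ha : 𝔭.v a ≤ 1) (n : ℕ) : 𝔭.res (a ^ n) = 𝔭.res a ^ n := by
  induction n with
  | zero => rw [pow_zero, pow_zero, 𝔭.res_one]
  | succ n ih =>
    rw [pow_succ, pow_succ, 𝔭.res_mul _ _ (by rw [map_pow]; exact pow_le_one₀ zero_le ha) ha, ih]

theorem res_sum {ι : Type} (s : Finset ι) (f : ι → Ω) (hf : ∀ i ∈ s, 𝔭.v (f i) ≤ 1) :
    𝔭.res (∑ i ∈ s, f i) = ∑ i ∈ s, 𝔭.res (f i) := by
  induction s using Finset.induction_on with
  | empty => simp [res_zero]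
  | insert a s ha ih =>
    rw [Finset.sum_insert ha, Finset.sum_insert ha, 𝔭.res_add _ _ (hf a (Finset.mem_insert_self _ _))
      (Valuation.map_sum_le _ fun i hi => hf i (Finset.mem_insert_of_mem hi)),
      ih fun i hi => hf i (Finset.mem_insert_of_mem hi)]

/-- the Gauss norm -/
theorem gauss {g : Polynomial E} (hg : g ≠ 0) : ∃ c : E, c ≠ 0 ∧ ∀ U : Ω, 𝔭.v U ≤ 1 →
    Transcendental k (𝔭.res U) → 𝔭.v (Polynomial.aeval U g) = 𝔭.v (algebraMap E Ω c) := by
  obtain ⟨i₀, hi₀, hmax⟩ := Finset.exists_max_image g.support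
    (fun i => 𝔭.v (algebraMap E Ω (g.coeff i))) (Polynomial.support_nonempty.2 hg)
  have hc : g.coeff i₀ ≠ 0 := Polynomial.mem_support_iff.1 hi₀
  refine ⟨g.coeff i₀, hc, fun U hU hT => ?_⟩
  have hc' : algebraMap E Ω (g.coeff i₀) ≠ 0 := (map_ne_zero _).2 hc
  have hv0 : 𝔭.v (algebraMap E Ω (g.coeff i₀)) ≠ 0 := (Valuation.ne_zero_iff _).2 hc'
  have hle : ∀ i, 𝔭.v (algebraMap E Ω (g.coeff i / g.coeff i₀)) ≤ 1 := by
    intro i
    rw [map_div₀, map_div₀]
    by_cases hi : i ∈ g.support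
    · exact div_le_one_of_le₀ (hmax i hi) zero_le
    · rw [Polynomial.notMem_support_iff.1 hi]
      simp
  choose c hc1 using fun i => 𝔭.res_const _ (hle i)
  have h1 : Polynomial.aeval U g = algebraMap E Ω (g.coeff i₀) *
      ∑ i ∈ g.support, algebraMap E Ω (g.coeff i / g.coeff i₀) * U ^ i := by
    rw [Polynomial.aeval_eq_sum_range, Finset.mul_sum]
    symm
    rw [Finset.sum_subset (fun i hi => Finset.mem_range_succ_iff.2 (Polynomial.le_natDegree_of_mem_supp i hi))]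
    · apply Finset.sum_congr rfl
      intro i _
      rw [← mul_assoc, ← map_mul, mul_div_cancel₀ _ hc, Algebra.smul_def]
    · intro i _ hi
      rw [Polynomial.notMem_support_iff.1 hi]
      simp
  have hterm : ∀ i ∈ g.support, 𝔭.v (algebraMap E Ω (g.coeff i / g.coeff i₀) * U ^ i) ≤ 1 := by
    intro i _
    rw [map_mul, map_pow]
    exact mul_le_one₀ (hle i) zero_le (pow_le_one₀ zero_le hU)
  have h2 : 𝔭.v (∑ i ∈ g.support, algebraMap E Ω (g.coeff i / g.coeff i₀) * U ^ i) = 1 := by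
    refine le_antisymm (Valuation.map_sum_le _ hterm) (not_lt.1 fun hlt => ?_)
    have h3 := (𝔭.res_eq_zero _ hlt.le).2 hlt
    rw [res_sum 𝔭 _ _ hterm] at h3
    have h4 : Polynomial.aeval (𝔭.res U) (∑ i ∈ g.support, Polynomial.monomial i (c i)) = 0 := by
      rw [map_sum, ← h3]
      apply Finset.sum_congr rfl
      intro i _
      rw [Polynomial.aeval_monomial, 𝔭.res_mul _ _ (hle i) (by
        rw [map_pow]; exact pow_le_one₀ zero_le hU), res_pow 𝔭 hU, hc1]
    have h5 := (transcendental_iff.1 hT) _ h4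
    have h6 := congrArg (fun p => Polynomial.coeff p i₀) h5
    simp only [Polynomial.finsetSum_coeff, Polynomial.coeff_monomial, Polynomial.coeff_zero] at h6
    rw [Finset.sum_ite_eq' g.support i₀ c, if_pos hi₀] at h6
    have h7 := hc1 i₀
    rw [h6, map_zero, div_self hc, map_one, 𝔭.res_one] at h7
    exact zero_ne_one h7
  rw [h1, map_mul, h2, mul_one]

/-- two terms of a vanishing sum have the same value -/
theorem two_equal {J : Finset ℕ} (hJ : J.Nonempty) (a : ℕ → Ω) (ha : ∀ j ∈ J, a j ≠ 0)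
    (h : ∑ j ∈ J, a j = 0) : ∃ i ∈ J, ∃ j ∈ J, i < j ∧ 𝔭.v (a i) = 𝔭.v (a j) := by
  obtain ⟨j₀, hj₀, hmax⟩ := Finset.exists_max_image J (fun j => 𝔭.v (a j)) hJ
  have hv0 : 𝔭.v (a j₀) ≠ 0 := (Valuation.ne_zero_iff _).2 (ha j₀ hj₀)
  have h1 : ∃ j ∈ J, j ≠ j₀ ∧ 𝔭.v (a j) = 𝔭.v (a j₀) := by
    by_contra hcon
    push Not at hcon
    have h2 : 𝔭.v (∑ j ∈ J.erase j₀, a j) < 𝔭.v (a j₀) := by
      apply Valuation.map_sum_lt _ hv0
      intro j hj
      exact lt_of_le_of_ne (hmax j (Finset.mem_of_mem_erase hj))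
        (hcon j (Finset.mem_of_mem_erase hj) (Finset.ne_of_mem_erase hj))
    rw [← Finset.add_sum_erase J a hj₀] at h
    have h3 : a j₀ = -∑ j ∈ J.erase j₀, a j := eq_neg_of_add_eq_zero_left h
    rw [h3, Valuation.map_neg] at h2
    exact absurd h2 (lt_irrefl _)
  obtain ⟨j, hj, hne, hv⟩ := h1
  rcases lt_or_gt_of_ne hne with hl | hl
  · exact ⟨j, hj, j₀, hj₀, hl, hv⟩
  · exact ⟨j₀, hj₀, j, hj, hl, hv.symm⟩

end

end SlopeAux

open SlopeAux in
theorem slope : SlopeStatement := by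
  intro E Ω k κ Γ _ _ _ _ _ _ _ 𝔭 P hP
  set J : Finset ℕ := P.support.image (fun t => t 1) with hJ
  set g : ℕ → Polynomial E := fun j => ∑ t ∈ P.support.filter (fun t => t 1 = j),
    Polynomial.monomial (t 0) (coeff t P) with hg
  have hJne : J.Nonempty := (support_nonempty.2 hP).image _
  have hg0 : ∀ j ∈ J, g j ≠ 0 := by
    intro j hj h0
    obtain ⟨t, ht, rfl⟩ := Finset.mem_image.1 hj
    have h1 := congrArg (fun p => Polynomial.coeff p (t 0)) h0
    simp only [hg, Polynomial.finsetSum_coeff, Polynomial.coeff_monomial,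
      Polynomial.coeff_zero] at h1
    rw [Finset.sum_eq_single t] at h1
    · rw [if_pos rfl] at h1
      exact (mem_support_iff.1 ht) h1
    · intro s hs hst
      rw [if_neg]
      intro h2
      apply hst
      rw [Finset.mem_filter] at hs
      ext i
      fin_cases i
      · exact h2
      · exact hs.2
    · intro h2
      exact (h2 (Finset.mem_filter.2 ⟨ht, rfl⟩)).elim
  have hn : ∀ j : ℕ, ∃ c : E, c ≠ 0 ∧ (j ∈ J → ∀ U : Ω, 𝔭.v U ≤ 1 →
      Transcendental k (𝔭.res U) → 𝔭.v (Polynomial.aeval U (g j)) = 𝔭.v (algebraMap E Ω c)) := by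
    intro j
    by_cases hj : j ∈ J
    · obtain ⟨c, h1, h2⟩ := gauss 𝔭 (hg0 j hj)
      exact ⟨c, h1, fun _ => h2⟩
    · exact ⟨1, one_ne_zero, fun h => absurd h hj⟩
  choose c hc0 hc using hn
  set nn : ℕ → Γ := fun j => 𝔭.v (algebraMap E Ω (c j)) with hnn
  have hn0 : ∀ j, nn j ≠ 0 := fun j => (Valuation.ne_zero_iff _).2 ((map_ne_zero _).2 (hc0 j))
  set S : Set Γ := {γ | γ < 1 ∧ ∃ i ∈ J, ∃ j ∈ J, i < j ∧ γ ^ (j - i) * nn j = nn i} with hS
  have hfin : S.Finite := by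
    refine Set.Finite.subset (Set.Finite.biUnion (J ×ˢ J).finite_toSet
      (t := fun ij => {γ | ij.1 < ij.2 ∧ γ ^ (ij.2 - ij.1) * nn ij.2 = nn ij.1})
      (fun ij _ => Set.Subsingleton.finite ?_)) ?_
    · rintro γ ⟨hlt, h1⟩ δ ⟨-, h2⟩
      have h3 : γ ^ (ij.2 - ij.1) = δ ^ (ij.2 - ij.1) := mul_right_cancel₀ (hn0 _) (h1.trans h2.symm)
      have hne : ij.2 - ij.1 ≠ 0 := by omega
      rcases lt_trichotomy γ δ with h | h | h
      · exact absurd h3 (pow_lt_pow_left₀ h zero_le hne).ne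
      · exact h
      · exact absurd h3 (pow_lt_pow_left₀ h zero_le hne).ne'
    · rintro γ ⟨-, i, hi, j, hj, hlt, h1⟩
      exact Set.mem_biUnion (x := (i, j)) (Finset.mem_coe.2 (Finset.mk_mem_product hi hj)) ⟨hlt, h1⟩
  obtain ⟨r, hr, hmax⟩ := Set.exists_max_image (insert 0 S) id (hfin.insert 0)
    ⟨0, Set.mem_insert _ _⟩
  refine ⟨r, ?_, ?_⟩
  · rcases Set.mem_insert_iff.1 hr with h | h
    · rw [h]; exact zero_lt_one
    · exact h.1
  · intro U V hU hT hV hz
    by_cases hV0 : V = 0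
    · rw [hV0, map_zero]
      exact zero_le
    have hvV : 𝔭.v V ≠ 0 := (Valuation.ne_zero_iff _).2 hV0
    have hsum : ∑ j ∈ J, Polynomial.aeval U (g j) * V ^ j = 0 := by
      rw [← hz]
      have h1 : aeval ![U, V] P = ∑ t ∈ P.support,
          algebraMap E Ω (coeff t P) * (U ^ t 0 * V ^ t 1) := by
        rw [aeval_def, eval₂_eq']
        apply Finset.sum_congr rfl
        intro t _
        rw [Fin.prod_univ_two]
        simp
      rw [h1, ← Finset.sum_fiberwise_of_maps_to (s := P.support) (t := J) (g := fun t => t 1)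
        (fun t ht => Finset.mem_image_of_mem _ ht)]
      apply Finset.sum_congr rfl
      intro j _
      rw [hg]
      simp only [map_sum, Finset.sum_mul]
      apply Finset.sum_congr rfl
      intro t ht
      rw [Polynomial.aeval_monomial, (Finset.mem_filter.1 ht).2]
      ring
    have hval : ∀ j ∈ J, 𝔭.v (Polynomial.aeval U (g j) * V ^ j) = nn j * 𝔭.v V ^ j := by
      intro j hj
      rw [map_mul, map_pow, hc j hj U hU hT]
    obtain ⟨i, hi, j, hj, hij, heq⟩ := two_equal 𝔭 hJne _ (fun j hj => by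
      rw [← Valuation.ne_zero_iff 𝔭.v, hval j hj]
      exact mul_ne_zero (hn0 j) (pow_ne_zero _ hvV)) hsum
    rw [hval i hi, hval j hj] at heq
    have hmem : 𝔭.v V ∈ S := by
      refine ⟨hV, i, hi, j, hj, hij, ?_⟩
      have h1 : 𝔭.v V ^ j = 𝔭.v V ^ (j - i) * 𝔭.v V ^ i := by rw [← pow_add]; congr 1; omega
      rw [h1, ← mul_assoc] at heq
      have h2 := mul_right_cancel₀ (pow_ne_zero i hvV) heq
      rw [h2, mul_comm]
    exact hmax _ (Set.mem_insert_of_mem _ hmem)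

end Pool.DynLehmer.FN
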