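import Mathlib
import Pool.Agent.Lib.MP_2194ec_nt.FN.Iface

set_option autoImplicit false

/-!
# TCORE: injectivity near a coordinate line
-/

namespace Pool.DynLehmer.FN
open MvPolynomial

namespace TcoreAux

variable {E Ω Γ : Type} [Field E] [Field Ω] [Algebra E Ω] [LinearOrderedCommGroupWithZero Γ]
  {n : ℕ}

/-- the polynomials which are integral and Lipschitz at two points -/
def lipS (E : Type) [Field E] [Algebra E Ω] (v : Valuation Ω Γ) (Y Y' : Fin n → Ω) (D : Γ) :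
    Subring (MvPolynomial (Fin n) E) where
  carrier := {G | v (aeval Y G) ≤ 1 ∧ v (aeval Y' G) ≤ 1 ∧ v (aeval Y G - aeval Y' G) ≤ D}
  mul_mem' := by
    rintro f g ⟨h1, h2, h3⟩ ⟨h4, h5, h6⟩
    refine ⟨?_, ?_, ?_⟩
    · rw [map_mul, map_mul]
      exact mul_le_one' h1 h4
    · rw [map_mul, map_mul]
      exact mul_le_one' h2 h5
    · have e : aeval Y (f * g) - aeval Y' (f * g) =
          aeval Y f * (aeval Y g - aeval Y' g) + (aeval Y f - aeval Y' f) * aeval Y' g := by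
        rw [map_mul, map_mul]
        ring
      rw [e]
      apply v.map_add_le
      · rw [map_mul]
        calc _ ≤ 1 * D := mul_le_mul' h1 h6
          _ = D := one_mul _
      · rw [map_mul]
        calc _ ≤ D * 1 := mul_le_mul' h3 h5
          _ = D := mul_one _
  one_mem' := by
    refine ⟨?_, ?_, ?_⟩
    · rw [map_one, map_one]
    · rw [map_one, map_one]
    · rw [map_one, map_one, sub_self, map_zero]
      exact zero_le
  add_mem' := by
    rintro f g ⟨h1, h2, h3⟩ ⟨h4, h5, h6⟩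
    refine ⟨?_, ?_, ?_⟩
    · rw [map_add]
      exact v.map_add_le h1 h4
    · rw [map_add]
      exact v.map_add_le h2 h5
    · have e : aeval Y (f + g) - aeval Y' (f + g) =
          (aeval Y f - aeval Y' f) + (aeval Y g - aeval Y' g) := by
        rw [map_add, map_add]
        ring
      rw [e]
      exact v.map_add_le h3 h6
  zero_mem' := by
    refine ⟨?_, ?_, ?_⟩
    · rw [map_zero, map_zero]
      exact zero_le
    · rw [map_zero, map_zero]
      exact zero_le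
    · rw [map_zero, map_zero, sub_self, map_zero]
      exact zero_le
  neg_mem' := by
    rintro f ⟨h1, h2, h3⟩
    refine ⟨?_, ?_, ?_⟩
    · rw [map_neg, Valuation.map_neg]
      exact h1
    · rw [map_neg, Valuation.map_neg]
      exact h2
    · have e : aeval Y (-f) - aeval Y' (-f) = -(aeval Y f - aeval Y' f) := by
        rw [map_neg, map_neg]
        ring
      rw [e, Valuation.map_neg]
      exact h3

theorem X_mem {v : Valuation Ω Γ} {Y Y' : Fin n → Ω} {D : Γ} (j : Fin n) (h : v (Y j) ≤ 1)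
    (h' : v (Y' j) ≤ 1) (hD : v (Y j - Y' j) ≤ D) :
    (X j : MvPolynomial (Fin n) E) ∈ lipS E v Y Y' D := by
  refine ⟨?_, ?_, ?_⟩
  · rwa [aeval_X]
  · rwa [aeval_X]
  · rwa [aeval_X, aeval_X]

theorem C_mem {v : Valuation Ω Γ} {Y Y' : Fin n → Ω} {D : Γ} (c : E)
    (h : v (algebraMap E Ω c) ≤ 1) :
    (C c : MvPolynomial (Fin n) E) ∈ lipS E v Y Y' D := by
  refine ⟨?_, ?_, ?_⟩
  · rwa [aeval_C]
  · rwa [aeval_C]
  · rw [aeval_C, aeval_C, sub_self, map_zero]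
    exact zero_le

theorem mem_of_coeff {v : Valuation Ω Γ} {Y Y' : Fin n → Ω} {D : Γ} (h : ∀ j, v (Y j) ≤ 1)
    (h' : ∀ j, v (Y' j) ≤ 1) (hD : ∀ j, v (Y j - Y' j) ≤ D) (G : MvPolynomial (Fin n) E)
    (hG : ∀ t, v (algebraMap E Ω (coeff t G)) ≤ 1) : G ∈ lipS E v Y Y' D := by
  rw [← G.support_sum_monomial_coeff]
  refine Subring.sum_mem _ fun t _ => ?_
  rw [monomial_eq]
  refine Subring.mul_mem _ (C_mem _ (hG t)) ?_
  rw [Finsupp.prod]
  exact Subring.prod_mem _ fun i _ => Subring.pow_mem _ (X_mem i (h i) (h' i) (hD i)) _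

theorem aeval_per (Y : Fin n → Ω) (q ℓ : ℕ) (j : Fin n) :
    aeval Y (per E n q ℓ j) =
      (∑ k ∈ Finset.univ.filter (fun k : Fin n => k ≠ j),
        (ℓ : Ω) ^ ex j k * (Y j * Y k ^ (q - 1))) +
      ∑ ab ∈ Finset.univ.filter (fun ab : Fin n × Fin n =>
        ab.1 < ab.2 ∧ jj ab.1.val ab.2.val = j.val),
        (ℓ : Ω) ^ (2 * n ^ 2) * (Y ab.1 ^ (q - 1) * Y ab.2) := by
  unfold per
  simp only [map_add, map_sum, map_mul, map_pow, aeval_X, map_natCast]

theorem ex_ge {j k : Fin n} (h : k ≠ j) : n ^ 2 + 1 ≤ ex j k := by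
  have : (k - j).val ≠ 0 := by
    intro h0
    have : NeZero n := ⟨by have := j.isLt; omega⟩
    exact h (sub_eq_zero.1 (Fin.ext h0))
  unfold ex
  omega

theorem ex_le (j k : Fin n) : ex j k + 1 ≤ 2 * n ^ 2 := by
  have h1 : (k - j).val < n := (k - j).isLt
  have h2 : j.val + 1 ≤ n := j.isLt
  have h3 : (j.val + 1) * n ≤ n * n := Nat.mul_le_mul_right _ h2
  unfold ex
  nlinarith

theorem ex_inj {j k k' : Fin n} (h : ex j k = ex j k') : k = k' := by
  unfold ex at h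
  have h1 : (k - j).val = (k' - j).val := by omega
  have h2 : k - j = k' - j := Fin.ext h1
  have : NeZero n := ⟨by have := j.isLt; omega⟩
  exact sub_left_injective h2

theorem jj_lt (hn : 3 ≤ n) (a b : ℕ) : jj a b < n := by
  unfold jj
  split_ifs <;> omega

theorem jj_ne (a b : ℕ) (h : a < b) : jj a b ≠ a ∧ jj a b ≠ b := by
  unfold jj
  split_ifs <;> omega

/-- the situation of TCORE for one point -/
structure NearPt (v : Valuation Ω Γ) (n : ℕ) (ℓ : ℕ) (a b : Fin n) (Y : Fin n → Ω) : Prop where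
  ya : Y a = 1
  yb : v (Y b) ≤ 1
  off : ∀ j, j ≠ a → j ≠ b → v (Y j) ≤ v (ℓ : Ω) ^ (2 * n ^ 2)

theorem NearPt.le_one {v : Valuation Ω Γ} {ℓ : ℕ} {a b : Fin n} {Y : Fin n → Ω}
    (h : NearPt v n ℓ a b Y) (hl : v (ℓ : Ω) ≤ 1) (j : Fin n) : v (Y j) ≤ 1 := by
  by_cases ha : j = a
  · rw [ha, h.ya, map_one]
  · by_cases hb : j = b
    · rw [hb]
      exact h.yb
    · exact (h.off j ha hb).trans (pow_le_one' hl _)

/-- `F j = X j ^ q + ℓ^(n^2+1) R` -/
theorem row_gen {v : Valuation Ω Γ} {q ℓ : ℕ} {F : Fin n → MvPolynomial (Fin n) E}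
    (hF : Fam v n q ℓ F) {Y Y' : Fin n → Ω} {D : Γ} (hl : v (ℓ : Ω) ≤ 1)
    (h : ∀ j, v (Y j) ≤ 1) (h' : ∀ j, v (Y' j) ≤ 1) (hD : ∀ j, v (Y j - Y' j) ≤ D)
    (j : Fin n) : ∃ R ∈ lipS E v Y Y' D, F j = X j ^ q + C ((ℓ : E) ^ (n ^ 2 + 1)) * R := by
  obtain ⟨G, hG, hFG⟩ := hF.cong j
  have hn : 1 ≤ n ^ 2 := Nat.one_le_pow _ _ (by have := j.isLt; omega)
  have hX : ∀ i, (X i : MvPolynomial (Fin n) E) ∈ lipS E v Y Y' D := fun i =>
    X_mem i (h i) (h' i) (hD i)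
  have hC : ∀ e, (C ((ℓ : E) ^ e) : MvPolynomial (Fin n) E) ∈ lipS E v Y Y' D := by
    intro e
    apply C_mem
    rw [map_pow, map_natCast, map_pow]
    exact pow_le_one' hl _
  refine ⟨(∑ k ∈ Finset.univ.filter (fun k : Fin n => k ≠ j),
      C ((ℓ : E) ^ (ex j k - (n ^ 2 + 1))) * (X j * X k ^ (q - 1))) +
    (∑ ab ∈ Finset.univ.filter (fun ab : Fin n × Fin n =>
        ab.1 < ab.2 ∧ jj ab.1.val ab.2.val = j.val),
      C ((ℓ : E) ^ (n ^ 2 - 1)) * (X ab.1 ^ (q - 1) * X ab.2)) +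
    C ((ℓ : E) ^ (n ^ 2)) * G, ?_, ?_⟩
  · refine Subring.add_mem _ (Subring.add_mem _ ?_ ?_) ?_
    · exact Subring.sum_mem _ fun k _ => Subring.mul_mem _ (hC _)
        (Subring.mul_mem _ (hX _) (Subring.pow_mem _ (hX _) _))
    · exact Subring.sum_mem _ fun k _ => Subring.mul_mem _ (hC _)
        (Subring.mul_mem _ (Subring.pow_mem _ (hX _) _) (hX _))
    · exact Subring.mul_mem _ (hC _) (mem_of_coeff h h' hD G hG)
  · rw [hFG, per, mul_add, mul_add, Finset.mul_sum, Finset.mul_sum, ← mul_assoc, ← C_mul,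
      ← pow_add]
    have e1 : n ^ 2 + 1 + n ^ 2 = 2 * n ^ 2 + 1 := by omega
    rw [e1]
    have e2 : ∀ k ∈ Finset.univ.filter (fun k : Fin n => k ≠ j),
        C ((ℓ : E) ^ ex j k) * (X j * X k ^ (q - 1)) =
          C ((ℓ : E) ^ (n ^ 2 + 1)) * (C ((ℓ : E) ^ (ex j k - (n ^ 2 + 1))) *
            (X j * X k ^ (q - 1)) : MvPolynomial (Fin n) E) := by
      intro k hk
      have := ex_ge (Finset.mem_filter.1 hk).2
      rw [← mul_assoc (C ((ℓ : E) ^ (n ^ 2 + 1))), ← C_mul, ← pow_add, Nat.add_sub_cancel' this]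
    have e3 : ∀ ab ∈ Finset.univ.filter (fun ab : Fin n × Fin n =>
        ab.1 < ab.2 ∧ jj ab.1.val ab.2.val = j.val),
        C ((ℓ : E) ^ (2 * n ^ 2)) * (X ab.1 ^ (q - 1) * X ab.2) =
          C ((ℓ : E) ^ (n ^ 2 + 1)) * (C ((ℓ : E) ^ (n ^ 2 - 1)) *
            (X ab.1 ^ (q - 1) * X ab.2) : MvPolynomial (Fin n) E) := by
      intro ab _
      rw [← mul_assoc (C ((ℓ : E) ^ (n ^ 2 + 1))), ← C_mul, ← pow_add]
      have : n ^ 2 + 1 + (n ^ 2 - 1) = 2 * n ^ 2 := by omega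
      rw [this]
    rw [Finset.sum_congr rfl e2, Finset.sum_congr rfl e3]
    ring

/-- the value of a form -/
theorem gAct_eq {v : Valuation Ω Γ} {q ℓ : ℕ} {F : Fin n → MvPolynomial (Fin n) E}
    (hF : Fam v n q ℓ F) (j : Fin n) : ∃ G : MvPolynomial (Fin n) E,
      (∀ t, v (algebraMap E Ω (coeff t G)) ≤ 1) ∧ ∀ Y : Fin n → Ω, gAct F Ω Y j = Y j ^ q +
      ((∑ k ∈ Finset.univ.filter (fun k : Fin n => k ≠ j),
        (ℓ : Ω) ^ ex j k * (Y j * Y k ^ (q - 1))) +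
      ∑ ab ∈ Finset.univ.filter (fun ab : Fin n × Fin n =>
        ab.1 < ab.2 ∧ jj ab.1.val ab.2.val = j.val),
        (ℓ : Ω) ^ (2 * n ^ 2) * (Y ab.1 ^ (q - 1) * Y ab.2)) +
      (ℓ : Ω) ^ (2 * n ^ 2 + 1) * aeval Y G := by
  obtain ⟨G, hG, hFG⟩ := hF.cong j
  refine ⟨G, hG, fun Y => ?_⟩
  unfold gAct
  rw [hFG, map_add, map_add, aeval_per, map_pow, aeval_X, map_mul, aeval_C, map_pow,
    map_natCast]

section point

variable {v : Valuation Ω Γ} {q ℓ : ℕ} {F : Fin n → MvPolynomial (Fin n) E}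
  {a b : Fin n} {Y Y' : Fin n → Ω}

theorem aeval_le (hl : v (ℓ : Ω) ≤ 1) (hY : NearPt v n ℓ a b Y) (G : MvPolynomial (Fin n) E)
    (hG : ∀ t, v (algebraMap E Ω (coeff t G)) ≤ 1) : v (aeval Y G) ≤ 1 :=
  (mem_of_coeff (v := v) (Y := Y) (Y' := Y) (D := 1) (hY.le_one hl) (hY.le_one hl)
    (fun j => by rw [sub_self, map_zero]; exact zero_le) G hG).1

theorem pow_le_self {x : Ω} {g : Γ} (h1 : v x ≤ 1) (h : v x ≤ g) {m : ℕ} (hm : 1 ≤ m) :
    v (x ^ m) ≤ g := by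
  obtain ⟨m, rfl⟩ := Nat.exists_eq_add_of_le' hm
  rw [map_pow, pow_succ]
  calc v x ^ m * v x ≤ 1 * g := mul_le_mul' (pow_le_one' h1 _) h
    _ = g := one_mul _

/-- the row `jj a b` -/
theorem row_jj (hq : 2 ≤ q) (hl : v (ℓ : Ω) ≤ 1) (hF : Fam v n q ℓ F) (hab : a < b)
    (hY : NearPt v n ℓ a b Y) (j : Fin n) (hj : jj a.val b.val = j.val) :
    v (gAct F Ω Y j - (ℓ : Ω) ^ (2 * n ^ 2) * Y b) ≤ v (ℓ : Ω) ^ (2 * n ^ 2 + 1) := by
  obtain ⟨G, hG, hE⟩ := gAct_eq hF j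
  have hne := jj_ne a.val b.val hab
  have hja : j ≠ a := fun h => hne.1 (by rw [hj, h])
  have hjb : j ≠ b := fun h => hne.2 (by rw [hj, h])
  have hn : 1 ≤ n ^ 2 := Nat.one_le_pow _ _ (by have := j.isLt; omega)
  have h1 := hY.le_one hl
  have hoff := hY.off
  have hl1 : v (ℓ : Ω) ^ (2 * n ^ 2) ≤ v (ℓ : Ω) := by
    calc v (ℓ : Ω) ^ (2 * n ^ 2) ≤ v (ℓ : Ω) ^ 1 := pow_le_pow_right_of_le_one' hl (by omega)
      _ = v (ℓ : Ω) := pow_one _
  have hmem : (a, b) ∈ Finset.univ.filter (fun ab : Fin n × Fin n =>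
        ab.1 < ab.2 ∧ jj ab.1.val ab.2.val = j.val) :=
    Finset.mem_filter.2 ⟨Finset.mem_univ _, hab, hj⟩
  have e : gAct F Ω Y j - (ℓ : Ω) ^ (2 * n ^ 2) * Y b = Y j ^ q +
      ((∑ k ∈ Finset.univ.filter (fun k : Fin n => k ≠ j),
        (ℓ : Ω) ^ ex j k * (Y j * Y k ^ (q - 1))) +
      ∑ ab ∈ (Finset.univ.filter (fun ab : Fin n × Fin n =>
        ab.1 < ab.2 ∧ jj ab.1.val ab.2.val = j.val)).erase (a, b),
        (ℓ : Ω) ^ (2 * n ^ 2) * (Y ab.1 ^ (q - 1) * Y ab.2)) +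
      (ℓ : Ω) ^ (2 * n ^ 2 + 1) * aeval Y G := by
    rw [hE Y, ← Finset.add_sum_erase _ _ hmem]
    simp only [hY.ya, one_pow, one_mul]
    ring
  rw [e]
  apply v.map_add_le
  · apply v.map_add_le
    · obtain ⟨m, rfl⟩ := Nat.exists_eq_add_of_le' hq
      rw [map_pow, pow_succ, pow_succ]
      calc v (Y j) ^ m * v (Y j) * v (Y j) ≤ 1 * v (ℓ : Ω) ^ (2 * n ^ 2) * v (ℓ : Ω) :=
          mul_le_mul' (mul_le_mul' (pow_le_one' (h1 j) _) (hoff j hja hjb))
            ((hoff j hja hjb).trans hl1)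
        _ = _ := by rw [one_mul, ← pow_succ]
    · apply v.map_add_le
      · refine v.map_sum_le fun k hk => ?_
        have hex := ex_ge (Finset.mem_filter.1 hk).2
        rw [map_mul, map_mul, map_pow, pow_succ (v (ℓ : Ω)) (2 * n ^ 2),
          mul_comm (v (ℓ : Ω) ^ (2 * n ^ 2))]
        have h2 : v (ℓ : Ω) ^ ex j k ≤ v (ℓ : Ω) := by
          calc v (ℓ : Ω) ^ ex j k ≤ v (ℓ : Ω) ^ 1 := pow_le_pow_right_of_le_one' hl (by omega)
            _ = v (ℓ : Ω) := pow_one _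
        refine mul_le_mul' h2 ?_
        calc v (Y j) * v (Y k ^ (q - 1)) ≤ v (ℓ : Ω) ^ (2 * n ^ 2) * 1 := by
              refine mul_le_mul' (hoff j hja hjb) ?_
              rw [map_pow]
              exact pow_le_one' (h1 k) _
          _ = _ := mul_one _
      · refine v.map_sum_le fun cd hcd => ?_
        rw [Finset.mem_erase, Finset.mem_filter] at hcd
        obtain ⟨hcdne, -, hcdlt, -⟩ := hcd
        rw [map_mul, map_mul, map_pow, pow_succ (v (ℓ : Ω)) (2 * n ^ 2)]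
        refine mul_le_mul' le_rfl ?_
        by_cases hc : cd.1 ≠ a ∧ cd.1 ≠ b
        · calc v (Y cd.1 ^ (q - 1)) * v (Y cd.2) ≤ v (ℓ : Ω) * 1 := by
                refine mul_le_mul' ?_ (h1 _)
                exact pow_le_self (h1 _) ((hoff _ hc.1 hc.2).trans hl1) (by omega)
            _ = _ := mul_one _
        · have hd : cd.2 ≠ a ∧ cd.2 ≠ b := by
            by_contra hd
            apply hcdne
            have h3 : cd.1.val < cd.2.val := hcdlt
            have h4 : a.val < b.val := hab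
            rw [not_and_or, not_not, not_not] at hc hd
            ext
            · rcases hc with hc | hc <;> rcases hd with hd | hd <;>
                simp only [hc, hd] at h3 ⊢ <;> omega
            · rcases hc with hc | hc <;> rcases hd with hd | hd <;>
                simp only [hc, hd] at h3 ⊢ <;> omega
          calc v (Y cd.1 ^ (q - 1)) * v (Y cd.2) ≤ 1 * v (ℓ : Ω) := by
                refine mul_le_mul' ?_ ((hoff _ hd.1 hd.2).trans hl1)
                rw [map_pow]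
                exact pow_le_one' (h1 _) _
            _ = _ := one_mul _
  · rw [map_mul, map_pow]
    calc _ ≤ v (ℓ : Ω) ^ (2 * n ^ 2 + 1) * 1 :=
          mul_le_mul' le_rfl (aeval_le hl hY G hG)
      _ = _ := mul_one _

/-- rows off `a`, `b` are small -/
theorem row_off (hq : 2 ≤ q) (hl : v (ℓ : Ω) ≤ 1) (hF : Fam v n q ℓ F)
    (hY : NearPt v n ℓ a b Y) (j : Fin n) (hja : j ≠ a) (hjb : j ≠ b) :
    v (gAct F Ω Y j) ≤ v (ℓ : Ω) ^ (2 * n ^ 2) := by
  obtain ⟨G, hG, hE⟩ := gAct_eq hF j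
  have h1 := hY.le_one hl
  have hoff := hY.off
  rw [hE Y]
  apply v.map_add_le
  · apply v.map_add_le
    · exact pow_le_self (h1 j) (hoff j hja hjb) (by omega)
    · apply v.map_add_le
      · refine v.map_sum_le fun k hk => ?_
        rw [map_mul, map_mul, map_pow]
        calc _ ≤ 1 * (v (ℓ : Ω) ^ (2 * n ^ 2) * 1) := by
              refine mul_le_mul' (pow_le_one' hl _) (mul_le_mul' (hoff j hja hjb) ?_)
              rw [map_pow]
              exact pow_le_one' (h1 k) _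
          _ = _ := by rw [one_mul, mul_one]
      · refine v.map_sum_le fun cd _ => ?_
        rw [map_mul, map_mul, map_pow]
        calc _ ≤ v (ℓ : Ω) ^ (2 * n ^ 2) * (1 * 1) := by
              refine mul_le_mul' le_rfl (mul_le_mul' ?_ (h1 _))
              rw [map_pow]
              exact pow_le_one' (h1 _) _
          _ = _ := by rw [mul_one, mul_one]
  · rw [map_mul, map_pow]
    calc _ ≤ v (ℓ : Ω) ^ (2 * n ^ 2) * 1 :=
          mul_le_mul' (pow_le_pow_right_of_le_one' hl (by omega)) (aeval_le hl hY G hG)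
      _ = _ := mul_one _

/-- the difference of the rows off `a`, `b` -/
theorem row_diff (hq : 2 ≤ q) (hl : v (ℓ : Ω) ≤ 1) (hF : Fam v n q ℓ F) (hab : a ≠ b)
    (hY : NearPt v n ℓ a b Y) (hY' : NearPt v n ℓ a b Y') {D : Γ} (hD : ∀ j, v (Y j - Y' j) ≤ D)
    (j : Fin n) (hja : j ≠ a) (hjb : j ≠ b) :
    v (gAct F Ω Y j - gAct F Ω Y' j -
      (Y j - Y' j) * ((ℓ : Ω) ^ ex j a + (ℓ : Ω) ^ ex j b * Y b ^ (q - 1))) ≤
      v (ℓ : Ω) ^ (2 * n ^ 2) * D := by
  obtain ⟨G, hG, hE⟩ := gAct_eq hF j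
  have h1 := hY.le_one hl
  have h1' := hY'.le_one hl
  have hoff := hY.off
  have hoff' := hY'.off
  have hX : ∀ i, (X i : MvPolynomial (Fin n) E) ∈ lipS E v Y Y' D := fun i =>
    X_mem i (h1 i) (h1' i) (hD i)
  have hXp : ∀ i m, v (Y i ^ m - Y' i ^ m) ≤ D := by
    intro i m
    have := (Subring.pow_mem _ (hX i) m).2.2
    simpa only [map_pow, aeval_X] using this
  set S := Finset.univ.filter (fun k : Fin n => k ≠ j) with hS
  set P := Finset.univ.filter (fun ab : Fin n × Fin n =>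
        ab.1 < ab.2 ∧ jj ab.1.val ab.2.val = j.val) with hP
  have haS : a ∈ S := Finset.mem_filter.2 ⟨Finset.mem_univ _, Ne.symm hja⟩
  have hbS : b ∈ S.erase a := Finset.mem_erase.2 ⟨Ne.symm hab,
    Finset.mem_filter.2 ⟨Finset.mem_univ _, Ne.symm hjb⟩⟩
  have hsum : ∑ k ∈ S, (ℓ : Ω) ^ ex j k * Y k ^ (q - 1) =
      (ℓ : Ω) ^ ex j a + ((ℓ : Ω) ^ ex j b * Y b ^ (q - 1) +
        ∑ k ∈ (S.erase a).erase b, (ℓ : Ω) ^ ex j k * Y k ^ (q - 1)) := by
    rw [← Finset.add_sum_erase _ _ haS, ← Finset.add_sum_erase _ _ hbS, hY.ya, one_pow, mul_one]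
  have e : gAct F Ω Y j - gAct F Ω Y' j -
      (Y j - Y' j) * ((ℓ : Ω) ^ ex j a + (ℓ : Ω) ^ ex j b * Y b ^ (q - 1)) =
      (Y j ^ (q - 1) * (Y j - Y' j) + Y' j * (Y j ^ (q - 1) - Y' j ^ (q - 1))) +
      (Y j - Y' j) * (∑ k ∈ (S.erase a).erase b, (ℓ : Ω) ^ ex j k * Y k ^ (q - 1)) +
      (∑ k ∈ S, (ℓ : Ω) ^ ex j k * (Y' j * (Y k ^ (q - 1) - Y' k ^ (q - 1)))) +
      (∑ cd ∈ P, (ℓ : Ω) ^ (2 * n ^ 2) *
        (Y cd.1 ^ (q - 1) * Y cd.2 - Y' cd.1 ^ (q - 1) * Y' cd.2)) +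
      (ℓ : Ω) ^ (2 * n ^ 2 + 1) * (aeval Y G - aeval Y' G) := by
    have f1 : ∑ k ∈ S, (ℓ : Ω) ^ ex j k * (Y' j * (Y k ^ (q - 1) - Y' k ^ (q - 1))) =
        ∑ k ∈ S, (ℓ : Ω) ^ ex j k * (Y j * Y k ^ (q - 1)) -
        ∑ k ∈ S, (ℓ : Ω) ^ ex j k * (Y' j * Y' k ^ (q - 1)) -
        (Y j - Y' j) * ∑ k ∈ S, (ℓ : Ω) ^ ex j k * Y k ^ (q - 1) := by
      rw [Finset.mul_sum, ← Finset.sum_sub_distrib, ← Finset.sum_sub_distrib]
      refine Finset.sum_congr rfl fun k _ => ?_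
      ring
    have f2 : ∑ cd ∈ P, (ℓ : Ω) ^ (2 * n ^ 2) *
        (Y cd.1 ^ (q - 1) * Y cd.2 - Y' cd.1 ^ (q - 1) * Y' cd.2) =
        ∑ cd ∈ P, (ℓ : Ω) ^ (2 * n ^ 2) * (Y cd.1 ^ (q - 1) * Y cd.2) -
        ∑ cd ∈ P, (ℓ : Ω) ^ (2 * n ^ 2) * (Y' cd.1 ^ (q - 1) * Y' cd.2) := by
      rw [← Finset.sum_sub_distrib]
      refine Finset.sum_congr rfl fun k _ => ?_
      ring
    have f3 : ∀ z : Ω, z ^ q = z ^ (q - 1) * z := by
      intro z
      rw [← pow_succ]
      congr 1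
      omega
    rw [hE Y, hE Y', f1, f2, hsum, f3, f3]
    ring
  rw [e]
  have hD0 : v (Y j - Y' j) ≤ D := hD j
  apply v.map_add_le
  · apply v.map_add_le
    · apply v.map_add_le
      · apply v.map_add_le
        · apply v.map_add_le
          · rw [map_mul]
            exact mul_le_mul' (pow_le_self (h1 j) (hoff j hja hjb) (by omega)) hD0
          · rw [map_mul]
            exact mul_le_mul' (hoff' j hja hjb) (hXp _ _)
        · rw [map_mul, mul_comm]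
          refine mul_le_mul' ?_ hD0
          refine v.map_sum_le fun k hk => ?_
          rw [Finset.mem_erase, Finset.mem_erase] at hk
          rw [map_mul, map_pow]
          calc _ ≤ 1 * v (ℓ : Ω) ^ (2 * n ^ 2) :=
                mul_le_mul' (pow_le_one' hl _)
                  (pow_le_self (h1 k) (hoff k hk.2.1 hk.1) (by omega))
            _ = _ := one_mul _
      · refine v.map_sum_le fun k _ => ?_
        rw [map_mul, map_mul, map_pow]
        calc _ ≤ 1 * (v (ℓ : Ω) ^ (2 * n ^ 2) * D) :=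
              mul_le_mul' (pow_le_one' hl _) (mul_le_mul' (hoff' j hja hjb) (hXp _ _))
          _ = _ := one_mul _
    · refine v.map_sum_le fun cd _ => ?_
      rw [map_mul, map_pow]
      refine mul_le_mul' le_rfl ?_
      have := (Subring.mul_mem _ (Subring.pow_mem _ (hX cd.1) (q - 1)) (hX cd.2)).2.2
      simpa only [map_mul, map_pow, aeval_X] using this
  · rw [map_mul, map_pow]
    exact mul_le_mul' (pow_le_pow_right_of_le_one' hl (by omega))
      (mem_of_coeff h1 h1' hD G hG).2.2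

end point

end TcoreAux

open TcoreAux in
theorem tcore : TcoreStatement := by
  intro E Ω k κ Γ _ _ _ _ _ _ _ 𝔭 n q ℓ F hn hq hℓ0 hl hvq hF a b hab Y Y' hYa hY'a hYb hY'b
    hTb hTb' hoff hoff' heq
  set v := 𝔭.v with hv
  have hl1 : v (ℓ : Ω) ≤ 1 := le_of_lt hl
  have hY : NearPt v n ℓ a b Y := ⟨hYa, hYb, hoff⟩
  have hY' : NearPt v n ℓ a b Y' := ⟨hY'a, hY'b, hoff'⟩
  have hlm0 : v (ℓ : Ω) ≠ 0 := (Valuation.ne_zero_iff v).2 hℓ0
  have hn2 : 1 ≤ n ^ 2 := Nat.one_le_pow _ _ (by omega)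
  have hnu : (Finset.univ : Finset (Fin n)).Nonempty := ⟨a, Finset.mem_univ _⟩
  obtain ⟨jm, -, hjm⟩ := Finset.exists_max_image Finset.univ (fun j => v (Y j - Y' j)) hnu
  set D := v (Y jm - Y' jm) with hDdef
  have hD : ∀ j, v (Y j - Y' j) ≤ D := fun j => hjm j (Finset.mem_univ _)
  by_cases hD0 : D = 0
  · funext j
    have h1 : v (Y j - Y' j) = 0 := le_zero_iff.1 ((hD j).trans hD0.le)
    exact (sub_eq_zero.1 ((Valuation.zero_iff v).1 h1)).symm
  exfalso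
  have hDpos : 0 < D := zero_lt_iff.2 hD0
  have hDlt : ∀ e, 1 ≤ e → v (ℓ : Ω) ^ e * D < D := by
    intro e he
    have : v (ℓ : Ω) ^ e < 1 := pow_lt_one' hl (by omega)
    calc v (ℓ : Ω) ^ e * D < 1 * D := by
          exact mul_lt_mul_of_pos_right this hDpos
      _ = D := one_mul _
  have hvYb : v (Y b) = 1 := by
    refine le_antisymm hYb (not_lt.1 fun h => ?_)
    have h0 := (𝔭.res_eq_zero (Y b) hYb).2 h
    apply hTb
    rw [h0]
    exact isAlgebraic_zero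
  -- the row of `a`
  obtain ⟨Ra, hRa, hFa⟩ := row_gen hF hl1 (hY.le_one hl1) (hY'.le_one hl1) hD a
  obtain ⟨hRa1, hRa2, hRa3⟩ := hRa
  have hFaY : gAct F Ω Y a = 1 + (ℓ : Ω) ^ (n ^ 2 + 1) * aeval Y Ra := by
    unfold gAct
    rw [hFa, map_add, map_pow, aeval_X, hYa, one_pow, map_mul, aeval_C, map_pow, map_natCast]
  have hFaY' : gAct F Ω Y' a = 1 + (ℓ : Ω) ^ (n ^ 2 + 1) * aeval Y' Ra := by
    unfold gAct
    rw [hFa, map_add, map_pow, aeval_X, hY'a, one_pow, map_mul, aeval_C, map_pow, map_natCast]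
  have hln : v (ℓ : Ω) ^ (n ^ 2 + 1) < 1 := pow_lt_one' hl (by omega)
  have hsm : v ((ℓ : Ω) ^ (n ^ 2 + 1) * aeval Y Ra) ≤ v (ℓ : Ω) ^ (n ^ 2 + 1) := by
    rw [map_mul, map_pow]
    calc _ ≤ v (ℓ : Ω) ^ (n ^ 2 + 1) * 1 := mul_le_mul' le_rfl hRa1
      _ = _ := mul_one _
  have hsm' : v ((ℓ : Ω) ^ (n ^ 2 + 1) * aeval Y' Ra) ≤ v (ℓ : Ω) ^ (n ^ 2 + 1) := by
    rw [map_mul, map_pow]
    calc _ ≤ v (ℓ : Ω) ^ (n ^ 2 + 1) * 1 := mul_le_mul' le_rfl hRa2
      _ = _ := mul_one _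
  have hvFa : v (gAct F Ω Y a) = 1 := by
    rw [hFaY]
    exact Valuation.map_one_add_of_lt v (hsm.trans_lt hln)
  have hvFa' : v (gAct F Ω Y' a) = 1 := by
    rw [hFaY']
    exact Valuation.map_one_add_of_lt v (hsm'.trans_lt hln)
  have hdFa : v (gAct F Ω Y a - gAct F Ω Y' a) ≤ v (ℓ : Ω) ^ (n ^ 2 + 1) * D := by
    have : gAct F Ω Y a - gAct F Ω Y' a =
        (ℓ : Ω) ^ (n ^ 2 + 1) * (aeval Y Ra - aeval Y' Ra) := by
      rw [hFaY, hFaY']
      ring
    rw [this, map_mul, map_pow]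
    exact mul_le_mul' le_rfl hRa3
  -- `Y b` and `Y' b` are close
  have hYbb : v (Y b - Y' b) ≤ v (ℓ : Ω) := by
    set j : Fin n := ⟨jj a.val b.val, jj_lt hn _ _⟩ with hj
    have r1 := row_jj hq hl1 hF hab hY j rfl
    have r2 := row_jj hq hl1 hF hab hY' j rfl
    have h3 := heq j
    have hpos : 0 < v (ℓ : Ω) ^ (2 * n ^ 2) := zero_lt_iff.2 (pow_ne_zero _ hlm0)
    have hkey : v ((ℓ : Ω) ^ (2 * n ^ 2) * (Y b - Y' b)) ≤ v (ℓ : Ω) ^ (2 * n ^ 2 + 1) := by
      have e : (ℓ : Ω) ^ (2 * n ^ 2) * (Y b - Y' b) =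
          ((gAct F Ω Y' j - (ℓ : Ω) ^ (2 * n ^ 2) * Y' b) -
            (gAct F Ω Y j - (ℓ : Ω) ^ (2 * n ^ 2) * Y b)) +
          (gAct F Ω Y' j * ((ℓ : Ω) ^ (n ^ 2 + 1) * aeval Y Ra) -
            gAct F Ω Y j * ((ℓ : Ω) ^ (n ^ 2 + 1) * aeval Y' Ra)) := by
        rw [hFaY, hFaY'] at h3
        linear_combination -h3
      have hja : j ≠ a := fun h => (jj_ne a.val b.val hab).1 (congrArg Fin.val h)
      have hjb : j ≠ b := fun h => (jj_ne a.val b.val hab).2 (congrArg Fin.val h)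
      have hp : v (ℓ : Ω) ^ (2 * n ^ 2) * v (ℓ : Ω) ^ (n ^ 2 + 1) ≤
          v (ℓ : Ω) ^ (2 * n ^ 2 + 1) := by
        rw [← pow_add]
        exact pow_le_pow_right_of_le_one' hl1 (by omega)
      rw [e]
      apply v.map_add_le
      · exact v.map_sub_le r2 r1
      · apply v.map_sub_le
        · rw [map_mul]
          exact (mul_le_mul' (row_off hq hl1 hF hY' j hja hjb) hsm).trans hp
        · rw [map_mul]
          exact (mul_le_mul' (row_off hq hl1 hF hY j hja hjb) hsm').trans hp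
    rw [map_mul, map_pow, pow_succ (v (ℓ : Ω)) (2 * n ^ 2)] at hkey
    exact le_of_mul_le_mul_left hkey hpos
  by_cases hja : jm = a
  · -- the maximum is not at `a`
    have : D = 0 := by
      rw [hDdef, hja, hYa, hY'a, sub_self, map_zero]
    exact hD0 this
  by_cases hjb : jm = b
  · -- nor at `b`
    obtain ⟨Rb, ⟨hRb1, hRb2, hRb3⟩, hFb⟩ := row_gen hF hl1 (hY.le_one hl1) (hY'.le_one hl1) hD b
    have hFbY : ∀ Z : Fin n → Ω, gAct F Ω Z b = Z b ^ q + (ℓ : Ω) ^ (n ^ 2 + 1) * aeval Z Rb := by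
      intro Z
      unfold gAct
      rw [hFb, map_add, map_pow, aeval_X, map_mul, aeval_C, map_pow, map_natCast]
    have h3 := heq b
    -- the difference of the `q`-th powers
    have hvFb : v (gAct F Ω Y b) ≤ 1 := by
      rw [hFbY]
      apply v.map_add_le
      · rw [map_pow]
        exact pow_le_one' hYb _
      · rw [map_mul, map_pow]
        exact mul_le_one' hln.le hRb1
    have h4 : v (gAct F Ω Y b - gAct F Ω Y' b) ≤ v (ℓ : Ω) ^ (n ^ 2 + 1) * D := by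
      have e : (gAct F Ω Y b - gAct F Ω Y' b) * gAct F Ω Y a =
          gAct F Ω Y b * (gAct F Ω Y a - gAct F Ω Y' a) := by
        linear_combination -h3
      have e2 := congrArg v e
      rw [map_mul, map_mul, hvFa, mul_one] at e2
      rw [e2]
      calc _ ≤ 1 * (v (ℓ : Ω) ^ (n ^ 2 + 1) * D) := mul_le_mul' hvFb hdFa
        _ = _ := one_mul _
    have h5 : v (Y b ^ q - Y' b ^ q) ≤ v (ℓ : Ω) ^ (n ^ 2 + 1) * D := by
      have e : Y b ^ q - Y' b ^ q = (gAct F Ω Y b - gAct F Ω Y' b) -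
          (ℓ : Ω) ^ (n ^ 2 + 1) * (aeval Y Rb - aeval Y' Rb) := by
        rw [hFbY, hFbY]
        ring
      rw [e]
      apply v.map_sub_le h4
      rw [map_mul, map_pow]
      exact mul_le_mul' le_rfl hRb3
    -- the derivative
    have h6 : v (∑ i ∈ Finset.range q, Y b ^ i * Y' b ^ (q - 1 - i)) = 1 := by
      have e : ∑ i ∈ Finset.range q, Y b ^ i * Y' b ^ (q - 1 - i) =
          (q : Ω) * Y b ^ (q - 1) +
          ∑ i ∈ Finset.range q, Y b ^ i * (Y' b ^ (q - 1 - i) - Y b ^ (q - 1 - i)) := by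
        have : (q : Ω) * Y b ^ (q - 1) =
            ∑ i ∈ Finset.range q, Y b ^ i * Y b ^ (q - 1 - i) := by
          have : ∀ i ∈ Finset.range q, Y b ^ i * Y b ^ (q - 1 - i) = Y b ^ (q - 1) := by
            intro i hi
            rw [← pow_add]
            congr 1
            have := Finset.mem_range.1 hi
            omega
          rw [Finset.sum_congr rfl this, Finset.sum_const, Finset.card_range, nsmul_eq_mul]
        rw [this, ← Finset.sum_add_distrib]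
        refine Finset.sum_congr rfl fun i _ => ?_
        ring
      have hlead : v ((q : Ω) * Y b ^ (q - 1)) = 1 := by
        rw [map_mul, map_pow, hvYb, one_pow, mul_one]
        exact hvq
      have hrest : v (∑ i ∈ Finset.range q,
          Y b ^ i * (Y' b ^ (q - 1 - i) - Y b ^ (q - 1 - i))) < 1 := by
        refine lt_of_le_of_lt (v.map_sum_le (g := v (ℓ : Ω)) fun i _ => ?_) hl
        rw [map_mul]
        have hx : v (Y' b ^ (q - 1 - i) - Y b ^ (q - 1 - i)) ≤ v (ℓ : Ω) := by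
          rw [Valuation.map_sub_swap]
          have hm : (X b : MvPolynomial (Fin n) E) ∈ lipS E v Y Y' (v (ℓ : Ω)) :=
            X_mem b hYb hY'b hYbb
          have := (Subring.pow_mem _ hm (q - 1 - i)).2.2
          simpa only [map_pow, aeval_X] using this
        calc _ ≤ 1 * v (ℓ : Ω) := by
              refine mul_le_mul' ?_ hx
              rw [map_pow]
              exact pow_le_one' hYb _
          _ = _ := one_mul _
      rw [e, Valuation.map_add_eq_of_lt_left v (by rw [hlead]; exact hrest), hlead]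
    have h7 : v (Y b ^ q - Y' b ^ q) = v (Y b - Y' b) := by
      have e := (Commute.all (Y b) (Y' b)).geom_sum₂_mul q
      rw [← e, map_mul, h6, one_mul]
    have h8 : D ≤ v (ℓ : Ω) ^ (n ^ 2 + 1) * D := by
      calc D = v (Y b - Y' b) := by rw [hDdef, hjb]
        _ = v (Y b ^ q - Y' b ^ q) := h7.symm
        _ ≤ _ := h5
    exact absurd h8 (not_le.2 (hDlt _ (by omega)))
  · -- nor off `a`, `b`
    have hne : a ≠ b := ne_of_lt hab
    have r := row_diff hq hl1 hF hne hY hY' hD jm hja hjb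
    have h3 := heq jm
    have h4 : v (gAct F Ω Y jm - gAct F Ω Y' jm) ≤ v (ℓ : Ω) ^ (2 * n ^ 2) * D := by
      have e : (gAct F Ω Y jm - gAct F Ω Y' jm) * gAct F Ω Y a =
          gAct F Ω Y jm * (gAct F Ω Y a - gAct F Ω Y' a) := by
        linear_combination -h3
      have e2 := congrArg v e
      rw [map_mul, map_mul, hvFa, mul_one] at e2
      rw [e2]
      calc _ ≤ v (ℓ : Ω) ^ (2 * n ^ 2) * (1 * D) := by
            refine mul_le_mul' (row_off hq hl1 hF hY jm hja hjb) (hdFa.trans ?_)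
            exact mul_le_mul' hln.le le_rfl
        _ = _ := by rw [one_mul]
    have h5 : v ((Y jm - Y' jm) * ((ℓ : Ω) ^ ex jm a + (ℓ : Ω) ^ ex jm b * Y b ^ (q - 1))) ≤
        v (ℓ : Ω) ^ (2 * n ^ 2) * D := by
      have e : (Y jm - Y' jm) * ((ℓ : Ω) ^ ex jm a + (ℓ : Ω) ^ ex jm b * Y b ^ (q - 1)) =
          (gAct F Ω Y jm - gAct F Ω Y' jm) - (gAct F Ω Y jm - gAct F Ω Y' jm -
      (Y jm - Y' jm) * ((ℓ : Ω) ^ ex jm a + (ℓ : Ω) ^ ex jm b * Y b ^ (q - 1))) := by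
        ring
      rw [e]
      exact v.map_sub_le h4 r
    -- the linear coefficient
    have hva : v ((ℓ : Ω) ^ ex jm a) = v (ℓ : Ω) ^ ex jm a := map_pow _ _ _
    have hvb : v ((ℓ : Ω) ^ ex jm b * Y b ^ (q - 1)) = v (ℓ : Ω) ^ ex jm b := by
      rw [map_mul, map_pow, map_pow, hvYb, one_pow, mul_one]
    have hexne : ex jm a ≠ ex jm b := fun h => hne (TcoreAux.ex_inj h)
    have hstrict : ∀ e e' : ℕ, e < e' → v (ℓ : Ω) ^ e' < v (ℓ : Ω) ^ e := by
      intro e e' h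
      exact pow_lt_pow_right_of_lt_one₀ (zero_lt_iff.2 hlm0) hl h
    have hbig : v (ℓ : Ω) ^ (2 * n ^ 2 - 1) ≤
        v ((ℓ : Ω) ^ ex jm a + (ℓ : Ω) ^ ex jm b * Y b ^ (q - 1)) := by
      have ha' := TcoreAux.ex_le jm a
      have hb' := TcoreAux.ex_le jm b
      rcases lt_or_gt_of_ne hexne with h | h
      · rw [Valuation.map_add_eq_of_lt_left v (by rw [hva, hvb]; exact hstrict _ _ h), hva]
        exact pow_le_pow_right_of_le_one' hl1 (by omega)
      · rw [Valuation.map_add_eq_of_lt_right v (by rw [hva, hvb]; exact hstrict _ _ h), hvb]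
        exact pow_le_pow_right_of_le_one' hl1 (by omega)
    rw [map_mul] at h5
    have h6 : D * v (ℓ : Ω) ^ (2 * n ^ 2 - 1) ≤ v (ℓ : Ω) ^ (2 * n ^ 2) * D :=
      (mul_le_mul' le_rfl hbig).trans h5
    have h7 : v (ℓ : Ω) ^ (2 * n ^ 2) * D = D * v (ℓ : Ω) ^ (2 * n ^ 2 - 1) * v (ℓ : Ω) := by
      rw [mul_assoc, ← pow_succ, Nat.sub_add_cancel (by omega), mul_comm]
    rw [h7] at h6
    have hpos : 0 < D * v (ℓ : Ω) ^ (2 * n ^ 2 - 1) :=
      mul_pos hDpos (zero_lt_iff.2 (pow_ne_zero _ hlm0))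
    have h8 : D * v (ℓ : Ω) ^ (2 * n ^ 2 - 1) * v (ℓ : Ω) <
        D * v (ℓ : Ω) ^ (2 * n ^ 2 - 1) * 1 := mul_lt_mul_of_pos_left hl hpos
    rw [mul_one] at h8
    exact absurd h6 (not_le.2 h8)

end Pool.DynLehmer.FN
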