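import Mathlib
import Pool.Agent.Lib.MP_2194ec_nt.FN.Final
import Pool.Agent.Lib.MP_2194ec_nt.FN.Noper
import Pool.Agent.Lib.MP_2194ec_nt.FN.Aut
import Pool.Agent.Lib.MP_2194ec_nt.FN.CHEV
import Pool.Agent.Lib.MP_2194ec_nt.FN.Cls
import Pool.Agent.Lib.MP_2194ec_nt.FN.Comt
import Pool.Agent.Lib.MP_2194ec_nt.FN.Coset
import Pool.Agent.Lib.MP_2194ec_nt.FN.Degb
import Pool.Agent.Lib.MP_2194ec_nt.FN.Degf
import Pool.Agent.Lib.MP_2194ec_nt.FN.Dist
import Pool.Agent.Lib.MP_2194ec_nt.FN.Expw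
import Pool.Agent.Lib.MP_2194ec_nt.FN.Fixf
import Pool.Agent.Lib.MP_2194ec_nt.FN.Hfo
import Pool.Agent.Lib.MP_2194ec_nt.FN.Hwe
import Pool.Agent.Lib.MP_2194ec_nt.FN.Hwq
import Pool.Agent.Lib.MP_2194ec_nt.FN.Iter
import Pool.Agent.Lib.MP_2194ec_nt.FN.Lac
import Pool.Agent.Lib.MP_2194ec_nt.FN.Lac0
import Pool.Agent.Lib.MP_2194ec_nt.FN.Lemw
import Pool.Agent.Lib.MP_2194ec_nt.FN.Obd
import Pool.Agent.Lib.MP_2194ec_nt.FN.Ofin
import Pool.Agent.Lib.MP_2194ec_nt.FN.Ostep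
import Pool.Agent.Lib.MP_2194ec_nt.FN.Pair
import Pool.Agent.Lib.MP_2194ec_nt.FN.Place
import Pool.Agent.Lib.MP_2194ec_nt.FN.Plca
import Pool.Agent.Lib.MP_2194ec_nt.FN.Red1
import Pool.Agent.Lib.MP_2194ec_nt.FN.Redp
import Pool.Agent.Lib.MP_2194ec_nt.FN.Relw
import Pool.Agent.Lib.MP_2194ec_nt.FN.Resq
import Pool.Agent.Lib.MP_2194ec_nt.FN.Slope
import Pool.Agent.Lib.MP_2194ec_nt.FN.Tcore
import Pool.Agent.Lib.MP_2194ec_nt.FN.Tfin
import Pool.Agent.Lib.MP_2194ec_nt.FN.Vgrp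

set_option autoImplicit false

/-!
# FAM_N: all modules together
-/

namespace Pool.DynLehmer.FN
open MvPolynomial NumberField Pool.DynLehmer Pool.DynLehmer.SB
open scoped Classical

theorem placeStatement : PlaceStatement := place red1 pair chev vgrp plca relw

theorem ofinStatement : OfinStatement :=
  ofin relw (lac aut degb) (redr redp) iter (obd (lac0 aut) (redr redp) dist iter) (ostep expw)
    lemw resq

theorem tfinStatement : TfinStatement :=
  tfin relw degf redp resq small slope (goodr resq) tcore fixf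

theorem noperStatement : NoperStatement :=
  noper hwq hwe hfo relw placeStatement (coset aut) comt ofinStatement redp small resq
    tfinStatement

end Pool.DynLehmer.FN
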