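import Pool.Agent.Lib.MP_2194ec_nt.FN.Iface

set_option autoImplicit false

/-!
# EXPW (helper62)
-/

namespace Pool.DynLehmer.FN

namespace ExpwAux

variable {Ω Γ : Type} [Field Ω] [LinearOrderedCommGroupWithZero Γ] (v : Valuation Ω Γ)

theorem nat_le (n : ℕ) : v (n : Ω) ≤ 1 := by
  induction n with
  | zero => simp
  | succ n ih =>
    push_cast
    exact v.map_add_le ih (by rw [v.map_one])

theorem le_one {η : Ω} (h : v η < 1) : v (1 + η) ≤ 1 := v.map_add_le (by rw [v.map_one]) h.le

theorem eq_one {η : Ω} (h : v η < 1) : v (1 + η) = 1 := v.map_one_add_of_lt h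

theorem pow_nat {η : Ω} (h : v η ≤ 1) (n : ℕ) : v ((1 + η) ^ n - 1 - n * η) ≤ v η ^ 2 := by
  induction n with
  | zero => simp
  | succ n ih =>
    have e : (1 + η) ^ (n + 1) - 1 - ((n + 1 : ℕ) : Ω) * η =
        ((1 + η) ^ n - 1 - n * η) * (1 + η) + n * η ^ 2 := by
      push_cast
      ring
    rw [e]
    refine v.map_add_le ?_ ?_
    · rw [v.map_mul]
      exact (mul_le_of_le_one_right' (v.map_add_le (by rw [v.map_one]) h)).trans ih
    · rw [v.map_mul, v.map_pow]
      exact mul_le_of_le_one_left' (nat_le v n)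

end ExpwAux

open ExpwAux in
/-- **EXPW** -/
theorem expw : ExpwStatement := by
  intro Ω Γ _ _ v η w hη
  obtain ⟨n, rfl | rfl⟩ := w.eq_nat_or_neg
  · rw [zpow_natCast]
    have := pow_nat v hη.le n
    push_cast
    exact this
  · have h1 : v (1 + η) = 1 := eq_one v hη
    have hne : 1 + η ≠ 0 := by
      intro h0
      rw [h0, v.map_zero] at h1
      exact zero_ne_one h1
    obtain ⟨δ, hδ⟩ : ∃ δ, δ = (1 + η)⁻¹ - 1 := ⟨_, rfl⟩
    have hδe : δ + η = η ^ 2 / (1 + η) := by
      rw [hδ]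
      field_simp
      ring
    have hδm : δ = -(η / (1 + η)) := by
      rw [hδ]
      field_simp
      ring
    have hδv : v δ = v η := by
      rw [hδm, Valuation.map_neg, map_div₀, h1, div_one]
    have h2 : (1 + η) ^ (-(n : ℤ)) = (1 + δ) ^ n := by
      rw [zpow_neg, zpow_natCast, hδ, ← inv_pow]
      congr 1
      ring
    have e : (1 + η) ^ (-(n : ℤ)) - 1 - ((-(n : ℤ) : ℤ) : Ω) * η =
        ((1 + δ) ^ n - 1 - n * δ) + n * (δ + η) := by
      rw [h2]
      push_cast
      ring
    rw [e]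
    refine v.map_add_le ?_ ?_
    · have := pow_nat v (η := δ) (by rw [hδv]; exact hη.le) n
      rwa [hδv] at this
    · rw [v.map_mul, hδe, map_div₀, h1, div_one, v.map_pow]
      exact mul_le_of_le_one_left' (nat_le v n)

end Pool.DynLehmer.FN
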