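import Pool.Agent.Lib.MP_2194ec_nt.FN.Iface

set_option autoImplicit false

/-!
# Module OSTEP (helper72): one step for a character
-/

namespace Pool.DynLehmer.FN
open MvPolynomial NumberField Pool.DynLehmer Pool.DynLehmer.SB
open scoped Classical

namespace OstepAux

section

variable {E Ω Γ : Type} [Field E] [Field Ω] [Algebra E Ω] [LinearOrderedCommGroupWithZero Γ]
  (v : Valuation Ω Γ)

theorem nat_le (n : ℕ) : v (n : Ω) ≤ 1 := by
  induction n with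
  | zero => simp
  | succ n ih =>
    push_cast
    exact v.map_add_le ih (by rw [v.map_one])

theorem int_le (w : ℤ) : v (w : Ω) ≤ 1 := by
  obtain ⟨n, rfl | rfl⟩ := w.eq_nat_or_neg
  · simpa using nat_le v n
  · push_cast
    rw [Valuation.map_neg]
    exact nat_le v n

theorem aeval_le {ι : Type} [Fintype ι] {x : ι → Ω} (hx : ∀ j, v (x j) ≤ 1)
    {G : MvPolynomial ι E} (hG : ∀ t, v (algebraMap E Ω (coeff t G)) ≤ 1) :
    v (aeval x G) ≤ 1 := by
  rw [aeval_def, eval₂_eq']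
  refine v.map_sum_le fun t _ => ?_
  rw [v.map_mul, map_prod]
  refine mul_le_one' (hG t) (Finset.prod_le_one' fun i _ => ?_)
  rw [v.map_pow]
  exact pow_le_one' (hx i) _

/-- products of numbers close to one -/
theorem prod_one_add {ι : Type} (s : Finset ι) (a : ι → Ω) {γ : Γ} (hγ : γ ≤ 1)
    (h : ∀ i ∈ s, v (a i) ≤ γ) :
    v (∏ i ∈ s, (1 + a i) - (1 + ∑ i ∈ s, a i)) ≤ γ ^ 2 ∧
      v (∏ i ∈ s, (1 + a i) - 1) ≤ γ := by
  induction s using Finset.induction_on with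
  | empty => simp
  | insert i s hi ih =>
    obtain ⟨h1, h2⟩ := ih fun j hj => h j (Finset.mem_insert_of_mem hj)
    have h3 := h i (Finset.mem_insert_self i s)
    rw [Finset.prod_insert hi, Finset.sum_insert hi]
    constructor
    · have e : (1 + a i) * ∏ j ∈ s, (1 + a j) - (1 + (a i + ∑ j ∈ s, a j)) =
          (∏ j ∈ s, (1 + a j) - (1 + ∑ j ∈ s, a j)) + a i * (∏ j ∈ s, (1 + a j) - 1) := by
        ring
      rw [e]
      refine v.map_add_le h1 ?_
      rw [v.map_mul, sq]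
      exact mul_le_mul' h3 h2
    · have e : (1 + a i) * ∏ j ∈ s, (1 + a j) - 1 =
          (∏ j ∈ s, (1 + a j) - 1) + a i * (1 + (∏ j ∈ s, (1 + a j) - 1)) := by
        ring
      rw [e]
      refine v.map_add_le h2 ?_
      rw [v.map_mul]
      refine (mul_le_mul' h3 (v.map_add_le (by rw [v.map_one]) (h2.trans hγ))).trans ?_
      rw [mul_one]

end

section

variable {E Ω Γ : Type} [Field E] [Field Ω] [Algebra E Ω] [LinearOrderedCommGroupWithZero Γ]
  {v : Valuation Ω Γ} {n q ℓ : ℕ} {F : Fin n → MvPolynomial (Fin n) E}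

theorem gAct_eq (hF : Fam v n q ℓ F) (x : Fin n → Ω) (j : Fin n) :
    ∃ G : MvPolynomial (Fin n) E, (∀ t, v (algebraMap E Ω (coeff t G)) ≤ 1) ∧
      gAct F Ω x j = x j ^ q + ((∑ k ∈ Finset.univ.filter (fun k : Fin n => k ≠ j),
        (ℓ : Ω) ^ ex j k * (x j * x k ^ (q - 1))) +
        ∑ ab ∈ Finset.univ.filter (fun ab : Fin n × Fin n =>
          ab.1 < ab.2 ∧ jj ab.1.val ab.2.val = j.val),
        (ℓ : Ω) ^ (2 * n ^ 2) * (x ab.1 ^ (q - 1) * x ab.2)) +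
        (ℓ : Ω) ^ (2 * n ^ 2 + 1) * aeval x G := by
  obtain ⟨G, hG, hG2⟩ := hF.cong j
  refine ⟨G, hG, ?_⟩
  have hC : ∀ N : ℕ, aeval x (C ((ℓ : E) ^ N) : MvPolynomial (Fin n) E) = (ℓ : Ω) ^ N := by
    intro N
    rw [aeval_C, map_pow, map_natCast]
  unfold gAct
  rw [hG2]
  unfold per
  rw [map_add, map_add, map_add, map_sum, map_sum, map_mul, map_pow, aeval_X, hC]
  congr 2
  congr 1
  · refine Finset.sum_congr rfl fun k _ => ?_
    simp only [map_mul, map_pow, aeval_X, map_natCast]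
  · refine Finset.sum_congr rfl fun k _ => ?_
    simp only [map_mul, map_pow, aeval_X, map_natCast]

/-- the first order term -/
theorem eta (hq : 2 ≤ q) (hl : v (ℓ : Ω) < 1) (hF : Fam v n q ℓ F) {A : Finset (Fin n)}
    {x : Fin n → Ω} (hA : ∀ j ∈ A, v (x j) = 1)
    (hB : ∀ j ∉ A, v (x j) ≤ v (ℓ : Ω) ^ (2 * n ^ 2)) {j : Fin n} (hj : j ∈ A) :
    v (gAct F Ω x j / x j ^ q - 1 -
      ∑ k ∈ A.erase j, (ℓ : Ω) ^ ex j k * (x k / x j) ^ (q - 1)) ≤ v (ℓ : Ω) ^ (2 * n ^ 2) := by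
  have hL : v (ℓ : Ω) ^ (2 * n ^ 2) ≤ 1 := pow_le_one' hl.le _
  have hx : ∀ k, v (x k) ≤ 1 := by
    intro k
    by_cases hk : k ∈ A
    · exact (hA k hk).le
    · exact (hB k hk).trans hL
  have hxj : x j ≠ 0 := by
    intro h0
    have := hA j hj
    rw [h0, v.map_zero] at this
    exact zero_ne_one this
  obtain ⟨G, hG, e⟩ := gAct_eq hF x j
  have hset : (Finset.univ.filter (fun k : Fin n => k ≠ j)).filter (fun k => k ∈ A) =
      A.erase j := by
    ext k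
    simp only [Finset.mem_filter, Finset.mem_univ, true_and, Finset.mem_erase]
  have e2 := Finset.sum_filter_add_sum_filter_not (Finset.univ.filter (fun k : Fin n => k ≠ j))
    (fun k => k ∈ A) (fun k => (ℓ : Ω) ^ ex j k * (x j * x k ^ (q - 1)))
  rw [hset] at e2
  have hpow : x j ^ q = x j * x j ^ (q - 1) := by
    rw [← pow_succ', Nat.sub_add_cancel (by omega)]
  have e3 : ∑ k ∈ A.erase j, (ℓ : Ω) ^ ex j k * (x k / x j) ^ (q - 1) =
      (∑ k ∈ A.erase j, (ℓ : Ω) ^ ex j k * (x j * x k ^ (q - 1))) / x j ^ q := by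
    rw [Finset.sum_div]
    refine Finset.sum_congr rfl fun k _ => ?_
    rw [hpow, div_pow]
    field_simp
  have e4 : gAct F Ω x j / x j ^ q - 1 -
      ∑ k ∈ A.erase j, (ℓ : Ω) ^ ex j k * (x k / x j) ^ (q - 1) =
      ((∑ k ∈ (Finset.univ.filter (fun k : Fin n => k ≠ j)).filter (fun k => ¬ k ∈ A),
        (ℓ : Ω) ^ ex j k * (x j * x k ^ (q - 1))) +
      (∑ ab ∈ Finset.univ.filter (fun ab : Fin n × Fin n =>
          ab.1 < ab.2 ∧ jj ab.1.val ab.2.val = j.val),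
        (ℓ : Ω) ^ (2 * n ^ 2) * (x ab.1 ^ (q - 1) * x ab.2)) +
      (ℓ : Ω) ^ (2 * n ^ 2 + 1) * aeval x G) / x j ^ q := by
    rw [e3, e, ← e2]
    have hxq : x j ^ q ≠ 0 := pow_ne_zero _ hxj
    rw [eq_div_iff hxq, sub_mul, sub_mul, div_mul_cancel₀ _ hxq, div_mul_cancel₀ _ hxq]
    ring
  rw [e4, map_div₀, v.map_pow, hA j hj, one_pow, div_one]
  refine v.map_add_le (v.map_add_le (v.map_sum_le fun k hk => ?_) (v.map_sum_le fun k _ => ?_)) ?_
  · have hkA : k ∉ A := (Finset.mem_filter.1 hk).2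
    rw [v.map_mul, v.map_mul, v.map_pow, v.map_pow]
    have h1 : v (x k) ^ (q - 1) ≤ v (ℓ : Ω) ^ (2 * n ^ 2) := by
      refine (pow_le_pow_right_of_le_one' (hx k) (by omega : 1 ≤ q - 1)).trans ?_
      rw [pow_one]
      exact hB k hkA
    refine mul_le_of_le_one_of_le (pow_le_one' hl.le _) (mul_le_of_le_one_of_le (hx j) h1)
  · rw [v.map_mul, v.map_pow, v.map_mul, v.map_pow]
    exact mul_le_of_le_of_le_one le_rfl (mul_le_one' (pow_le_one' (hx _) _) (hx _))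
  · rw [v.map_mul, v.map_pow]
    refine mul_le_of_le_of_le_one ?_ (aeval_le v hx hG)
    exact pow_le_pow_right_of_le_one' hl.le (by omega)

end

end OstepAux

open OstepAux

/-- **OSTEP** -/
theorem ostep (hexp : ExpwStatement) : OstepStatement := by
  intro E Ω Γ _ _ _ _ v n q ℓ F _ hq hl hF A x w hA hB
  have hL1 : v (ℓ : Ω) ^ n ^ 2 ≤ 1 := pow_le_one' hl.le _
  have hL2 : (v (ℓ : Ω) ^ n ^ 2) ^ 2 = v (ℓ : Ω) ^ (2 * n ^ 2) := by
    rw [← pow_mul, mul_comm]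
  have hL3 : v (ℓ : Ω) ^ (2 * n ^ 2) ≤ v (ℓ : Ω) ^ n ^ 2 :=
    pow_le_pow_right_of_le_one' hl.le (by omega)
  obtain ⟨S, hS⟩ : ∃ S : Fin n → Ω, S = fun j =>
    ∑ k ∈ A.erase j, (ℓ : Ω) ^ ex j k * (x k / x j) ^ (q - 1) := ⟨_, rfl⟩
  obtain ⟨η, hη⟩ : ∃ η : Fin n → Ω, η = fun j => gAct F Ω x j / x j ^ q - 1 := ⟨_, rfl⟩
  have h1 : ∀ j ∈ A, v (η j - S j) ≤ v (ℓ : Ω) ^ (2 * n ^ 2) := by
    intro j hj
    rw [hη, hS]
    exact eta hq hl hF hA hB hj
  have h2 : ∀ j ∈ A, v (S j) ≤ v (ℓ : Ω) ^ n ^ 2 := by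
    intro j hj
    rw [hS]
    refine v.map_sum_le fun k hk => ?_
    rw [v.map_mul, v.map_pow, v.map_pow, map_div₀, hA j hj, hA k (Finset.mem_of_mem_erase hk),
      div_one, one_pow, mul_one]
    refine pow_le_pow_right_of_le_one' hl.le ?_
    unfold ex
    omega
  have h3 : ∀ j ∈ A, v (η j) ≤ v (ℓ : Ω) ^ n ^ 2 := by
    intro j hj
    have e : η j = (η j - S j) + S j := by ring
    rw [e]
    exact v.map_add_le ((h1 j hj).trans hL3) (h2 j hj)
  have h3' : ∀ j ∈ A, v (η j) < 1 := by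
    intro j hj
    by_cases hn : n = 0
    · subst hn
      exact j.elim0
    · refine lt_of_le_of_lt (h3 j hj) ?_
      exact pow_lt_one' hl (by positivity)
  have h4 : ∀ j ∈ A, v ((1 + η j) ^ w j - 1 - w j * η j) ≤ v (ℓ : Ω) ^ (2 * n ^ 2) := by
    intro j hj
    refine (hexp Ω Γ v (η j) (w j) (h3' j hj)).trans ?_
    rw [← hL2]
    exact pow_le_pow_left' (h3 j hj) 2
  have h5 : ∀ j ∈ A, v ((1 + η j) ^ w j - 1) ≤ v (ℓ : Ω) ^ n ^ 2 := by
    intro j hj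
    have e : (1 + η j) ^ w j - 1 = ((1 + η j) ^ w j - 1 - w j * η j) + w j * η j := by ring
    rw [e]
    refine v.map_add_le ((h4 j hj).trans hL3) ?_
    rw [v.map_mul]
    exact mul_le_of_le_one_of_le (int_le v _) (h3 j hj)
  have h6 := (prod_one_add v A (fun j => (1 + η j) ^ w j - 1) hL1 h5).1
  have e1 : (∏ j ∈ A, gAct F Ω x j ^ w j) / (∏ j ∈ A, x j ^ w j) ^ q =
      ∏ j ∈ A, (1 + ((1 + η j) ^ w j - 1)) := by
    rw [← Finset.prod_pow, ← Finset.prod_div_distrib]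
    refine Finset.prod_congr rfl fun j _ => ?_
    rw [hη]
    have e2 : (x j ^ w j) ^ q = (x j ^ q) ^ w j := by
      rw [← zpow_natCast, ← zpow_natCast, ← zpow_mul, ← zpow_mul, mul_comm]
    rw [e2, ← div_zpow, add_sub_cancel, add_sub_cancel]
  rw [e1]
  have e3 : ∏ j ∈ A, (1 + ((1 + η j) ^ w j - 1)) -
      (1 + ∑ j ∈ A, ∑ k ∈ A.erase j, (w j : Ω) * (ℓ : Ω) ^ ex j k * (x k / x j) ^ (q - 1)) =
      (∏ j ∈ A, (1 + ((1 + η j) ^ w j - 1)) - (1 + ∑ j ∈ A, ((1 + η j) ^ w j - 1))) +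
      ∑ j ∈ A, (((1 + η j) ^ w j - 1 - w j * η j) + w j * (η j - S j)) := by
    have e4 : ∀ j, ∑ k ∈ A.erase j, (w j : Ω) * (ℓ : Ω) ^ ex j k * (x k / x j) ^ (q - 1) =
        w j * S j := by
      intro j
      rw [hS, Finset.mul_sum]
      exact Finset.sum_congr rfl fun k _ => mul_assoc _ _ _
    rw [Finset.sum_congr rfl fun j _ => e4 j]
    have e5 : ∑ j ∈ A, (((1 + η j) ^ w j - 1 - w j * η j) + w j * (η j - S j)) =
        ∑ j ∈ A, ((1 + η j) ^ w j - 1) - ∑ j ∈ A, w j * S j := by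
      rw [← Finset.sum_sub_distrib]
      exact Finset.sum_congr rfl fun j _ => by ring
    rw [e5]
    ring
  rw [e3]
  refine v.map_add_le (h6.trans hL2.le) (v.map_sum_le fun j hj => v.map_add_le (h4 j hj) ?_)
  rw [v.map_mul]
  exact mul_le_of_le_one_of_le (int_le v _) (h1 j hj)

end Pool.DynLehmer.FN
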