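import Mathlib
import Pool.Agent.Lib.MP_2194ec_nt.FN.Iface

set_option autoImplicit false

namespace Pool.DynLehmer.FN
open MvPolynomial NumberField Pool.DynLehmer Pool.DynLehmer.SB
open scoped Classical

/-- the value of `y` is a power of `L` up to torsion -/
def VgT {Γ : Type} [LinearOrderedCommGroupWithZero Γ] (L g : Γ) : Prop :=
  ∃ (m : ℕ) (b : ℤ), 0 < m ∧ g ^ m = L ^ b

theorem vg_alg {Ω Γ : Type} [Field Ω] [LinearOrderedCommGroupWithZero Γ] (v : Valuation Ω Γ)
    (L : Γ) (hL : L ≠ 0) {R : Type} [CommRing R] [Algebra R Ω]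
    (hinj : Function.Injective (algebraMap R Ω))
    (hR : ∀ r : R, r ≠ 0 → VgT L (v (algebraMap R Ω r))) {y : Ω} (hy : y ≠ 0)
    (ha : IsAlgebraic R y) : VgT L (v y) := by
  obtain ⟨p, hp, hpy⟩ := ha
  rw [Polynomial.aeval_eq_sum_range] at hpy
  have hne : ∀ i, p.coeff i ≠ 0 → v (p.coeff i • y ^ i) ≠ 0 := by
    intro i hi
    rw [Ne, map_eq_zero, Algebra.smul_def, mul_eq_zero, not_or]
    exact ⟨fun h => hi (hinj (by rw [h, map_zero])), pow_ne_zero _ hy⟩
  have hsum : ∑ i ∈ p.support, p.coeff i • y ^ i = 0 := by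
    rw [← hpy]
    refine Finset.sum_subset (fun i hi => ?_) (fun i _ hi => ?_)
    · rw [Finset.mem_range]
      exact Nat.lt_succ_of_le (Polynomial.le_natDegree_of_mem_supp i hi)
    · rw [Polynomial.notMem_support_iff] at hi
      rw [hi, zero_smul]
  obtain ⟨i₀, hi₀, hmax⟩ := Finset.exists_max_image p.support
    (fun i => v (p.coeff i • y ^ i)) (Polynomial.support_nonempty.2 hp)
  have hex : ∃ j ∈ p.support, j ≠ i₀ ∧ v (p.coeff j • y ^ j) = v (p.coeff i₀ • y ^ i₀) := by
    by_contra hcon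
    push Not at hcon
    have hlt : v (∑ i ∈ p.support.erase i₀, p.coeff i • y ^ i) < v (p.coeff i₀ • y ^ i₀) := by
      refine v.map_sum_lt (hne _ (Polynomial.mem_support_iff.1 hi₀)) fun i hi => ?_
      exact lt_of_le_of_ne (hmax i (Finset.mem_of_mem_erase hi))
        (hcon i (Finset.mem_of_mem_erase hi) (Finset.ne_of_mem_erase hi))
    rw [← Finset.add_sum_erase _ _ hi₀] at hsum
    have h1 : ∑ i ∈ p.support.erase i₀, p.coeff i • y ^ i = -(p.coeff i₀ • y ^ i₀) :=
      (neg_eq_of_add_eq_zero_right hsum).symm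
    rw [h1, v.map_neg] at hlt
    exact lt_irrefl _ hlt
  obtain ⟨j, hj, hji, hval⟩ := hex
  -- two terms with the same value
  have key : ∀ i j : ℕ, i < j → p.coeff i ≠ 0 → p.coeff j ≠ 0 →
      v (p.coeff j • y ^ j) = v (p.coeff i • y ^ i) → VgT L (v y) := by
    intro i j hij hi hj h
    obtain ⟨m1, b1, hm1, e1⟩ := hR _ hi
    obtain ⟨m2, b2, hm2, e2⟩ := hR _ hj
    have hvy : v y ≠ 0 := by rwa [Ne, map_eq_zero]
    have h3 : v (algebraMap R Ω (p.coeff j)) * v y ^ (j - i) =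
        v (algebraMap R Ω (p.coeff i)) := by
      rw [Algebra.smul_def, Algebra.smul_def, map_mul, map_mul, map_pow, map_pow] at h
      have hj2 : j = (j - i) + i := by omega
      have : v (algebraMap R Ω (p.coeff j)) * v y ^ (j - i) * v y ^ i =
          v (algebraMap R Ω (p.coeff i)) * v y ^ i := by
        rw [mul_assoc, ← pow_add, ← hj2, h]
      exact mul_right_cancel₀ (pow_ne_zero _ hvy) this
    refine ⟨(j - i) * (m1 * m2), b1 * m2 - b2 * m1, by
      have : 0 < j - i := by omega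
      positivity, ?_⟩
    have h4 := congrArg (fun g => g ^ (m1 * m2)) h3
    simp only [mul_pow] at h4
    have e3 : v (algebraMap R Ω (p.coeff j)) ^ (m1 * m2) = L ^ (b2 * m1) := by
      rw [mul_comm m1 m2, pow_mul, e2, zpow_mul, zpow_natCast]
    have e4 : v (algebraMap R Ω (p.coeff i)) ^ (m1 * m2) = L ^ (b1 * m2) := by
      rw [pow_mul, e1, zpow_mul, zpow_natCast]
    rw [e3, e4] at h4
    rw [pow_mul, zpow_sub₀ hL, eq_div_iff (zpow_ne_zero _ hL), mul_comm]
    exact h4
  rcases lt_or_gt_of_ne hji with hlt | hgt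
  · exact key j i₀ hlt (Polynomial.mem_support_iff.1 hj) (Polynomial.mem_support_iff.1 hi₀)
      hval.symm
  · exact key i₀ j hgt (Polynomial.mem_support_iff.1 hi₀) (Polynomial.mem_support_iff.1 hj) hval

theorem vgrp : VgrpStatement := by
  intro K _ _ Ω _ _ Γ _ v ℓ hℓ hvℓ α β hα hβ hP halg y hy
  have hcK : CharZero K := inferInstance
  have hcΩ : CharZero Ω := charZero_of_injective_algebraMap (algebraMap K Ω).injective
  have hℓ0 : (ℓ : Ω) ≠ 0 := by exact_mod_cast hℓ.ne_zero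
  have hL : v (ℓ : Ω) ≠ 0 := by rwa [Ne, map_eq_zero]
  -- the ring of polynomials
  let _ : Algebra (MvPolynomial (Fin 2) ℤ) Ω := (aeval (R := ℤ) ![α, β]).toRingHom.toAlgebra
  have hmap : ∀ P : MvPolynomial (Fin 2) ℤ, algebraMap (MvPolynomial (Fin 2) ℤ) Ω P =
      aeval ![α, β] P := fun _ => rfl
  have hval : ∀ P : MvPolynomial (Fin 2) ℤ, P ≠ 0 →
      ∃ b : ℕ, v (aeval ![α, β] P) = v (ℓ : Ω) ^ b := by
    intro P hP0
    have hfm : FiniteMultiplicity (C (ℓ : ℤ) : MvPolynomial (Fin 2) ℤ) P := by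
      refine FiniteMultiplicity.of_not_isUnit ?_ hP0
      rw [MvPolynomial.isUnit_iff_eq_C_of_isReduced]
      rintro ⟨r, hr, hr2⟩
      have : (ℓ : ℤ) = r := C_injective (Fin 2) ℤ hr2
      rw [← this, Int.isUnit_iff] at hr
      have := hℓ.one_lt
      omega
    obtain ⟨c, hc, hnd⟩ := hfm.exists_eq_pow_mul_and_not_dvd
    refine ⟨multiplicity (C (ℓ : ℤ) : MvPolynomial (Fin 2) ℤ) P, ?_⟩
    conv_lhs => rw [hc]
    rw [map_mul, map_pow, map_mul, map_pow]
    rw [C_dvd_iff_dvd_coeff] at hnd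
    push Not at hnd
    rw [hP c hnd, mul_one]
    simp
  have hinj : Function.Injective (algebraMap (MvPolynomial (Fin 2) ℤ) Ω) := by
    rw [injective_iff_map_eq_zero]
    intro P h0
    by_contra hP0
    obtain ⟨b, hb⟩ := hval P hP0
    rw [← hmap, h0, map_zero] at hb
    exact pow_ne_zero b hL hb.symm
  have hR1 : ∀ r : MvPolynomial (Fin 2) ℤ, r ≠ 0 →
      VgT (v (ℓ : Ω)) (v (algebraMap (MvPolynomial (Fin 2) ℤ) Ω r)) := by
    intro r hr
    obtain ⟨b, hb⟩ := hval r hr
    exact ⟨1, b, one_pos, by rw [pow_one, zpow_natCast]; exact hb⟩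
  have htow : IsScalarTower ℤ (MvPolynomial (Fin 2) ℤ) Ω := inferInstance
  -- elements of the number field
  have hKalg : ∀ c : K, IsAlgebraic (MvPolynomial (Fin 2) ℤ) (algebraMap K Ω c) := by
    intro c
    have h1 : IsAlgebraic ℚ c := Algebra.IsAlgebraic.isAlgebraic c
    have h2 : IsAlgebraic ℤ c := (IsFractionRing.isAlgebraic_iff ℤ ℚ K).2 h1
    have h3 : IsAlgebraic ℤ (algebraMap K Ω c) := h2.algebraMap
    exact h3.extendScalars (MvPolynomial.C_injective (Fin 2) ℤ)
  have hF : ∀ x ∈ IntermediateField.adjoin K {α, β},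
      IsAlgebraic (MvPolynomial (Fin 2) ℤ) x := by
    intro x hx
    refine IntermediateField.adjoin_induction K
      (p := fun x _ => IsAlgebraic (MvPolynomial (Fin 2) ℤ) x) ?_ hKalg ?_ ?_ ?_ hx
    · rintro x (rfl | rfl)
      · have : x = algebraMap (MvPolynomial (Fin 2) ℤ) Ω (X 0) := by rw [hmap]; simp
        rw [this]; exact isAlgebraic_algebraMap _
      · have : x = algebraMap (MvPolynomial (Fin 2) ℤ) Ω (X 1) := by rw [hmap]; simp
        rw [this]; exact isAlgebraic_algebraMap _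
    · intro a b _ _ ha hb; exact ha.add hb
    · intro a _ ha; exact ha.inv
    · intro a b _ _ ha hb; exact ha.mul hb
  refine vg_alg v (v (ℓ : Ω)) hL (R := IntermediateField.adjoin K {α, β})
    (fun a b hab => Subtype.ext hab) (fun r hr => ?_) hy (halg y)
  exact vg_alg v (v (ℓ : Ω)) hL hinj hR1
    (fun h => hr (Subtype.ext h)) (hF _ r.2)

end Pool.DynLehmer.FN
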